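import Pool.Agent.H64.Col.Defs
import Pool.Agent.H12.Nib.SN

/-! A8: the strong nibble theorem (proved in `Pool.Agent.H12.Nib`). -/

namespace H64.Col
open Finset

theorem a8_ld {X H : Type} [Fintype X] [DecidableEq X] [Fintype H] [DecidableEq H]
    (S : H → Finset X) (w : H → ℝ) (v : X) : Pool.Agent.H12.Nib.ld S w v = load S w v := by
  unfold Pool.Agent.H12.Nib.ld load
  rw [Finset.sum_filter]

theorem a8_cd {X H : Type} [Fintype X] [DecidableEq X] [Fintype H] [DecidableEq H]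
    (S : H → Finset X) (w : H → ℝ) (u v : X) : Pool.Agent.H12.Nib.cd S w u v = codeg S w u v := by
  unfold Pool.Agent.H12.Nib.cd codeg
  rw [Finset.sum_filter]

theorem a8_good {X H : Type} [Fintype X] [DecidableEq X] [Fintype H] [DecidableEq H]
    {S : H → Finset X} {w : H → ℝ} {k : ℕ} {δ : ℝ} (h : Good S w k δ) :
    Pool.Agent.H12.Nib.Good k δ S w :=
  ⟨h.ne, h.card_le, h.nonneg, fun v => by rw [a8_ld]; exact h.load_le v,
    fun u v huv => by rw [a8_cd]; exact h.codeg_le u v huv⟩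

theorem strong_nibble (k : ℕ) (hk : 1 ≤ k) (Φ ε : ℝ) (hΦ : 1 ≤ Φ) (hε : 0 < ε) :
    ∃ δ : ℝ, 0 < δ ∧ ∃ A : ℝ, 0 ≤ A ∧
    ∀ (X H : Type) [Fintype X] [DecidableEq X] [Fintype H] [DecidableEq H]
      (S : H → Finset X) (w : H → ℝ), Good S w k δ →
    ∀ (Λ : Type) [Fintype Λ] [Nonempty Λ] (f : Λ → H → ℝ), (∀ i e, 0 ≤ f i e ∧ f i e ≤ Φ) →
    ∃ M : Finset H, IsMatch S M ∧ (∀ e ∈ M, w e ≠ 0) ∧
      ∀ i, (1 - ε) * (∑ e, w e * f i e) - ε * (∑ e, w e)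
        - A * Real.sqrt ((∑ e, w e) + 1) * (1 + Real.log (Fintype.card Λ)) ≤ ∑ e ∈ M, f i e := by
  obtain ⟨δ, hδ, A, hA, h⟩ := Pool.Agent.H12.Nib.strong k hk Φ ε (by linarith) hε
  refine ⟨δ, hδ, A, hA, ?_⟩
  intro X H _ _ _ _ S w hG Λ _ _ f hf
  exact h X H S w (a8_good hG) Λ f hf

end H64.Col
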