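import Pool.Agent.H64.Col.Defs

set_option linter.unusedSectionVars false

/-! E2: sums over the rainbow sets `A` (`Finset.prod_add`), pointwise bounds, and facts on `op`. -/

namespace H64.Col
open Finset

variable {τ P κ : Type} [Fintype τ] [DecidableEq τ] [Fintype P] [DecidableEq P] [Nonempty P]

omit [Fintype P] [DecidableEq P] [Nonempty P] in
theorem dens_sum (L : LawData τ P κ) (ρ : τ) (ψ : τ → P) :
    ∑ A ∈ (L.D ρ).powerset, L.dens ρ ψ A = ∏ v ∈ L.D ρ, L.dt v ψ := by
  have h := Finset.prod_add (fun v => L.dr v ψ) (fun v => L.dt v ψ - L.dr v ψ) (L.D ρ)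
  simp only [add_sub_cancel] at h
  rw [h]
  rfl

omit [Fintype P] [DecidableEq P] [Nonempty P] in
theorem dens_sum_mem (L : LawData τ P κ) (ρ : τ) (ψ : τ → P) (v : τ) (hv : v ∈ L.D ρ) :
    ∑ A ∈ (L.D ρ).powerset.filter (fun A => v ∈ A), L.dens ρ ψ A =
      L.dr v ψ * ∏ u ∈ (L.D ρ).erase v, L.dt u ψ := by
  have h := Finset.prod_add (fun v => L.dr v ψ) (fun v => L.dt v ψ - L.dr v ψ) ((L.D ρ).erase v)
  simp only [add_sub_cancel] at h
  rw [h, Finset.mul_sum]
  refine Finset.sum_nbij' (fun A => A.erase v) (fun B => insert v B) ?_ ?_ ?_ ?_ ?_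
  · intro A hA
    rw [Finset.mem_filter, Finset.mem_powerset] at hA
    rw [Finset.mem_powerset]
    exact Finset.erase_subset_erase v hA.1
  · intro B hB
    rw [Finset.mem_powerset] at hB
    rw [Finset.mem_filter, Finset.mem_powerset]
    refine ⟨?_, Finset.mem_insert_self v B⟩
    intro x hx
    rcases Finset.mem_insert.mp hx with rfl | hx
    · exact hv
    · exact Finset.mem_of_mem_erase (hB hx)
  · intro A hA
    rw [Finset.mem_filter] at hA
    exact Finset.insert_erase hA.2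
  · intro B hB
    rw [Finset.mem_powerset] at hB
    exact Finset.erase_insert (fun hvB => (Finset.notMem_erase v _) (hB hvB))
  · intro A hA
    rw [Finset.mem_filter, Finset.mem_powerset] at hA
    have h1 : L.dens ρ ψ A = (∏ v ∈ A, L.dr v ψ) * ∏ v ∈ L.D ρ \ A, (L.dt v ψ - L.dr v ψ) := rfl
    have h2 : L.D ρ \ A = (L.D ρ).erase v \ A.erase v := by
      ext x
      simp only [Finset.mem_sdiff, Finset.mem_erase]
      constructor
      · rintro ⟨hx, hxA⟩
        refine ⟨⟨?_, hx⟩, fun h => hxA h.2⟩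
        rintro rfl
        exact hxA hA.2
      · rintro ⟨⟨hne, hx⟩, hxA⟩
        exact ⟨hx, fun h => hxA ⟨hne, h⟩⟩
    rw [h1, ← Finset.mul_prod_erase A _ hA.2, h2, mul_assoc]

omit [DecidableEq P] [Nonempty P] in
theorem dr_dt (L : LawData τ P κ) (K : ℕ) (C2 : ℝ) (h : L.OK K C2) (_hC : 1 ≤ C2) (v : τ)
    (ψ : τ → P) : 0 ≤ L.dr v ψ ∧ L.dr v ψ ≤ L.dt v ψ ∧ L.dt v ψ ≤ C2 := by
  unfold LawData.dr LawData.dt
  split_ifs with h1
  · exact ⟨h.gr_nonneg _ _, h.gr_le _ _, h.g_le _ _⟩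
  · exact ⟨le_min (h.W_nonneg _ _) zero_le_one, min_le_left _ _, h.W_le _ _⟩

omit [DecidableEq P] [Nonempty P] in
theorem dens_nonneg (L : LawData τ P κ) (K : ℕ) (C2 : ℝ) (h : L.OK K C2) (hC : 1 ≤ C2) (ρ : τ)
    (ψ : τ → P) (A : Finset τ) : 0 ≤ L.dens ρ ψ A := by
  unfold LawData.dens
  apply mul_nonneg
  · exact Finset.prod_nonneg (fun v _ => (dr_dt L K C2 h hC v ψ).1)
  · exact Finset.prod_nonneg (fun v _ => sub_nonneg.mpr (dr_dt L K C2 h hC v ψ).2.1)

omit [DecidableEq P] [Nonempty P] in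
theorem prod_dt_le (L : LawData τ P κ) (K : ℕ) (C2 : ℝ) (h : L.OK K C2) (hC : 1 ≤ C2) (ρ : τ)
    (ψ : τ → P) (S : Finset τ) (hS : S ⊆ L.D ρ) :
    0 ≤ ∏ v ∈ S, L.dt v ψ ∧ ∏ v ∈ S, L.dt v ψ ≤ C2 ^ K := by
  have h0 : ∀ v, 0 ≤ L.dt v ψ := fun v =>
    le_trans (dr_dt L K C2 h hC v ψ).1 (dr_dt L K C2 h hC v ψ).2.1
  refine ⟨Finset.prod_nonneg (fun v _ => h0 v), ?_⟩
  calc ∏ v ∈ S, L.dt v ψ ≤ ∏ _v ∈ S, C2 :=
        Finset.prod_le_prod (fun v _ => h0 v) (fun v _ => (dr_dt L K C2 h hC v ψ).2.2)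
    _ = C2 ^ S.card := by rw [Finset.prod_const]
    _ ≤ C2 ^ K := pow_le_pow_right₀ hC ((Finset.card_le_card hS).trans (h.card_D ρ))

omit [DecidableEq P] [Nonempty P] in
/-- the root of a free vertex is a root -/
theorem rho_mem_roots (L : LawData τ P κ) (K : ℕ) (C2 : ℝ) (h : L.OK K C2) (u : τ)
    (hu : u ∈ L.F) : L.rho u ∈ L.roots := by
  have key : ∀ n : ℕ, ∀ u ∈ L.F, L.lev u ≤ n → L.rho u ∈ L.roots := by
    intro n
    induction n with
    | zero =>
      intro u hu hn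
      have := h.lev_pos u hu
      omega
    | succ n ih =>
      intro u hu hn
      by_cases h1 : L.lev u = 1
      · rw [h.root u hu h1]
        exact Finset.mem_filter.mpr ⟨hu, h1⟩
      · obtain ⟨ha, hb, hc⟩ := h.step u hu h1
        rw [hc]
        exact ih _ ha (by omega)
  exact key _ u hu le_rfl

omit [DecidableEq P] [Nonempty P] in
theorem e2_avF_sum {ι : Type} (s : Finset ι) (f : ι → (τ → P) → ℝ) :
    avF (fun ψ => ∑ i ∈ s, f i ψ) = ∑ i ∈ s, avF (f i) := by
  unfold avF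
  rw [Finset.sum_comm, Finset.sum_div]

/-- summation over components and vertices of a component -/
theorem sum_roots_D (L : LawData τ P κ) (K : ℕ) (C2 : ℝ) (h : L.OK K C2) (Sl : Finset τ)
    (f : τ → τ → ℝ) :
    ∑ ρ ∈ L.roots, ∑ u ∈ L.D ρ ∩ Sl, f ρ u = ∑ u ∈ L.F ∩ Sl, f (L.rho u) u := by
  have hm : ∀ u ∈ L.F ∩ Sl, L.rho u ∈ L.roots := fun u hu =>
    rho_mem_roots L K C2 h u (Finset.mem_inter.mp hu).1
  rw [← Finset.sum_fiberwise_of_maps_to hm]
  apply Finset.sum_congr rfl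
  intro ρ _
  have hs : L.D ρ ∩ Sl = (L.F ∩ Sl).filter (fun u => L.rho u = ρ) := by
    ext x
    simp only [LawData.D, Finset.mem_inter, Finset.mem_filter]
    tauto
  rw [hs]
  apply Finset.sum_congr rfl
  intro u hu
  rw [(Finset.mem_filter.mp hu).2]

/-- the family of expectations of sums over vertices -/
theorem Ex_sum (L : LawData τ P κ) (K : ℕ) (C2 : ℝ) (h : L.OK K C2) (Sl : Finset τ)
    (b : τ → (τ → P) → ℝ) :
    L.Ex (fun ρ ψ _ => ∑ u ∈ L.D ρ ∩ Sl, b u ψ) =
      ∑ u ∈ L.F ∩ Sl, avF (fun ψ => (∏ v ∈ L.D (L.rho u), L.dt v ψ) * b u ψ) := by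
  unfold LawData.Ex
  rw [← sum_roots_D L K C2 h Sl (fun ρ u => avF (fun ψ => (∏ v ∈ L.D ρ, L.dt v ψ) * b u ψ))]
  apply Finset.sum_congr rfl
  intro ρ _
  rw [← e2_avF_sum]
  congr 1
  funext ψ
  rw [← Finset.sum_mul, dens_sum, Finset.mul_sum]

theorem Ex_card (L : LawData τ P κ) (K : ℕ) (C2 : ℝ) (h : L.OK K C2) :
    L.Ex (fun _ _ A => (A.card : ℝ)) =
      ∑ v ∈ L.F, avF (fun ψ => L.dr v ψ * ∏ u ∈ (L.D (L.rho v)).erase v, L.dt u ψ) := by
  unfold LawData.Ex
  have hr := sum_roots_D L K C2 h Finset.univ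
    (fun ρ v => avF (fun ψ => L.dr v ψ * ∏ u ∈ (L.D ρ).erase v, L.dt u ψ))
  simp only [Finset.inter_univ] at hr
  rw [← hr]
  apply Finset.sum_congr rfl
  intro ρ _
  rw [← e2_avF_sum]
  congr 1
  funext ψ
  have hcard : ∀ A ∈ (L.D ρ).powerset, L.dens ρ ψ A * (A.card : ℝ) =
      ∑ v ∈ L.D ρ, if v ∈ A then L.dens ρ ψ A else 0 := by
    intro A hA
    rw [Finset.mem_powerset] at hA
    rw [← Finset.sum_filter, Finset.filter_mem_eq_inter, Finset.inter_eq_right.mpr hA,
      Finset.sum_const, nsmul_eq_mul, mul_comm]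
  rw [Finset.sum_congr rfl hcard, Finset.sum_comm]
  apply Finset.sum_congr rfl
  intro v hv
  rw [← Finset.sum_filter, dens_sum_mem L ρ ψ v hv]

omit [DecidableEq P] [Nonempty P] in
theorem op_const (L : LawData τ P κ) (K : ℕ) (C2 : ℝ) (h : L.OK K C2) (a : ℝ) :
    op L.W (fun _ => a) = fun _ => a := by
  funext x
  have h1 := h.W_row x
  unfold op
  unfold avP at h1 ⊢
  rw [← Finset.sum_mul, mul_div_right_comm, h1, one_mul]

omit [DecidableEq P] [Nonempty P] in
theorem op_mono (L : LawData τ P κ) (K : ℕ) (C2 : ℝ) (h : L.OK K C2) (j : ℕ) {a b : P → ℝ}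
    (hab : ∀ x, a x ≤ b x) (x : P) : ((op L.W)^[j] a) x ≤ ((op L.W)^[j] b) x := by
  induction j generalizing x with
  | zero => exact hab x
  | succ j ih =>
    rw [Function.iterate_succ_apply', Function.iterate_succ_apply']
    unfold op avP
    apply div_le_div_of_nonneg_right _ (Nat.cast_nonneg _)
    apply Finset.sum_le_sum
    intro y _
    exact mul_le_mul_of_nonneg_left (ih y) (h.W_nonneg x y)

omit [Fintype τ] [DecidableEq τ] [DecidableEq P] [Nonempty P] in
theorem op_add_one (L : LawData τ P κ) (a b : P → ℝ) :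
    op L.W (fun x => a x + b x) = fun x => op L.W a x + op L.W b x := by
  funext x
  unfold op avP
  rw [← add_div, ← Finset.sum_add_distrib]
  congr 1
  apply Finset.sum_congr rfl
  intro y _
  ring

omit [Fintype τ] [DecidableEq τ] [DecidableEq P] [Nonempty P] in
theorem op_add (L : LawData τ P κ) (j : ℕ) (a b : P → ℝ) (x : P) :
    ((op L.W)^[j] (fun x => a x + b x)) x = ((op L.W)^[j] a) x + ((op L.W)^[j] b) x := by
  induction j generalizing a b with
  | zero => rfl
  | succ j ih =>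
    rw [Function.iterate_succ_apply, Function.iterate_succ_apply,
      Function.iterate_succ_apply, op_add_one, ih]

omit [Fintype τ] [DecidableEq τ] [DecidableEq P] [Nonempty P] in
theorem op_smul_one (L : LawData τ P κ) (r : ℝ) (a : P → ℝ) :
    op L.W (fun x => r * a x) = fun x => r * op L.W a x := by
  funext x
  unfold op avP
  rw [← mul_div_assoc, Finset.mul_sum]
  congr 1
  apply Finset.sum_congr rfl
  intro y _
  ring

omit [Fintype τ] [DecidableEq τ] [DecidableEq P] [Nonempty P] in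
theorem op_smul (L : LawData τ P κ) (j : ℕ) (r : ℝ) (a : P → ℝ) (x : P) :
    ((op L.W)^[j] (fun x => r * a x)) x = r * ((op L.W)^[j] a) x := by
  induction j generalizing a with
  | zero => rfl
  | succ j ih =>
    rw [Function.iterate_succ_apply, Function.iterate_succ_apply, op_smul_one, ih]

omit [DecidableEq P] [Nonempty P] in
theorem op_iter_const (L : LawData τ P κ) (K : ℕ) (C2 : ℝ) (h : L.OK K C2) (j : ℕ) (r : ℝ)
    (x : P) : ((op L.W)^[j] (fun _ => r)) x = r := by
  rw [Function.iterate_fixed (op_const L K C2 h r)]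

omit [DecidableEq P] [Nonempty P] in
theorem op_adj_one (L : LawData τ P κ) (K : ℕ) (C2 : ℝ) (h : L.OK K C2) (a b : P → ℝ) :
    avP (fun x => a x * (op L.W b) x) = avP (fun x => (op L.W a) x * b x) := by
  unfold op avP
  congr 1
  have h1 : ∀ x, a x * ((∑ y, L.W x y * b y) / (Fintype.card P : ℝ)) =
      ∑ y, a x * L.W x y * b y / (Fintype.card P : ℝ) := by
    intro x
    rw [← mul_div_assoc, Finset.mul_sum, Finset.sum_div]
    apply Finset.sum_congr rfl
    intro y _
    ring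
  have h2 : ∀ x, (∑ y, L.W x y * a y) / (Fintype.card P : ℝ) * b x =
      ∑ y, a y * L.W y x * b x / (Fintype.card P : ℝ) := by
    intro x
    rw [div_mul_eq_mul_div, Finset.sum_mul, Finset.sum_div]
    apply Finset.sum_congr rfl
    intro y _
    rw [h.W_symm x y]
    ring
  simp only [h1, h2]
  rw [Finset.sum_comm]

omit [DecidableEq P] [Nonempty P] in
/-- `op` is self-adjoint (symmetric kernel) -/
theorem op_adj (L : LawData τ P κ) (K : ℕ) (C2 : ℝ) (h : L.OK K C2) (j : ℕ) (a b : P → ℝ) :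
    avP (fun x => a x * ((op L.W)^[j] b) x) = avP (fun x => ((op L.W)^[j] a) x * b x) := by
  induction j generalizing a b with
  | zero => rfl
  | succ j ih =>
    have e1 : (op L.W)^[j + 1] b = (op L.W)^[j] (op L.W b) := Function.iterate_succ_apply _ _ _
    have e2 : (op L.W)^[j + 1] a = op L.W ((op L.W)^[j] a) := Function.iterate_succ_apply' _ _ _
    rw [e1, e2, ih, op_adj_one L K C2 h]

omit [DecidableEq P] [Nonempty P] in
theorem op_l1_one (L : LawData τ P κ) (K : ℕ) (C2 : ℝ) (h : L.OK K C2) (a : P → ℝ) :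
    ∑ x, |(op L.W a) x| ≤ ∑ x, |a x| := by
  have hc : (0 : ℝ) ≤ (Fintype.card P : ℝ) := Nat.cast_nonneg _
  calc ∑ x, |(op L.W a) x| ≤ ∑ x, (∑ y, L.W x y * |a y|) / (Fintype.card P : ℝ) := by
        apply Finset.sum_le_sum
        intro x _
        unfold op avP
        rw [abs_div, abs_of_nonneg hc]
        apply div_le_div_of_nonneg_right _ hc
        refine (Finset.abs_sum_le_sum_abs _ _).trans ?_
        apply Finset.sum_le_sum
        intro y _
        rw [abs_mul, abs_of_nonneg (h.W_nonneg x y)]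
    _ = ∑ y, |a y| * avP (fun x => L.W x y) := by
        unfold avP
        rw [← Finset.sum_div, Finset.sum_comm, Finset.sum_div]
        apply Finset.sum_congr rfl
        intro y _
        rw [← Finset.sum_mul, mul_comm, mul_div_assoc]
    _ = ∑ x, |a x| := by
        apply Finset.sum_congr rfl
        intro y _
        rw [h.W_col y, mul_one]

omit [DecidableEq P] [Nonempty P] in
/-- `op` is an `ℓ¹` contraction -/
theorem op_l1 (L : LawData τ P κ) (K : ℕ) (C2 : ℝ) (h : L.OK K C2) (j : ℕ) (a : P → ℝ) :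
    ∑ x, |((op L.W)^[j] a) x| ≤ ∑ x, |a x| := by
  induction j with
  | zero => exact le_rfl
  | succ j ih =>
    rw [Function.iterate_succ_apply']
    exact (op_l1_one L K C2 h _).trans ih

end H64.Col
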