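import Pool.Agent.H64.Col.Defs
import Pool.Agent.H64.Col.E4_Load
import Pool.Agent.H64.Col.E7_Bound

/-! E8_Setup: graph level definitions: the placed core, the law on the remaining positions. -/

namespace H64.Col
open Finset

variable {τ V κ : Type} [Fintype τ] [DecidableEq τ] [Fintype V] [DecidableEq V]
  [Fintype κ] [DecidableEq κ]

/-- roots of a decomposition -/
def Decomp.roots {T : SimpleGraph τ} {R : Rooted T} {K : ℕ} {e : ℝ} (Dc : Decomp T R K e) :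
    Finset τ := Dc.F.filter (fun v => Dc.lev v = 1)

open Classical in
/-- The placed core with the root densities. -/
structure Setup (G : SimpleGraph V) (χ : V → V → κ) {T : SimpleGraph τ} {R : Rooted T} {K : ℕ}
    {e : ℝ} (Dc : Decomp T R K e) (c Δ : ℝ) (Lf : Finset τ) where
  φ : τ → V
  q : τ → V → ℝ
  rb : τ → V → ℝ
  inj : Set.InjOn φ (Dc.C : Set τ)
  hom : ∀ s ∈ Dc.C, ∀ t ∈ Dc.C, T.Adj s t → G.Adj (φ s) (φ t)
  q_out : ∀ s, s ∉ Dc.C → ∀ y, q s y = 0 ∧ rb s y = 0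
  q_bd : ∀ s ∈ Dc.C, ∀ y, 0 ≤ rb s y ∧ rb s y ≤ q s y ∧
    q s y ≤ 1 / ((c - 1 / 2) * c * (Fintype.card V : ℝ))
  q_adj : ∀ s ∈ Dc.C, ∀ y, ¬ G.Adj (φ s) y → q s y = 0
  q_low : ∀ s ∈ Dc.C, ∀ y, G.Adj (φ s) y → (c - 1 / 2) / (Fintype.card V : ℝ) ≤ q s y
  q_sum : ∀ s ∈ Dc.C, ∑ y, q s y = 1
  lev2 : ∑ j ∈ range K, ∑ y, (∑ v ∈ Dc.F.filter (fun v => Dc.lev v = j + 1),
    (q (Dc.ref (Dc.rho v)) y - 1 / (Fintype.card V : ℝ))) ^ 2 ≤ 4 * (K * Δ) / ((c - 1 / 2) * c)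
  col2 : ∃ e' : κ → ℝ, (∀ k, 0 ≤ e' k ∧ e' k ≤ (Dc.roots.card : ℝ) / (Fintype.card V : ℝ)) ∧
    ∑ k, ((∑ ρ ∈ Dc.roots, ∑ y, if χ (φ (Dc.ref ρ)) y = k then rb (Dc.ref ρ) y else 0)
      - e' k) ^ 2 ≤ 4 * (K * Δ) / ((c - 1 / 2) * c)
  rb_tot : c * (Dc.roots.card : ℝ) - 2 * Real.sqrt (K * Δ * (Fintype.card V : ℝ)) ≤
    ∑ ρ ∈ Dc.roots, ∑ y, rb (Dc.ref ρ) y
  hit : ∀ x, c * (c - 1 / 2) / 2 * (Lf.card : ℝ) - 2 * Δ * Real.log (Fintype.card V) ≤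
    ∑ ρ ∈ Lf, if G.Adj (φ (Dc.ref ρ)) x then (1 : ℝ) else 0

/-- image of the core -/
def Setup.Z {G : SimpleGraph V} {χ : V → V → κ} {T : SimpleGraph τ} {R : Rooted T} {K : ℕ}
    {e : ℝ} {Dc : Decomp T R K e} {c Δ : ℝ} {Lf : Finset τ} (S : Setup G χ Dc c Δ Lf) : Finset V :=
  Dc.C.image S.φ

/-- the remaining positions -/
abbrev Setup.P {G : SimpleGraph V} {χ : V → V → κ} {T : SimpleGraph τ} {R : Rooted T} {K : ℕ}
    {e : ℝ} {Dc : Decomp T R K e} {c Δ : ℝ} {Lf : Finset τ} (S : Setup G χ Dc c Δ Lf) : Type :=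
  {y : V // y ∉ S.Z}

/-- a kernel on the remaining positions -/
structure Ker {G : SimpleGraph V} {χ : V → V → κ} {T : SimpleGraph τ} {R : Rooted T} {K : ℕ}
    {e : ℝ} {Dc : Decomp T R K e} {c Δ : ℝ} {Lf : Finset τ} (S : Setup G χ Dc c Δ Lf)
    (W : S.P → S.P → ℝ) : Prop where
  symm : ∀ x y, W x y = W y x
  zero : ∀ x y, ¬ G.Adj x.1 y.1 → W x y = 0
  low : ∀ x y, G.Adj x.1 y.1 → c - 1 / 2 ≤ W x y
  up : ∀ x y, W x y ≤ 1 + 2 / (c - 1 / 2)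
  row : ∀ x, avP (fun y => W x y) = 1
  cost : c - e ≤ avP (fun x => avP (fun y => min (W x y) 1))

/-- the law of the components -/
noncomputable def Setup.law {G : SimpleGraph V} {χ : V → V → κ} {T : SimpleGraph τ} {R : Rooted T}
    {K : ℕ} {e : ℝ} {Dc : Decomp T R K e} {c Δ : ℝ} {Lf : Finset τ} (S : Setup G χ Dc c Δ Lf)
    (W : S.P → S.P → ℝ) : LawData τ S.P κ where
  F := Dc.F
  ref := Dc.ref
  lev := Dc.lev
  rho := Dc.rho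
  W := W
  g := fun ρ y => (Fintype.card S.P : ℝ) * S.q (Dc.ref ρ) y.1
  gr := fun ρ y => (Fintype.card S.P : ℝ) * S.rb (Dc.ref ρ) y.1
  col := fun x y => χ x.1 y.1
  rcol := fun ρ y => χ (S.φ (Dc.ref ρ)) y.1

open Classical in
/-- neighbourhood of a vertex of `G` inside the remaining positions -/
noncomputable def Setup.nb {G : SimpleGraph V} {χ : V → V → κ} {T : SimpleGraph τ} {R : Rooted T}
    {K : ℕ} {e : ℝ} {Dc : Decomp T R K e} {c Δ : ℝ} {Lf : Finset τ} (S : Setup G χ Dc c Δ Lf)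
    (w : V) : Finset S.P := univ.filter (fun y => G.Adj w y.1)

end H64.Col
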