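import Pool.Agent.H64.Col.E8_Setup

/-! E8c: the conditions H1, H2, H3 for large `n`, with `ω j = #{v ∈ F : lev v = j+1}/n`.
H1: `(1/n') ∑ g = ∑ q`, Cauchy-Schwarz over `K n` pairs `(j,y)` and `lev2`.
H2: `(z)^+ ≤ (z + s)^2/(4s)` and `col2`. H3: proper colouring: at most `Δ` roots. -/

namespace H64.Col
open Finset

variable {τ V κ : Type} [Fintype τ] [DecidableEq τ] [Fintype V] [DecidableEq V]
  [Fintype κ] [DecidableEq κ] {G : SimpleGraph V} [DecidableRel G.Adj] {χ : V → V → κ}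
  {T : SimpleGraph τ} [DecidableRel T.Adj] {R : Rooted T} {K : ℕ} {e : ℝ} {Dc : Decomp T R K e}
  {c Δ : ℝ} {Lf : Finset τ}

/-- the level proportions -/
noncomputable def Decomp.om (Dc : Decomp T R K e) (j : ℕ) : ℝ :=
  ((Dc.F.filter (fun v => Dc.lev v = j + 1)).card : ℝ) / (Fintype.card τ : ℝ)

theorem om_sum (Dc : Decomp T R K e) :
    (∀ j, 0 ≤ Dc.om j) ∧ ∑ j ∈ range K, Dc.om j ≤ 1 := by
  refine ⟨fun j => by unfold Decomp.om; positivity, ?_⟩
  unfold Decomp.om
  rw [← Finset.sum_div]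
  have h1 : (∑ j ∈ range K, ((Dc.F.filter (fun v => Dc.lev v = j + 1)).card : ℝ)) ≤
      (Fintype.card τ : ℝ) := by
    have h2 : (∑ j ∈ range K, ((Dc.F.filter (fun v => Dc.lev v = j + 1)).card : ℝ)) =
        ∑ v ∈ Dc.F, ∑ j ∈ range K, (if Dc.lev v = j + 1 then (1 : ℝ) else 0) := by
      rw [Finset.sum_comm]
      refine Finset.sum_congr rfl fun j _ => ?_
      rw [Finset.card_filter]
      push_cast
      rfl
    rw [h2]
    have h3 : ∀ v ∈ Dc.F, ∑ j ∈ range K, (if Dc.lev v = j + 1 then (1 : ℝ) else 0) ≤ 1 := by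
      intro v _
      by_cases hv : Dc.lev v = 0
      · have : ∀ j ∈ range K, (if Dc.lev v = j + 1 then (1 : ℝ) else 0) = 0 := by
          intro j _
          rw [if_neg]
          omega
        rw [Finset.sum_congr rfl this]
        simp
      · have : ∀ j ∈ range K, (if Dc.lev v = j + 1 then (1 : ℝ) else 0) =
            if Dc.lev v - 1 = j then (1 : ℝ) else 0 := by
          intro j _
          by_cases hj : Dc.lev v = j + 1
          · rw [if_pos hj, if_pos (by omega)]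
          · rw [if_neg hj, if_neg (by omega)]
        rw [Finset.sum_congr rfl this, Finset.sum_ite_eq]
        split_ifs <;> norm_num
    calc _ ≤ ∑ v ∈ Dc.F, (1 : ℝ) := Finset.sum_le_sum h3
      _ = (Dc.F.card : ℝ) := by simp
      _ ≤ _ := by exact_mod_cast Finset.card_le_univ _
  rcases Nat.eq_zero_or_pos (Fintype.card τ) with h0 | h0
  · rw [h0]; simp
  · rw [div_le_one (by exact_mod_cast h0)]
    exact h1

theorem E8c_cardP (S : Setup G χ Dc c Δ Lf) (hc1 : c < 1)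
    (hcard : Fintype.card τ = Fintype.card V)
    (he1 : e ≤ (c - 1 / 2) / 4) :
    7 / 8 * (Fintype.card V : ℝ) ≤ (Fintype.card S.P : ℝ) := by
  have h1 : Fintype.card S.P = Fintype.card V - S.Z.card := by
    have := Fintype.card_subtype_compl (fun y => y ∈ S.Z)
    rw [Fintype.card_coe] at this
    convert this using 2
  have h2 : S.Z.card ≤ Dc.C.card := Finset.card_image_le
  have h3 : (Dc.C.card : ℝ) ≤ e * Fintype.card τ := Dc.card_C
  rw [hcard] at h3
  have h4 : S.Z.card ≤ Fintype.card V := Finset.card_le_univ _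
  rw [h1, Nat.cast_sub h4]
  have h5 : (S.Z.card : ℝ) ≤ Dc.C.card := by exact_mod_cast h2
  have h6 : (0 : ℝ) ≤ Fintype.card V := by positivity
  have h7 : e * (Fintype.card V : ℝ) ≤ 1 / 8 * (Fintype.card V : ℝ) :=
    mul_le_mul_of_nonneg_right (by linarith) h6
  linarith

theorem E8c_sumP (S : Setup G χ Dc c Δ Lf) (f : V → ℝ) (hf : ∀ y, 0 ≤ f y) :
    ∑ y : S.P, f y.1 ≤ ∑ y, f y := by
  have h1 : ∑ y : S.P, f y.1 = ∑ y ∈ univ.filter (fun y => y ∉ S.Z), f y := by
    rw [Finset.sum_subtype (univ.filter (fun y => y ∉ S.Z)) (p := fun y => y ∉ S.Z)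
      (fun x => by simp)]
  rw [h1]
  exact Finset.sum_le_univ_sum_of_nonneg hf

theorem law_H1 (S : Setup G χ Dc c Δ Lf) (hc : 1 / 2 < c) (hc1 : c < 1)
    (hcard : Fintype.card τ = Fintype.card V) (hn : 0 < Fintype.card V)
    (he : 0 ≤ e) (he1 : e ≤ (c - 1 / 2) / 4) (hΔ : 0 ≤ Δ) (W : S.P → S.P → ℝ) (σ : ℝ) (hσ : 0 < σ)
    (hs : 16 * (K : ℝ) ^ 2 * Δ / ((c - 1 / 2) * c) ≤ σ ^ 2 * (Fintype.card V : ℝ)) :
    (S.law W).H1 K Dc.om σ := by
  have hP := E8c_cardP S hc1 hcard he1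
  have hnR : (0 : ℝ) < Fintype.card V := by exact_mod_cast hn
  have hP0 : (0 : ℝ) < (Fintype.card S.P : ℝ) := by linarith
  have hα : 0 < (c - 1 / 2) * c := mul_pos (by linarith) (by linarith)
  unfold LawData.H1
  set a : ℕ → V → ℝ := fun j y => ∑ v ∈ Dc.F.filter (fun v => Dc.lev v = j + 1),
    (S.q (Dc.ref (Dc.rho v)) y - 1 / (Fintype.card V : ℝ)) with ha
  have key : ∀ j, ∀ y : S.P, (∑ v ∈ (S.law W).F.filter (fun v => (S.law W).lev v = j + 1),
      (S.law W).g ((S.law W).rho v) y) / (Fintype.card S.P : ℝ) - Dc.om j = a j y.1 := by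
    intro j y
    have e1 : (∑ v ∈ (S.law W).F.filter (fun v => (S.law W).lev v = j + 1),
      (S.law W).g ((S.law W).rho v) y) = (Fintype.card S.P : ℝ) *
        ∑ v ∈ Dc.F.filter (fun v => Dc.lev v = j + 1), S.q (Dc.ref (Dc.rho v)) y.1 := by
      rw [Finset.mul_sum]
      rfl
    rw [e1, mul_div_cancel_left₀ _ hP0.ne', ha]
    simp only
    rw [Finset.sum_sub_distrib]
    congr 1
    unfold Decomp.om
    rw [Finset.sum_const, nsmul_eq_mul, hcard]
    ring
  have e2 : ∑ j ∈ range K, ∑ y : S.P,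
      |(∑ v ∈ (S.law W).F.filter (fun v => (S.law W).lev v = j + 1),
      (S.law W).g ((S.law W).rho v) y) / (Fintype.card S.P : ℝ) - Dc.om j| =
      ∑ q ∈ range K ×ˢ (univ : Finset S.P), |a q.1 q.2.1| := by
    rw [Finset.sum_product]
    refine Finset.sum_congr rfl fun j _ => Finset.sum_congr rfl fun y _ => ?_
    rw [key]
  rw [e2]
  have cs := @sq_sum_le_card_mul_sum_sq (ℕ × S.P) ℝ _ _ _ _ (range K ×ˢ (univ : Finset S.P))
    (fun q => |a q.1 q.2.1|)
  have hcd : ((range K ×ˢ (univ : Finset S.P)).card : ℝ) = K * Fintype.card S.P := by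
    rw [Finset.card_product]
    simp
  have hq : ∑ q ∈ range K ×ˢ (univ : Finset S.P), |a q.1 q.2.1| ^ 2 ≤
      4 * (K * Δ) / ((c - 1 / 2) * c) := by
    refine le_trans ?_ S.lev2
    rw [Finset.sum_product]
    refine Finset.sum_le_sum fun j _ => ?_
    have := E8c_sumP S (fun y => (a j y) ^ 2) (fun y => sq_nonneg _)
    simpa only [sq_abs, ha] using this
  have h1 : (∑ q ∈ range K ×ˢ (univ : Finset S.P), |a q.1 q.2.1|) ^ 2 ≤
      (σ * Fintype.card S.P) ^ 2 := by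
    refine cs.trans ?_
    rw [hcd]
    have hK0 : (0 : ℝ) ≤ K := by positivity
    calc (K : ℝ) * Fintype.card S.P * ∑ q ∈ range K ×ˢ (univ : Finset S.P), |a q.1 q.2.1| ^ 2
        ≤ (K : ℝ) * Fintype.card S.P * (4 * (K * Δ) / ((c - 1 / 2) * c)) := by
          apply mul_le_mul_of_nonneg_left hq; positivity
      _ = Fintype.card S.P * (1 / 4 * (16 * (K : ℝ) ^ 2 * Δ / ((c - 1 / 2) * c))) := by ring
      _ ≤ Fintype.card S.P * (1 / 4 * (σ ^ 2 * (Fintype.card V : ℝ))) := by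
          apply mul_le_mul_of_nonneg_left _ hP0.le
          linarith
      _ ≤ Fintype.card S.P * (σ ^ 2 * Fintype.card S.P) := by
          apply mul_le_mul_of_nonneg_left _ hP0.le
          have : 0 < σ ^ 2 := by positivity
          nlinarith
      _ = _ := by ring
  have h2 : 0 ≤ ∑ q ∈ range K ×ˢ (univ : Finset S.P), |a q.1 q.2.1| :=
    Finset.sum_nonneg fun _ _ => abs_nonneg _
  exact (pow_le_pow_iff_left₀ h2 (by positivity) two_ne_zero).1 h1

theorem law_H2 (S : Setup G χ Dc c Δ Lf) (hc : 1 / 2 < c) (hc1 : c < 1)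
    (hcard : Fintype.card τ = Fintype.card V) (hn : 0 < Fintype.card V)
    (he : 0 ≤ e) (he1 : e ≤ (c - 1 / 2) / 4) (hΔ : 0 ≤ Δ) (W : S.P → S.P → ℝ)
    (σ s0 : ℝ) (hσ : 0 < σ) (hs0 : 0 < s0)
    (hs : 4 * (K : ℝ) * Δ / ((c - 1 / 2) * c) ≤ σ * s0 * (Fintype.card V : ℝ)) :
    (S.law W).H2 Dc.om σ s0 := by
  have hP := E8c_cardP S hc1 hcard he1
  have hnR : (0 : ℝ) < Fintype.card V := by exact_mod_cast hn
  have hP0 : (0 : ℝ) < (Fintype.card S.P : ℝ) := by linarith
  have hα : 0 < (c - 1 / 2) * c := mul_pos (by linarith) (by linarith)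
  unfold LawData.H2
  obtain ⟨e', he', hsum⟩ := S.col2
  have key : ∀ k, (∑ ρ ∈ (S.law W).roots, ∑ y, if (S.law W).rcol ρ y = k then (S.law W).gr ρ y else 0)
      / (Fintype.card S.P : ℝ) ≤
      ∑ ρ ∈ Dc.roots, ∑ y, if χ (S.φ (Dc.ref ρ)) y = k then S.rb (Dc.ref ρ) y else 0 := by
    intro k
    have e1 : (∑ ρ ∈ (S.law W).roots, ∑ y, if (S.law W).rcol ρ y = k then (S.law W).gr ρ y else 0)
        = (Fintype.card S.P : ℝ) * ∑ ρ ∈ Dc.roots, ∑ y : S.P,
          if χ (S.φ (Dc.ref ρ)) y.1 = k then S.rb (Dc.ref ρ) y.1 else 0 := by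
      rw [Finset.mul_sum]
      refine Finset.sum_congr rfl fun ρ _ => ?_
      rw [Finset.mul_sum]
      refine Finset.sum_congr rfl fun y _ => ?_
      rw [mul_ite, mul_zero]
      rfl
    rw [e1, mul_div_cancel_left₀ _ hP0.ne']
    refine Finset.sum_le_sum fun ρ hρ => ?_
    refine E8c_sumP S (fun y => if χ (S.φ (Dc.ref ρ)) y = k then S.rb (Dc.ref ρ) y else 0) ?_
    intro y
    split_ifs
    · have hC : Dc.ref ρ ∈ Dc.C := by
        unfold Decomp.roots at hρ
        rw [Finset.mem_filter] at hρ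
        exact (Dc.root ρ hρ.1 hρ.2).1
      exact (S.q_bd _ hC y).1
    · exact le_refl _
  have om0 : Dc.om 0 = (Dc.roots.card : ℝ) / (Fintype.card V : ℝ) := by
    unfold Decomp.om Decomp.roots
    rw [hcard]
  have pos_le : ∀ z : ℝ, max (z - s0) 0 ≤ z ^ 2 / (4 * s0) := by
    intro z
    apply max_le
    · rw [le_div_iff₀ (by positivity)]
      nlinarith [sq_nonneg (z - 2 * s0)]
    · positivity
  calc ∑ k, max ((∑ ρ ∈ (S.law W).roots, ∑ y, if (S.law W).rcol ρ y = k then (S.law W).gr ρ y else 0)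
      / (Fintype.card S.P : ℝ) - Dc.om 0 - s0) 0
      ≤ ∑ k, ((∑ ρ ∈ Dc.roots, ∑ y, if χ (S.φ (Dc.ref ρ)) y = k then S.rb (Dc.ref ρ) y else 0)
      - e' k) ^ 2 / (4 * s0) := by
        refine Finset.sum_le_sum fun k _ => ?_
        refine le_trans ?_ (pos_le _)
        apply max_le_max _ (le_refl _)
        have := key k
        have h2 := (he' k).2
        rw [om0]
        linarith
    _ = (∑ k, ((∑ ρ ∈ Dc.roots, ∑ y, if χ (S.φ (Dc.ref ρ)) y = k then S.rb (Dc.ref ρ) y else 0)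
      - e' k) ^ 2) / (4 * s0) := by rw [Finset.sum_div]
    _ ≤ (4 * (K * Δ) / ((c - 1 / 2) * c)) / (4 * s0) := by
        apply div_le_div_of_nonneg_right hsum; positivity
    _ ≤ σ * Fintype.card S.P := by
        rw [div_le_iff₀ (by positivity)]
        have h3 : 4 * (K * Δ) / ((c - 1 / 2) * c) ≤ σ * s0 * (Fintype.card V : ℝ) := by
          have : 4 * (K * Δ) / ((c - 1 / 2) * c) = 4 * (K : ℝ) * Δ / ((c - 1 / 2) * c) := by ring
          rw [this]; exact hs
        have h4 : 0 < σ * s0 := by positivity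
        nlinarith

theorem law_H3 (S : Setup G χ Dc c Δ Lf) (hc : 1 / 2 < c) (hc1 : c < 1)
    (hcard : Fintype.card τ = Fintype.card V) (hn : 0 < Fintype.card V)
    (hχ : ∀ x y z, G.Adj x y → G.Adj x z → χ x y = χ x z → y = z)
    (hχs : ∀ x y, χ x y = χ y x)
    (hT : ∀ v, (T.degree v : ℝ) ≤ Δ) (W : S.P → S.P → ℝ)
    (σ : ℝ) (hσ : 0 < σ)
    (hs : Δ / ((c - 1 / 2) * c) ≤ σ * (Fintype.card V : ℝ)) :
    (S.law W).H3 σ := by
  have hnR : (0 : ℝ) < Fintype.card V := by exact_mod_cast hn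
  have hα : 0 < (c - 1 / 2) * c := mul_pos (by linarith) (by linarith)
  intro y k
  have hP0 : (0 : ℝ) < (Fintype.card S.P : ℝ) := by
    have : 0 < Fintype.card S.P := Fintype.card_pos_iff.2 ⟨y⟩
    exact_mod_cast this
  have e1 : (∑ ρ ∈ (S.law W).roots, if (S.law W).rcol ρ y = k then (S.law W).g ρ y else 0)
      = (Fintype.card S.P : ℝ) * ∑ ρ ∈ Dc.roots,
        if χ (S.φ (Dc.ref ρ)) y.1 = k then S.q (Dc.ref ρ) y.1 else 0 := by
    rw [Finset.mul_sum]
    refine Finset.sum_congr rfl fun ρ _ => ?_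
    rw [mul_ite, mul_zero]
    rfl
  rw [e1, mul_div_cancel_left₀ _ hP0.ne']
  have hroot : ∀ ρ ∈ Dc.roots, Dc.ref ρ ∈ Dc.C ∧ T.Adj ρ (Dc.ref ρ) := by
    intro ρ hρ
    unfold Decomp.roots at hρ
    rw [Finset.mem_filter] at hρ
    exact ⟨(Dc.root ρ hρ.1 hρ.2).1, Dc.ref_adj ρ hρ.1⟩
  by_cases hex : ∃ s ∈ Dc.C, G.Adj (S.φ s) y.1 ∧ χ (S.φ s) y.1 = k
  · obtain ⟨s, hsC, hsa, hsk⟩ := hex
    have h1 : ∀ ρ ∈ Dc.roots, (if χ (S.φ (Dc.ref ρ)) y.1 = k then S.q (Dc.ref ρ) y.1 else 0) ≤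
        (if T.Adj s ρ then 1 / ((c - 1 / 2) * c * (Fintype.card V : ℝ)) else 0) := by
      intro ρ hρ
      obtain ⟨hC, hadj⟩ := hroot ρ hρ
      by_cases hk : χ (S.φ (Dc.ref ρ)) y.1 = k
      · rw [if_pos hk]
        by_cases ha : G.Adj (S.φ (Dc.ref ρ)) y.1
        · have h2 : S.φ (Dc.ref ρ) = S.φ s := by
            apply hχ y.1 _ _ ha.symm hsa.symm
            rw [hχs y.1, hχs y.1, hk, hsk]
          have h3 : Dc.ref ρ = s := S.inj hC hsC h2
          rw [if_pos (by rw [← h3]; exact hadj.symm)]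
          exact (S.q_bd _ hC _).2.2
        · rw [S.q_adj _ hC _ ha]
          split_ifs
          · positivity
          · exact le_refl _
      · rw [if_neg hk]
        split_ifs
        · positivity
        · exact le_refl _
    calc ∑ ρ ∈ Dc.roots, (if χ (S.φ (Dc.ref ρ)) y.1 = k then S.q (Dc.ref ρ) y.1 else 0)
        ≤ ∑ ρ ∈ Dc.roots, (if T.Adj s ρ then 1 / ((c - 1 / 2) * c * (Fintype.card V : ℝ)) else 0) :=
          Finset.sum_le_sum h1
      _ ≤ ∑ ρ, (if T.Adj s ρ then 1 / ((c - 1 / 2) * c * (Fintype.card V : ℝ)) else 0) := by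
          apply Finset.sum_le_univ_sum_of_nonneg
          intro ρ
          split_ifs
          · positivity
          · exact le_refl _
      _ = (T.degree s : ℝ) * (1 / ((c - 1 / 2) * c * (Fintype.card V : ℝ))) := by
          rw [← Finset.sum_filter, Finset.sum_const, nsmul_eq_mul]
          congr 2
          rw [← SimpleGraph.card_neighborFinset_eq_degree]
          congr 1
          ext ρ
          simp
      _ ≤ Δ * (1 / ((c - 1 / 2) * c * (Fintype.card V : ℝ))) := by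
          apply mul_le_mul_of_nonneg_right (hT s); positivity
      _ = (Δ / ((c - 1 / 2) * c)) / (Fintype.card V : ℝ) := by
          field_simp
      _ ≤ σ := by
          rw [div_le_iff₀ hnR]
          exact hs
  · have h1 : ∀ ρ ∈ Dc.roots, (if χ (S.φ (Dc.ref ρ)) y.1 = k then S.q (Dc.ref ρ) y.1 else 0) = 0 := by
      intro ρ hρ
      obtain ⟨hC, hadj⟩ := hroot ρ hρ
      split_ifs with hk
      · apply S.q_adj _ hC
        intro ha
        exact hex ⟨_, hC, ha, hk⟩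
      · rfl
    rw [Finset.sum_congr rfl h1]
    simp [hσ.le]

end H64.Col
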