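import Pool.Agent.H64.Col.Defs

/-! D5: counting slots. -/

namespace H64.Col
open Finset

variable {τ : Type} [Fintype τ] [DecidableEq τ]

open Classical in
/-- leaves in `F` -/
noncomputable def leafF {T : SimpleGraph τ} {R : Rooted T} {K : ℕ} {e : ℝ} (Dc : Decomp T R K e) :
    Finset τ := Dc.F.filter (fun u => ∀ b, T.Adj u b → b = Dc.ref u)

/-- `u` is a bare slot with other neighbour `a` -/
def IsBare {T : SimpleGraph τ} {R : Rooted T} {K : ℕ} {e : ℝ} (Dc : Decomp T R K e) (u a : τ) :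
    Prop :=
  u ∈ Dc.F ∧ 3 ≤ Dc.lev u ∧ a ∈ Dc.F ∧ Dc.ref a = u ∧ a ≠ Dc.ref u ∧
    ∀ b, T.Adj u b → b = Dc.ref u ∨ b = a

section D5

variable {T : SimpleGraph τ} {R : Rooted T} {K : ℕ} {e : ℝ} (Dc : Decomp T R K e)

/-- vertices of `F` whose reference is `u` -/
def d5ch (u : τ) : Finset τ := Dc.F.filter (fun v => Dc.ref v = u)

/-- vertices of level at least `m` -/
def d5G (m : ℕ) : Finset τ := Dc.F.filter (fun v => m ≤ Dc.lev v)

lemma d5_lev_of_ref {v : τ} (hv : v ∈ Dc.F) (h : Dc.ref v ∈ Dc.F) :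
    Dc.lev v = Dc.lev (Dc.ref v) + 1 := by
  by_cases h1 : Dc.lev v = 1
  · exact absurd h (Finset.disjoint_left.1 Dc.disjCF (Dc.root v hv h1).1)
  · exact (Dc.step v hv h1).2.1

lemma d5_card (m : ℕ) (hm : 1 ≤ m) :
    (d5G Dc (m + 1)).card = ∑ u ∈ d5G Dc m, (d5ch Dc u).card := by
  rw [Finset.card_eq_sum_card_fiberwise (f := Dc.ref) (t := d5G Dc m)]
  · apply Finset.sum_congr rfl
    intro u hu
    congr 1
    ext v
    rw [Finset.mem_filter]
    unfold d5G d5ch at *
    rw [Finset.mem_filter] at hu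
    rw [Finset.mem_filter, Finset.mem_filter]
    constructor
    · rintro ⟨⟨h1, _⟩, h2⟩
      exact ⟨h1, h2⟩
    · rintro ⟨h1, h2⟩
      refine ⟨⟨h1, ?_⟩, h2⟩
      have h3 := d5_lev_of_ref Dc h1 (by rw [h2]; exact hu.1)
      rw [h2] at h3
      omega
  · intro v hv
    unfold d5G at *
    rw [Finset.mem_coe, Finset.mem_filter] at *
    have h1 : Dc.lev v ≠ 1 := by omega
    have h2 := Dc.step v hv.1 h1
    exact ⟨h2.1, by omega⟩

open Classical in
/-- vertices of `F` with a neighbour in `B` -/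
noncomputable def d5BN : Finset τ := Dc.F.filter (fun u => ∃ b ∈ Dc.B, T.Adj u b)

/-- childless vertices -/
def d5Z : Finset τ := Dc.F.filter (fun u => (d5ch Dc u).card = 0)

/-- branching vertices -/
def d5D : Finset τ := Dc.F.filter (fun u => 2 ≤ (d5ch Dc u).card)

lemma d5_BN_card : ((d5BN Dc).card : ℝ) ≤ e * Fintype.card τ := by
  classical
  refine le_trans ?_ Dc.card_FB
  have h1 : (d5BN Dc).card ≤ Set.ncard {q : τ × τ | q.1 ∈ Dc.F ∧ q.2 ∈ Dc.B ∧ T.Adj q.1 q.2} := by
    rw [← Set.ncard_coe_finset]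
    have h2 : ((d5BN Dc : Finset τ) : Set τ) ⊆
        Prod.fst '' {q : τ × τ | q.1 ∈ Dc.F ∧ q.2 ∈ Dc.B ∧ T.Adj q.1 q.2} := by
      intro u hu
      unfold d5BN at hu
      rw [Finset.mem_coe, Finset.mem_filter] at hu
      obtain ⟨hu1, b, hb, hub⟩ := hu
      exact ⟨(u, b), ⟨hu1, hb, hub⟩, rfl⟩
    refine le_trans (Set.ncard_le_ncard h2 (Set.toFinite _)) ?_
    exact Set.ncard_image_le (Set.toFinite _)
  exact_mod_cast h1

lemma d5_nbr {u b : τ} (hu : u ∈ Dc.F) (hub : T.Adj u b) (hB : b ∉ Dc.B) :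
    b = Dc.ref u ∨ b ∈ d5ch Dc u := by
  have hb : b ∈ Dc.C ∪ Dc.B ∪ Dc.F := by
    rw [Dc.cover]
    exact Finset.mem_univ b
  rw [Finset.mem_union, Finset.mem_union] at hb
  rcases hb with (hb | hb) | hb
  · exact Or.inl (Dc.adj_C u hu b hb hub).symm
  · exact absurd hb hB
  · rcases Dc.adj_F u hu b hb hub with h | h
    · exact Or.inl h.symm
    · right
      unfold d5ch
      rw [Finset.mem_filter]
      exact ⟨hb, h⟩

lemma d5_Z_card : (d5Z Dc).card ≤ (leafF Dc).card + (d5BN Dc).card := by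
  classical
  refine le_trans (Finset.card_le_card ?_) (Finset.card_union_le _ _)
  intro u hu
  unfold d5Z at hu
  rw [Finset.mem_filter, Finset.card_eq_zero] at hu
  rw [Finset.mem_union]
  by_cases hB : ∃ b ∈ Dc.B, T.Adj u b
  · right
    unfold d5BN
    rw [Finset.mem_filter]
    exact ⟨hu.1, hB⟩
  · left
    unfold leafF
    rw [Finset.mem_filter]
    refine ⟨hu.1, fun b hub => ?_⟩
    rcases d5_nbr Dc hu.1 hub (fun h => hB ⟨b, h, hub⟩) with h | h
    · exact h
    · rw [hu.2] at h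
      exact absurd h (Finset.notMem_empty _)

lemma d5_G2 : (Dc.F.card : ℤ) + (d5D Dc).card - (d5Z Dc).card ≤ (d5G Dc 2).card := by
  have h1 := d5_card Dc 1 le_rfl
  have hG : d5G Dc 1 = Dc.F := by
    unfold d5G
    rw [Finset.filter_true_of_mem]
    intro v hv
    exact Dc.lev_pos v hv
  rw [hG] at h1
  have h2 : (d5D Dc).card = ∑ u ∈ Dc.F, if 2 ≤ (d5ch Dc u).card then 1 else 0 := by
    unfold d5D
    rw [Finset.card_filter]
  have h3 : (d5Z Dc).card = ∑ u ∈ Dc.F, if (d5ch Dc u).card = 0 then 1 else 0 := by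
    unfold d5Z
    rw [Finset.card_filter]
  have h4 : Dc.F.card = ∑ u ∈ Dc.F, 1 := by
    rw [Finset.sum_const, smul_eq_mul, mul_one]
  have h5 : Dc.F.card + (d5D Dc).card ≤ (d5G Dc (1 + 1)).card + (d5Z Dc).card := by
    rw [h1, h2, h3, h4, ← Finset.sum_add_distrib, ← Finset.sum_add_distrib]
    apply Finset.sum_le_sum
    intro u _
    split_ifs <;> omega
  have h6 : d5G Dc (1 + 1) = d5G Dc 2 := rfl
  rw [h6] at h5
  omega

lemma d5_G3 : ((d5G Dc 2).card : ℤ) - (d5Z Dc).card ≤ (d5G Dc 3).card := by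
  have h1 := d5_card Dc 2 (by norm_num)
  have h3 : ∑ u ∈ d5G Dc 2, (if (d5ch Dc u).card = 0 then 1 else 0) ≤ (d5Z Dc).card := by
    unfold d5Z
    rw [Finset.card_filter]
    apply Finset.sum_le_sum_of_subset
    unfold d5G
    exact Finset.filter_subset _ _
  have h4 : (d5G Dc 2).card = ∑ u ∈ d5G Dc 2, 1 := by
    rw [Finset.sum_const, smul_eq_mul, mul_one]
  have h5 : (d5G Dc 2).card ≤ (d5G Dc (2 + 1)).card +
      ∑ u ∈ d5G Dc 2, (if (d5ch Dc u).card = 0 then 1 else 0) := by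
    rw [h1, ← Finset.sum_add_distrib]
    conv_lhs => rw [h4]
    apply Finset.sum_le_sum
    intro u _
    split_ifs <;> omega
  have h6 : d5G Dc (2 + 1) = d5G Dc 3 := rfl
  rw [h6] at h5
  omega

/-- the candidate slots -/
noncomputable def d5S : Finset τ := (d5G Dc 3 \ d5Z Dc) \ (d5D Dc ∪ d5BN Dc)

lemma d5_S_card : (Dc.F.card : ℤ) - 3 * (d5Z Dc).card - (d5BN Dc).card ≤ (d5S Dc).card := by
  have h1 : (d5G Dc 3).card - (d5Z Dc).card ≤ (d5G Dc 3 \ d5Z Dc).card :=
    Finset.le_card_sdiff _ _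
  have h2 : (d5G Dc 3 \ d5Z Dc).card - (d5D Dc ∪ d5BN Dc).card ≤ (d5S Dc).card :=
    Finset.le_card_sdiff _ _
  have h3 : (d5D Dc ∪ d5BN Dc).card ≤ (d5D Dc).card + (d5BN Dc).card := Finset.card_union_le _ _
  have h4 := d5_G2 Dc
  have h5 := d5_G3 Dc
  omega

lemma d5_exists_a : ∃ a : τ → τ, ∀ u ∈ d5S Dc, IsBare Dc u (a u) := by
  classical
  have h : ∀ u, ∃ a, u ∈ d5S Dc → IsBare Dc u a := by
    intro u
    by_cases hu : u ∈ d5S Dc
    · unfold d5S at hu
      rw [Finset.mem_sdiff, Finset.mem_sdiff, Finset.mem_union, not_or] at hu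
      obtain ⟨⟨hG, hZ⟩, hD, hB⟩ := hu
      unfold d5G at hG
      rw [Finset.mem_filter] at hG
      have hc : (d5ch Dc u).card = 1 := by
        have h0 : (d5ch Dc u).card ≠ 0 := by
          intro h0
          apply hZ
          unfold d5Z
          rw [Finset.mem_filter]
          exact ⟨hG.1, h0⟩
        have h2 : ¬ 2 ≤ (d5ch Dc u).card := by
          intro h2
          apply hD
          unfold d5D
          rw [Finset.mem_filter]
          exact ⟨hG.1, h2⟩
        omega
      obtain ⟨a, ha⟩ := Finset.card_eq_one.1 hc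
      have haF : a ∈ d5ch Dc u := by
        rw [ha]
        exact Finset.mem_singleton_self a
      have haF' := haF
      unfold d5ch at haF'
      rw [Finset.mem_filter] at haF'
      refine ⟨a, fun _ => ⟨hG.1, hG.2, haF'.1, haF'.2, ?_, ?_⟩⟩
      · intro haR
        have h1 := d5_lev_of_ref Dc haF'.1 (by rw [haF'.2]; exact hG.1)
        have h2 := d5_lev_of_ref Dc hG.1 (by rw [← haR]; exact haF'.1)
        rw [haF'.2] at h1
        rw [← haR] at h2
        omega
      · intro b hub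
        have hbB : b ∉ Dc.B := by
          intro hb
          apply hB
          unfold d5BN
          rw [Finset.mem_filter]
          exact ⟨hG.1, b, hb, hub⟩
        rcases d5_nbr Dc hG.1 hub hbB with h | h
        · exact Or.inl h
        · right
          rw [ha] at h
          exact Finset.mem_singleton.1 h
    · exact ⟨u, fun h => absurd h hu⟩
  choose a ha using h
  exact ⟨a, fun u hu => ha u hu⟩

lemma d5_parity {u v : τ} (huv : T.Adj u v) : R.dep u % 2 ≠ R.dep v % 2 := by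
  rcases (R.adj u v).1 huv with ⟨h1, h2⟩ | ⟨h1, h2⟩
  · have h3 := R.dep_par u h1
    rw [h2] at h3
    omega
  · have h3 := R.dep_par v h1
    rw [h2] at h3
    omega

end D5

/-- If there are few leaves in `F`, then there is a large independent set of bare slots.
Number of leaves of `T` is at most `|leafF| + |C| + |B|`; `∑ (deg - 2) = -2`; vertices of level 1 (2):
the farthest vertex of each component (of each branch at level 2) is a leaf of `T` or adjacent to `B`;
choose the better parity of `R.dep`. -/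
theorem exists_bare {T : SimpleGraph τ} (hT : T.IsTree) {R : Rooted T} {K : ℕ} {e : ℝ}
    (Dc : Decomp T R K e) (he : e ≤ 1 / 1000) (hn : 1000 ≤ Fintype.card τ)
    (hleaf : ((leafF Dc).card : ℝ) < (Fintype.card τ : ℝ) / 200) :
    ∃ (Sl : Finset τ) (a : τ → τ), (Fintype.card τ : ℝ) / 10 ≤ (Sl.card : ℝ) ∧
      (∀ u ∈ Sl, IsBare Dc u (a u)) ∧ ∀ u ∈ Sl, ∀ v ∈ Sl, ¬ T.Adj u v := by
  classical
  obtain ⟨a, ha⟩ := d5_exists_a Dc
  have hn0 : (1000 : ℝ) ≤ Fintype.card τ := by exact_mod_cast hn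
  have hF : (Fintype.card τ : ℝ) - 2 * (e * Fintype.card τ) ≤ Dc.F.card := by
    have h1 : Fintype.card τ ≤ Dc.C.card + Dc.B.card + Dc.F.card := by
      rw [← Finset.card_univ, ← Dc.cover]
      refine le_trans (Finset.card_union_le _ _) ?_
      have := Finset.card_union_le Dc.C Dc.B
      omega
    have h2 : (Fintype.card τ : ℝ) ≤ Dc.C.card + Dc.B.card + Dc.F.card := by exact_mod_cast h1
    have h3 := Dc.card_C
    have h4 := Dc.card_B
    linarith
  have hS : (Dc.F.card : ℝ) - 3 * (d5Z Dc).card - (d5BN Dc).card ≤ (d5S Dc).card := by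
    exact_mod_cast d5_S_card Dc
  have hZ : ((d5Z Dc).card : ℝ) ≤ (leafF Dc).card + (d5BN Dc).card := by
    exact_mod_cast d5_Z_card Dc
  have hBN := d5_BN_card Dc
  have hen : e * Fintype.card τ ≤ (Fintype.card τ : ℝ) / 1000 := by
    have := mul_le_mul_of_nonneg_right he (by linarith : (0 : ℝ) ≤ Fintype.card τ)
    linarith
  have hS2 : (Fintype.card τ : ℝ) / 5 ≤ (d5S Dc).card := by linarith
  -- the better parity
  set S0 := (d5S Dc).filter (fun u => R.dep u % 2 = 0) with hS0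
  set S1 := (d5S Dc).filter (fun u => ¬ R.dep u % 2 = 0) with hS1
  have hsum : S0.card + S1.card = (d5S Dc).card := Finset.card_filter_add_card_filter_not _
  have hsum' : (S0.card : ℝ) + S1.card = (d5S Dc).card := by exact_mod_cast hsum
  by_cases h : (Fintype.card τ : ℝ) / 10 ≤ S0.card
  · refine ⟨S0, a, h, fun u hu => ha u (Finset.mem_filter.1 hu).1, ?_⟩
    intro u hu v hv huv
    exact d5_parity (R := R) huv (by rw [(Finset.mem_filter.1 hu).2, (Finset.mem_filter.1 hv).2])
  · refine ⟨S1, a, by linarith, fun u hu => ha u (Finset.mem_filter.1 hu).1, ?_⟩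
    intro u hu v hv huv
    apply d5_parity (R := R) huv
    have h1 := (Finset.mem_filter.1 hu).2
    have h2 := (Finset.mem_filter.1 hv).2
    omega

end H64.Col
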