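import Pool.Agent.H64.Col.E6_Nib
import Pool.Agent.H64.Col.E7_Bound
import Pool.Agent.H64.Col.E8a_Exists
import Pool.Agent.H64.Col.E8b_Ker
import Pool.Agent.H64.Col.E8c_H
import Pool.Agent.H64.Col.E8d_Rich
import Pool.Agent.H64.Col.D5_Bare

/-! E9: almost spanning embedding with test counts.
`η = (c-1/2)^8/1000`, `d0 = (c-1/2)^2/1600`. Index type of the tests: `V×V ⊕ V×V ⊕ V×V×V ⊕ Fin 2`.
`Lf` = roots which are leaves. -/

namespace H64.Col
open Finset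

open Classical in
/-- output of the nibble stage -/
structure Emb {τ V κ : Type} [Fintype τ] [DecidableEq τ] [Fintype V] [DecidableEq V]
    (G : SimpleGraph V) (χ : V → V → κ) {T : SimpleGraph τ} {R : Rooted T} {K : ℕ} {e : ℝ}
    (Dc : Decomp T R K e) (c ε η : ℝ) (Sl : Finset τ) (a : τ → τ) where
  ψ : τ → V
  Fm : Finset τ
  A : Finset τ
  FmF : Fm ⊆ Dc.F
  closed : ∀ u ∈ Fm, ∀ v ∈ Dc.F, Dc.rho v = Dc.rho u → v ∈ Fm
  AFm : A ⊆ Fm
  inj : Set.InjOn ψ (Dc.C ∪ Fm : Set τ)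
  hom : ∀ u ∈ Dc.C ∪ Fm, ∀ v ∈ Dc.C ∪ Fm, T.Adj u v → G.Adj (ψ u) (ψ v)
  colInj : Set.InjOn (fun v => χ (ψ (Dc.ref v)) (ψ v)) (A : Set τ)
  cardA : (c - ε) * (Fintype.card V : ℝ) ≤ (A.card : ℝ)
  cardF : (Dc.F.card : ℝ) ≤ (Fm.card : ℝ) + ε * (Fintype.card V : ℝ)
  leafA : (Fintype.card V : ℝ) / 200 ≤ ((leafF Dc).card : ℝ) → ∀ w g : V,
    η * (Fintype.card V : ℝ) ≤ (((leafF Dc ∩ Fm).filter
      (fun u => G.Adj (ψ (Dc.ref u)) w ∧ G.Adj (ψ u) g)).card : ℝ)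
  leafB : (Fintype.card V : ℝ) / 200 ≤ ((leafF Dc).card : ℝ) → ∀ x z : V,
    η * (Fintype.card V : ℝ) ≤ (((leafF Dc ∩ Fm).filter
      (fun u => G.Adj (ψ u) x ∧ G.Adj (ψ u) z)).card : ℝ)
  bare : (Fintype.card V : ℝ) / 10 ≤ (Sl.card : ℝ) → ∀ w x z : V,
    η * (Fintype.card V : ℝ) ≤ (((Sl ∩ Fm).filter
      (fun u => G.Adj (ψ (Dc.ref u)) w ∧ G.Adj (ψ (a u)) w ∧ G.Adj (ψ u) x ∧
        G.Adj (ψ u) z)).card : ℝ)

section E9
open Classical

variable {τ V κ : Type} [Fintype τ] [DecidableEq τ] [Fintype V] [DecidableEq V]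
  [Fintype κ] [DecidableEq κ] {G : SimpleGraph V} {χ : V → V → κ}
  {T : SimpleGraph τ} {R : Rooted T} {K : ℕ} {e : ℝ} {Dc : Decomp T R K e}
  {c Δ : ℝ} {Lf : Finset τ}

/-- leaf test, first kind -/
noncomputable def E9_bA (S : Setup G χ Dc c Δ Lf) (w g : V) (u : τ) (ψ : τ → S.P) : ℝ :=
  if Dc.lev u = 1 then (if G.Adj (S.φ (Dc.ref u)) w then (1 : ℝ) else 0) * ind (S.nb g) (ψ u)
  else ind (S.nb w) (ψ (Dc.ref u)) * ind (S.nb g) (ψ u)

/-- the test functions -/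
noncomputable def E9_f (S : Setup G χ Dc c Δ Lf) (Sl : Finset τ) (a : τ → τ) :
    ((V × V) ⊕ ((V × V) ⊕ ((V × V × V) ⊕ Fin 2))) → τ → (τ → S.P) → Finset τ → ℝ
  | Sum.inl p => fun ρ ψ _ => ∑ u ∈ (Dc.F.filter (fun v => Dc.rho v = ρ)) ∩ leafF Dc,
      E9_bA S p.1 p.2 u ψ
  | Sum.inr (Sum.inl p) => fun ρ ψ _ => ∑ u ∈ (Dc.F.filter (fun v => Dc.rho v = ρ)) ∩ leafF Dc,
      ind (S.nb p.1 ∩ S.nb p.2) (ψ u)
  | Sum.inr (Sum.inr (Sum.inl p)) => fun ρ ψ _ =>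
      ∑ u ∈ (Dc.F.filter (fun v => Dc.rho v = ρ)) ∩ Sl,
      ind (S.nb p.1) (ψ (Dc.ref u)) * ind (S.nb p.2.1 ∩ S.nb p.2.2) (ψ u) * ind (S.nb p.1) (ψ (a u))
  | Sum.inr (Sum.inr (Sum.inr i)) => fun ρ _ A =>
      if i = 0 then ((A ∩ Dc.F.filter (fun v => Dc.rho v = ρ)).card : ℝ)
      else ((Dc.F.filter (fun v => Dc.rho v = ρ)).card : ℝ)

theorem E9_f0 (S : Setup G χ Dc c Δ Lf) (Sl : Finset τ) (a : τ → τ) (ρ : τ) (ψ : τ → S.P)
    (A : Finset τ) : E9_f S Sl a (Sum.inr (Sum.inr (Sum.inr 0))) ρ ψ A =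
      ((A ∩ Dc.F.filter (fun v => Dc.rho v = ρ)).card : ℝ) := by
  show (if (0 : Fin 2) = 0 then ((A ∩ Dc.F.filter (fun v => Dc.rho v = ρ)).card : ℝ)
      else ((Dc.F.filter (fun v => Dc.rho v = ρ)).card : ℝ)) = _
  rw [if_pos rfl]

theorem E9_f1 (S : Setup G χ Dc c Δ Lf) (Sl : Finset τ) (a : τ → τ) (ρ : τ) (ψ : τ → S.P)
    (A : Finset τ) : E9_f S Sl a (Sum.inr (Sum.inr (Sum.inr 1))) ρ ψ A =
      ((Dc.F.filter (fun v => Dc.rho v = ρ)).card : ℝ) := by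
  show (if (1 : Fin 2) = 0 then ((A ∩ Dc.F.filter (fun v => Dc.rho v = ρ)).card : ℝ)
      else ((Dc.F.filter (fun v => Dc.rho v = ρ)).card : ℝ)) = _
  rw [if_neg (by decide)]

theorem E9_ind01 {P : Type} [DecidableEq P] (X : Finset P) (y : P) : 0 ≤ ind X y ∧ ind X y ≤ 1 := by
  unfold ind; split_ifs <;> norm_num

theorem E9_bA01 (S : Setup G χ Dc c Δ Lf) (w g : V) (u : τ) (ψ : τ → S.P) :
    0 ≤ E9_bA S w g u ψ ∧ E9_bA S w g u ψ ≤ 1 := by
  unfold E9_bA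
  have h1 := E9_ind01 (S.nb g) (ψ u)
  have h2 := E9_ind01 (S.nb w) (ψ (Dc.ref u))
  split_ifs
  · constructor <;> linarith [h1.1, h1.2]
  · constructor <;> linarith [h1.1, h1.2]
  · exact ⟨mul_nonneg h2.1 h1.1, mul_le_one₀ h2.2 h1.1 h1.2⟩

omit [Fintype τ] in
theorem E9_sum01 (s : Finset τ) (b : τ → ℝ) (hb : ∀ u, 0 ≤ b u ∧ b u ≤ 1) (t : Finset τ) :
    0 ≤ ∑ u ∈ s ∩ t, b u ∧ ∑ u ∈ s ∩ t, b u ≤ (s.card : ℝ) := by
  constructor
  · exact Finset.sum_nonneg fun u _ => (hb u).1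
  · calc ∑ u ∈ s ∩ t, b u ≤ ∑ u ∈ s ∩ t, (1 : ℝ) := Finset.sum_le_sum fun u _ => (hb u).2
      _ = ((s ∩ t).card : ℝ) := by simp
      _ ≤ (s.card : ℝ) := by exact_mod_cast Finset.card_le_card Finset.inter_subset_left

theorem E9_f_bd (S : Setup G χ Dc c Δ Lf) (Sl : Finset τ) (a : τ → τ)
    (i) (ρ : τ) (ψ : τ → S.P) (A : Finset τ) :
    0 ≤ E9_f S Sl a i ρ ψ A ∧ E9_f S Sl a i ρ ψ A ≤ (K : ℝ) := by
  have hD : ((Dc.F.filter (fun v => Dc.rho v = ρ)).card : ℝ) ≤ (K : ℝ) := by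
    exact_mod_cast Dc.comp_card ρ
  rcases i with p | p | p | i
  · have h := E9_sum01 (Dc.F.filter (fun v => Dc.rho v = ρ)) (fun u => E9_bA S p.1 p.2 u ψ)
      (fun u => E9_bA01 S p.1 p.2 u ψ) (leafF Dc)
    exact ⟨h.1, h.2.trans hD⟩
  · have h := E9_sum01 (Dc.F.filter (fun v => Dc.rho v = ρ))
      (fun u => ind (S.nb p.1 ∩ S.nb p.2) (ψ u))
      (fun u => E9_ind01 _ _) (leafF Dc)
    exact ⟨h.1, h.2.trans hD⟩
  · have h := E9_sum01 (Dc.F.filter (fun v => Dc.rho v = ρ))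
      (fun u => ind (S.nb p.1) (ψ (Dc.ref u)) * ind (S.nb p.2.1 ∩ S.nb p.2.2) (ψ u) *
        ind (S.nb p.1) (ψ (a u)))
      (fun u => by
        have h1 := E9_ind01 (S.nb p.1) (ψ (Dc.ref u))
        have h2 := E9_ind01 (S.nb p.2.1 ∩ S.nb p.2.2) (ψ u)
        have h3 := E9_ind01 (S.nb p.1) (ψ (a u))
        exact ⟨mul_nonneg (mul_nonneg h1.1 h2.1) h3.1,
          mul_le_one₀ (mul_le_one₀ h1.2 h2.1 h2.2) h3.1 h3.2⟩) Sl
    exact ⟨h.1, h.2.trans hD⟩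
  · show 0 ≤ (if i = 0 then ((A ∩ Dc.F.filter (fun v => Dc.rho v = ρ)).card : ℝ)
      else ((Dc.F.filter (fun v => Dc.rho v = ρ)).card : ℝ)) ∧ (if i = 0 then ((A ∩ Dc.F.filter (fun v => Dc.rho v = ρ)).card : ℝ)
      else ((Dc.F.filter (fun v => Dc.rho v = ρ)).card : ℝ)) ≤ (K : ℝ)
    split_ifs
    · refine ⟨by positivity, le_trans ?_ hD⟩
      exact_mod_cast Finset.card_le_card Finset.inter_subset_right
    · exact ⟨by positivity, hD⟩

theorem E9_lev_a {u a : τ} (hb : IsBare Dc u a) : Dc.lev a ≠ 1 := by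
  intro h
  obtain ⟨h1, _, h3, h4, _⟩ := hb
  have := (Dc.root a h3 h).1
  rw [h4] at this
  exact (Finset.disjoint_left.mp Dc.disjCF this) h1

theorem E9_rho_root : ∀ v ∈ Dc.F, Dc.rho v ∈ Dc.roots := by
  have key : ∀ n : ℕ, ∀ v ∈ Dc.F, Dc.lev v = n → Dc.rho v ∈ Dc.roots := by
    intro n
    induction n with
    | zero =>
      intro v hv hl
      have := Dc.lev_pos v hv
      omega
    | succ n ih =>
      intro v hv hl
      by_cases h1 : Dc.lev v = 1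
      · have h2 := (Dc.root v hv h1).2
        rw [h2]
        exact Finset.mem_filter.mpr ⟨hv, h1⟩
      · obtain ⟨h2, h3, h4⟩ := Dc.step v hv h1
        rw [h4]
        exact ih _ h2 (by omega)
  exact fun v hv => key _ v hv rfl

theorem E9_local (S : Setup G χ Dc c Δ Lf) (Sl : Finset τ) (a : τ → τ)
    (hSl : ∀ u ∈ Sl, IsBare Dc u (a u)) (W : S.P → S.P → ℝ) (i) :
    (S.law W).Local (E9_f S Sl a i) := by
  intro ρ ψ ψ' A hψ
  have hψ' : ∀ v ∈ Dc.F, Dc.rho v = ρ → ψ v = ψ' v := by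
    intro v hv hr
    exact hψ v (Finset.mem_filter.mpr ⟨hv, hr⟩)
  rcases i with p | p | p | i
  · show ∑ u ∈ _, _ = ∑ u ∈ _, _
    refine Finset.sum_congr rfl fun u hu => ?_
    simp only [Finset.mem_inter, Finset.mem_filter] at hu
    have h1 := hψ' u hu.1.1 hu.1.2
    unfold E9_bA
    split_ifs with h2 h3
    · rw [h1]
    · rw [h1]
    · obtain ⟨h4, _, h5⟩ := Dc.step u hu.1.1 h2
      have h6 := hψ' (Dc.ref u) h4 (by rw [← h5]; exact hu.1.2)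
      rw [h1, h6]
  · show ∑ u ∈ _, _ = ∑ u ∈ _, _
    refine Finset.sum_congr rfl fun u hu => ?_
    simp only [Finset.mem_inter, Finset.mem_filter] at hu
    rw [hψ' u hu.1.1 hu.1.2]
  · show ∑ u ∈ _, _ = ∑ u ∈ _, _
    refine Finset.sum_congr rfl fun u hu => ?_
    simp only [Finset.mem_inter, Finset.mem_filter] at hu
    have hb := hSl u hu.2
    have h1 := hψ' u hu.1.1 hu.1.2
    have hl : Dc.lev u ≠ 1 := by have := hb.2.1; omega
    obtain ⟨h4, _, h5⟩ := Dc.step u hu.1.1 hl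
    have h6 := hψ' (Dc.ref u) h4 (by rw [← h5]; exact hu.1.2)
    have hla := E9_lev_a hb
    obtain ⟨_, _, h8⟩ := Dc.step (a u) hb.2.2.1 hla
    have h9 := hψ' (a u) hb.2.2.1 (by rw [h8, hb.2.2.2.1]; exact hu.1.2)
    rw [h1, h6, h9]
  · rfl


theorem E9_mem_nb (S : Setup G χ Dc c Δ Lf) (w : V) (y : S.P) :
    y ∈ S.nb w ↔ G.Adj w y.1 := by
  unfold Setup.nb
  rw [Finset.mem_filter]
  exact ⟨fun h => h.2, fun h => ⟨Finset.mem_univ _, h⟩⟩

/-- the embedding from the output of the nibble -/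
theorem E9_build (S : Setup G χ Dc c Δ Lf) 
    (W : S.P → S.P → ℝ) (hW : Ker S W) (Sl : Finset τ) (a : τ → τ)
    (hSl : ∀ u ∈ Sl, IsBare Dc u (a u))
    (M : Finset τ) (ψ : τ → S.P) (A : Finset τ)
    (hM : M ⊆ (S.law W).roots)
    (hA : A ⊆ (S.law W).F.filter (fun v => (S.law W).rho v ∈ M))
    (hinj : Set.InjOn ψ ((S.law W).F.filter (fun v => (S.law W).rho v ∈ M) : Set τ))
    (hdt : ∀ v ∈ (S.law W).F.filter (fun v => (S.law W).rho v ∈ M), (S.law W).dt v ψ ≠ 0)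
    (hclr : Set.InjOn (fun v => (S.law W).clr v ψ) (A : Set τ))
    (η ε : ℝ)
    (h0 : (c - ε) * (Fintype.card V : ℝ) ≤
      ∑ ρ ∈ M, E9_f S Sl a (Sum.inr (Sum.inr (Sum.inr 0))) ρ ψ (A ∩ (S.law W).D ρ))
    (h1 : (Dc.F.card : ℝ) ≤ (∑ ρ ∈ M, E9_f S Sl a (Sum.inr (Sum.inr (Sum.inr 1))) ρ ψ
      (A ∩ (S.law W).D ρ)) + ε * (Fintype.card V : ℝ))
    (h2 : (Fintype.card V : ℝ) / 200 ≤ ((leafF Dc).card : ℝ) → ∀ p : V × V,
      η * (Fintype.card V : ℝ) ≤ ∑ ρ ∈ M, E9_f S Sl a (Sum.inl p) ρ ψ (A ∩ (S.law W).D ρ))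
    (h3 : (Fintype.card V : ℝ) / 200 ≤ ((leafF Dc).card : ℝ) → ∀ p : V × V,
      η * (Fintype.card V : ℝ) ≤
        ∑ ρ ∈ M, E9_f S Sl a (Sum.inr (Sum.inl p)) ρ ψ (A ∩ (S.law W).D ρ))
    (h4 : (Fintype.card V : ℝ) / 10 ≤ (Sl.card : ℝ) → ∀ p : V × V × V,
      η * (Fintype.card V : ℝ) ≤
        ∑ ρ ∈ M, E9_f S Sl a (Sum.inr (Sum.inr (Sum.inl p))) ρ ψ (A ∩ (S.law W).D ρ)) :
    Nonempty (Emb G χ Dc c ε η Sl a) := by
  set Fm : Finset τ := Dc.F.filter (fun v => Dc.rho v ∈ M) with hFm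
  set ψ' : τ → V := fun v => if v ∈ Dc.C then S.φ v else (ψ v).1 with hψ'
  have hFmF : Fm ⊆ Dc.F := Finset.filter_subset _ _
  have hnotC : ∀ v ∈ Dc.F, v ∉ Dc.C := fun v hv hC => (Finset.disjoint_left.mp Dc.disjCF hC) hv
  have hψC : ∀ v ∈ Dc.C, ψ' v = S.φ v := fun v hv => if_pos hv
  have hψF : ∀ v ∈ Dc.F, ψ' v = (ψ v).1 := fun v hv => if_neg (hnotC v hv)
  have hclosed : ∀ u ∈ Fm, ∀ v ∈ Dc.F, Dc.rho v = Dc.rho u → v ∈ Fm := by
    intro u hu v hv h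
    rw [hFm, Finset.mem_filter] at hu ⊢
    exact ⟨hv, by rw [h]; exact hu.2⟩
  have hrefmem : ∀ v ∈ Fm, Dc.lev v ≠ 1 → Dc.ref v ∈ Fm := by
    intro v hv hl
    obtain ⟨h5, _, h6⟩ := Dc.step v (hFmF hv) hl
    exact hclosed v hv _ h5 h6.symm
  -- adjacency of every vertex of Fm with its reference
  have hadj : ∀ v ∈ Fm, G.Adj (ψ' (Dc.ref v)) (ψ' v) := by
    intro v hv
    have h5 := hdt v hv
    have hvF := hFmF hv
    by_cases hl : Dc.lev v = 1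
    · have h6 : (S.law W).dt v ψ = (Fintype.card S.P : ℝ) * S.q (Dc.ref v) (ψ v).1 := if_pos hl
      rw [h6] at h5
      have h7 := (Dc.root v hvF hl).1
      rw [hψC _ h7, hψF _ hvF]
      by_contra hcon
      exact h5 (by rw [S.q_adj _ h7 _ hcon, mul_zero])
    · have h6 : (S.law W).dt v ψ = W (ψ (Dc.ref v)) (ψ v) := if_neg hl
      rw [h6] at h5
      have h7 := (Dc.step v hvF hl).1
      rw [hψF _ h7, hψF _ hvF]
      by_contra hcon
      exact h5 (hW.zero _ _ hcon)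
  have hclr' : ∀ v ∈ Fm, (S.law W).clr v ψ = χ (ψ' (Dc.ref v)) (ψ' v) := by
    intro v hv
    have hvF := hFmF hv
    by_cases hl : Dc.lev v = 1
    · have h6 : (S.law W).clr v ψ = χ (S.φ (Dc.ref v)) (ψ v).1 := if_pos hl
      rw [h6, hψC _ (Dc.root v hvF hl).1, hψF _ hvF]
    · have h6 : (S.law W).clr v ψ = χ (ψ (Dc.ref v)).1 (ψ v).1 := if_neg hl
      rw [h6, hψF _ (Dc.step v hvF hl).1, hψF _ hvF]
  have hDdisj : ∀ ρ ∈ M, ∀ ρ' ∈ M, ρ ≠ ρ' → Disjoint (Dc.F.filter (fun v => Dc.rho v = ρ))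
      (Dc.F.filter (fun v => Dc.rho v = ρ')) := by
    intro ρ _ ρ' _ hne
    rw [Finset.disjoint_left]
    intro v hv hv'
    exact hne ((Finset.mem_filter.mp hv).2.symm.trans (Finset.mem_filter.mp hv').2)
  have hunion : Fm = M.biUnion (fun ρ => Dc.F.filter (fun v => Dc.rho v = ρ)) := by
    ext v
    simp only [hFm, Finset.mem_filter, Finset.mem_biUnion]
    constructor
    · rintro ⟨h5, h6⟩; exact ⟨_, h6, h5, rfl⟩
    · rintro ⟨ρ, h6, h5, h7⟩; exact ⟨h5, by rw [h7]; exact h6⟩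
  -- sums over M of sums over components
  have hsum : ∀ (t : Finset τ) (b : τ → ℝ), ∑ ρ ∈ M, ∑ u ∈ (Dc.F.filter (fun v => Dc.rho v = ρ)) ∩ t,
      b u = ∑ u ∈ t ∩ Fm, b u := by
    intro t b
    rw [← Finset.sum_biUnion]
    · refine Finset.sum_congr ?_ fun _ _ => rfl
      rw [hunion]
      ext u
      simp only [Finset.mem_biUnion, Finset.mem_inter]
      constructor
      · rintro ⟨ρ, h5, h6, h7⟩; exact ⟨h7, ρ, h5, h6⟩
      · rintro ⟨h7, ρ, h5, h6⟩; exact ⟨ρ, h5, h6, h7⟩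
    · intro ρ hρ ρ' hρ' hne
      exact Finset.disjoint_of_subset_left Finset.inter_subset_left
        (Finset.disjoint_of_subset_right Finset.inter_subset_left (hDdisj ρ hρ ρ' hρ' hne))
  have hcount : ∀ (t : Finset τ) (b : τ → ℝ) (Q : τ → Prop) [DecidablePred Q], (∀ u ∈ t ∩ Fm, b u ≤ 1) →
      (∀ u ∈ t ∩ Fm, ¬ Q u → b u ≤ 0) →
      ∑ u ∈ t ∩ Fm, b u ≤ (((t ∩ Fm).filter Q).card : ℝ) := by
    intro t b Q _ hb1 hb0
    rw [Finset.card_filter]
    push_cast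
    refine Finset.sum_le_sum fun u hu => ?_
    by_cases hQ : Q u
    · rw [if_pos hQ]; exact hb1 u hu
    · rw [if_neg hQ]; exact hb0 u hu hQ
  have hind0 : ∀ (w : V) (y : S.P), ¬ G.Adj y.1 w → ind (S.nb w) y = 0 := by
    intro w y h
    unfold ind
    rw [if_neg]
    intro h5
    exact h ((E9_mem_nb S w y).mp h5).symm
  have hind2 : ∀ (x z : V) (y : S.P), ¬ (G.Adj y.1 x ∧ G.Adj y.1 z) →
      ind (S.nb x ∩ S.nb z) y = 0 := by
    intro x z y h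
    unfold ind
    rw [if_neg]
    intro h5
    obtain ⟨h6, h7⟩ := Finset.mem_inter.mp h5
    exact h ⟨((E9_mem_nb S x y).mp h6).symm, ((E9_mem_nb S z y).mp h7).symm⟩
  refine ⟨{ ψ := ψ', Fm := Fm, A := A, FmF := hFmF, closed := hclosed, AFm := hA, inj := ?_,
            hom := ?_, colInj := ?_, cardA := ?_, cardF := ?_, leafA := ?_, leafB := ?_,
            bare := ?_ }⟩
  · -- injectivity
    have hcross : ∀ u ∈ Dc.C, ∀ v ∈ Fm, ψ' u ≠ ψ' v := by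
      intro u hu v hv h
      rw [hψC u hu, hψF v (hFmF hv)] at h
      exact (ψ v).2 (by rw [← h]; exact Finset.mem_image_of_mem _ hu)
    intro u hu v hv h
    rcases hu with hu | hu <;> rcases hv with hv | hv
    · rw [hψC u hu, hψC v hv] at h
      exact S.inj hu hv h
    · exact absurd h (hcross u hu v hv)
    · exact absurd h.symm (hcross v hv u hu)
    · rw [hψF u (hFmF hu), hψF v (hFmF hv)] at h
      exact hinj hu hv (Subtype.ext h)
  · -- homomorphism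
    have hFC : ∀ v ∈ Fm, ∀ s ∈ Dc.C, T.Adj v s → G.Adj (ψ' v) (ψ' s) := by
      intro v hv s hs h
      have h5 := Dc.adj_C v (hFmF hv) s hs h
      rw [← h5]
      exact (hadj v hv).symm
    intro u hu v hv h
    rcases Finset.mem_union.mp hu with hu | hu <;> rcases Finset.mem_union.mp hv with hv | hv
    · rw [hψC u hu, hψC v hv]
      exact S.hom u hu v hv h
    · exact (hFC v hv u hu h.symm).symm
    · exact hFC u hu v hv h
    · rcases Dc.adj_F u (hFmF hu) v (hFmF hv) h with h5 | h5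
      · rw [← h5]; exact (hadj u hu).symm
      · rw [← h5]; exact hadj v hv
  · intro u hu v hv h
    refine hclr hu hv ?_
    show (S.law W).clr u ψ = (S.law W).clr v ψ
    rw [hclr' u (hA hu), hclr' v (hA hv)]
    exact h
  · refine h0.trans ?_
    have h5 : ∀ ρ ∈ M, E9_f S Sl a (Sum.inr (Sum.inr (Sum.inr 0))) ρ ψ (A ∩ (S.law W).D ρ) =
        ∑ u ∈ (Dc.F.filter (fun v => Dc.rho v = ρ)) ∩ A, (1 : ℝ) := by
      intro ρ _
      have hD : (S.law W).D ρ = Dc.F.filter (fun v => Dc.rho v = ρ) := rfl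
      rw [E9_f0, Finset.sum_const, nsmul_eq_mul, mul_one, hD]
      congr 2
      ext u
      simp only [Finset.mem_inter, Finset.mem_filter]
      tauto
    rw [Finset.sum_congr rfl h5, hsum A (fun _ => 1)]
    rw [Finset.sum_const, nsmul_eq_mul, mul_one]
    exact_mod_cast Finset.card_le_card Finset.inter_subset_left
  · refine h1.trans ?_
    have h5 : ∀ ρ ∈ M, E9_f S Sl a (Sum.inr (Sum.inr (Sum.inr 1))) ρ ψ (A ∩ (S.law W).D ρ) =
        ∑ u ∈ (Dc.F.filter (fun v => Dc.rho v = ρ)) ∩ Dc.F, (1 : ℝ) := by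
      intro ρ _
      rw [E9_f1, Finset.sum_const, nsmul_eq_mul, mul_one]
      congr 2
      ext u
      simp only [Finset.mem_inter, Finset.mem_filter]
      tauto
    rw [Finset.sum_congr rfl h5, hsum Dc.F (fun _ => 1)]
    rw [Finset.sum_const, nsmul_eq_mul, mul_one]
    have : ((Dc.F ∩ Fm).card : ℝ) ≤ (Fm.card : ℝ) := by
      exact_mod_cast Finset.card_le_card Finset.inter_subset_right
    linarith
  · intro hl w g
    refine (h2 hl (w, g)).trans ?_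
    show ∑ ρ ∈ M, ∑ u ∈ (Dc.F.filter (fun v => Dc.rho v = ρ)) ∩ leafF Dc, E9_bA S w g u ψ ≤ _
    rw [hsum (leafF Dc) (fun u => E9_bA S w g u ψ)]
    refine hcount _ _ _ (fun u _ => (E9_bA01 S w g u ψ).2) fun u hu hQ => ?_
    have hu2 := (Finset.mem_inter.mp hu).2
    have huF := hFmF hu2
    unfold E9_bA
    by_cases hl1 : Dc.lev u = 1
    · rw [if_pos hl1]
      have hrC := (Dc.root u huF hl1).1
      rw [hψC _ hrC, hψF _ huF] at hQ
      by_cases h5 : G.Adj (S.φ (Dc.ref u)) w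
      · have h6 : ¬ G.Adj (ψ u).1 g := fun h6 => hQ ⟨h5, h6⟩
        rw [hind0 g _ h6, mul_zero]
      · rw [if_neg h5, zero_mul]
    · rw [if_neg hl1]
      have hrF := (Dc.step u huF hl1).1
      rw [hψF _ hrF, hψF _ huF] at hQ
      by_cases h5 : G.Adj (ψ (Dc.ref u)).1 w
      · have h6 : ¬ G.Adj (ψ u).1 g := fun h6 => hQ ⟨h5, h6⟩
        rw [hind0 g _ h6, mul_zero]
      · rw [hind0 w _ h5, zero_mul]
  · intro hl x z
    refine (h3 hl (x, z)).trans ?_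
    show ∑ ρ ∈ M, ∑ u ∈ (Dc.F.filter (fun v => Dc.rho v = ρ)) ∩ leafF Dc,
      ind (S.nb x ∩ S.nb z) (ψ u) ≤ _
    rw [hsum (leafF Dc) (fun u => ind (S.nb x ∩ S.nb z) (ψ u))]
    refine hcount _ _ _ (fun u _ => (E9_ind01 _ _).2) fun u hu hQ => ?_
    have hu2 := (Finset.mem_inter.mp hu).2
    rw [hψF _ (hFmF hu2)] at hQ
    rw [hind2 x z _ hQ]
  · intro hl w x z
    refine (h4 hl (w, x, z)).trans ?_
    show ∑ ρ ∈ M, ∑ u ∈ (Dc.F.filter (fun v => Dc.rho v = ρ)) ∩ Sl,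
      ind (S.nb w) (ψ (Dc.ref u)) * ind (S.nb x ∩ S.nb z) (ψ u) * ind (S.nb w) (ψ (a u)) ≤ _
    rw [hsum Sl (fun u => ind (S.nb w) (ψ (Dc.ref u)) * ind (S.nb x ∩ S.nb z) (ψ u) *
      ind (S.nb w) (ψ (a u)))]
    refine hcount _ _ _ (fun u _ => ?_) fun u hu hQ => ?_
    · have h1 := E9_ind01 (S.nb w) (ψ (Dc.ref u))
      have h2 := E9_ind01 (S.nb x ∩ S.nb z) (ψ u)
      have h3 := E9_ind01 (S.nb w) (ψ (a u))
      exact mul_le_one₀ (mul_le_one₀ h1.2 h2.1 h2.2) h3.1 h3.2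
    · have hu2 := (Finset.mem_inter.mp hu).2
      have hb := hSl u (Finset.mem_inter.mp hu).1
      have hl1 : Dc.lev u ≠ 1 := by have := hb.2.1; omega
      have hrF := (Dc.step u (hFmF hu2) hl1).1
      rw [hψF _ hrF, hψF _ (hFmF hu2), hψF _ hb.2.2.1] at hQ
      by_cases h5 : G.Adj (ψ (Dc.ref u)).1 w
      · by_cases h6 : G.Adj (ψ (a u)).1 w
        · have h7 : ¬ (G.Adj (ψ u).1 x ∧ G.Adj (ψ u).1 z) := fun h7 => hQ ⟨h5, h6, h7.1, h7.2⟩
          rw [hind2 x z _ h7]; simp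
        · rw [hind0 w _ h6, mul_zero]
      · rw [hind0 w _ h5, zero_mul, zero_mul]


variable [DecidableRel G.Adj]

theorem E9_ExA (S : Setup G χ Dc c Δ Lf) (hc : 1 / 2 < c) (hc1 : c < 1)
    (hcard : Fintype.card τ = Fintype.card V) (hn : 0 < Fintype.card V)
    (hδ : ∀ x, c * (Fintype.card V : ℝ) ≤ (G.degree x : ℝ))
    (hχ : ∀ x y z, G.Adj x y → G.Adj x z → χ x y = χ x z → y = z)
    (hχs : ∀ x y, χ x y = χ y x)
    (he : 0 ≤ e) (he1 : e ≤ (c - 1 / 2) / 4) (hLf : Lf = leafF Dc ∩ Dc.roots)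
    (W : S.P → S.P → ℝ) (hW : Ker S W) [Nonempty S.P] (Sl : Finset τ) (a : τ → τ) (p : V × V) :
    (c - 1 / 2) ^ 4 / 2 * ((leafF Dc).card : ℝ)
      - (c - 1 / 2) ^ 2 * (2 * Δ * Real.log (Fintype.card V)) ≤
      (S.law W).Ex (E9_f S Sl a (Sum.inl p)) := by
  have hOK := law_ok S hc hc1 hcard hn hχ hχs he he1 W hW
  have hEx : (S.law W).Ex (E9_f S Sl a (Sum.inl p)) = ∑ u ∈ (S.law W).F ∩ leafF Dc,
      avF (fun ψ => (∏ v ∈ (S.law W).D ((S.law W).rho u), (S.law W).dt v ψ) *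
        E9_bA S p.1 p.2 u ψ) :=
    Ex_sum (S.law W) K _ hOK (leafF Dc) (fun u ψ => E9_bA S p.1 p.2 u ψ)
  have hg : ∀ ρ ∈ (S.law W).roots, 1 / 2 ≤ avP ((S.law W).g ρ) := by
    intro ρ hρ
    have h1 := g_mass S hc hc1 hcard hn he he1 W ρ hρ
    have h2 : 2 * e / (c - 1 / 2) ≤ 1 / 2 := by
      rw [div_le_iff₀ (by linarith)]; linarith
    linarith
  have hFl : (S.law W).F ∩ leafF Dc = leafF Dc := by
    apply Finset.inter_eq_right.mpr
    exact Finset.filter_subset _ _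
  rw [hEx, hFl]
  have hsplit : leafF Dc = Lf ∪ (leafF Dc).filter (fun u => Dc.lev u ≠ 1) := by
    rw [hLf]
    ext u
    simp only [Finset.mem_union, Finset.mem_inter, Finset.mem_filter, Decomp.roots]
    constructor
    · intro h
      by_cases h1 : Dc.lev u = 1
      · exact Or.inl ⟨h, (Finset.mem_filter.mp h).1, h1⟩
      · exact Or.inr ⟨h, h1⟩
    · rintro (h | h)
      · exact h.1
      · exact h.1
  have hdisj : Disjoint Lf ((leafF Dc).filter (fun u => Dc.lev u ≠ 1)) := by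
    rw [hLf, Finset.disjoint_left]
    intro u h1 h2
    simp only [Finset.mem_inter, Finset.mem_filter, Decomp.roots] at h1 h2
    exact h2.2 h1.2.2
  have hcardL : ((leafF Dc).card : ℝ) = (Lf.card : ℝ) +
      (((leafF Dc).filter (fun u => Dc.lev u ≠ 1)).card : ℝ) := by
    conv_lhs => rw [hsplit]
    rw [Finset.card_union_of_disjoint hdisj]; push_cast; ring
  rw [hsplit, Finset.sum_union hdisj, ← hsplit]
  have hroot : ∑ u ∈ Lf, avF (fun ψ => (∏ v ∈ (S.law W).D ((S.law W).rho u), (S.law W).dt v ψ) *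
        E9_bA S p.1 p.2 u ψ) = ∑ ρ ∈ Lf, (if G.Adj (S.φ (Dc.ref ρ)) p.1 then (1 : ℝ) else 0) *
        avP (fun y => (S.law W).g ρ y * ind (S.nb p.2) y) := by
    refine Finset.sum_congr rfl fun u hu => ?_
    rw [hLf] at hu
    have hur := Finset.mem_filter.mp (Finset.mem_inter.mp hu).2
    have h1 := marg_one (S.law W) K _ hOK u hur.1
      (fun y => (if G.Adj (S.φ (Dc.ref u)) p.1 then (1 : ℝ) else 0) * ind (S.nb p.2) y)
    have hrho : (S.law W).rho u = u := (Dc.root u hur.1 hur.2).2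
    have hlev : (S.law W).lev u = 1 := hur.2
    rw [hlev] at h1
    simp only [Nat.sub_self, Function.iterate_zero, id_eq] at h1
    have h2 : (fun ψ : τ → S.P => (∏ v ∈ (S.law W).D ((S.law W).rho u), (S.law W).dt v ψ) *
        E9_bA S p.1 p.2 u ψ) = (fun ψ => (∏ v ∈ (S.law W).D ((S.law W).rho u), (S.law W).dt v ψ) *
        ((if G.Adj (S.φ (Dc.ref u)) p.1 then (1 : ℝ) else 0) * ind (S.nb p.2) (ψ u))) := by
      funext ψ
      unfold E9_bA
      rw [if_pos hur.2]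
      by_cases hadj : G.Adj (S.φ (Dc.ref u)) p.1
      · rw [if_pos hadj, if_pos hadj]
      · rw [if_neg hadj, if_neg hadj]
    rw [h2, h1, hrho]
    unfold avP
    rw [← mul_div_assoc, Finset.mul_sum]
    congr 1
    refine Finset.sum_congr rfl fun y _ => ?_
    ring
  rw [hroot]
  have hA := leaf_root_A S hc hc1 hcard hn hδ he he1 (by rw [hLf]; exact Finset.inter_subset_right)
    W p.1 p.2
  have hB : (c - 1 / 2) ^ 4 / 2 * (((leafF Dc).filter (fun u => Dc.lev u ≠ 1)).card : ℝ) ≤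
      ∑ u ∈ (leafF Dc).filter (fun u => Dc.lev u ≠ 1),
      avF (fun ψ => (∏ v ∈ (S.law W).D ((S.law W).rho u), (S.law W).dt v ψ) *
        E9_bA S p.1 p.2 u ψ) := by
    rw [mul_comm, ← nsmul_eq_mul]
    refine Finset.card_nsmul_le_sum _ _ _ fun u hu => ?_
    have hu1 := Finset.mem_filter.mp hu
    have huF : u ∈ (S.law W).F := (Finset.mem_filter.mp hu1.1).1
    have hα2 : (0 : ℝ) ≤ (c - 1 / 2) ^ 2 := sq_nonneg _
    have hα3 : (c - 1 / 2) ^ 2 ≤ 1 := by nlinarith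
    have h1 := leafA (S.law W) K _ hOK ((c - 1 / 2) ^ 2) hα2 hα3
      (S.nb p.1) (S.nb p.2) (nb_rich S hc hc1 hcard hn hδ he he1 W hW p.1)
      (nb_rich S hc hc1 hcard hn hδ he he1 W hW p.2) hg u huF hu1.2
    have h2 : (fun ψ : τ → S.P => (∏ v ∈ (S.law W).D ((S.law W).rho u), (S.law W).dt v ψ) *
        E9_bA S p.1 p.2 u ψ) = (fun ψ => (∏ v ∈ (S.law W).D ((S.law W).rho u), (S.law W).dt v ψ) *
        (ind (S.nb p.1) (ψ ((S.law W).ref u)) * ind (S.nb p.2) (ψ u))) := by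
      funext ψ
      unfold E9_bA
      rw [if_neg hu1.2]
      rfl
    rw [h2]
    calc (c - 1 / 2) ^ 4 / 2 = ((c - 1 / 2) ^ 2) ^ 2 / 2 := by ring
      _ ≤ _ := h1
  rw [hcardL]
  have hLc : 0 ≤ (Lf.card : ℝ) := Nat.cast_nonneg _
  have hα : 0 < c - 1 / 2 := by linarith
  clear hsplit hdisj hcardL hroot hFl hEx hLf
  have h3 : (c - 1 / 2) ^ 4 / 2 * (Lf.card : ℝ) ≤ (c - 1 / 2) ^ 2 * (c * (c - 1 / 2) / 2 * (Lf.card : ℝ)) := by
    have h4 : (c - 1 / 2) ^ 4 / 2 ≤ (c - 1 / 2) ^ 2 * (c * (c - 1 / 2) / 2) := by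
      have h5 : (c - 1 / 2) ^ 4 / 2 = (c - 1 / 2) ^ 3 / 2 * (c - 1 / 2) := by ring
      have h6 : (c - 1 / 2) ^ 2 * (c * (c - 1 / 2) / 2) = (c - 1 / 2) ^ 3 / 2 * c := by ring
      rw [h5, h6]
      exact mul_le_mul_of_nonneg_left (by linarith) (by positivity)
    nlinarith
  nlinarith

theorem E9_frac (S : Setup G χ Dc c Δ Lf) (hc : 1 / 2 < c)
    (hcard : Fintype.card τ = Fintype.card V)
    (hδ : ∀ x, c * (Fintype.card V : ℝ) ≤ (G.degree x : ℝ))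
    (he1 : e ≤ (c - 1 / 2) / 4) [Nonempty S.P] (x z : V) :
    c - 1 / 2 ≤ ((S.nb x ∩ S.nb z).card : ℝ) / (Fintype.card S.P : ℝ) := by
  have h1 := nb_card S hcard hδ he1 hc x z
  have h2 := card_P S
  have h3 : (0 : ℝ) < (Fintype.card S.P : ℝ) := by exact_mod_cast Fintype.card_pos
  have h4 : (Fintype.card S.P : ℝ) ≤ (Fintype.card V : ℝ) := by
    exact_mod_cast (by omega : Fintype.card S.P ≤ Fintype.card V)
  rw [le_div_iff₀ h3]
  have : (c - 1 / 2) * (Fintype.card S.P : ℝ) ≤ (c - 1 / 2) * (Fintype.card V : ℝ) :=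
    mul_le_mul_of_nonneg_left h4 (by linarith)
  linarith

theorem E9_ExB (S : Setup G χ Dc c Δ Lf) (hc : 1 / 2 < c) (hc1 : c < 1)
    (hcard : Fintype.card τ = Fintype.card V) (hn : 0 < Fintype.card V)
    (hδ : ∀ x, c * (Fintype.card V : ℝ) ≤ (G.degree x : ℝ))
    (hχ : ∀ x y z, G.Adj x y → G.Adj x z → χ x y = χ x z → y = z)
    (hχs : ∀ x y, χ x y = χ y x)
    (he : 0 ≤ e) (he1 : e ≤ (c - 1 / 2) / 4) (hLf : Lf = leafF Dc ∩ Dc.roots)
    (W : S.P → S.P → ℝ) (hW : Ker S W) [Nonempty S.P] (Sl : Finset τ) (a : τ → τ) (p : V × V) :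
    (c - 1 / 2) ^ 4 / 2 * ((leafF Dc).card : ℝ)
      - (c - 1 / 2) ^ 2 * (2 * Δ * Real.log (Fintype.card V)) ≤
      (S.law W).Ex (E9_f S Sl a (Sum.inr (Sum.inl p))) := by
  have hOK := law_ok S hc hc1 hcard hn hχ hχs he he1 W hW
  have hEx : (S.law W).Ex (E9_f S Sl a (Sum.inr (Sum.inl p))) = ∑ u ∈ (S.law W).F ∩ leafF Dc,
      avF (fun ψ => (∏ v ∈ (S.law W).D ((S.law W).rho u), (S.law W).dt v ψ) *
        ind (S.nb p.1 ∩ S.nb p.2) (ψ u)) :=
    Ex_sum (S.law W) K _ hOK (leafF Dc) (fun u ψ => ind (S.nb p.1 ∩ S.nb p.2) (ψ u))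
  have hg : ∀ ρ ∈ (S.law W).roots, 1 / 2 ≤ avP ((S.law W).g ρ) := by
    intro ρ hρ
    have h1 := g_mass S hc hc1 hcard hn he he1 W ρ hρ
    have h2 : 2 * e / (c - 1 / 2) ≤ 1 / 2 := by
      rw [div_le_iff₀ (by linarith)]; linarith
    linarith
  have hFl : (S.law W).F ∩ leafF Dc = leafF Dc := by
    apply Finset.inter_eq_right.mpr
    exact Finset.filter_subset _ _
  rw [hEx, hFl]
  have hsplit : leafF Dc = Lf ∪ (leafF Dc).filter (fun u => Dc.lev u ≠ 1) := by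
    rw [hLf]
    ext u
    simp only [Finset.mem_union, Finset.mem_inter, Finset.mem_filter, Decomp.roots]
    constructor
    · intro h
      by_cases h1 : Dc.lev u = 1
      · exact Or.inl ⟨h, (Finset.mem_filter.mp h).1, h1⟩
      · exact Or.inr ⟨h, h1⟩
    · rintro (h | h)
      · exact h.1
      · exact h.1
  have hdisj : Disjoint Lf ((leafF Dc).filter (fun u => Dc.lev u ≠ 1)) := by
    rw [hLf, Finset.disjoint_left]
    intro u h1 h2
    simp only [Finset.mem_inter, Finset.mem_filter, Decomp.roots] at h1 h2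
    exact h2.2 h1.2.2
  have hcardL : ((leafF Dc).card : ℝ) = (Lf.card : ℝ) +
      (((leafF Dc).filter (fun u => Dc.lev u ≠ 1)).card : ℝ) := by
    conv_lhs => rw [hsplit]
    rw [Finset.card_union_of_disjoint hdisj]; push_cast; ring
  rw [hsplit, Finset.sum_union hdisj, ← hsplit]
  have hroot : ∑ u ∈ Lf, avF (fun ψ => (∏ v ∈ (S.law W).D ((S.law W).rho u), (S.law W).dt v ψ) *
        ind (S.nb p.1 ∩ S.nb p.2) (ψ u)) = ∑ ρ ∈ Lf,
        avP (fun y => (S.law W).g ρ y * ind (S.nb p.1 ∩ S.nb p.2) y) := by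
    refine Finset.sum_congr rfl fun u hu => ?_
    rw [hLf] at hu
    have hur := Finset.mem_filter.mp (Finset.mem_inter.mp hu).2
    have h1 := marg_one (S.law W) K _ hOK u hur.1
      (fun y => ind (S.nb p.1 ∩ S.nb p.2) y)
    have hrho : (S.law W).rho u = u := (Dc.root u hur.1 hur.2).2
    have hlev : (S.law W).lev u = 1 := hur.2
    rw [hlev] at h1
    simp only [Nat.sub_self, Function.iterate_zero, id_eq] at h1
    rw [h1, hrho]
  rw [hroot]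
  have hA := leaf_root_B S hc hc1 hcard hn hδ he he1 (by rw [hLf]; exact Finset.inter_subset_right)
    W p.1 p.2
  have hα : 0 < c - 1 / 2 := by linarith
  have hB : (c - 1 / 2) ^ 4 / 2 * (((leafF Dc).filter (fun u => Dc.lev u ≠ 1)).card : ℝ) ≤
      ∑ u ∈ (leafF Dc).filter (fun u => Dc.lev u ≠ 1),
      avF (fun ψ => (∏ v ∈ (S.law W).D ((S.law W).rho u), (S.law W).dt v ψ) *
        ind (S.nb p.1 ∩ S.nb p.2) (ψ u)) := by
    rw [mul_comm, ← nsmul_eq_mul]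
    refine Finset.card_nsmul_le_sum _ _ _ fun u hu => ?_
    have hu1 := Finset.mem_filter.mp hu
    have huF : u ∈ (S.law W).F := (Finset.mem_filter.mp hu1.1).1
    have h1 := leafB (S.law W) K _ hOK ((c - 1 / 2) ^ 3) (by positivity)
      (law_twoStep S hc hc1 hcard hn hδ he he1 W hW) (S.nb p.1 ∩ S.nb p.2) hg u huF hu1.2
    refine le_trans ?_ h1
    have h2 := E9_frac S hc hcard hδ he1 p.1 p.2
    calc (c - 1 / 2) ^ 4 / 2 = (c - 1 / 2) ^ 3 / 2 * (c - 1 / 2) := by ring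
      _ ≤ _ := mul_le_mul_of_nonneg_left h2 (by positivity)
  rw [hcardL]
  have hLc : 0 ≤ (Lf.card : ℝ) := Nat.cast_nonneg _
  clear hsplit hdisj hcardL hroot hFl hEx hLf
  have h3 : (c - 1 / 2) ^ 4 / 2 * (Lf.card : ℝ) ≤ (c - 1 / 2) ^ 2 * (c * (c - 1 / 2) / 2 * (Lf.card : ℝ)) := by
    have h4 : (c - 1 / 2) ^ 4 / 2 ≤ (c - 1 / 2) ^ 2 * (c * (c - 1 / 2) / 2) := by
      have h5 : (c - 1 / 2) ^ 4 / 2 = (c - 1 / 2) ^ 3 / 2 * (c - 1 / 2) := by ring
      have h6 : (c - 1 / 2) ^ 2 * (c * (c - 1 / 2) / 2) = (c - 1 / 2) ^ 3 / 2 * c := by ring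
      rw [h5, h6]
      exact mul_le_mul_of_nonneg_left (by linarith) (by positivity)
    nlinarith
  nlinarith

theorem E9_ExC (S : Setup G χ Dc c Δ Lf) (hc : 1 / 2 < c) (hc1 : c < 1)
    (hcard : Fintype.card τ = Fintype.card V) (hn : 0 < Fintype.card V)
    (hδ : ∀ x, c * (Fintype.card V : ℝ) ≤ (G.degree x : ℝ))
    (hχ : ∀ x y z, G.Adj x y → G.Adj x z → χ x y = χ x z → y = z)
    (hχs : ∀ x y, χ x y = χ y x)
    (he : 0 ≤ e) (he1 : e ≤ (c - 1 / 2) / 4)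
    (W : S.P → S.P → ℝ) (hW : Ker S W) [Nonempty S.P] (Sl : Finset τ) (a : τ → τ)
    (hSl : ∀ u ∈ Sl, IsBare Dc u (a u)) (p : V × V × V) :
    (c - 1 / 2) ^ 8 / 2 * (Sl.card : ℝ) ≤
      (S.law W).Ex (E9_f S Sl a (Sum.inr (Sum.inr (Sum.inl p)))) := by
  have hOK := law_ok S hc hc1 hcard hn hχ hχs he he1 W hW
  have hEx : (S.law W).Ex (E9_f S Sl a (Sum.inr (Sum.inr (Sum.inl p)))) =
      ∑ u ∈ (S.law W).F ∩ Sl,
      avF (fun ψ => (∏ v ∈ (S.law W).D ((S.law W).rho u), (S.law W).dt v ψ) *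
        (ind (S.nb p.1) (ψ (Dc.ref u)) * ind (S.nb p.2.1 ∩ S.nb p.2.2) (ψ u) *
          ind (S.nb p.1) (ψ (a u)))) :=
    Ex_sum (S.law W) K _ hOK Sl (fun u ψ => ind (S.nb p.1) (ψ (Dc.ref u)) *
      ind (S.nb p.2.1 ∩ S.nb p.2.2) (ψ u) * ind (S.nb p.1) (ψ (a u)))
  have hg : ∀ ρ ∈ (S.law W).roots, 1 / 2 ≤ avP ((S.law W).g ρ) := by
    intro ρ hρ
    have h1 := g_mass S hc hc1 hcard hn he he1 W ρ hρ
    have h2 : 2 * e / (c - 1 / 2) ≤ 1 / 2 := by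
      rw [div_le_iff₀ (by linarith)]; linarith
    linarith
  have hFl : (S.law W).F ∩ Sl = Sl := by
    apply Finset.inter_eq_right.mpr
    intro u hu
    exact (hSl u hu).1
  rw [hEx, hFl]
  have hα : 0 < c - 1 / 2 := by linarith
  rw [mul_comm, ← nsmul_eq_mul]
  refine Finset.card_nsmul_le_sum _ _ _ fun u hu => ?_
  have hb := hSl u hu
  have h1 := bareC (S.law W) K _ hOK ((c - 1 / 2) ^ 2) ((c - 1 / 2) ^ 3) (by positivity)
      (by positivity)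
      (law_twoStep S hc hc1 hcard hn hδ he he1 W hW) (S.nb p.1) (S.nb p.2.1 ∩ S.nb p.2.2)
      (nb_rich S hc hc1 hcard hn hδ he he1 W hW p.1) hg u (a u) hb.1 hb.2.1 hb.2.2.1
      (E9_lev_a hb) hb.2.2.2.1
  refine le_trans ?_ h1
  have h2 := E9_frac S hc hcard hδ he1 p.2.1 p.2.2
  calc (c - 1 / 2) ^ 8 / 2 = (c - 1 / 2) ^ 3 * ((c - 1 / 2) ^ 2) ^ 2 / 2 * (c - 1 / 2) := by ring
    _ ≤ _ := mul_le_mul_of_nonneg_left h2 (by positivity)

omit [DecidableRel G.Adj] [DecidableEq V] in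
theorem E9_Fcard (hK : 1 ≤ K) (hcard : Fintype.card τ = Fintype.card V) (hn : 0 < Fintype.card V)
    (hlev : ∀ v ∈ Dc.F, Dc.lev v ≤ K) :
    (Dc.F.card : ℝ) = (Dc.roots.card : ℝ) + (Fintype.card V : ℝ) * ∑ j ∈ Ico 1 K, Dc.om j := by
  have h1 : (Dc.F.card : ℕ) = ∑ j ∈ range K, (Dc.F.filter (fun v => Dc.lev v = j + 1)).card := by
    have h2 : ∀ v ∈ Dc.F, Dc.lev v - 1 ∈ range K := by
      intro v hv
      have := hlev v hv
      have := Dc.lev_pos v hv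
      rw [Finset.mem_range]; omega
    rw [Finset.card_eq_sum_card_fiberwise (f := fun v => Dc.lev v - 1) (t := range K) h2]
    refine Finset.sum_congr rfl fun j _ => ?_
    congr 1
    ext v
    simp only [Finset.mem_filter]
    constructor
    · rintro ⟨hv, hj⟩
      have := Dc.lev_pos v hv
      exact ⟨hv, by omega⟩
    · rintro ⟨hv, hj⟩
      exact ⟨hv, by omega⟩
  have hn' : (Fintype.card V : ℝ) ≠ 0 := by exact_mod_cast hn.ne'
  have h3 : (Dc.F.card : ℝ) = ∑ j ∈ range K, (Fintype.card V : ℝ) * Dc.om j := by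
    rw [h1]; push_cast
    refine Finset.sum_congr rfl fun j _ => ?_
    unfold Decomp.om
    rw [hcard]; field_simp
  rw [h3, ← Finset.mul_sum, Finset.range_eq_Ico, Finset.sum_eq_sum_Ico_succ_bot (by omega),
    mul_add]
  congr 1
  unfold Decomp.om Decomp.roots
  rw [hcard]
  simp only [Nat.zero_add]
  field_simp

theorem E9_ExR (S : Setup G χ Dc c Δ Lf) (hc : 1 / 2 < c) (hc1 : c < 1)
    (hcard : Fintype.card τ = Fintype.card V) (hn : 0 < Fintype.card V)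
    (hδ : ∀ x, c * (Fintype.card V : ℝ) ≤ (G.degree x : ℝ))
    (hχ : ∀ x y z, G.Adj x y → G.Adj x z → χ x y = χ x z → y = z)
    (hχs : ∀ x y, χ x y = χ y x) (hK : 1 ≤ K)
    (he : 0 ≤ e) (he1 : e ≤ (c - 1 / 2) / 4)
    (W : S.P → S.P → ℝ) (hW : Ker S W) [Nonempty S.P] (Sl : Finset τ) (a : τ → τ)
    (σ : ℝ) (hσ : 0 ≤ σ) (h1 : (S.law W).H1 K Dc.om σ) :
    (c - 2 * e / (c - 1 / 2)) * (Dc.F.card : ℝ) - 2 * Real.sqrt (K * Δ * (Fintype.card V : ℝ))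
      - σ * (Fintype.card V : ℝ) ≤
      (S.law W).Ex (E9_f S Sl a (Sum.inr (Sum.inr (Sum.inr 0)))) := by
  have hOK := law_ok S hc hc1 hcard hn hχ hχs he he1 W hW
  have hα : 0 < c - 1 / 2 := by linarith
  have hEx : (S.law W).Ex (E9_f S Sl a (Sum.inr (Sum.inr (Sum.inr 0)))) =
      (S.law W).Ex (fun _ _ A => (A.card : ℝ)) := by
    unfold LawData.Ex
    refine Finset.sum_congr rfl fun ρ _ => ?_
    congr 1
    funext ψ
    refine Finset.sum_congr rfl fun A hA => ?_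
    have hA' : A ⊆ Dc.F.filter (fun v => Dc.rho v = ρ) := Finset.mem_powerset.mp hA
    have : A ∩ Dc.F.filter (fun v => Dc.rho v = ρ) = A := Finset.inter_eq_left.mpr hA'
    show _ * (if (0 : Fin 2) = 0 then ((A ∩ Dc.F.filter (fun v => Dc.rho v = ρ)).card : ℝ)
      else ((Dc.F.filter (fun v => Dc.rho v = ρ)).card : ℝ)) = _
    rw [if_pos rfl, this]
  rw [hEx]
  have hC2 : (1 : ℝ) ≤ 1 + 2 / (c - 1 / 2) := by
    have : 0 < 2 / (c - 1 / 2) := by positivity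
    linarith
  have h2 := Ex_rb (S.law W) K hK _ hOK hC2 Dc.om (om_sum Dc).1 σ h1
  have h3 := gr_total S hc hc1 hcard hn he he1 W
  have h4 := E9_Fcard (Dc := Dc) hK hcard hn hOK.lev_le
  have h5 := card_P S
  have h6 := Dc.card_C
  have h7 := hW.cost
  have hP : (Fintype.card S.P : ℝ) + (Dc.C.card : ℝ) = (Fintype.card V : ℝ) := by exact_mod_cast h5
  rw [hcard] at h6
  set n : ℝ := (Fintype.card V : ℝ) with hndef
  set m : ℝ := (Fintype.card S.P : ℝ) with hmdef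
  set Om : ℝ := ∑ j ∈ Ico 1 K, Dc.om j with hOm
  set mm : ℝ := avP (fun x => avP (fun y => min (W x y) 1)) with hmm
  have hOm0 : 0 ≤ Om := Finset.sum_nonneg fun j _ => (om_sum Dc).1 j
  have hn0 : 0 < n := by rw [hndef]; exact_mod_cast hn
  have hm1 : (1 - e) * n ≤ m := by nlinarith
  have hm2 : m ≤ n := by
    have : (0 : ℝ) ≤ (Dc.C.card : ℝ) := Nat.cast_nonneg _
    linarith
  have hce : 0 ≤ c - e := by linarith
  have h8 : (c - 2 * e / (c - 1 / 2)) ≤ (1 - e) * (c - e) := by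
    have h9 : 2 * e ≤ 2 * e / (c - 1 / 2) := by
      rw [le_div_iff₀ hα]; nlinarith
    nlinarith
  have h10 : (1 - e) * n * Om * (c - e) ≤ m * Om * mm := by
    have h11 : (1 - e) * n * Om ≤ m * Om := mul_le_mul_of_nonneg_right hm1 hOm0
    have h12 : 0 ≤ (1 - e) * n * Om := by
      have : 0 ≤ 1 - e := by linarith
      positivity
    have h13 : c - e ≤ mm := h7
    calc (1 - e) * n * Om * (c - e) ≤ m * Om * (c - e) := mul_le_mul_of_nonneg_right h11 hce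
      _ ≤ m * Om * mm := mul_le_mul_of_nonneg_left h13 (by linarith)
  have h14 : (c - 2 * e / (c - 1 / 2)) * (n * Om) ≤ (1 - e) * n * Om * (c - e) := by
    have : 0 ≤ n * Om := by positivity
    nlinarith [mul_le_mul_of_nonneg_right h8 this]
  have h15 : σ * m ≤ σ * n := mul_le_mul_of_nonneg_left hm2 hσ
  have h2' : (∑ ρ ∈ (S.law W).roots, avP ((S.law W).gr ρ)) + m * Om * mm - σ * m ≤
      (S.law W).Ex (fun _ _ A => (A.card : ℝ)) := h2
  rw [h4]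
  nlinarith

theorem E9_ExS (S : Setup G χ Dc c Δ Lf) (hc : 1 / 2 < c) (hc1 : c < 1)
    (hcard : Fintype.card τ = Fintype.card V) (hn : 0 < Fintype.card V)
    (hχ : ∀ x y z, G.Adj x y → G.Adj x z → χ x y = χ x z → y = z)
    (hχs : ∀ x y, χ x y = χ y x)
    (he : 0 ≤ e) (he1 : e ≤ (c - 1 / 2) / 4)
    (W : S.P → S.P → ℝ) (hW : Ker S W) [Nonempty S.P] (Sl : Finset τ) (a : τ → τ) :
    (1 - 2 * e / (c - 1 / 2)) * (Dc.F.card : ℝ) ≤
      (S.law W).Ex (E9_f S Sl a (Sum.inr (Sum.inr (Sum.inr 1)))) := by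
  have hOK := law_ok S hc hc1 hcard hn hχ hχs he he1 W hW
  have hEx : (S.law W).Ex (E9_f S Sl a (Sum.inr (Sum.inr (Sum.inr 1)))) =
      (S.law W).Ex (fun ρ _ _ => (((S.law W).D ρ).card : ℝ)) := by
    unfold LawData.Ex
    refine Finset.sum_congr rfl fun ρ _ => ?_
    congr 1
  rw [hEx, Ex_size (S.law W) K _ hOK, mul_comm, ← nsmul_eq_mul]
  refine Finset.card_nsmul_le_sum _ _ _ fun v hv => ?_
  exact g_mass S hc hc1 hcard hn he he1 W _ (E9_rho_root v hv)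

/-- the core of the assembly, for `K ≥ 1` -/
theorem E9_main (S : Setup G χ Dc c Δ Lf) (hc : 1 / 2 < c) (hc1 : c < 1)
    (hcard : Fintype.card τ = Fintype.card V) (hn : 64 ≤ Fintype.card V)
    (hδ : ∀ x, c * (Fintype.card V : ℝ) ≤ (G.degree x : ℝ))
    (hχ : ∀ x y z, G.Adj x y → G.Adj x z → χ x y = χ x z → y = z)
    (hχs : ∀ x y, χ x y = χ y x) (hK : 1 ≤ K)
    (ε εl : ℝ) (hε : 0 < ε) (hεl : 0 < εl) (hl1 : εl ≤ ε / 16)
    (hl2 : εl ≤ (c - 1 / 2) ^ 8 / 1000) (hl3 : εl ≤ 1 / 4)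
    (he : 0 ≤ e) (he1 : e ≤ (c - 1 / 2) / 8) (he2 : e ≤ ε * (c - 1 / 2) / 32)
    (hLf : Lf = leafF Dc ∩ Dc.roots)
    (W : S.P → S.P → ℝ) (hW : Ker S W) [Nonempty S.P] (Sl : Finset τ) (a : τ → τ)
    (hSl : ∀ u ∈ Sl, IsBare Dc u (a u))
    (σ : ℝ) (hσ : 0 ≤ σ) (hσ1 : σ ≤ ε / 16) (h1 : (S.law W).H1 K Dc.om σ)
    (hΔ : Δ * Real.log (Fintype.card V) ≤ (c - 1 / 2) ^ 2 / 1600 * (Fintype.card V : ℝ))
    (hsq : 2 * Real.sqrt (K * Δ * (Fintype.card V : ℝ)) ≤ ε / 8 * (Fintype.card V : ℝ))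
    (M : Finset τ) (ψ : τ → S.P) (A : Finset τ)
    (hM : M ⊆ (S.law W).roots)
    (hA : A ⊆ (S.law W).F.filter (fun v => (S.law W).rho v ∈ M))
    (hinj : Set.InjOn ψ ((S.law W).F.filter (fun v => (S.law W).rho v ∈ M) : Set τ))
    (hdt : ∀ v ∈ (S.law W).F.filter (fun v => (S.law W).rho v ∈ M), (S.law W).dt v ψ ≠ 0)
    (hclr : Set.InjOn (fun v => (S.law W).clr v ψ) (A : Set τ))
    (hf : ∀ i, (1 - εl) * (S.law W).Ex (E9_f S Sl a i) - εl * Fintype.card S.P ≤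
      ∑ ρ ∈ M, E9_f S Sl a i ρ ψ (A ∩ (S.law W).D ρ)) :
    Nonempty (Emb G χ Dc c ε ((c - 1 / 2) ^ 8 / 1000) Sl a) := by
  have hn0 : 0 < Fintype.card V := by omega
  have hα : 0 < c - 1 / 2 := by linarith
  have hα2 : c - 1 / 2 < 1 / 2 := by linarith
  have he4 : e ≤ (c - 1 / 2) / 4 := by linarith
  have h5 := card_P S
  have hP : (Fintype.card S.P : ℝ) + (Dc.C.card : ℝ) = (Fintype.card V : ℝ) := by exact_mod_cast h5
  have hC0 : (0 : ℝ) ≤ (Dc.C.card : ℝ) := Nat.cast_nonneg _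
  have hF0 : (Dc.F.card : ℝ) ≤ (Fintype.card V : ℝ) := by
    rw [← hcard]; exact_mod_cast Finset.card_le_univ _
  have hF1 : (1 - 2 * e) * (Fintype.card V : ℝ) ≤ (Dc.F.card : ℝ) := by
    have h6 : (Fintype.card τ : ℝ) ≤ (Dc.C.card : ℝ) + (Dc.B.card : ℝ) + (Dc.F.card : ℝ) := by
      rw [← Finset.card_univ, ← Dc.cover]
      have h7 := Finset.card_union_le (Dc.C ∪ Dc.B) Dc.F
      have h8 := Finset.card_union_le Dc.C Dc.B
      exact_mod_cast (by omega : (Dc.C ∪ Dc.B ∪ Dc.F).card ≤ Dc.C.card + Dc.B.card + Dc.F.card)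
    have h9 := Dc.card_C
    have h10 := Dc.card_B
    rw [hcard] at h6 h9 h10
    linarith
  have hR := E9_ExR S hc hc1 hcard hn0 hδ hχ hχs hK he he4 W hW Sl a σ hσ h1
  have hS := E9_ExS S hc hc1 hcard hn0 hχ hχs he he4 W hW Sl a
  have hratio : 2 * e / (c - 1 / 2) ≤ ε / 16 := by
    rw [div_le_iff₀ hα]; linarith
  have hratio2 : 2 * e / (c - 1 / 2) ≤ 1 / 4 := by
    rw [div_le_iff₀ hα]; linarith
  have hratio0 : 0 ≤ 2 * e / (c - 1 / 2) := by positivity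
  have h2e : 2 * e ≤ ε / 16 := by
    have : e ≤ ε * (1 / 2) / 32 := by
      have : ε * (c - 1 / 2) ≤ ε * (1 / 2) := mul_le_mul_of_nonneg_left hα2.le hε.le
      linarith
    linarith
  have hV0 : (0 : ℝ) < (Fintype.card V : ℝ) := by exact_mod_cast hn0
  set n : ℝ := (Fintype.card V : ℝ) with hndef
  set m : ℝ := (Fintype.card S.P : ℝ) with hmdef
  have hmn : m ≤ n := by linarith
  have hm0 : 0 ≤ m := Nat.cast_nonneg _
  have hlm : εl * m ≤ εl * n := mul_le_mul_of_nonneg_left hmn hεl.le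
  set r : ℝ := 2 * e / (c - 1 / 2) with hr
  have h1l : 0 ≤ 1 - εl := by linarith
  have hα8 : 0 < (c - 1 / 2) ^ 8 := by positivity
  have hα48 : (c - 1 / 2) ^ 8 ≤ (c - 1 / 2) ^ 4 / 16 := by
    have h6 : (c - 1 / 2) ^ 4 ≤ (1 / 2) ^ 4 := pow_le_pow_left₀ hα.le hα2.le 4
    have h7 : (c - 1 / 2) ^ 8 = (c - 1 / 2) ^ 4 * (c - 1 / 2) ^ 4 := by ring
    rw [h7]
    have h8 : 0 ≤ (c - 1 / 2) ^ 4 := by positivity
    nlinarith
  refine E9_build S W hW Sl a hSl M ψ A hM hA hinj hdt hclr _ ε ?_ ?_ ?_ ?_ ?_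
  · refine le_trans ?_ (hf (Sum.inr (Sum.inr (Sum.inr 0))))
    have hX : (c - r) * ((1 - 2 * e) * n) - ε / 8 * n - ε / 16 * n ≤
        (S.law W).Ex (E9_f S Sl a (Sum.inr (Sum.inr (Sum.inr 0)))) := by
      have h6 : (c - r) * ((1 - 2 * e) * n) ≤ (c - r) * (Dc.F.card : ℝ) :=
        mul_le_mul_of_nonneg_left hF1 (by linarith)
      have h7 : σ * n ≤ ε / 16 * n := mul_le_mul_of_nonneg_right hσ1 hV0.le
      linarith
    have h8 : c - r - 2 * e ≤ (c - r) * (1 - 2 * e) := by nlinarith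
    have h9 : (c - ε / 8) * n ≤ (c - r) * ((1 - 2 * e) * n) := by
      have : (c - ε / 8) * n ≤ ((c - r) * (1 - 2 * e)) * n :=
        mul_le_mul_of_nonneg_right (by linarith) hV0.le
      linarith
    have h10 : (c - 5 * ε / 16) * n ≤
        (S.law W).Ex (E9_f S Sl a (Sum.inr (Sum.inr (Sum.inr 0)))) := by linarith
    have h11 : (1 - εl) * ((c - 5 * ε / 16) * n) ≤ (1 - εl) *
        (S.law W).Ex (E9_f S Sl a (Sum.inr (Sum.inr (Sum.inr 0)))) :=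
      mul_le_mul_of_nonneg_left h10 h1l
    have h12 : εl * ((c - 5 * ε / 16) * n) ≤ εl * n :=
      mul_le_mul_of_nonneg_left (by nlinarith) hεl.le
    have h13 : εl * n ≤ ε / 16 * n := mul_le_mul_of_nonneg_right hl1 hV0.le
    nlinarith
  · have h6 := hf (Sum.inr (Sum.inr (Sum.inr 1)))
    have h7 : (1 - εl) * ((1 - r) * (Dc.F.card : ℝ)) ≤ (1 - εl) *
        (S.law W).Ex (E9_f S Sl a (Sum.inr (Sum.inr (Sum.inr 1)))) :=
      mul_le_mul_of_nonneg_left hS h1l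
    have h8 : εl * (Dc.F.card : ℝ) ≤ εl * n := mul_le_mul_of_nonneg_left hF0 hεl.le
    have h9 : r * (Dc.F.card : ℝ) ≤ r * n := mul_le_mul_of_nonneg_left hF0 hratio0
    have h10 : r * n ≤ ε / 16 * n := mul_le_mul_of_nonneg_right hratio hV0.le
    have h13 : εl * n ≤ ε / 16 * n := mul_le_mul_of_nonneg_right hl1 hV0.le
    have h14 : 0 ≤ εl * r * (Dc.F.card : ℝ) := by positivity
    nlinarith
  · intro hleaf p
    refine le_trans ?_ (hf (Sum.inl p))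
    have h6 := E9_ExA S hc hc1 hcard hn0 hδ hχ hχs he he4 hLf W hW Sl a p
    have h7 : (c - 1 / 2) ^ 4 / 800 * n ≤ (S.law W).Ex (E9_f S Sl a (Sum.inl p)) := by
      have h8 : (c - 1 / 2) ^ 4 / 2 * (n / 200) ≤ (c - 1 / 2) ^ 4 / 2 * ((leafF Dc).card : ℝ) :=
        mul_le_mul_of_nonneg_left hleaf (by positivity)
      have h9 : (c - 1 / 2) ^ 2 * (2 * Δ * Real.log (Fintype.card V)) ≤
          (c - 1 / 2) ^ 2 * (2 * ((c - 1 / 2) ^ 2 / 1600 * n)) :=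
        mul_le_mul_of_nonneg_left (by linarith) (by positivity)
      nlinarith
    have h11 : (1 - εl) * ((c - 1 / 2) ^ 4 / 800 * n) ≤ (1 - εl) *
        (S.law W).Ex (E9_f S Sl a (Sum.inl p)) := mul_le_mul_of_nonneg_left h7 h1l
    have h12 : εl * n ≤ (c - 1 / 2) ^ 8 / 1000 * n := mul_le_mul_of_nonneg_right hl2 hV0.le
    have h13 : (3 / 4) * ((c - 1 / 2) ^ 4 / 800 * n) ≤ (1 - εl) * ((c - 1 / 2) ^ 4 / 800 * n) :=
      mul_le_mul_of_nonneg_right (by linarith) (by positivity)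
    have h14 : (c - 1 / 2) ^ 8 * n ≤ (c - 1 / 2) ^ 4 / 16 * n :=
      mul_le_mul_of_nonneg_right hα48 hV0.le
    have h15 : 0 ≤ (c - 1 / 2) ^ 4 * n := by positivity
    nlinarith
  · intro hleaf p
    refine le_trans ?_ (hf (Sum.inr (Sum.inl p)))
    have h6 := E9_ExB S hc hc1 hcard hn0 hδ hχ hχs he he4 hLf W hW Sl a p
    have h7 : (c - 1 / 2) ^ 4 / 800 * n ≤ (S.law W).Ex (E9_f S Sl a (Sum.inr (Sum.inl p))) := by
      have h8 : (c - 1 / 2) ^ 4 / 2 * (n / 200) ≤ (c - 1 / 2) ^ 4 / 2 * ((leafF Dc).card : ℝ) :=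
        mul_le_mul_of_nonneg_left hleaf (by positivity)
      have h9 : (c - 1 / 2) ^ 2 * (2 * Δ * Real.log (Fintype.card V)) ≤
          (c - 1 / 2) ^ 2 * (2 * ((c - 1 / 2) ^ 2 / 1600 * n)) :=
        mul_le_mul_of_nonneg_left (by linarith) (by positivity)
      nlinarith
    have h11 : (1 - εl) * ((c - 1 / 2) ^ 4 / 800 * n) ≤ (1 - εl) *
        (S.law W).Ex (E9_f S Sl a (Sum.inr (Sum.inl p))) := mul_le_mul_of_nonneg_left h7 h1l
    have h12 : εl * n ≤ (c - 1 / 2) ^ 8 / 1000 * n := mul_le_mul_of_nonneg_right hl2 hV0.le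
    have h13 : (3 / 4) * ((c - 1 / 2) ^ 4 / 800 * n) ≤ (1 - εl) * ((c - 1 / 2) ^ 4 / 800 * n) :=
      mul_le_mul_of_nonneg_right (by linarith) (by positivity)
    have h14 : (c - 1 / 2) ^ 8 * n ≤ (c - 1 / 2) ^ 4 / 16 * n :=
      mul_le_mul_of_nonneg_right hα48 hV0.le
    have h15 : 0 ≤ (c - 1 / 2) ^ 4 * n := by positivity
    nlinarith
  · intro hbare p
    refine le_trans ?_ (hf (Sum.inr (Sum.inr (Sum.inl p))))
    have h6 := E9_ExC S hc hc1 hcard hn0 hδ hχ hχs he he4 W hW Sl a hSl p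
    have h7 : (c - 1 / 2) ^ 8 / 20 * n ≤
        (S.law W).Ex (E9_f S Sl a (Sum.inr (Sum.inr (Sum.inl p)))) := by
      have h8 : (c - 1 / 2) ^ 8 / 2 * (n / 10) ≤ (c - 1 / 2) ^ 8 / 2 * (Sl.card : ℝ) :=
        mul_le_mul_of_nonneg_left hbare (by positivity)
      linarith
    have h11 : (1 - εl) * ((c - 1 / 2) ^ 8 / 20 * n) ≤ (1 - εl) *
        (S.law W).Ex (E9_f S Sl a (Sum.inr (Sum.inr (Sum.inl p)))) :=
      mul_le_mul_of_nonneg_left h7 h1l
    have h12 : εl * n ≤ (c - 1 / 2) ^ 8 / 1000 * n := mul_le_mul_of_nonneg_right hl2 hV0.le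
    have h13 : (3 / 4) * ((c - 1 / 2) ^ 8 / 20 * n) ≤ (1 - εl) * ((c - 1 / 2) ^ 8 / 20 * n) :=
      mul_le_mul_of_nonneg_right (by linarith) (by positivity)
    have h15 : 0 ≤ (c - 1 / 2) ^ 8 * n := by positivity
    nlinarith

end E9

theorem E9_final (c : ℝ) (hc : 1 / 2 < c) (hc1 : c < 1) :
    ∃ η : ℝ, 0 < η ∧ ∃ d0 : ℝ, 0 < d0 ∧ ∀ ε : ℝ, 0 < ε → ∃ e1 : ℝ, 0 < e1 ∧
    ∀ e : ℝ, 0 < e → e ≤ e1 → ∀ K : ℕ, ∃ n0 : ℕ,
    ∀ (τ V κ : Type) [Fintype τ] [DecidableEq τ] [Fintype V] [DecidableEq V]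
      [Fintype κ] [DecidableEq κ] (G : SimpleGraph V) [DecidableRel G.Adj] (χ : V → V → κ)
      (T : SimpleGraph τ) [DecidableRel T.Adj] (R : Rooted T) (Dc : Decomp T R K e),
      Fintype.card τ = Fintype.card V → n0 ≤ Fintype.card V →
      (∀ x, c * (Fintype.card V : ℝ) ≤ (G.degree x : ℝ)) →
      (∀ x y, χ x y = χ y x) →
      (∀ x y z, G.Adj x y → G.Adj x z → χ x y = χ x z → y = z) →
      (∀ v, (T.degree v : ℝ) ≤ d0 * (Fintype.card V : ℝ) / Real.log (Fintype.card V)) →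
      ∀ (Sl : Finset τ) (a : τ → τ), (∀ u ∈ Sl, IsBare Dc u (a u)) →
      Nonempty (Emb G χ Dc c ε η Sl a) := by
  have hα : 0 < c - 1 / 2 := by linarith
  have hα2 : c - 1 / 2 < 1 / 2 := by linarith
  refine ⟨(c - 1 / 2) ^ 8 / 1000, by positivity, (c - 1 / 2) ^ 2 / 1600, by positivity,
    fun ε hε => ?_⟩
  set εl : ℝ := min (min (ε / 16) ((c - 1 / 2) ^ 8 / 1000)) (1 / 4) with hεl
  have hεl0 : 0 < εl := lt_min (lt_min (by linarith) (by positivity)) (by norm_num)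
  have hl1 : εl ≤ ε / 16 := (min_le_left _ _).trans (min_le_left _ _)
  have hl2 : εl ≤ (c - 1 / 2) ^ 8 / 1000 := (min_le_left _ _).trans (min_le_right _ _)
  have hl3 : εl ≤ 1 / 4 := min_le_right _ _
  refine ⟨min ((c - 1 / 2) / 8) (ε * (c - 1 / 2) / 32), lt_min (by linarith) (by positivity),
    fun e he hee K => ?_⟩
  have he1 : e ≤ (c - 1 / 2) / 8 := hee.trans (min_le_left _ _)
  have he2 : e ≤ ε * (c - 1 / 2) / 32 := hee.trans (min_le_right _ _)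
  rcases Nat.eq_zero_or_pos K with hK0 | hK
  · refine ⟨1, ?_⟩
    intro τ V κ _ _ _ _ _ _ G _ χ T _ R Dc hcard hn _ _ _ _ Sl a _
    exfalso
    have hF : Dc.F = ∅ := by
      rw [Finset.eq_empty_iff_forall_notMem]
      intro v hv
      have h1 := Dc.comp_card (Dc.rho v)
      have h2 : 0 < (Dc.F.filter (fun u => Dc.rho u = Dc.rho v)).card :=
        Finset.card_pos.mpr ⟨v, Finset.mem_filter.mpr ⟨hv, rfl⟩⟩
      omega
    have h6 : (Fintype.card τ : ℝ) ≤ (Dc.C.card : ℝ) + (Dc.B.card : ℝ) := by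
      rw [← Finset.card_univ, ← Dc.cover, hF, Finset.union_empty]
      exact_mod_cast Finset.card_union_le Dc.C Dc.B
    have h9 := Dc.card_C
    have h10 := Dc.card_B
    have h11 : (1 : ℝ) ≤ (Fintype.card τ : ℝ) := by rw [hcard]; exact_mod_cast hn
    nlinarith
  · have hKr : (1 : ℝ) ≤ (K : ℝ) := by exact_mod_cast hK
    obtain ⟨σ0, hσ0, n1, hlaw⟩ := law_nibble K hK (1 + 2 / (c - 1 / 2)) (K : ℝ) εl
      (by have : 0 < 2 / (c - 1 / 2) := by positivity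
          linarith) hKr hεl0 (by linarith)
    set σ : ℝ := min σ0 (ε / 16) with hσdef
    have hσ : 0 < σ := lt_min hσ0 (by linarith)
    have hσσ : σ ≤ σ0 := min_le_left _ _
    have hσε : σ ≤ ε / 16 := min_le_right _ _
    set d0 : ℝ := (c - 1 / 2) ^ 2 / 1600 with hd0def
    have hd0 : 0 < d0 := by positivity
    set q : ℝ := (c - 1 / 2) * c with hqdef
    have hq : 0 < q := by positivity
    set L1 : ℝ := 16 * (K : ℝ) ^ 2 * d0 / (q * σ ^ 2) with hL1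
    set L2 : ℝ := 64 * (K : ℝ) * d0 / (q * σ * εl) with hL2
    set L3 : ℝ := d0 / (q * σ) with hL3
    set L4 : ℝ := 256 * (K : ℝ) * d0 / ε ^ 2 with hL4
    have hL1p : 0 ≤ L1 := by positivity
    have hL2p : 0 ≤ L2 := by positivity
    have hL3p : 0 ≤ L3 := by positivity
    have hL4p : 0 ≤ L4 := by positivity
    refine ⟨max (max (2 * n1) 64) ⌈Real.exp (L1 + L2 + L3 + L4 + 1)⌉₊, ?_⟩
    intro τ V κ _ _ _ _ _ _ G _ χ T _ R Dc hcard hn hδ hχs hχ hT Sl a hSl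
    have hn1 : 2 * n1 ≤ Fintype.card V := le_trans (le_trans (le_max_left _ _) (le_max_left _ _)) hn
    have hn2 : 64 ≤ Fintype.card V := le_trans (le_trans (le_max_right _ _) (le_max_left _ _)) hn
    have hn3 : Real.exp (L1 + L2 + L3 + L4 + 1) ≤ (Fintype.card V : ℝ) :=
      le_trans (Nat.le_ceil _) (by exact_mod_cast le_trans (le_max_right _ _) hn)
    have hV0 : (0 : ℝ) < (Fintype.card V : ℝ) := by exact_mod_cast (by omega : 0 < Fintype.card V)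
    have hlog : L1 + L2 + L3 + L4 + 1 ≤ Real.log (Fintype.card V) :=
      (Real.le_log_iff_exp_le hV0).mpr hn3
    have hlog0 : 0 < Real.log (Fintype.card V) := by linarith
    set n : ℝ := (Fintype.card V : ℝ) with hndef
    set Δ : ℝ := d0 * n / Real.log n with hΔdef
    have hΔ0 : 0 < Δ := by positivity
    have hΔlog : Δ * Real.log n = d0 * n := by
      rw [hΔdef]; field_simp
    -- thresholds
    have hs1 : 16 * (K : ℝ) ^ 2 * Δ / q ≤ σ ^ 2 * n := by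
      have h1 : 16 * (K : ℝ) ^ 2 * d0 ≤ Real.log n * (q * σ ^ 2) := by
        have : L1 ≤ Real.log n := by linarith
        rwa [hL1, div_le_iff₀ (by positivity)] at this
      rw [hΔdef, div_le_iff₀ hq, ← mul_div_assoc, div_le_iff₀ hlog0]
      nlinarith [mul_le_mul_of_nonneg_right h1 hV0.le]
    have hs2 : 4 * (K : ℝ) * Δ / q ≤ σ * (εl / 16) * n := by
      have h1 : 64 * (K : ℝ) * d0 ≤ Real.log n * (q * σ * εl) := by
        have : L2 ≤ Real.log n := by linarith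
        rwa [hL2, div_le_iff₀ (by positivity)] at this
      rw [hΔdef, div_le_iff₀ hq, ← mul_div_assoc, div_le_iff₀ hlog0]
      nlinarith [mul_le_mul_of_nonneg_right h1 hV0.le]
    have hs3 : Δ / q ≤ σ * n := by
      have h1 : d0 ≤ Real.log n * (q * σ) := by
        have : L3 ≤ Real.log n := by linarith
        rwa [hL3, div_le_iff₀ (by positivity)] at this
      rw [hΔdef, div_le_iff₀ hq, div_le_iff₀ hlog0]
      nlinarith [mul_le_mul_of_nonneg_right h1 hV0.le]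
    have hs4 : 2 * Real.sqrt (K * Δ * n) ≤ ε / 8 * n := by
      have h1 : 256 * (K : ℝ) * d0 ≤ Real.log n * ε ^ 2 := by
        have : L4 ≤ Real.log n := by linarith
        rwa [hL4, div_le_iff₀ (by positivity)] at this
      have h2 : (K : ℝ) * Δ * n ≤ (ε / 16 * n) ^ 2 := by
        rw [hΔdef, ← mul_div_assoc, div_mul_eq_mul_div, div_le_iff₀ hlog0]
        nlinarith [mul_le_mul_of_nonneg_right h1 (by positivity : 0 ≤ n ^ 2)]
      have h3 : Real.sqrt (K * Δ * n) ≤ ε / 16 * n := by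
        rw [← Real.sqrt_sq (by positivity : 0 ≤ ε / 16 * n)]
        exact Real.sqrt_le_sqrt h2
      linarith
    obtain ⟨S⟩ := exists_setup c hc hc1 G (by omega) hδ χ hχ T R hcard Δ hΔ0 hT K hK e
      (by linarith) Dc (leafF Dc ∩ Dc.roots) Finset.inter_subset_right
    obtain ⟨W, hW⟩ := exists_W S hc hc1 hcard (by omega) hδ he.le (by linarith)
    have hOK := law_ok S hc hc1 hcard (by omega) hχ hχs he.le (by linarith) W hW
    have hcP := card_P S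
    have hcPr : (Fintype.card S.P : ℝ) + (Dc.C.card : ℝ) = n := by
      rw [hndef]; exact_mod_cast hcP
    have hCn := Dc.card_C
    rw [hcard] at hCn
    have hm2 : Fintype.card V ≤ 2 * Fintype.card S.P := by
      have h0 : n ≤ 2 * (Fintype.card S.P : ℝ) := by
        have h1 : (Dc.C.card : ℝ) ≤ 1 / 4 * n :=
          hCn.trans (mul_le_mul_of_nonneg_right (by linarith) hV0.le)
        linarith
      have h2 : ((Fintype.card V : ℕ) : ℝ) ≤ ((2 * Fintype.card S.P : ℕ) : ℝ) := by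
        push_cast
        exact h0
      exact Nat.cast_le.mp h2
    have hPpos : 0 < Fintype.card S.P := by omega
    have : Nonempty S.P := Fintype.card_pos_iff.mp hPpos
    have hmle : Fintype.card S.P ≤ Fintype.card V := by omega
    have hH1 := law_H1 S hc hc1 hcard (by omega) he.le (by linarith) hΔ0.le W σ hσ hs1
    have hH2 := law_H2 S hc hc1 hcard (by omega) he.le (by linarith) hΔ0.le W σ (εl / 16) hσ
      (by linarith) hs2
    have hH3 := law_H3 S hc hc1 hcard (by omega) hχ hχs hT W σ hσ hs3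
    have hH1' : (S.law W).H1 K Dc.om σ0 :=
      le_trans hH1 (mul_le_mul_of_nonneg_right hσσ (Nat.cast_nonneg _))
    have hH2' : (S.law W).H2 Dc.om σ0 (εl / 16) :=
      le_trans hH2 (mul_le_mul_of_nonneg_right hσσ (Nat.cast_nonneg _))
    have hH3' : (S.law W).H3 σ0 := fun y k => (hH3 y k).trans hσσ
    have hFP : (S.law W).F.card ≤ Fintype.card S.P := by
      have h1 : Dc.C.card + Dc.F.card ≤ Fintype.card τ := by
        rw [← Finset.card_union_of_disjoint Dc.disjCF]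
        exact Finset.card_le_univ _
      show Dc.F.card ≤ _
      omega
    have hΛ : Fintype.card ((V × V) ⊕ ((V × V) ⊕ ((V × V × V) ⊕ Fin 2))) ≤
        Fintype.card S.P ^ 5 := by
      simp only [Fintype.card_sum, Fintype.card_prod, Fintype.card_fin]
      have h1 : 32 ≤ Fintype.card S.P := by omega
      generalize Fintype.card V = N at hm2
      generalize Fintype.card S.P = m at hm2 h1
      have h2 : N * N ≤ (2 * m) * (2 * m) := Nat.mul_le_mul hm2 hm2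
      have h3 : N * (N * N) ≤ (2 * m) * ((2 * m) * (2 * m)) := Nat.mul_le_mul hm2 h2
      have h4 : m ^ 5 = m * m * m * (m * m) := by ring
      have h5 : 32 * 32 ≤ m * m := Nat.mul_le_mul h1 h1
      have h6 : m * m * m * (32 * 32) ≤ m * m * m * (m * m) := Nat.mul_le_mul_left _ h5
      have h7 : m * m ≤ m * m * m := Nat.le_mul_of_pos_right _ (by omega)
      have h8 : 2 ≤ m * m * m := by nlinarith
      rw [h4]
      nlinarith
    obtain ⟨M, ψ, A, hM, hA, hinj, hdt, hclr, hf⟩ := hlaw τ S.P κ (S.law W) hOK (by omega) hFP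
      Dc.om (om_sum Dc).1 (om_sum Dc).2 hH1' hH2' hH3'
      ((V × V) ⊕ ((V × V) ⊕ ((V × V × V) ⊕ Fin 2))) (E9_f S Sl a) hΛ
      (E9_local S Sl a hSl W) (fun i ρ ψ A => E9_f_bd S Sl a i ρ ψ A)
    exact E9_main S hc hc1 hcard hn2 hδ hχ hχs hK ε εl hε hεl0 hl1 hl2 hl3 he.le he1 he2 rfl W hW
      Sl a hSl σ hσ.le hσε hH1 hΔlog.le hs4 M ψ A hM hA hinj hdt hclr hf


theorem nibble_embed (c : ℝ) (hc : 1 / 2 < c) (hc1 : c < 1) :
    ∃ η : ℝ, 0 < η ∧ ∃ d0 : ℝ, 0 < d0 ∧ ∀ ε : ℝ, 0 < ε → ∃ e1 : ℝ, 0 < e1 ∧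
    ∀ e : ℝ, 0 < e → e ≤ e1 → ∀ K : ℕ, ∃ n0 : ℕ,
    ∀ (τ V κ : Type) [Fintype τ] [DecidableEq τ] [Fintype V] [DecidableEq V]
      [Fintype κ] [DecidableEq κ] (G : SimpleGraph V) [DecidableRel G.Adj] (χ : V → V → κ)
      (T : SimpleGraph τ) [DecidableRel T.Adj] (R : Rooted T) (Dc : Decomp T R K e),
      Fintype.card τ = Fintype.card V → n0 ≤ Fintype.card V →
      (∀ x, c * (Fintype.card V : ℝ) ≤ (G.degree x : ℝ)) →
      (∀ x y, χ x y = χ y x) →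
      (∀ x y z, G.Adj x y → G.Adj x z → χ x y = χ x z → y = z) →
      (∀ v, (T.degree v : ℝ) ≤ d0 * (Fintype.card V : ℝ) / Real.log (Fintype.card V)) →
      ∀ (Sl : Finset τ) (a : τ → τ), (∀ u ∈ Sl, IsBare Dc u (a u)) →
      Nonempty (Emb G χ Dc c ε η Sl a) :=
  E9_final c hc hc1

end H64.Col
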