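import Pool.Agent.H64.Col.G1_Main

/-! G2: the final theorem. `c = 1` is vacuous; small `n` are vacuous by the choice of `d`
(a tree with at least 3 vertices has a vertex of degree at least 1; `n ≤ 2` contradicts the minimum degree).
`f n = n / (k n + 1)` with `k n` the largest `k ≤ n` with `n0 (1 / (k + 1)) ≤ n`. -/

namespace H64.Col
open Finset

/-- diagonal choice of the error term -/
theorem G2_diag (N : ℕ → ℕ) : ∃ k : ℕ → ℕ, (∀ n, N 0 ≤ n → N (k n) ≤ n) ∧
    Filter.Tendsto k Filter.atTop Filter.atTop := by
  classical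
  refine ⟨fun n => Nat.findGreatest (fun k => N k ≤ n) n, fun n hn => ?_, ?_⟩
  · exact Nat.findGreatest_spec (P := fun k => N k ≤ n) (Nat.zero_le n) hn
  · rw [Filter.tendsto_atTop]
    intro b
    filter_upwards [Filter.eventually_ge_atTop (max b (N b))] with n hn
    exact Nat.le_findGreatest ((le_max_left _ _).trans hn) ((le_max_right _ _).trans hn)

open Classical in
theorem G2_colours {n : ℕ} (T : SimpleGraph (Fin n)) (col : Sym2 (Fin n) → ℕ)
    (φ : Equiv.Perm (Fin n)) (κ : Type) (χ : Fin n → Fin n → κ) (g : κ → ℕ)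
    (hg : Function.Injective g) (hχ : ∀ x y, g (χ x y) = col s(x, y)) :
    ((((univ : Finset (Fin n × Fin n)).filter (fun q => T.Adj q.1 q.2)).image
      (fun q => χ (φ q.1) (φ q.2))).card : ℝ) ≤
      ((T.edgeFinset.image (fun q => col (q.map φ))).card : ℝ) := by
  rw [Nat.cast_le, ← Finset.card_image_of_injective _ hg, Finset.image_image]
  apply Finset.card_le_card
  intro k hk
  rw [Finset.mem_image] at hk ⊢
  obtain ⟨q, hq, rfl⟩ := hk
  rw [Finset.mem_filter] at hq
  refine ⟨s(q.1, q.2), ?_, ?_⟩
  · rw [SimpleGraph.mem_edgeFinset, SimpleGraph.mem_edgeSet]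
    exact hq.2
  · simp only [Sym2.map_mk, Function.comp_apply, hχ]

open Classical in
/-- Q1 of MP_afdf72_co: colourful bounded degree spanning trees. -/
theorem colourful_trees (c : ℝ) (hc : 1 / 2 < c) (hc1 : c ≤ 1) :
    ∃ d : ℝ, 0 < d ∧ ∃ f : ℕ → ℝ, Filter.Tendsto (fun n => f n / n) Filter.atTop (nhds 0) ∧
    ∀ n : ℕ, ∀ G : SimpleGraph (Fin n), (∀ v, c * n ≤ (G.degree v : ℝ)) →
    ∀ T : SimpleGraph (Fin n), T.IsTree → (∀ v, (T.degree v : ℝ) ≤ d * n / Real.log n) →
    ∀ col : Sym2 (Fin n) → ℕ,
      (∀ x y z, G.Adj x y → G.Adj x z → y ≠ z → col s(x, y) ≠ col s(x, z)) →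
    ∃ φ : Equiv.Perm (Fin n), (∀ u v, T.Adj u v → G.Adj (φ u) (φ v)) ∧
      c * n - f n ≤ ((T.edgeFinset.image (fun q => col (q.map φ))).card : ℝ) := by
  -- the minimum degree is less than `n`
  have hdeglt : ∀ (n : ℕ) (G : SimpleGraph (Fin n)) (v : Fin n), (G.degree v : ℝ) + 1 ≤ n := by
    intro n G v
    have h1 := G.degree_lt_card_verts v
    rw [Fintype.card_fin] at h1
    exact_mod_cast h1
  rcases eq_or_lt_of_le hc1 with rfl | hc1
  · refine ⟨1, one_pos, fun _ => 0, by simp, ?_⟩
    intro n G hG T hT
    obtain ⟨v⟩ := hT.connected.nonempty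
    have h1 := hG v
    have h2 := hdeglt n G v
    linarith
  obtain ⟨d1, hd1, hmain⟩ := main_eps c hc hc1
  choose N hN using fun k : ℕ => hmain (1 / ((k : ℝ) + 1)) (by positivity)
  obtain ⟨k, hk1, hk2⟩ := G2_diag N
  refine ⟨min d1 (1 / ((N 0 : ℝ) + 1)), by positivity, fun n => n / ((k n : ℝ) + 1), ?_, ?_⟩
  · have h1 : Filter.Tendsto (fun n => 1 / ((k n : ℝ) + 1)) Filter.atTop (nhds 0) :=
      (tendsto_one_div_add_atTop_nhds_zero_nat (𝕜 := ℝ)).comp hk2
    refine h1.congr' ?_
    filter_upwards [Filter.eventually_gt_atTop 0] with n hn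
    have hn' : (n : ℝ) ≠ 0 := by exact_mod_cast hn.ne'
    field_simp
  · intro n G hG T hT hTd col hcol
    obtain ⟨v0⟩ := hT.connected.nonempty
    have h1 := hG v0
    have h2 := hdeglt n G v0
    have hnpos : (0 : ℝ) < n := by
      have : 0 < n := Fin.pos v0
      exact_mod_cast this
    -- `3 ≤ n`
    have hn3 : 3 ≤ n := by
      by_contra hlt
      have h3 : n ≤ 2 := by omega
      have h4 : (n : ℝ) ≤ 2 := by exact_mod_cast h3
      have h5 : 0 < n := Fin.pos v0
      have h6 : n = 1 ∨ n = 2 := by omega
      rcases h6 with h6 | h6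
      · subst h6
        norm_num at h1 h2
        nlinarith
      · subst h6
        norm_num at h1 h2
        have h7 : (G.degree v0 : ℝ) ≤ 1 := by linarith
        linarith
    have hn3' : (3 : ℝ) ≤ n := by exact_mod_cast hn3
    have hlog : 1 ≤ Real.log n := by
      rw [Real.le_log_iff_exp_le hnpos]
      have := Real.exp_one_lt_d9
      linarith
    by_cases hn0 : N 0 ≤ n
    · have hkn := hk1 n hn0
      let κ : Type := {j : ℕ // j ∈ (univ : Finset (Sym2 (Fin n))).image col}
      let χ : Fin n → Fin n → κ := fun x y =>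
        ⟨col s(x, y), Finset.mem_image.2 ⟨s(x, y), Finset.mem_univ _, rfl⟩⟩
      have hmn := hN (k n) (Fin n) (Fin n) κ G χ T hT rfl (by rw [Fintype.card_fin]; exact hkn)
        (by
          intro x
          rw [Fintype.card_fin]
          exact hG x)
        (by
          intro x y
          apply Subtype.ext
          change col s(x, y) = col s(y, x)
          rw [Sym2.eq_swap])
        (by
          intro x y z hxy hxz h
          by_contra hyz
          exact hcol x y z hxy hxz hyz (congrArg Subtype.val h))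
        (by
          intro v
          rw [Fintype.card_fin]
          refine (hTd v).trans ?_
          have h5 : (0 : ℝ) < Real.log n := by linarith
          gcongr
          exact min_le_left _ _)
      obtain ⟨φ, hφ, hhom, hcard⟩ := hmn
      refine ⟨Equiv.ofBijective φ hφ, hhom, ?_⟩
      have h6 := G2_colours T col (Equiv.ofBijective φ hφ) κ χ Subtype.val Subtype.val_injective
        (fun x y => rfl)
      refine le_trans ?_ (le_trans hcard ?_)
      · rw [Fintype.card_fin]
        apply le_of_eq
        have : ((k n : ℝ) + 1) ≠ 0 := by positivity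
        field_simp
      · exact h6
    · exfalso
      -- all degrees vanish
      have h3 := hTd v0
      have h4 : (T.degree v0 : ℝ) < 1 := by
        refine lt_of_le_of_lt h3 ?_
        rw [div_lt_one (by linarith)]
        refine lt_of_lt_of_le ?_ hlog
        have h5 : min d1 (1 / ((N 0 : ℝ) + 1)) * n ≤ (1 / ((N 0 : ℝ) + 1)) * n := by
          gcongr
          exact min_le_right _ _
        refine lt_of_le_of_lt h5 ?_
        have h6 : (n : ℝ) < (N 0 : ℝ) + 1 := by
          have : n < N 0 + 1 := by omega
          exact_mod_cast this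
        rw [one_div, inv_mul_lt_iff₀ (by positivity), mul_one]
        exact h6
      have h5 : T.degree v0 = 0 := by
        have : T.degree v0 < 1 := by exact_mod_cast h4
        omega
      have h6 : Nontrivial (Fin n) := by
        rw [← Fintype.one_lt_card_iff_nontrivial, Fintype.card_fin]
        omega
      have h7 := hT.connected.preconnected.degree_pos_of_nontrivial v0
      omega

end H64.Col
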