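import Pool.Agent.H64.Col.A8_SN

/-! A6: trimming.  `w~ e = w e / (1+γ) * ∏ or min over v ∈ S e of 1 / max 1 (load v/(1+γ))`. -/

namespace H64.Col
open Finset

variable {X H : Type} [Fintype X] [DecidableEq X] [Fintype H] [DecidableEq H]

theorem trim (S : H → Finset X) (w : H → ℝ) (γ : ℝ) (hγ : 0 ≤ γ) (hw : ∀ e, 0 ≤ w e) :
    ∃ w' : H → ℝ, (∀ e, 0 ≤ w' e) ∧ (∀ e, w' e ≤ w e / (1 + γ)) ∧ (∀ v, load S w' v ≤ 1) ∧
      ∑ e, (w e / (1 + γ) - w' e) ≤ ∑ v, max (load S w v - 1 - γ) 0 := by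
  obtain ⟨w', h0, h1, h2, h3⟩ := Pool.Agent.H12.Nib.trim S hγ w hw
  have hd : ∀ e, (1 + γ)⁻¹ * w e = w e / (1 + γ) := fun e => by
    rw [div_eq_inv_mul]
  refine ⟨w', h0, fun e => by rw [← hd]; exact h1 e, fun v => by rw [← a8_ld]; exact h2 v, ?_⟩
  have h4 : ∑ e, (w e / (1 + γ) - w' e) = ∑ e, ((1 + γ)⁻¹ * w e - w' e) :=
    Finset.sum_congr rfl fun e _ => by rw [hd]
  rw [h4]
  refine h3.trans (le_of_eq ?_)
  apply Finset.sum_congr rfl
  intro v _
  rw [a8_ld, max_comm]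

theorem codeg_mono (S : H → Finset X) (w w' : H → ℝ) (h : ∀ e, w' e ≤ w e) (u v : X) :
    codeg S w' u v ≤ codeg S w u v := by
  unfold codeg
  apply Finset.sum_le_sum
  intro e _
  split_ifs
  · exact h e
  · exact le_refl _

theorem load_mono (S : H → Finset X) (w w' : H → ℝ) (h : ∀ e, w' e ≤ w e) (v : X) :
    load S w' v ≤ load S w v := by
  unfold load
  apply Finset.sum_le_sum
  intro e _
  split_ifs
  · exact h e
  · exact le_refl _

/-- sum of all loads -/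
theorem sum_load (S : H → Finset X) (w : H → ℝ) : ∑ v, load S w v = ∑ e, (S e).card * w e := by
  unfold load
  rw [Finset.sum_comm]
  apply Finset.sum_congr rfl
  intro e _
  rw [Finset.sum_ite_mem, Finset.univ_inter, Finset.sum_const, nsmul_eq_mul]

end H64.Col
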