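import Pool.Agent.H64.Col.Defs

/-! B1: the two-case inequality behind the kernel theorem.
Here `n = card V`, `α = c - 1/2`, `a, b ≥ 0` with disjoint supports.
Let `k = |supp a|`, `A = ∑ a`.
Case `k ≤ n/2`: `∑_{y ~ x} (b_x - a_y)^+ ≥ b_x (deg x - k) ≥ α n b_x`.
Case `k > n/2`: `|supp b| ≤ n - k < k`, `∑_{y~x} (b_x - a_y)^+ ≥ (c n b_x - A)^+`. -/

set_option linter.unusedSectionVars false

namespace H64.Col
open Finset

variable {V : Type} [Fintype V] [DecidableEq V]

theorem B1_nonneg (G : SimpleGraph V) [DecidableRel G.Adj] (a b : V → ℝ) (x : V) :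
    0 ≤ ∑ y, (if G.Adj x y then max (b x - a y) 0 else 0) := by
  refine Finset.sum_nonneg fun y _ => ?_
  by_cases h : G.Adj x y
  · rw [if_pos h]
    exact le_max_right _ _
  · rw [if_neg h]

theorem B1_nbr (G : SimpleGraph V) [DecidableRel G.Adj] (f : V → ℝ) (x : V) :
    ∑ y, (if G.Adj x y then f y else 0) = ∑ y ∈ G.neighborFinset x, f y := by
  rw [← Finset.sum_filter]
  refine Finset.sum_congr ?_ fun _ _ => rfl
  ext y
  simp

theorem B1_first (G : SimpleGraph V) [DecidableRel G.Adj] (a b : V → ℝ)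
    (hb : ∀ x, 0 ≤ b x) (x : V) :
    b x * ((G.degree x : ℝ) - ((univ.filter (fun x => a x ≠ 0)).card : ℝ)) ≤
      ∑ y, (if G.Adj x y then max (b x - a y) 0 else 0) := by
  classical
  rw [B1_nbr]
  set S : Finset V := univ.filter (fun x => a x ≠ 0) with hS
  have h1 : ∑ y ∈ G.neighborFinset x \ S, b x ≤ ∑ y ∈ G.neighborFinset x, max (b x - a y) 0 := by
    calc ∑ y ∈ G.neighborFinset x \ S, b x
        = ∑ y ∈ G.neighborFinset x \ S, max (b x - a y) 0 := by
          refine Finset.sum_congr rfl fun y hy => ?_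
          have h2 : a y = 0 := by
            by_contra h3
            exact (Finset.mem_sdiff.1 hy).2 (by simp [hS, h3])
          rw [h2, sub_zero, max_eq_left (hb x)]
      _ ≤ _ := Finset.sum_le_sum_of_subset_of_nonneg Finset.sdiff_subset
          fun _ _ _ => le_max_right _ _
  rw [Finset.sum_const, nsmul_eq_mul] at h1
  refine le_trans ?_ h1
  rw [mul_comm]
  refine mul_le_mul_of_nonneg_right ?_ (hb x)
  have h4 : (G.neighborFinset x).card ≤ (G.neighborFinset x \ S).card + S.card := by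
    have := Finset.card_le_card_sdiff_add_card (s := G.neighborFinset x) (t := S)
    omega
  rw [SimpleGraph.card_neighborFinset_eq_degree] at h4
  have h5 : (G.degree x : ℝ) ≤ ((G.neighborFinset x \ S).card : ℝ) + (S.card : ℝ) := by
    exact_mod_cast h4
  linarith

theorem B1_second (G : SimpleGraph V) [DecidableRel G.Adj] (a b : V → ℝ)
    (ha : ∀ x, 0 ≤ a x) (x : V) :
    (G.degree x : ℝ) * b x - ∑ y, a y ≤
      ∑ y, (if G.Adj x y then max (b x - a y) 0 else 0) := by
  classical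
  rw [B1_nbr]
  calc (G.degree x : ℝ) * b x - ∑ y, a y
      ≤ (G.degree x : ℝ) * b x - ∑ y ∈ G.neighborFinset x, a y := by
        have := Finset.sum_le_sum_of_subset_of_nonneg (f := a)
          (Finset.subset_univ (G.neighborFinset x)) fun y _ _ => ha y
        linarith
    _ = ∑ y ∈ G.neighborFinset x, (b x - a y) := by
        rw [Finset.sum_sub_distrib, Finset.sum_const, nsmul_eq_mul,
          SimpleGraph.card_neighborFinset_eq_degree]
    _ ≤ _ := Finset.sum_le_sum fun y _ => le_max_left _ _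

/-- first case: few points in the support of `a` -/
theorem B1_case1 (G : SimpleGraph V) [DecidableRel G.Adj] (c : ℝ)
    (hδ : ∀ x, c * (Fintype.card V : ℝ) ≤ (G.degree x : ℝ)) (a b : V → ℝ)
    (hb : ∀ x, 0 ≤ b x)
    (hk : 2 * ((univ.filter (fun x => a x ≠ 0)).card : ℝ) ≤ (Fintype.card V : ℝ)) :
    (c - 1 / 2) * (Fintype.card V : ℝ) * ∑ x, b x ≤
      ∑ x, ∑ y, (if G.Adj x y then max (b x - a y) 0 else 0) := by
  rw [Finset.mul_sum]
  refine Finset.sum_le_sum fun x _ => ?_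
  refine le_trans ?_ (B1_first G a b hb x)
  rw [mul_comm]
  refine mul_le_mul_of_nonneg_left ?_ (hb x)
  have := hδ x
  linarith

/-- second case: pointwise -/
theorem B1_case2 (G : SimpleGraph V) [DecidableRel G.Adj] (c : ℝ)
    (hδ : ∀ x, c * (Fintype.card V : ℝ) ≤ (G.degree x : ℝ)) (a b : V → ℝ)
    (ha : ∀ x, 0 ≤ a x) (hb : ∀ x, 0 ≤ b x) (hab : ∀ x, a x = 0 ∨ b x = 0) :
    ∃ s : ℝ, 0 ≤ s ∧ s + ((univ.filter (fun x => a x ≠ 0)).card : ℝ) ≤ (Fintype.card V : ℝ) ∧
      c * (Fintype.card V : ℝ) * ∑ x, b x ≤ s * ∑ x, a x +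
        ∑ x, ∑ y, (if G.Adj x y then max (b x - a y) 0 else 0) := by
  classical
  set S : Finset V := univ.filter (fun x => a x ≠ 0) with hS
  set B : Finset V := univ.filter (fun x => b x ≠ 0) with hB
  refine ⟨(B.card : ℝ), by positivity, ?_, ?_⟩
  · have hd : Disjoint B S := by
      rw [Finset.disjoint_left]
      intro x hx hx'
      rcases hab x with h | h
      · exact (Finset.mem_filter.1 hx').2 h
      · exact (Finset.mem_filter.1 hx).2 h
    have h1 : (B ∪ S).card ≤ Fintype.card V := Finset.card_le_univ _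
    rw [Finset.card_union_of_disjoint hd] at h1
    exact_mod_cast h1
  · have h2 : ∑ x, b x = ∑ x ∈ B, b x := by
      rw [hB, Finset.sum_filter_ne_zero]
    have h3 : ∑ x ∈ B, ∑ y, (if G.Adj x y then max (b x - a y) 0 else 0) ≤
        ∑ x, ∑ y, (if G.Adj x y then max (b x - a y) 0 else 0) :=
      Finset.sum_le_sum_of_subset_of_nonneg (Finset.subset_univ B)
        fun x _ _ => B1_nonneg G a b x
    have h4 : ∑ x ∈ B, (c * (Fintype.card V : ℝ) * b x) ≤ ∑ x ∈ B, ((∑ y, a y) +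
        ∑ y, (if G.Adj x y then max (b x - a y) 0 else 0)) := by
      refine Finset.sum_le_sum fun x _ => ?_
      have h5 := B1_second G a b ha x
      have h6 : c * (Fintype.card V : ℝ) * b x ≤ (G.degree x : ℝ) * b x :=
        mul_le_mul_of_nonneg_right (hδ x) (hb x)
      linarith
    rw [Finset.sum_add_distrib, Finset.sum_const, nsmul_eq_mul, ← Finset.mul_sum] at h4
    rw [h2]
    linarith

/-- used in the clipping step -/
theorem ineq_clip (G : SimpleGraph V) [DecidableRel G.Adj] (c : ℝ) (hc : 1 / 2 < c) (hc1 : c ≤ 1)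
    (hδ : ∀ x, c * (Fintype.card V : ℝ) ≤ (G.degree x : ℝ)) (a b : V → ℝ)
    (ha : ∀ x, 0 ≤ a x) (hb : ∀ x, 0 ≤ b x) (hab : ∀ x, a x = 0 ∨ b x = 0) :
    (1 - c) * (Fintype.card V : ℝ) * ∑ x, b x ≤
      (1 - (2 * c - 1)) * ((univ.filter (fun x => a x ≠ 0)).card : ℝ) * (∑ x, a x)
      + (1 - c) / (c - 1 / 2) * ∑ x, ∑ y, (if G.Adj x y then max (b x - a y) 0 else 0) := by
  set k : ℝ := ((univ.filter (fun x => a x ≠ 0)).card : ℝ) with hk
  set n : ℝ := (Fintype.card V : ℝ) with hn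
  set A : ℝ := ∑ x, a x with hA
  set P : ℝ := ∑ x, ∑ y, (if G.Adj x y then max (b x - a y) 0 else 0) with hP
  have hα : 0 < c - 1 / 2 := by linarith
  have hA0 : 0 ≤ A := Finset.sum_nonneg fun x _ => ha x
  have hk0 : 0 ≤ k := by positivity
  have hP0 : 0 ≤ P := Finset.sum_nonneg fun x _ => B1_nonneg G a b x
  have h1c : 0 ≤ 1 - c := by linarith
  by_cases h : 2 * k ≤ n
  · have h1 := B1_case1 G c hδ a b hb h
    have h2 : (1 - c) * n * ∑ x, b x ≤ (1 - c) / (c - 1 / 2) * P := by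
      rw [div_mul_eq_mul_div, le_div_iff₀ hα]
      have := mul_le_mul_of_nonneg_left h1 h1c
      calc _ = (1 - c) * ((c - 1 / 2) * n * ∑ x, b x) := by ring
        _ ≤ _ := this
    have h3 : 0 ≤ (1 - (2 * c - 1)) * k * A := by
      have : 0 ≤ 1 - (2 * c - 1) := by linarith
      positivity
    linarith
  · obtain ⟨s, hs0, hs1, hs2⟩ := B1_case2 G c hδ a b ha hb hab
    rw [← hk, ← hn] at hs1
    rw [← hn, ← hA, ← hP] at hs2
    have hsk : s ≤ k := by linarith
    have hc0 : 0 < c := by linarith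
    have h4 : (1 - c) * n * ∑ x, b x ≤ (1 - c) / c * (s * A + P) := by
      rw [div_mul_eq_mul_div, le_div_iff₀ hc0]
      have := mul_le_mul_of_nonneg_left hs2 h1c
      calc _ = (1 - c) * (c * n * ∑ x, b x) := by ring
        _ ≤ _ := this
    have h5 : (1 - c) / c ≤ 1 - (2 * c - 1) := by
      rw [div_le_iff₀ hc0]
      nlinarith
    have h6 : (1 - c) / c ≤ (1 - c) / (c - 1 / 2) :=
      div_le_div_of_nonneg_left h1c hα (by linarith)
    have h7 : (1 - c) / c * (s * A) ≤ (1 - (2 * c - 1)) * (k * A) := by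
      refine mul_le_mul h5 (mul_le_mul_of_nonneg_right hsk hA0) (by positivity) (by linarith)
    have h8 : (1 - c) / c * P ≤ (1 - c) / (c - 1 / 2) * P := mul_le_mul_of_nonneg_right h6 hP0
    calc (1 - c) * n * ∑ x, b x ≤ (1 - c) / c * (s * A + P) := h4
      _ = (1 - c) / c * (s * A) + (1 - c) / c * P := by ring
      _ ≤ (1 - (2 * c - 1)) * (k * A) + (1 - c) / (c - 1 / 2) * P := add_le_add h7 h8
      _ = _ := by ring

/-- used in the bound for `p ∈ [0,1]^V` -/
theorem ineq_dagger (G : SimpleGraph V) [DecidableRel G.Adj] (c : ℝ) (hc : 1 / 2 < c)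
    (hc1 : c ≤ 1) (hn : 0 < Fintype.card V)
    (hδ : ∀ x, c * (Fintype.card V : ℝ) ≤ (G.degree x : ℝ)) (a b : V → ℝ)
    (ha : ∀ x, 0 ≤ a x) (hb : ∀ x, 0 ≤ b x) (hab : ∀ x, a x = 0 ∨ b x = 0) :
    ∑ x, b x ≤ (∑ x, a x) + 1 / ((c - 1 / 2) * (Fintype.card V : ℝ)) *
      ∑ x, ∑ y, (if G.Adj x y then max (b x - a y) 0 else 0) := by
  set n : ℝ := (Fintype.card V : ℝ) with hnn
  set A : ℝ := ∑ x, a x with hA
  set P : ℝ := ∑ x, ∑ y, (if G.Adj x y then max (b x - a y) 0 else 0) with hP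
  have hn0 : 0 < n := by
    rw [hnn]
    exact_mod_cast hn
  have hα : 0 < c - 1 / 2 := by linarith
  have hA0 : 0 ≤ A := Finset.sum_nonneg fun x _ => ha x
  have hP0 : 0 ≤ P := Finset.sum_nonneg fun x _ => B1_nonneg G a b x
  have hαn : 0 < (c - 1 / 2) * n := mul_pos hα hn0
  by_cases h : 2 * ((univ.filter (fun x => a x ≠ 0)).card : ℝ) ≤ n
  · have h1 := B1_case1 G c hδ a b hb h
    have h2 : ∑ x, b x ≤ 1 / ((c - 1 / 2) * n) * P := by
      rw [div_mul_eq_mul_div, one_mul, le_div_iff₀ hαn]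
      calc _ = (c - 1 / 2) * n * ∑ x, b x := by ring
        _ ≤ _ := h1
    linarith
  · obtain ⟨s, hs0, hs1, hs2⟩ := B1_case2 G c hδ a b ha hb hab
    rw [← hnn] at hs1
    rw [← hnn, ← hA, ← hP] at hs2
    push Not at h
    have hc0 : 0 < c := by linarith
    have hcn : 0 < c * n := mul_pos hc0 hn0
    have hsn : s ≤ c * n := by nlinarith
    have h4 : ∑ x, b x ≤ 1 / (c * n) * (s * A + P) := by
      rw [div_mul_eq_mul_div, one_mul, le_div_iff₀ hcn]
      calc _ = c * n * ∑ x, b x := by ring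
        _ ≤ _ := hs2
    have h5 : 1 / (c * n) * (s * A) ≤ A := by
      rw [div_mul_eq_mul_div, one_mul, div_le_iff₀ hcn]
      calc s * A ≤ c * n * A := mul_le_mul_of_nonneg_right hsn hA0
        _ = _ := by ring
    have h6 : 1 / (c * n) ≤ 1 / ((c - 1 / 2) * n) :=
      one_div_le_one_div_of_le hαn (mul_le_mul_of_nonneg_right (by linarith) hn0.le)
    have h7 : 1 / (c * n) * P ≤ 1 / ((c - 1 / 2) * n) * P := mul_le_mul_of_nonneg_right h6 hP0
    calc ∑ x, b x ≤ 1 / (c * n) * (s * A + P) := h4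
      _ = 1 / (c * n) * (s * A) + 1 / (c * n) * P := by ring
      _ ≤ _ := add_le_add h5 h7

end H64.Col
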