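import Pool.Agent.H64.Col.B1_Ineq

/-! B2: clipping `p` to `[0,1]` does not decrease the dual function. Section 2 (A1) of the paper. -/

namespace H64.Col
open Finset

/-- pairwise inequality: what one ordered pair contributes -/
theorem b2_pair (κ γ u v : ℝ) (hκ1 : κ ≤ 1) :
    (max (u - 1) 0 + γ * max (max (u - 1) 0 - max (-v) 0) 0
        - max (-u) 0 * (if max (-v) 0 ≠ 0 then κ else 1))
      + (max (v - 1) 0 + γ * max (max (v - 1) 0 - max (-u) 0) 0
        - max (-v) 0 * (if max (-u) 0 ≠ 0 then κ else 1)) ≤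
    psi κ (1 + γ) (u + v) - psi κ (1 + γ) (max 0 (min 1 u) + max 0 (min 1 v)) := by
  have key : ∀ w : ℝ, (w < 0 ∧ max (w - 1) 0 = 0 ∧ max (-w) 0 = -w ∧ max (-w) 0 ≠ 0 ∧
      max 0 (min 1 w) = 0) ∨ (0 ≤ w ∧ w ≤ 1 ∧ max (w - 1) 0 = 0 ∧ max (-w) 0 = 0 ∧
      max 0 (min 1 w) = w) ∨ (1 < w ∧ max (w - 1) 0 = w - 1 ∧ max (-w) 0 = 0 ∧
      max 0 (min 1 w) = 1) := by
    intro w
    rcases lt_or_ge w 0 with h | h
    · left
      have h1 : max (-w) 0 = -w := max_eq_left (by linarith)
      refine ⟨h, max_eq_right (by linarith), h1, by rw [h1]; linarith, ?_⟩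
      rw [min_eq_right (by linarith)]
      exact max_eq_left (by linarith)
    · right
      rcases le_or_gt w 1 with h2 | h2
      · left
        refine ⟨h, h2, max_eq_right (by linarith), max_eq_right (by linarith), ?_⟩
        rw [min_eq_right h2]
        exact max_eq_right h
      · right
        refine ⟨h2, max_eq_left (by linarith), max_eq_right (by linarith), ?_⟩
        rw [min_eq_left h2.le]
        exact max_eq_right (by norm_num)
  rcases key u with ⟨hu, u1, u2, u3, u4⟩ | ⟨hu0, hu1, u1, u2, u4⟩ | ⟨hu, u1, u2, u4⟩ <;>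
  rcases key v with ⟨hv, v1, v2, v3, v4⟩ | ⟨hv0, hv1, v1, v2, v4⟩ | ⟨hv, v1, v2, v4⟩
  · -- aa
    rw [if_pos v3, if_pos u3, u1, v1, u2, v2, u4, v4]
    have e1 : max (0 - -v) 0 = 0 := max_eq_right (by linarith)
    have e2 : max (0 - -u) 0 = 0 := max_eq_right (by linarith)
    rw [e1, e2]
    unfold psi
    rw [if_pos (by linarith), if_neg (by norm_num), if_pos (by norm_num)]
    linarith
  · -- a neutral
    rw [if_pos u3, v2, u1, v1, u2, u4, v4]
    have e1 : max ((0:ℝ) - 0) 0 = 0 := by norm_num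
    have e2 : max (0 - -u) 0 = 0 := max_eq_right (by linarith)
    rw [e1, e2, if_neg (by norm_num)]
    unfold psi
    rw [if_neg (show ¬ (0 + v < 0) by linarith), if_pos (show 0 + v ≤ 1 by linarith)]
    split_ifs with h1 h2
    · nlinarith
    · linarith
    · linarith
  · -- a b
    rw [v2, u1, v1, u4, v4]
    rw [if_neg (by norm_num), if_pos u3, u2]
    have e1 : max ((0:ℝ) - 0) 0 = 0 := by norm_num
    rw [e1]
    unfold psi
    rw [if_neg (show ¬ ((0:ℝ) + 1 < 0) by linarith), if_pos (show (0:ℝ) + 1 ≤ 1 by linarith)]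
    split_ifs with h1 h2
    · rw [max_eq_right (by linarith)]
      nlinarith
    · rw [max_eq_right (by linarith)]
      linarith
    · rw [max_eq_left (by linarith)]
      linarith
  · -- neutral a
    rw [if_pos v3, u2, u1, v1, v2, u4, v4]
    have e1 : max ((0:ℝ) - 0) 0 = 0 := by norm_num
    have e2 : max (0 - -v) 0 = 0 := max_eq_right (by linarith)
    rw [e1, e2]
    rw [if_neg (show ¬ ((0:ℝ) ≠ 0) by norm_num)]
    unfold psi
    rw [if_neg (show ¬ (u + 0 < 0) by linarith), if_pos (show u + 0 ≤ 1 by linarith)]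
    split_ifs <;> nlinarith
  · -- neutral neutral
    rw [u2, u1, v1, v2, u4, v4]
    norm_num
  · -- neutral b
    rw [u2, u1, v1, v2, u4, v4]
    have e1 : max ((0:ℝ) - 0) 0 = 0 := by norm_num
    have e2 : max (v - 1 - 0) 0 = v - 1 := by rw [max_eq_left (by linarith)]; ring
    rw [e1, e2, if_neg (show ¬ ((0:ℝ) ≠ 0) by norm_num)]
    unfold psi
    rw [if_neg (show ¬ (u + v < 0) by linarith), if_neg (show ¬ (u + v ≤ 1) by linarith),
      if_neg (show ¬ (u + 1 < 0) by linarith)]
    split_ifs with h1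
    · have hu : u = 0 := by linarith
      subst hu
      linarith
    · linarith
  · -- b a
    rw [u2, u1, v1, u4, v4]
    rw [if_pos v3, if_neg (show ¬ ((0:ℝ) ≠ 0) by norm_num), v2]
    have e1 : max ((0:ℝ) - 0) 0 = 0 := by norm_num
    rw [e1]
    unfold psi
    rw [if_neg (show ¬ ((1:ℝ) + 0 < 0) by linarith), if_pos (show (1:ℝ) + 0 ≤ 1 by linarith)]
    split_ifs with h1 h2
    · rw [max_eq_right (by linarith)]
      nlinarith
    · rw [max_eq_right (by linarith)]
      linarith
    · rw [max_eq_left (by linarith)]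
      linarith
  · -- b neutral
    rw [u2, u1, v1, v2, u4, v4]
    have e1 : max ((0:ℝ) - 0) 0 = 0 := by norm_num
    have e2 : max (u - 1 - 0) 0 = u - 1 := by rw [max_eq_left (by linarith)]; ring
    rw [e1, e2, if_neg (show ¬ ((0:ℝ) ≠ 0) by norm_num)]
    unfold psi
    rw [if_neg (show ¬ (u + v < 0) by linarith), if_neg (show ¬ (u + v ≤ 1) by linarith),
      if_neg (show ¬ (1 + v < 0) by linarith)]
    split_ifs with h1
    · have hv : v = 0 := by linarith
      subst hv
      linarith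
    · linarith
  · -- b b
    rw [u2, u1, v1, v2, u4, v4]
    have e1 : max (u - 1 - 0) 0 = u - 1 := by rw [max_eq_left (by linarith)]; ring
    have e2 : max (v - 1 - 0) 0 = v - 1 := by rw [max_eq_left (by linarith)]; ring
    rw [e1, e2, if_neg (show ¬ ((0:ℝ) ≠ 0) by norm_num)]
    unfold psi
    rw [if_neg (show ¬ (u + v < 0) by linarith), if_neg (show ¬ (u + v ≤ 1) by linarith),
      if_neg (show ¬ ((1:ℝ) + 1 < 0) by linarith), if_neg (show ¬ ((1:ℝ) + 1 ≤ 1) by linarith)]
    linarith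

variable {V : Type} [Fintype V] [DecidableEq V]

omit [DecidableEq V] in
/-- swapping the two sums -/
theorem b2_swap (G : SimpleGraph V) [DecidableRel G.Adj] (h : V → V → ℝ) :
    ∑ x, ∑ y, (if G.Adj x y then h x y + h y x else 0) =
      2 * ∑ x, ∑ y, (if G.Adj x y then h x y else 0) := by
  have h1 : ∑ x, ∑ y, (if G.Adj x y then h x y + h y x else 0) =
      (∑ x, ∑ y, if G.Adj x y then h x y else 0) + ∑ x, ∑ y, if G.Adj x y then h y x else 0 := by
    rw [← sum_add_distrib]
    refine sum_congr rfl fun x _ => ?_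
    rw [← sum_add_distrib]
    refine sum_congr rfl fun y _ => ?_
    split_ifs <;> simp
  have h2 : (∑ x, ∑ y, if G.Adj x y then h y x else 0) =
      ∑ x, ∑ y, if G.Adj x y then h x y else 0 := by
    rw [sum_comm]
    refine sum_congr rfl fun x _ => sum_congr rfl fun y _ => ?_
    simp only [G.adj_comm y x]
  rw [h1, h2]
  ring

omit [DecidableEq V] in
/-- degree as a sum -/
theorem b2_deg (G : SimpleGraph V) [DecidableRel G.Adj] (x : V) (t : ℝ) :
    ∑ y, (if G.Adj x y then t else 0) = (G.degree x : ℝ) * t := by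
  rw [← sum_filter, sum_const, nsmul_eq_mul]
  congr 2
  rw [← G.card_neighborFinset_eq_degree]
  congr 1
  ext y
  simp

omit [DecidableEq V] in
/-- the loss at a vertex with `a x > 0` -/
theorem b2_loss (G : SimpleGraph V) [DecidableRel G.Adj] (κ : ℝ) (hκ : 0 ≤ κ) (a : V → ℝ) (x : V) :
    ∑ y, (if G.Adj x y then (if a y ≠ 0 then κ else 1) else 0) ≤
      (Fintype.card V : ℝ) - (1 - κ) * ((univ.filter (fun x => a x ≠ 0)).card : ℝ) := by
  have h1 : ∑ y, (if G.Adj x y then (if a y ≠ 0 then κ else 1) else (0:ℝ)) ≤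
      ∑ y, (if a y ≠ 0 then κ else 1) := by
    refine sum_le_sum fun y _ => ?_
    split_ifs <;> linarith
  refine h1.trans (le_of_eq ?_)
  rw [sum_ite]
  simp only [sum_const, nsmul_eq_mul]
  have h2 : ((univ.filter (fun x => a x ≠ 0)).card : ℝ)
      + ((univ.filter (fun x => ¬ a x ≠ 0)).card : ℝ) = (Fintype.card V : ℝ) := by
    rw [← Nat.cast_add, card_filter_add_card_filter_not]
    simp
  linarith

theorem dual_clip (G : SimpleGraph V) [DecidableRel G.Adj] (c : ℝ) (hc : 1 / 2 < c) (hc1 : c ≤ 1)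
    (hδ : ∀ x, c * (Fintype.card V : ℝ) ≤ (G.degree x : ℝ)) (p : V → ℝ) :
    Dual G (2 * c - 1) (1 + (1 - c) / (c - 1 / 2)) p ≤
      Dual G (2 * c - 1) (1 + (1 - c) / (c - 1 / 2)) (fun x => max 0 (min 1 (p x))) := by
  set n : ℝ := (Fintype.card V : ℝ) with hn
  set κ : ℝ := 2 * c - 1 with hκ
  set γ : ℝ := (1 - c) / (c - 1 / 2) with hγ
  have hκ0 : 0 ≤ κ := by rw [hκ]; linarith
  have hκ1 : κ ≤ 1 := by rw [hκ]; linarith
  set a : V → ℝ := fun x => max (-p x) 0 with ha
  set b : V → ℝ := fun x => max (p x - 1) 0 with hb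
  have ha0 : ∀ x, 0 ≤ a x := fun x => le_max_right _ _
  have hb0 : ∀ x, 0 ≤ b x := fun x => le_max_right _ _
  have hab : ∀ x, a x = 0 ∨ b x = 0 := by
    intro x
    rcases le_or_gt (p x) 0 with h | h
    · right
      exact max_eq_right (by linarith)
    · left
      exact max_eq_right (by linarith)
  have hpc : ∀ x, max 0 (min 1 (p x)) = p x + a x - b x := by
    intro x
    simp only [ha, hb]
    rcases lt_or_ge (p x) 0 with h | h
    · rw [min_eq_right (by linarith), max_eq_left h.le, max_eq_left (by linarith),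
        max_eq_right (by linarith)]
      ring
    · rcases le_or_gt (p x) 1 with h2 | h2
      · rw [min_eq_right h2, max_eq_right h, max_eq_right (by linarith),
          max_eq_right (by linarith)]
        ring
      · rw [min_eq_left h2.le, max_eq_right (by norm_num : (0:ℝ) ≤ 1),
          max_eq_right (by linarith), max_eq_left (by linarith)]
        ring
  have hclip := ineq_clip G c hc hc1 hδ a b ha0 hb0 hab
  rw [← hκ, ← hγ, ← hn] at hclip
  -- the pairwise sum
  set h : V → V → ℝ := fun x y => b x + γ * max (b x - a y) 0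
    - a x * (if a y ≠ 0 then κ else 1) with hh
  have hpair : ∑ x, ∑ y, (if G.Adj x y then h x y + h y x else 0) ≤
      ∑ x, ∑ y, ((if G.Adj x y then psi κ (1 + γ) (p x + p y) else 0)
        - (if G.Adj x y then psi κ (1 + γ) (max 0 (min 1 (p x)) + max 0 (min 1 (p y))) else 0)) := by
    refine sum_le_sum fun x _ => sum_le_sum fun y _ => ?_
    split_ifs with hxy
    · exact b2_pair κ γ (p x) (p y) hκ1
    · simp
  rw [b2_swap] at hpair
  have hsplit : ∑ x, ∑ y, (if G.Adj x y then h x y else 0) =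
      (∑ x, (G.degree x : ℝ) * b x)
      + γ * (∑ x, ∑ y, (if G.Adj x y then max (b x - a y) 0 else 0))
      - ∑ x, a x * ∑ y, (if G.Adj x y then (if a y ≠ 0 then κ else 1) else 0) := by
    rw [mul_sum, ← sum_add_distrib, ← sum_sub_distrib]
    refine sum_congr rfl fun x _ => ?_
    rw [← b2_deg, mul_sum, mul_sum, ← sum_add_distrib, ← sum_sub_distrib]
    refine sum_congr rfl fun y _ => ?_
    simp only [hh]
    by_cases hxy : G.Adj x y
    · rw [if_pos hxy, if_pos hxy, if_pos hxy, if_pos hxy]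
    · rw [if_neg hxy, if_neg hxy, if_neg hxy, if_neg hxy]
      ring
  have hdeg : c * n * ∑ x, b x ≤ ∑ x, (G.degree x : ℝ) * b x := by
    rw [mul_sum]
    exact sum_le_sum fun x _ => mul_le_mul_of_nonneg_right (hδ x) (hb0 x)
  have hloss : ∑ x, a x * ∑ y, (if G.Adj x y then (if a y ≠ 0 then κ else 1) else 0) ≤
      (n - (1 - κ) * ((univ.filter (fun x => a x ≠ 0)).card : ℝ)) * ∑ x, a x := by
    rw [mul_sum]
    refine sum_le_sum fun x _ => ?_
    rw [mul_comm]
    exact mul_le_mul_of_nonneg_right (b2_loss G κ hκ0 a x) (ha0 x)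
  unfold Dual
  have hs1 : ∑ x, max 0 (min 1 (p x)) = (∑ x, p x) + (∑ x, a x) - ∑ x, b x := by
    rw [← sum_add_distrib, ← sum_sub_distrib]
    exact sum_congr rfl fun x _ => hpc x
  have hs2 : ∑ x, ∑ y, ((if G.Adj x y then psi κ (1 + γ) (p x + p y) else 0)
        - (if G.Adj x y then psi κ (1 + γ) (max 0 (min 1 (p x)) + max 0 (min 1 (p y))) else 0)) =
      (∑ x, ∑ y, (if G.Adj x y then psi κ (1 + γ) (p x + p y) else 0)) -
      ∑ x, ∑ y, (if G.Adj x y then psi κ (1 + γ) (max 0 (min 1 (p x)) + max 0 (min 1 (p y)))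
        else 0) := by
    rw [← sum_sub_distrib]
    exact sum_congr rfl fun x _ => by rw [← sum_sub_distrib]
  rw [hs2, hsplit] at hpair
  rw [← hn, hs1]
  linarith

end H64.Col
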