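import Pool.Agent.H64.Col.B2_Clip

/-! B3: the dual bound `D(p) ≤ (1-c) n²`. For `p ∈ [0,1]^V`:
`D(p) = 2 ∑ p_x (n - d_x) - (C-1) ∑_{x~y} (s-1)^+` and `ineq_dagger` with `b = (2p-1)^+`,
`a = (2p-1)^-`. -/

namespace H64.Col
open Finset

theorem b3_pair (u v : ℝ) :
    max (max (2 * u - 1) 0 - max (1 - 2 * v) 0) 0 + max (max (2 * v - 1) 0 - max (1 - 2 * u) 0) 0 =
      2 * max (u + v - 1) 0 := by
  rcases le_total (2 * u) 1 with hu | hu <;> rcases le_total (2 * v) 1 with hv | hv
  · rw [max_eq_right (show 2 * u - 1 ≤ 0 by linarith), max_eq_right (show 2 * v - 1 ≤ 0 by linarith),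
      max_eq_left (show 0 ≤ 1 - 2 * u by linarith), max_eq_left (show 0 ≤ 1 - 2 * v by linarith),
      max_eq_right (show 0 - (1 - 2 * v) ≤ 0 by linarith),
      max_eq_right (show 0 - (1 - 2 * u) ≤ 0 by linarith),
      max_eq_right (show u + v - 1 ≤ 0 by linarith)]
    ring
  · rw [max_eq_right (show 2 * u - 1 ≤ 0 by linarith), max_eq_left (show 0 ≤ 2 * v - 1 by linarith),
      max_eq_left (show 0 ≤ 1 - 2 * u by linarith), max_eq_right (show 1 - 2 * v ≤ 0 by linarith)]
    rcases le_total (u + v) 1 with h | h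
    · rw [max_eq_right (show (0:ℝ) - 0 ≤ 0 by linarith),
        max_eq_right (show 2 * v - 1 - (1 - 2 * u) ≤ 0 by linarith),
        max_eq_right (show u + v - 1 ≤ 0 by linarith)]
      ring
    · rw [max_eq_right (show (0:ℝ) - 0 ≤ 0 by linarith),
        max_eq_left (show 0 ≤ 2 * v - 1 - (1 - 2 * u) by linarith),
        max_eq_left (show 0 ≤ u + v - 1 by linarith)]
      ring
  · rw [max_eq_left (show 0 ≤ 2 * u - 1 by linarith), max_eq_right (show 2 * v - 1 ≤ 0 by linarith),
      max_eq_right (show 1 - 2 * u ≤ 0 by linarith), max_eq_left (show 0 ≤ 1 - 2 * v by linarith)]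
    rcases le_total (u + v) 1 with h | h
    · rw [max_eq_right (show (0:ℝ) - 0 ≤ 0 by linarith),
        max_eq_right (show 2 * u - 1 - (1 - 2 * v) ≤ 0 by linarith),
        max_eq_right (show u + v - 1 ≤ 0 by linarith)]
      ring
    · rw [max_eq_right (show (0:ℝ) - 0 ≤ 0 by linarith),
        max_eq_left (show 0 ≤ 2 * u - 1 - (1 - 2 * v) by linarith),
        max_eq_left (show 0 ≤ u + v - 1 by linarith)]
      ring
  · rw [max_eq_left (show 0 ≤ 2 * u - 1 by linarith), max_eq_left (show 0 ≤ 2 * v - 1 by linarith),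
      max_eq_right (show 1 - 2 * u ≤ 0 by linarith), max_eq_right (show 1 - 2 * v ≤ 0 by linarith),
      max_eq_left (show 0 ≤ 2 * u - 1 - 0 by linarith),
      max_eq_left (show 0 ≤ 2 * v - 1 - 0 by linarith),
      max_eq_left (show 0 ≤ u + v - 1 by linarith)]
    ring

theorem b3_psi (κ γ s : ℝ) (h0 : 0 ≤ s) : psi κ (1 + γ) s = s + γ * max (s - 1) 0 := by
  unfold psi
  rw [if_neg (by linarith)]
  split_ifs with h
  · rw [max_eq_right (by linarith)]
    ring
  · rw [max_eq_left (by linarith)]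
    ring

variable {V : Type} [Fintype V] [DecidableEq V]

theorem dual_le (G : SimpleGraph V) [DecidableRel G.Adj] (c : ℝ) (hc : 1 / 2 < c) (hc1 : c ≤ 1)
    (hn : 0 < Fintype.card V)
    (hδ : ∀ x, c * (Fintype.card V : ℝ) ≤ (G.degree x : ℝ)) (p : V → ℝ) :
    Dual G (2 * c - 1) (1 + (1 - c) / (c - 1 / 2)) p ≤ (1 - c) * (Fintype.card V : ℝ) ^ 2 := by
  refine (dual_clip G c hc hc1 hδ p).trans ?_
  set q : V → ℝ := fun x => max 0 (min 1 (p x)) with hq
  have hq0 : ∀ x, 0 ≤ q x := fun x => le_max_left _ _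
  clear_value q
  clear hq
  set a : V → ℝ := fun x => max (1 - 2 * q x) 0 with ha
  set b : V → ℝ := fun x => max (2 * q x - 1) 0 with hb
  have ha0 : ∀ x, 0 ≤ a x := fun x => le_max_right _ _
  have hb0 : ∀ x, 0 ≤ b x := fun x => le_max_right _ _
  have hab : ∀ x, a x = 0 ∨ b x = 0 := by
    intro x
    rcases le_total (2 * q x) 1 with h | h
    · right
      exact max_eq_right (by linarith)
    · left
      exact max_eq_right (by linarith)
  have hba : ∀ x, b x - a x = 2 * q x - 1 := by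
    intro x
    simp only [ha, hb]
    rcases le_total (2 * q x) 1 with h | h
    · rw [max_eq_left (show 0 ≤ 1 - 2 * q x by linarith),
        max_eq_right (show 2 * q x - 1 ≤ 0 by linarith)]
      ring
    · rw [max_eq_right (show 1 - 2 * q x ≤ 0 by linarith),
        max_eq_left (show 0 ≤ 2 * q x - 1 by linarith)]
      ring
  have hd := ineq_dagger G c hc hc1 hn hδ a b ha0 hb0 hab
  set n : ℝ := (Fintype.card V : ℝ) with hnn
  have hn0 : 0 < n := by rw [hnn]; exact_mod_cast hn
  set γ : ℝ := (1 - c) / (c - 1 / 2) with hγ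
  have hγ0 : 0 ≤ γ := div_nonneg (by linarith) (by linarith)
  have hTR := b2_swap G (fun x y => max (b x - a y) 0)
  have hR : ∑ x, ∑ y, (if G.Adj x y then max (b x - a y) 0 + max (b y - a x) 0 else 0) =
      2 * ∑ x, ∑ y, (if G.Adj x y then max (q x + q y - 1) 0 else 0) := by
    rw [mul_sum]
    refine sum_congr rfl fun x _ => ?_
    rw [mul_sum]
    refine sum_congr rfl fun y _ => ?_
    by_cases hxy : G.Adj x y
    · rw [if_pos hxy, if_pos hxy]
      exact b3_pair (q x) (q y)
    · rw [if_neg hxy, if_neg hxy, mul_zero]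
  have hT : ∑ x, ∑ y, (if G.Adj x y then max (b x - a y) 0 else 0) =
      ∑ x, ∑ y, (if G.Adj x y then max (q x + q y - 1) 0 else 0) := by
    linarith
  rw [hT] at hd
  set R : ℝ := ∑ x, ∑ y, (if G.Adj x y then max (q x + q y - 1) 0 else 0) with hRdef
  have hsum : (∑ x, b x) - ∑ x, a x = 2 * (∑ x, q x) - n := by
    rw [← sum_sub_distrib, sum_congr rfl fun x _ => hba x, sum_sub_distrib, ← mul_sum]
    simp [hnn]
  -- expand the dual
  have hpsi : ∑ x, ∑ y, (if G.Adj x y then psi (2 * c - 1) (1 + γ) (q x + q y) else 0) =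
      2 * (∑ x, (G.degree x : ℝ) * q x) + γ * R := by
    have h1 : ∑ x, ∑ y, (if G.Adj x y then psi (2 * c - 1) (1 + γ) (q x + q y) else 0) =
        ∑ x, ∑ y, (if G.Adj x y then q x + q y else 0) +
        ∑ x, ∑ y, γ * (if G.Adj x y then max (q x + q y - 1) 0 else 0) := by
      rw [← sum_add_distrib]
      refine sum_congr rfl fun x _ => ?_
      rw [← sum_add_distrib]
      refine sum_congr rfl fun y _ => ?_
      by_cases hxy : G.Adj x y
      · rw [if_pos hxy, if_pos hxy, if_pos hxy, b3_psi _ _ _ (add_nonneg (hq0 x) (hq0 y))]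
      · rw [if_neg hxy, if_neg hxy, if_neg hxy]
        ring
    rw [h1, b2_swap G (fun x _ => q x)]
    congr 1
    · congr 1
      exact sum_congr rfl fun x _ => b2_deg G x (q x)
    · rw [hRdef, mul_sum]
      exact sum_congr rfl fun x _ => by rw [mul_sum]
  have hdeg : c * n * ∑ x, q x ≤ ∑ x, (G.degree x : ℝ) * q x := by
    rw [mul_sum]
    exact sum_le_sum fun x _ => mul_le_mul_of_nonneg_right (hδ x) (hq0 x)
  unfold Dual
  rw [← hnn, hpsi]
  have h2 : 2 * (∑ x, q x) - n ≤ 1 / ((c - 1 / 2) * n) * R := by linarith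
  have h3 : (1 - c) * n * (2 * (∑ x, q x) - n) ≤ γ * R := by
    have h4 := mul_le_mul_of_nonneg_left h2 (mul_nonneg (show 0 ≤ 1 - c by linarith) hn0.le)
    refine h4.trans (le_of_eq ?_)
    rw [hγ]
    have h5 : c - 1 / 2 ≠ 0 := by
      intro h
      linarith
    field_simp
  nlinarith

end H64.Col
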