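import Pool.Agent.H64.Col.B3_Dual

/-! B4: the kernel, by separation (Hahn-Banach in finite dimension) from the dual bound.
`K = {(row sums of W, z) : W admissible, z ≥ cost W}` is closed and convex in `(V → ℝ) × ℝ`. -/

namespace H64.Col
open Finset

variable {V : Type} [Fintype V] [DecidableEq V]

/-- admissible pairs (kernel, cost) -/
def b4_adm (G : SimpleGraph V) [DecidableRel G.Adj] (κ C : ℝ) :
    Set ((V → V → ℝ) × (V → V → ℝ)) :=
  Set.Icc ((fun x y => if G.Adj x y then κ else 0), (fun _ _ => 0))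
      ((fun x y => if G.Adj x y then C else 0), (fun _ _ => C)) ∩
    {a | (∀ x y, a.1 x y = a.1 y x) ∧ ∀ x y, a.1 x y - 1 ≤ a.2 x y}

/-- row sums and total cost -/
noncomputable def b4_map : ((V → V → ℝ) × (V → V → ℝ)) →ₗ[ℝ] (V → ℝ) × ℝ where
  toFun a := (fun x => ∑ y, a.1 x y, ∑ x, ∑ y, a.2 x y)
  map_add' a b := by
    ext
    · simp [Finset.sum_add_distrib]
    · simp [Finset.sum_add_distrib]
  map_smul' m a := by
    ext
    · simp [Finset.mul_sum]
    · simp [Finset.mul_sum]

theorem b4_compact (G : SimpleGraph V) [DecidableRel G.Adj] (κ C : ℝ) :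
    IsCompact (b4_adm G κ C) := by
  refine isCompact_Icc.inter_right ?_
  have h1 : IsClosed {a : (V → V → ℝ) × (V → V → ℝ) | ∀ x y, a.1 x y = a.1 y x} := by
    simp only [Set.ofPred_forall]
    refine isClosed_iInter fun x => isClosed_iInter fun y => isClosed_eq ?_ ?_ <;> fun_prop
  have h2 : IsClosed {a : (V → V → ℝ) × (V → V → ℝ) | ∀ x y, a.1 x y - 1 ≤ a.2 x y} := by
    simp only [Set.ofPred_forall]
    refine isClosed_iInter fun x => isClosed_iInter fun y => isClosed_le ?_ ?_ <;> fun_prop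
  exact h1.inter h2

theorem b4_convex (G : SimpleGraph V) [DecidableRel G.Adj] (κ C : ℝ) :
    Convex ℝ (b4_adm G κ C) := by
  refine (convex_Icc _ _).inter ?_
  rintro a ⟨ha1, ha2⟩ b ⟨hb1, hb2⟩ s t hs ht hst
  refine ⟨fun x y => ?_, fun x y => ?_⟩
  · simp only [Prod.fst_add, Prod.smul_fst, Pi.add_apply, Pi.smul_apply, smul_eq_mul]
    rw [ha1 x y, hb1 x y]
  · simp only [Prod.fst_add, Prod.smul_fst, Prod.snd_add, Prod.smul_snd, Pi.add_apply,
      Pi.smul_apply, smul_eq_mul]
    have h1 := mul_le_mul_of_nonneg_left (ha2 x y) hs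
    have h2 := mul_le_mul_of_nonneg_left (hb2 x y) ht
    nlinarith

/-- the maximiser in the definition of `psi` -/
noncomputable def b4_arg (κ C s : ℝ) : ℝ := if s < 0 then κ else if s ≤ 1 then 1 else C

theorem b4_arg_psi {κ C : ℝ} (hκ : κ ≤ 1) (hC : 1 ≤ C) (s : ℝ) :
    b4_arg κ C s * s - max (b4_arg κ C s - 1) 0 = psi κ C s := by
  unfold b4_arg psi
  split_ifs with h1 h2
  · rw [max_eq_right (by linarith)]
    ring
  · rw [sub_self, max_self]
    ring
  · rw [max_eq_left (by linarith)]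
    ring

theorem b4_arg_mem {κ C : ℝ} (hκ : κ ≤ 1) (hC : 1 ≤ C) (s : ℝ) :
    κ ≤ b4_arg κ C s ∧ b4_arg κ C s ≤ C := by
  unfold b4_arg
  split_ifs <;> constructor <;> linarith

theorem b4_abstract (G : SimpleGraph V) [DecidableRel G.Adj] {κ C B N : ℝ}
    (hκ : κ ≤ 1) (hC : 1 ≤ C) (hB : 0 ≤ B) (hN : N = (Fintype.card V : ℝ))
    (hD : ∀ p : V → ℝ, Dual G κ C p ≤ B) :
    ∃ W : V → V → ℝ, (∀ x y, W x y = W y x) ∧ (∀ x y, ¬ G.Adj x y → W x y = 0) ∧
      (∀ x y, G.Adj x y → κ ≤ W x y ∧ W x y ≤ C) ∧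
      (∀ x, ∑ y, W x y = N) ∧ ∑ x, ∑ y, max (W x y - 1) 0 ≤ B := by
  by_contra hno
  set s : Set ((V → ℝ) × ℝ) := b4_map '' b4_adm G κ C with hs
  set t : Set ((V → ℝ) × ℝ) := {a | a.1 = (fun _ => N) ∧ a.2 ≤ B} with ht
  have hsc : Convex ℝ s := (b4_convex G κ C).linear_image b4_map
  have hsk : IsCompact s :=
    (b4_compact G κ C).image (LinearMap.continuous_of_finiteDimensional b4_map)
  have htc : Convex ℝ t := by
    rintro a ⟨ha1, ha2⟩ b ⟨hb1, hb2⟩ u v hu hv huv
    refine ⟨?_, ?_⟩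
    · funext x
      simp only [Prod.fst_add, Prod.smul_fst, Pi.add_apply, Pi.smul_apply, smul_eq_mul, ha1, hb1]
      rw [← add_mul, huv, one_mul]
    · simp only [Prod.snd_add, Prod.smul_snd, smul_eq_mul]
      have h1 := mul_le_mul_of_nonneg_left ha2 hu
      have h2 := mul_le_mul_of_nonneg_left hb2 hv
      have h3 : u * B + v * B = B := by rw [← add_mul, huv, one_mul]
      linarith
  have htk : IsClosed t :=
    (isClosed_eq continuous_fst continuous_const).inter
      (isClosed_le continuous_snd continuous_const)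
  have hdis : Disjoint s t := by
    rw [Set.disjoint_left]
    rintro a ⟨⟨W, Z⟩, ⟨⟨hlo, hhi⟩, hsym, hZ⟩, rfl⟩ ⟨h1, h2⟩
    apply hno
    have hl : ∀ x y, (if G.Adj x y then κ else 0) ≤ W x y := fun x y => hlo.1 x y
    have hh : ∀ x y, W x y ≤ (if G.Adj x y then C else 0) := fun x y => hhi.1 x y
    have hz : ∀ x y, 0 ≤ Z x y := fun x y => hlo.2 x y
    refine ⟨W, hsym, fun x y hxy => ?_, fun x y hxy => ?_, fun x => congrFun h1 x, ?_⟩
    · have h3 := hl x y
      have h4 := hh x y
      rw [if_neg hxy] at h3 h4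
      exact le_antisymm h4 h3
    · have h3 := hl x y
      have h4 := hh x y
      rw [if_pos hxy] at h3 h4
      exact ⟨h3, h4⟩
    · refine le_trans ?_ h2
      exact Finset.sum_le_sum fun x _ => Finset.sum_le_sum fun y _ => max_le (hZ x y) (hz x y)
  obtain ⟨f, u, v, hfs, huv, hft⟩ := geometric_hahn_banach_compact_closed hsc hsk htc htk hdis
  -- the functional in coordinates
  set q : V → ℝ := fun x => f (Pi.single x 1, 0) with hq
  set τ : ℝ := f (0, 1) with hτ
  have hf : ∀ (r : V → ℝ) (z : ℝ), f (r, z) = ∑ x, r x * q x + z * τ := by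
    intro r z
    have h1 : ((r, z) : (V → ℝ) × ℝ) =
        ∑ x, r x • ((Pi.single x (1 : ℝ), (0 : ℝ)) : (V → ℝ) × ℝ) + z • ((0, 1) : (V → ℝ) × ℝ) := by
      ext x
      · simp only [Prod.fst_add, Prod.fst_sum, Prod.smul_fst, Pi.add_apply, Finset.sum_apply,
          Pi.smul_apply, smul_eq_mul, Pi.zero_apply, mul_zero, add_zero]
        rw [Finset.sum_eq_single x]
        · simp
        · intro y _ hy
          rw [Pi.single_eq_of_ne (Ne.symm hy), mul_zero]
        · intro hx
          exact absurd (Finset.mem_univ x) hx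
      · simp [Prod.snd_sum]
    rw [h1, map_add, map_sum, map_smul]
    simp only [map_smul, smul_eq_mul]
    rfl
  have hτ0 : τ ≤ 0 := by
    by_contra hpos
    push Not at hpos
    have h1 := hft ((fun _ => N), min B ((v - ∑ x : V, N * q x) / τ)) ⟨rfl, min_le_left _ _⟩
    rw [hf] at h1
    have h2 : min B ((v - ∑ x : V, N * q x) / τ) * τ ≤ v - ∑ x : V, N * q x := by
      calc min B ((v - ∑ x : V, N * q x) / τ) * τ
          ≤ ((v - ∑ x : V, N * q x) / τ) * τ :=
            mul_le_mul_of_nonneg_right (min_le_right _ _) hpos.le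
        _ = v - ∑ x : V, N * q x := div_mul_cancel₀ _ hpos.ne'
    linarith
  have hv := hft ((fun _ => N), B) ⟨rfl, le_rfl⟩
  rw [hf] at hv
  -- key inequality
  have key : ∀ l : ℝ, 0 < l → -1 ≤ l * τ → l * (v - u) - l * τ * B < B := by
    intro l hl hlt
    set p : V → ℝ := fun x => l * q x / 2 with hp
    set W : V → V → ℝ := fun x y => if G.Adj x y then b4_arg κ C (p x + p y) else 0 with hW
    set Z : V → V → ℝ := fun x y => max (W x y - 1) 0 with hZ
    have hWs : ∀ x y, W x y = W y x := by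
      intro x y
      simp only [hW]
      rw [add_comm (p x) (p y)]
      by_cases h : G.Adj x y
      · rw [if_pos h, if_pos h.symm]
      · rw [if_neg h, if_neg (fun h' => h h'.symm)]
    have hmem : ((W, Z) : (V → V → ℝ) × (V → V → ℝ)) ∈ b4_adm G κ C := by
      refine ⟨⟨⟨fun x y => ?_, fun x y => le_max_right _ _⟩, ⟨fun x y => ?_, fun x y => ?_⟩⟩,
        hWs, fun x y => le_max_left _ _⟩
      · simp only [hW]
        split_ifs
        · exact (b4_arg_mem hκ hC _).1
        · exact le_rfl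
      · simp only [hW]
        split_ifs
        · exact (b4_arg_mem hκ hC _).2
        · exact le_rfl
      · refine max_le ?_ (by linarith)
        simp only [hW]
        split_ifs
        · linarith [(b4_arg_mem hκ hC (p x + p y)).2]
        · linarith
    have h1 := hfs _ (Set.mem_image_of_mem b4_map hmem)
    have h2 : f (b4_map (W, Z)) = ∑ x, (∑ y, W x y) * q x + (∑ x, ∑ y, Z x y) * τ := hf _ _
    rw [h2] at h1
    have hZ0 : 0 ≤ ∑ x, ∑ y, Z x y :=
      Finset.sum_nonneg fun x _ => Finset.sum_nonneg fun y _ => le_max_right _ _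
    -- symmetrisation
    have h3 : l * ∑ x, (∑ y, W x y) * q x = ∑ x, ∑ y, W x y * (p x + p y) := by
      have h4 : ∑ x, ∑ y, W x y * p y = ∑ x, ∑ y, W x y * p x := by
        rw [Finset.sum_comm]
        exact Finset.sum_congr rfl fun x _ => Finset.sum_congr rfl fun y _ => by rw [hWs y x]
      have h5 : ∑ x, ∑ y, W x y * (p x + p y) = 2 * ∑ x, ∑ y, W x y * p x := by
        simp only [mul_add, Finset.sum_add_distrib]
        rw [h4]
        ring
      rw [h5, Finset.mul_sum, Finset.mul_sum]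
      refine Finset.sum_congr rfl fun x _ => ?_
      rw [← Finset.sum_mul]
      simp only [hp]
      ring
    have h6 : ∑ x, ∑ y, (if G.Adj x y then psi κ C (p x + p y) else 0) =
        ∑ x, ∑ y, W x y * (p x + p y) - ∑ x, ∑ y, Z x y := by
      rw [← Finset.sum_sub_distrib]
      refine Finset.sum_congr rfl fun x _ => ?_
      rw [← Finset.sum_sub_distrib]
      refine Finset.sum_congr rfl fun y _ => ?_
      simp only [hZ, hW]
      by_cases h : G.Adj x y
      · simp only [if_pos h]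
        exact (b4_arg_psi hκ hC _).symm
      · simp only [if_neg h]
        norm_num
    have h7 : Dual G κ C p ≤ B := hD p
    unfold Dual at h7
    rw [h6] at h7
    have h8 : 2 * (Fintype.card V : ℝ) * ∑ x, p x = l * ∑ x : V, N * q x := by
      rw [hN, Finset.mul_sum, Finset.mul_sum]
      refine Finset.sum_congr rfl fun x _ => ?_
      simp only [hp]
      ring
    rw [h8, ← h3] at h7
    have h9 : l * (∑ x, (∑ y, W x y) * q x + (∑ x, ∑ y, Z x y) * τ) < l * u :=
      mul_lt_mul_of_pos_left h1 hl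
    have h10 : l * v < l * (∑ x : V, N * q x + B * τ) := mul_lt_mul_of_pos_left hv hl
    have h11 : (-1) * (∑ x, ∑ y, Z x y) ≤ (l * τ) * (∑ x, ∑ y, Z x y) :=
      mul_le_mul_of_nonneg_right hlt hZ0
    nlinarith
  rcases hτ0.lt_or_eq with h | h
  · have h1 := key (-1 / τ) (div_pos_of_neg_of_neg (by norm_num) h)
      (by rw [div_mul_cancel₀ _ h.ne])
    rw [div_mul_cancel₀ _ h.ne] at h1
    have h2 : 0 < -1 / τ * (v - u) :=
      mul_pos (div_pos_of_neg_of_neg (by norm_num) h) (by linarith)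
    linarith
  · have h0 : 0 < v - u := by linarith
    have h1 := key ((B + 1) / (v - u)) (div_pos (by linarith) h0) (by rw [h]; norm_num)
    rw [h, mul_zero, zero_mul, sub_zero, div_mul_cancel₀ _ h0.ne'] at h1
    linarith

theorem kernel (G : SimpleGraph V) [DecidableRel G.Adj] (c : ℝ) (hc : 1 / 2 < c) (hc1 : c ≤ 1)
    (hn : 0 < Fintype.card V)
    (hδ : ∀ x, c * (Fintype.card V : ℝ) ≤ (G.degree x : ℝ)) :
    ∃ W : V → V → ℝ, (∀ x y, W x y = W y x) ∧ (∀ x y, ¬ G.Adj x y → W x y = 0) ∧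
      (∀ x y, G.Adj x y → 2 * c - 1 ≤ W x y ∧ W x y ≤ 1 + (1 - c) / (c - 1 / 2)) ∧
      (∀ x, ∑ y, W x y = (Fintype.card V : ℝ)) ∧
      ∑ x, ∑ y, max (W x y - 1) 0 ≤ (1 - c) * (Fintype.card V : ℝ) ^ 2 := by
  have h1 : 0 ≤ (1 - c) / (c - 1 / 2) := div_nonneg (by linarith) (by linarith)
  exact b4_abstract G (by linarith) (by linarith)
    (mul_nonneg (by linarith) (by positivity)) rfl (dual_le G c hc hc1 hn hδ)

end H64.Col
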