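import Pool.Agent.H64.Col.Defs

/-! C1: the one-step law of the core placement.
`A` = set of allowed positions (`N_s \ U`), `m y = |A ∩ N(y)| ≥ α n`. -/

namespace H64.Col
open Finset

set_option linter.unusedSectionVars false

variable {V : Type} [Fintype V] [DecidableEq V]

/-- `|A ∩ N(y)|` -/
def mA (G : SimpleGraph V) [DecidableRel G.Adj] (A : Finset V) (y : V) : ℕ :=
  (A.filter (fun h => G.Adj h y)).card

/-- law of the position -/
noncomputable def PA (G : SimpleGraph V) [DecidableRel G.Adj] (A : Finset V) (h : V) : ℝ :=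
  if h ∈ A then ∑ y, (if G.Adj h y then 1 / ((Fintype.card V : ℝ) * mA G A y) else 0) else 0

/-- density of a root attached to `h` -/
noncomputable def qA (G : SimpleGraph V) [DecidableRel G.Adj] (A : Finset V) (h y : V) : ℝ :=
  if G.Adj h y then 1 / ((Fintype.card V : ℝ) * mA G A y * PA G A h) else 0

/-- its rainbow part -/
noncomputable def rbA (G : SimpleGraph V) [DecidableRel G.Adj] (A : Finset V) (h y : V) : ℝ :=
  if G.Adj h y then 1 / ((Fintype.card V : ℝ) * A.card * PA G A h) else 0

variable (G : SimpleGraph V) [DecidableRel G.Adj] (A : Finset V) (c : ℝ)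

/-- hypotheses of the step -/
structure StepHyp : Prop where
  hc : 1 / 2 < c
  hc1 : c ≤ 1
  hn : 0 < Fintype.card V
  hδ : ∀ x, c * (Fintype.card V : ℝ) ≤ (G.degree x : ℝ)
  hA : ∀ y, (c - 1 / 2) * (Fintype.card V : ℝ) ≤ (mA G A y : ℝ)

variable {G A c}

theorem PA_nonneg (h : V) : 0 ≤ PA G A h := by
  unfold PA
  split_ifs
  · refine sum_nonneg (fun y _ => ?_)
    split_ifs
    · positivity
    · exact le_rfl
  · exact le_rfl

private theorem npos (hS : StepHyp G A c) : (0 : ℝ) < (Fintype.card V : ℝ) := by
  exact_mod_cast hS.hn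

private theorem apos (hS : StepHyp G A c) : (0 : ℝ) < c - 1 / 2 := by
  linarith [hS.hc]

private theorem mpos (hS : StepHyp G A c) (y : V) : (0 : ℝ) < (mA G A y : ℝ) :=
  lt_of_lt_of_le (mul_pos (apos hS) (npos hS)) (hS.hA y)

private theorem m_le_A (y : V) : (mA G A y : ℝ) ≤ (A.card : ℝ) := by
  unfold mA
  exact_mod_cast card_filter_le _ _

private theorem m_le_n (y : V) : (mA G A y : ℝ) ≤ (Fintype.card V : ℝ) := by
  unfold mA
  exact_mod_cast card_le_univ _

private theorem sum_adj (h : V) (b : ℝ) :
    (∑ y, (if G.Adj h y then b else 0)) = (G.degree h : ℝ) * b := by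
  rw [← sum_filter, sum_const, nsmul_eq_mul]
  congr 2
  rw [← SimpleGraph.card_neighborFinset_eq_degree]
  congr 1
  ext y
  simp

theorem PA_sum (hS : StepHyp G A c) : ∑ h, PA G A h = 1 := by
  have h1 : ∑ h, PA G A h
      = ∑ h, ∑ y, (if h ∈ A ∧ G.Adj h y then 1 / ((Fintype.card V : ℝ) * mA G A y) else 0) := by
    refine sum_congr rfl (fun h _ => ?_)
    unfold PA
    by_cases hh : h ∈ A
    · simp [hh]
    · simp [hh]
  rw [h1, sum_comm]
  have h2 : ∀ y, ∑ h, (if h ∈ A ∧ G.Adj h y then 1 / ((Fintype.card V : ℝ) * mA G A y) else 0)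
      = 1 / (Fintype.card V : ℝ) := by
    intro y
    rw [← sum_filter, sum_const, nsmul_eq_mul]
    have h3 : (univ.filter (fun h => h ∈ A ∧ G.Adj h y)).card = mA G A y := by
      unfold mA
      congr 1
      ext h
      simp
    rw [h3]
    have hm := mpos hS y
    have hn := npos hS
    field_simp
  rw [sum_congr rfl (fun y _ => h2 y), sum_const, nsmul_eq_mul, card_univ]
  have hn := npos hS
  field_simp

theorem PA_lower (hS : StepHyp G A c) (h : V) (hA : h ∈ A) :
    c / (Fintype.card V : ℝ) ≤ PA G A h := by
  have hn := npos hS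
  have h1 : PA G A h = ∑ y, (if G.Adj h y then 1 / ((Fintype.card V : ℝ) * mA G A y) else 0) := by
    simp [PA, hA]
  rw [h1]
  calc c / (Fintype.card V : ℝ)
      ≤ (G.degree h : ℝ) * (1 / ((Fintype.card V : ℝ) * (Fintype.card V : ℝ))) := by
        rw [div_le_iff₀ hn]
        have := hS.hδ h
        field_simp
        linarith
    _ = ∑ y, (if G.Adj h y then 1 / ((Fintype.card V : ℝ) * (Fintype.card V : ℝ)) else 0) :=
        (sum_adj h _).symm
    _ ≤ _ := by
        refine sum_le_sum (fun y _ => ?_)
        split_ifs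
        · have hm := mpos hS y
          have := m_le_n (G := G) (A := A) y
          apply one_div_le_one_div_of_le (by positivity)
          gcongr
        · exact le_rfl

private theorem Ppos (hS : StepHyp G A c) (h : V) (hA : h ∈ A) : 0 < PA G A h :=
  lt_of_lt_of_le (div_pos (by linarith [hS.hc]) (npos hS)) (PA_lower hS h hA)

theorem PA_upper (hS : StepHyp G A c) (h : V) :
    PA G A h ≤ 1 / ((c - 1 / 2) * (Fintype.card V : ℝ)) := by
  have hn := npos hS
  have ha := apos hS
  by_cases hA : h ∈ A
  · have h1 : PA G A h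
        = ∑ y, (if G.Adj h y then 1 / ((Fintype.card V : ℝ) * mA G A y) else 0) := by
      simp [PA, hA]
    rw [h1]
    calc _ ≤ ∑ y : V, 1 / ((Fintype.card V : ℝ) * ((c - 1 / 2) * (Fintype.card V : ℝ))) := by
          refine sum_le_sum (fun y _ => ?_)
          split_ifs
          · have hm := hS.hA y
            apply one_div_le_one_div_of_le (by positivity)
            gcongr
          · positivity
      _ = _ := by
          rw [sum_const, nsmul_eq_mul, card_univ]
          field_simp
  · have h1 : PA G A h = 0 := by simp [PA, hA]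
    rw [h1]
    positivity

theorem qA_sum (hS : StepHyp G A c) (h : V) (hA : h ∈ A) : ∑ y, qA G A h y = 1 := by
  have hP := Ppos hS h hA
  have h1 : PA G A h = ∑ y, (if G.Adj h y then 1 / ((Fintype.card V : ℝ) * mA G A y) else 0) := by
    simp [PA, hA]
  have h2 : ∀ y, qA G A h y
      = (if G.Adj h y then 1 / ((Fintype.card V : ℝ) * mA G A y) else 0) / PA G A h := by
    intro y
    unfold qA
    split_ifs
    · rw [div_div]
    · simp
  rw [sum_congr rfl (fun y _ => h2 y), ← sum_div, ← h1, div_self hP.ne']

theorem qA_upper (hS : StepHyp G A c) (h : V) (hA : h ∈ A) (y : V) :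
    qA G A h y ≤ 1 / ((c - 1 / 2) * c * (Fintype.card V : ℝ)) := by
  have hn := npos hS
  have ha := apos hS
  have hc : 0 < c := by linarith [hS.hc]
  unfold qA
  split_ifs
  · have hm := hS.hA y
    have hm' := mpos hS y
    have hP := PA_lower hS h hA
    have hP' := Ppos hS h hA
    apply one_div_le_one_div_of_le (by positivity)
    calc (c - 1 / 2) * c * (Fintype.card V : ℝ)
        = (Fintype.card V : ℝ) * ((c - 1 / 2) * (Fintype.card V : ℝ))
            * (c / (Fintype.card V : ℝ)) := by field_simp
      _ ≤ (Fintype.card V : ℝ) * mA G A y * PA G A h := by gcongr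
  · positivity

theorem qA_lower (hS : StepHyp G A c) (h : V) (hA : h ∈ A) (y : V) (hy : G.Adj h y) :
    (c - 1 / 2) / (Fintype.card V : ℝ) ≤ qA G A h y := by
  have hn := npos hS
  have ha := apos hS
  have hm := m_le_n (G := G) (A := A) y
  have hm' := mpos hS y
  have hP := PA_upper hS h
  have hP' := Ppos hS h hA
  have h1 : qA G A h y = 1 / ((Fintype.card V : ℝ) * mA G A y * PA G A h) := by
    simp [qA, hy]
  rw [h1]
  rw [div_le_div_iff₀ hn (by positivity)]
  calc (c - 1 / 2) * ((Fintype.card V : ℝ) * mA G A y * PA G A h)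
      ≤ (c - 1 / 2) * ((Fintype.card V : ℝ) * (Fintype.card V : ℝ)
          * (1 / ((c - 1 / 2) * (Fintype.card V : ℝ)))) := by gcongr
    _ = 1 * (Fintype.card V : ℝ) := by
        generalize c - 1 / 2 = a at ha
        field_simp

theorem rbA_nonneg (h y : V) : 0 ≤ rbA G A h y := by
  unfold rbA
  split_ifs
  · have := PA_nonneg (G := G) (A := A) h
    positivity
  · exact le_rfl

theorem rbA_le (hS : StepHyp G A c) (h : V) (hA : h ∈ A) (y : V) : rbA G A h y ≤ qA G A h y := by
  have hn := npos hS
  have hm := m_le_A (G := G) (A := A) y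
  have hm' := mpos hS y
  have hP' := Ppos hS h hA
  unfold rbA qA
  split_ifs
  · apply one_div_le_one_div_of_le (by positivity)
    gcongr
  · exact le_rfl

/-- exactness: the mean of `q_h(y)` is `1/n` for every `y` -/
theorem qA_mean (hS : StepHyp G A c) (y : V) :
    ∑ h, PA G A h * qA G A h y = 1 / (Fintype.card V : ℝ) := by
  have hn := npos hS
  have hm' := mpos hS y
  have h1 : ∀ h, PA G A h * qA G A h y
      = if h ∈ A ∧ G.Adj h y then 1 / ((Fintype.card V : ℝ) * mA G A y) else 0 := by
    intro h
    by_cases hA : h ∈ A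
    · have hP' := Ppos hS h hA
      by_cases hy : G.Adj h y
      · simp only [qA, hA, hy, if_true, and_self]
        field_simp
      · simp [qA, hy]
    · simp [PA, hA]
  rw [sum_congr rfl (fun h _ => h1 h), ← sum_filter, sum_const, nsmul_eq_mul]
  have h3 : (univ.filter (fun h => h ∈ A ∧ G.Adj h y)).card = mA G A y := by
    unfold mA
    congr 1
    ext h
    simp
  rw [h3]
  field_simp

private theorem Acard_pos (hS : StepHyp G A c) : (0 : ℝ) < (A.card : ℝ) := by
  obtain ⟨y⟩ : Nonempty V := Fintype.card_pos_iff.mp hS.hn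
  exact lt_of_lt_of_le (mpos hS y) (m_le_A y)

private theorem P_rb (hS : StepHyp G A c) (h y : V) :
    PA G A h * rbA G A h y
      = if h ∈ A ∧ G.Adj h y then 1 / ((Fintype.card V : ℝ) * A.card) else 0 := by
  have hn := npos hS
  have hAc := Acard_pos hS
  by_cases hA : h ∈ A
  · have hP' := Ppos hS h hA
    by_cases hy : G.Adj h y
    · simp only [rbA, hA, hy, if_true, and_self]
      field_simp
    · simp [rbA, hy]
  · simp [PA, hA]

/-- colours: for a partial matching `μ` (the colour class), the mean is at most `1/n` -/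
theorem rbA_mean (hS : StepHyp G A c) {κ : Type} [DecidableEq κ] (χ : V → V → κ)
    (hχ : ∀ x y z, G.Adj x y → G.Adj x z → χ x y = χ x z → y = z) (k : κ) :
    ∑ h, PA G A h * (∑ y, if χ h y = k then rbA G A h y else 0) ≤ 1 / (Fintype.card V : ℝ) := by
  have hn := npos hS
  have hAc := Acard_pos hS
  calc ∑ h, PA G A h * (∑ y, if χ h y = k then rbA G A h y else 0)
      ≤ ∑ h, (if h ∈ A then 1 / ((Fintype.card V : ℝ) * A.card) else 0) := by
        refine sum_le_sum (fun h _ => ?_)
        rw [mul_sum]
        have h1 : ∀ y, PA G A h * (if χ h y = k then rbA G A h y else 0)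
            = if h ∈ A ∧ G.Adj h y ∧ χ h y = k then 1 / ((Fintype.card V : ℝ) * A.card)
              else 0 := by
          intro y
          by_cases hk : χ h y = k
          · simp only [hk, if_true, and_true]
            exact P_rb hS h y
          · simp [hk]
        rw [sum_congr rfl (fun y _ => h1 y)]
        by_cases hA : h ∈ A
        · simp only [hA, true_and, if_true]
          rw [← sum_filter, sum_const, nsmul_eq_mul]
          have h2 : (univ.filter (fun y => G.Adj h y ∧ χ h y = k)).card ≤ 1 := by
            rw [card_le_one]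
            intro y hy z hz
            simp only [mem_filter, mem_univ, true_and] at hy hz
            exact hχ h y z hy.1 hz.1 (hy.2.trans hz.2.symm)
          have h3 : ((univ.filter (fun y => G.Adj h y ∧ χ h y = k)).card : ℝ) ≤ 1 := by
            exact_mod_cast h2
          calc _ ≤ 1 * (1 / ((Fintype.card V : ℝ) * A.card)) := by gcongr
            _ = _ := one_mul _
        · simp [hA]
    _ = 1 / (Fintype.card V : ℝ) := by
        rw [← sum_filter, sum_const, nsmul_eq_mul]
        have h4 : (univ.filter (fun h => h ∈ A)) = A := by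
          ext h
          simp
        rw [h4]
        field_simp

theorem rbA_total (hS : StepHyp G A c) : c ≤ ∑ h, PA G A h * ∑ y, rbA G A h y := by
  have hn := npos hS
  have hAc := Acard_pos hS
  have h1 : ∀ h, (if h ∈ A then c / (A.card : ℝ) else 0) ≤ PA G A h * ∑ y, rbA G A h y := by
    intro h
    rw [mul_sum, sum_congr rfl (fun y _ => P_rb hS h y)]
    by_cases hA : h ∈ A
    · simp only [hA, true_and, if_true]
      rw [sum_adj h]
      have := hS.hδ h
      rw [div_le_iff₀ hAc]
      calc c = c * (Fintype.card V : ℝ) / (Fintype.card V : ℝ) := by field_simp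
        _ ≤ (G.degree h : ℝ) / (Fintype.card V : ℝ) := by gcongr
        _ = _ := by field_simp
    · simp [hA]
  calc c = ∑ h, (if h ∈ A then c / (A.card : ℝ) else 0) := by
        rw [← sum_filter, sum_const, nsmul_eq_mul]
        have h4 : (univ.filter (fun h => h ∈ A)) = A := by
          ext h
          simp
        rw [h4]
        field_simp
    _ ≤ _ := sum_le_sum (fun h _ => h1 h)

/-- hitting a neighbourhood -/
theorem PA_hit (hS : StepHyp G A c) (x : V) :
    c * (c - 1 / 2) ≤ ∑ h, PA G A h * (if G.Adj h x then 1 else 0) := by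
  have hn := npos hS
  have hc : 0 < c := by linarith [hS.hc]
  have h1 : ∀ h, (if h ∈ A ∧ G.Adj h x then c / (Fintype.card V : ℝ) else 0)
      ≤ PA G A h * (if G.Adj h x then 1 else 0) := by
    intro h
    by_cases hx : G.Adj h x
    · by_cases hA : h ∈ A
      · simp only [hA, hx, and_self, if_true, mul_one]
        exact PA_lower hS h hA
      · simp only [hA, hx, false_and, if_false, if_true, mul_one]
        exact PA_nonneg h
    · simp [hx]
  have h3 : (univ.filter (fun h => h ∈ A ∧ G.Adj h x)).card = mA G A x := by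
    unfold mA
    congr 1
    ext h
    simp
  calc c * (c - 1 / 2) = ((c - 1 / 2) * (Fintype.card V : ℝ)) * (c / (Fintype.card V : ℝ)) := by
        field_simp
    _ ≤ (mA G A x : ℝ) * (c / (Fintype.card V : ℝ)) := by
        have := hS.hA x
        gcongr
    _ = ∑ h, (if h ∈ A ∧ G.Adj h x then c / (Fintype.card V : ℝ) else 0) := by
        rw [← sum_filter, sum_const, nsmul_eq_mul, h3]
    _ ≤ _ := sum_le_sum (fun h _ => h1 h)

end H64.Col
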