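import Pool.Agent.H64.Col.C1_Law

/-! C2: one step of the method of conditional expectations.
Everything is a weighted average over `h` with the weights `PA G A h` (sum 1, supported in `A`).
Quadratic terms: `E (a + w X)² = a² + w² E X²` for `E X = 0`, and `E (X - EX)² ≤ E X²`;
exponential term: `E exp(-λ D 1[h ~ x]) ≤ 1 - (λD/2) c α ≤ exp(-λ D c α / 2)`. -/

namespace H64.Col
open Finset

variable {V : Type} [Fintype V] [DecidableEq V]

/-- the rainbow density seen by colour `k` -/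
noncomputable def rk {κ : Type} [DecidableEq κ] (G : SimpleGraph V) [DecidableRel G.Adj]
    (A : Finset V) (χ : V → V → κ) (h : V) (k : κ) : ℝ :=
  ∑ y, if χ h y = k then rbA G A h y else 0

/-- its mean -/
noncomputable def ek {κ : Type} [DecidableEq κ] (G : SimpleGraph V) [DecidableRel G.Adj]
    (A : Finset V) (χ : V → V → κ) (k : κ) : ℝ :=
  ∑ h, PA G A h * rk G A χ h k

/-- second moment of an affine function of a centred variable -/
theorem c2_avg_sq (P X : V → ℝ) (hP : ∑ h, P h = 1) (a w μ : ℝ) (hμ : ∑ h, P h * X h = μ) :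
    ∑ h, P h * (a + w * (X h - μ)) ^ 2 ≤ a ^ 2 + w ^ 2 * ∑ h, P h * X h ^ 2 := by
  have h1 : ∑ h, P h * (a + w * (X h - μ)) ^ 2 =
      (a ^ 2 - 2 * a * w * μ + w ^ 2 * μ ^ 2) * ∑ h, P h +
        (2 * a * w - 2 * w ^ 2 * μ) * ∑ h, P h * X h + w ^ 2 * ∑ h, P h * X h ^ 2 := by
    rw [Finset.mul_sum, Finset.mul_sum, Finset.mul_sum, ← Finset.sum_add_distrib,
      ← Finset.sum_add_distrib]
    exact Finset.sum_congr rfl fun h _ => by ring
  rw [h1, hP, hμ]
  nlinarith [mul_nonneg (sq_nonneg w) (sq_nonneg μ)]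

/-- `PA` vanishes outside `A` -/
theorem c2_PA_zero (G : SimpleGraph V) [DecidableRel G.Adj] (A : Finset V) {h : V} (hh : h ∉ A) :
    PA G A h = 0 := by
  unfold PA
  rw [if_neg hh]

/-- weighted averages of pointwise bounds on `A` -/
theorem c2_avg_le (G : SimpleGraph V) [DecidableRel G.Adj] (A : Finset V) (c : ℝ)
    (hS : StepHyp G A c) (f : V → ℝ) (B : ℝ) (hf : ∀ h ∈ A, f h ≤ B) :
    ∑ h, PA G A h * f h ≤ B := by
  calc ∑ h, PA G A h * f h ≤ ∑ h, PA G A h * B := by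
        refine Finset.sum_le_sum fun h _ => ?_
        by_cases hh : h ∈ A
        · exact mul_le_mul_of_nonneg_left (hf h hh) (PA_nonneg h)
        · rw [c2_PA_zero G A hh, zero_mul, zero_mul]
    _ = B := by rw [← Finset.sum_mul, PA_sum hS, one_mul]

theorem c2_exists (G : SimpleGraph V) [DecidableRel G.Adj] (A : Finset V) (c : ℝ)
    (hS : StepHyp G A c) (f : V → ℝ) (B : ℝ) (hf : ∑ h, PA G A h * f h ≤ B) :
    ∃ h ∈ A, f h ≤ B := by
  by_contra hcon
  push Not at hcon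
  have h1 : ∑ h, PA G A h * B ≤ ∑ h, PA G A h * f h := by
    refine Finset.sum_le_sum fun h _ => ?_
    by_cases hh : h ∈ A
    · exact mul_le_mul_of_nonneg_left (hcon h hh).le (PA_nonneg h)
    · rw [c2_PA_zero G A hh, zero_mul, zero_mul]
  have h2 : ∑ h, PA G A h * B = B := by rw [← Finset.sum_mul, PA_sum hS, one_mul]
  have h3 : ∑ h, PA G A h * f h = ∑ h, PA G A h * B := le_antisymm (by rw [h2]; exact hf) h1
  have h4 : ∀ h, PA G A h = 0 := by
    intro h
    by_cases hh : h ∈ A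
    · have h5 : ∀ h ∈ (univ : Finset V), PA G A h * B ≤ PA G A h * f h := by
        intro h _
        by_cases hh : h ∈ A
        · exact mul_le_mul_of_nonneg_left (hcon h hh).le (PA_nonneg h)
        · rw [c2_PA_zero G A hh, zero_mul, zero_mul]
      have h6 := (Finset.sum_eq_sum_iff_of_le h5).1 h3.symm h (mem_univ h)
      have h7 := hcon h hh
      have h8 : PA G A h * (f h - B) = 0 := by rw [mul_sub, h6, sub_self]
      rcases mul_eq_zero.1 h8 with h9 | h9
      · exact h9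
      · linarith
    · exact c2_PA_zero G A hh
  have h5 := PA_sum hS
  rw [Finset.sum_eq_zero fun h _ => h4 h] at h5
  exact zero_ne_one h5

theorem c2_qA_nonneg (G : SimpleGraph V) [DecidableRel G.Adj] (A : Finset V) (h y : V) :
    0 ≤ qA G A h y := by
  unfold qA
  split_ifs
  · have := PA_nonneg (G := G) (A := A) h
    positivity
  · exact le_rfl

theorem c2_rk_nonneg {κ : Type} [DecidableEq κ] (G : SimpleGraph V) [DecidableRel G.Adj]
    (A : Finset V) (χ : V → V → κ) (h : V) (k : κ) : 0 ≤ rk G A χ h k := by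
  unfold rk
  refine Finset.sum_nonneg fun y _ => ?_
  split_ifs
  · exact rbA_nonneg h y
  · exact le_rfl

/-- for a fixed position each colour is seen at most once -/
theorem c2_rk_le {κ : Type} [DecidableEq κ] (G : SimpleGraph V) [DecidableRel G.Adj]
    (A : Finset V) (c : ℝ) (hS : StepHyp G A c) (χ : V → V → κ)
    (hχ : ∀ x y z, G.Adj x y → G.Adj x z → χ x y = χ x z → y = z) (h : V) (hh : h ∈ A) (k : κ) :
    rk G A χ h k ≤ 1 / ((c - 1 / 2) * c * (Fintype.card V : ℝ)) := by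
  have hq0 : (0 : ℝ) ≤ 1 / ((c - 1 / 2) * c * (Fintype.card V : ℝ)) :=
    (c2_qA_nonneg G A h h).trans (qA_upper hS h hh h)
  unfold rk
  by_cases hex : ∃ y, G.Adj h y ∧ χ h y = k
  · obtain ⟨y, hy, hk⟩ := hex
    rw [Finset.sum_eq_single y]
    · rw [if_pos hk]
      exact (rbA_le hS h hh y).trans (qA_upper hS h hh y)
    · intro z _ hz
      by_cases hk' : χ h z = k
      · rw [if_pos hk']
        unfold rbA
        rw [if_neg]
        intro hadj
        exact hz (hχ h z y hadj hy (hk'.trans hk.symm))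
      · rw [if_neg hk']
    · intro h'
      exact absurd (mem_univ y) h'
  · push Not at hex
    rw [Finset.sum_eq_zero]
    · exact hq0
    · intro z _
      split_ifs with hk'
      · unfold rbA
        rw [if_neg]
        intro hadj
        exact hex z hadj hk'
      · rfl

theorem c2_rk_sum {κ : Type} [Fintype κ] [DecidableEq κ] (G : SimpleGraph V) [DecidableRel G.Adj]
    (A : Finset V) (χ : V → V → κ) (h : V) : ∑ k, rk G A χ h k = ∑ y, rbA G A h y := by
  unfold rk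
  rw [Finset.sum_comm]
  refine Finset.sum_congr rfl fun y _ => ?_
  rw [Finset.sum_ite_eq]
  simp

theorem c2_R_le (G : SimpleGraph V) [DecidableRel G.Adj]
    (A : Finset V) (c : ℝ) (hS : StepHyp G A c) (h : V) (hh : h ∈ A) :
    ∑ y, rbA G A h y ≤ 1 := by
  rw [← qA_sum hS h hh]
  exact Finset.sum_le_sum fun y _ => rbA_le hS h hh y

/-- first term -/
theorem c2_T1 (G : SimpleGraph V) [DecidableRel G.Adj] (A : Finset V) (c : ℝ)
    (hS : StepHyp G A c) (a : V → ℝ) (w : ℝ) :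
    ∑ h, PA G A h * ∑ y, (a y + w * (qA G A h y - 1 / (Fintype.card V : ℝ))) ^ 2 ≤
      ∑ y, (a y) ^ 2 + w ^ 2 * (1 / ((c - 1 / 2) * c * (Fintype.card V : ℝ))) := by
  set q := 1 / ((c - 1 / 2) * c * (Fintype.card V : ℝ)) with hq
  have hn : (0 : ℝ) < Fintype.card V := by exact_mod_cast hS.hn
  have h1 : ∑ h, PA G A h * ∑ y, (a y + w * (qA G A h y - 1 / (Fintype.card V : ℝ))) ^ 2 =
      ∑ y, ∑ h, PA G A h * (a y + w * (qA G A h y - 1 / (Fintype.card V : ℝ))) ^ 2 := by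
    rw [Finset.sum_comm]
    exact Finset.sum_congr rfl fun h _ => Finset.mul_sum _ _ _
  rw [h1]
  have h2 : ∀ y, ∑ h, PA G A h * (a y + w * (qA G A h y - 1 / (Fintype.card V : ℝ))) ^ 2 ≤
      (a y) ^ 2 + w ^ 2 * (q / Fintype.card V) := by
    intro y
    refine (c2_avg_sq _ (fun h => qA G A h y) (PA_sum hS) (a y) w _ (qA_mean hS y)).trans ?_
    have h3 : ∑ h, PA G A h * qA G A h y ^ 2 ≤ q * ∑ h, PA G A h * qA G A h y := by
      rw [Finset.mul_sum]
      refine Finset.sum_le_sum fun h _ => ?_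
      by_cases hh : h ∈ A
      · have h4 := qA_upper hS h hh y
        have h5 := c2_qA_nonneg G A h y
        have h6 := PA_nonneg (G := G) (A := A) h
        have h7 : PA G A h * qA G A h y * qA G A h y ≤ PA G A h * qA G A h y * q :=
          mul_le_mul_of_nonneg_left h4 (mul_nonneg h6 h5)
        nlinarith
      · rw [c2_PA_zero G A hh]
        simp
    rw [qA_mean hS y] at h3
    have h8 : q * (1 / (Fintype.card V : ℝ)) = q / Fintype.card V := by ring
    rw [h8] at h3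
    have := mul_le_mul_of_nonneg_left h3 (sq_nonneg w)
    linarith
  refine (Finset.sum_le_sum fun y _ => h2 y).trans ?_
  rw [Finset.sum_add_distrib, Finset.sum_const, Finset.card_univ, nsmul_eq_mul]
  have h9 : (Fintype.card V : ℝ) * (w ^ 2 * (q / Fintype.card V)) = w ^ 2 * q := by
    field_simp
  rw [h9]

/-- second term -/
theorem c2_T2 {κ : Type} [Fintype κ] [DecidableEq κ] (G : SimpleGraph V) [DecidableRel G.Adj]
    (A : Finset V) (c : ℝ) (hS : StepHyp G A c) (χ : V → V → κ)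
    (hχ : ∀ x y z, G.Adj x y → G.Adj x z → χ x y = χ x z → y = z) (b : κ → ℝ) (w : ℝ) :
    ∑ h, PA G A h * ∑ k, (b k + w * (rk G A χ h k - ek G A χ k)) ^ 2 ≤
      ∑ k, (b k) ^ 2 + w ^ 2 * (1 / ((c - 1 / 2) * c * (Fintype.card V : ℝ))) := by
  set q := 1 / ((c - 1 / 2) * c * (Fintype.card V : ℝ)) with hq
  have h1 : ∑ h, PA G A h * ∑ k, (b k + w * (rk G A χ h k - ek G A χ k)) ^ 2 =
      ∑ k, ∑ h, PA G A h * (b k + w * (rk G A χ h k - ek G A χ k)) ^ 2 := by
    rw [Finset.sum_comm]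
    exact Finset.sum_congr rfl fun h _ => Finset.mul_sum _ _ _
  rw [h1]
  have h2 : ∀ k, ∑ h, PA G A h * (b k + w * (rk G A χ h k - ek G A χ k)) ^ 2 ≤
      (b k) ^ 2 + w ^ 2 * ∑ h, PA G A h * rk G A χ h k ^ 2 := fun k =>
    c2_avg_sq _ (fun h => rk G A χ h k) (PA_sum hS) (b k) w _ rfl
  refine (Finset.sum_le_sum fun k _ => h2 k).trans ?_
  rw [Finset.sum_add_distrib, ← Finset.mul_sum]
  have h3 : ∑ k, ∑ h, PA G A h * rk G A χ h k ^ 2 ≤ q := by
    rw [Finset.sum_comm]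
    have h4 : ∑ h, ∑ k, PA G A h * rk G A χ h k ^ 2 =
        ∑ h, PA G A h * ∑ k, rk G A χ h k ^ 2 :=
      Finset.sum_congr rfl fun h _ => (Finset.mul_sum _ _ _).symm
    rw [h4]
    refine c2_avg_le G A c hS _ q fun h hh => ?_
    have hq0 : (0 : ℝ) ≤ q := (c2_qA_nonneg G A h h).trans (qA_upper hS h hh h)
    calc ∑ k, rk G A χ h k ^ 2 ≤ ∑ k, q * rk G A χ h k := by
          refine Finset.sum_le_sum fun k _ => ?_
          have h5 := c2_rk_le G A c hS χ hχ h hh k
          have h6 := c2_rk_nonneg G A χ h k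
          rw [sq]
          exact mul_le_mul_of_nonneg_right h5 h6
      _ = q * ∑ y, rbA G A h y := by rw [← Finset.mul_sum, c2_rk_sum]
      _ ≤ q * 1 := mul_le_mul_of_nonneg_left (c2_R_le G A c hS h hh) hq0
      _ = q := mul_one q
  have := mul_le_mul_of_nonneg_left h3 (sq_nonneg w)
  linarith

/-- third term -/
theorem c2_T3 (G : SimpleGraph V) [DecidableRel G.Adj] (A : Finset V) (c : ℝ)
    (hS : StepHyp G A c) (s w : ℝ) :
    ∑ h, PA G A h * (s + w * ((∑ y, rbA G A h y) - ∑ h, PA G A h * ∑ y, rbA G A h y)) ^ 2 ≤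
      s ^ 2 + w ^ 2 := by
  refine (c2_avg_sq _ (fun h => ∑ y, rbA G A h y) (PA_sum hS) s w _ rfl).trans ?_
  have h1 : ∑ h, PA G A h * (∑ y, rbA G A h y) ^ 2 ≤ 1 := by
    refine c2_avg_le G A c hS _ 1 fun h hh => ?_
    have h2 := c2_R_le G A c hS h hh
    have h3 : 0 ≤ ∑ y, rbA G A h y := Finset.sum_nonneg fun y _ => rbA_nonneg h y
    exact pow_le_one₀ h3 h2
  have := mul_le_mul_of_nonneg_left h1 (sq_nonneg w)
  linarith

/-- fourth term -/
theorem c2_T4 (G : SimpleGraph V) [DecidableRel G.Adj] (A : Finset V) (c : ℝ)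
    (hS : StepHyp G A c) (D lam : ℝ) (hD : 0 ≤ D) (hlam : 0 ≤ lam) (hlD : lam * D ≤ 1) (x : V) :
    ∑ h, PA G A h * Real.exp (lam * (c * (c - 1 / 2) / 2 * D
          - D * (if G.Adj h x then 1 else 0))) ≤ 1 := by
  set t := lam * D with ht
  have ht0 : 0 ≤ t := mul_nonneg hlam hD
  set p := ∑ h, PA G A h * (if G.Adj h x then 1 else 0) with hp
  have hp1 : c * (c - 1 / 2) ≤ p := PA_hit hS x
  -- convexity
  have hexp : Real.exp (-t) ≤ 1 - t / 2 := by
    have h1 : 1 + t + t ^ 2 / 2 ≤ Real.exp t := Real.quadratic_le_exp_of_nonneg ht0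
    have h2 : Real.exp (-t) = 1 / Real.exp t := by rw [Real.exp_neg, one_div]
    rw [h2, div_le_iff₀ (Real.exp_pos t)]
    nlinarith [mul_nonneg ht0 ht0]
  have h1 : ∀ h, PA G A h * Real.exp (lam * (c * (c - 1 / 2) / 2 * D
          - D * (if G.Adj h x then 1 else 0))) =
      Real.exp (c * (c - 1 / 2) / 2 * t) *
        (PA G A h + (Real.exp (-t) - 1) * (PA G A h * (if G.Adj h x then 1 else 0))) := by
    intro h
    have h2 : Real.exp (lam * (c * (c - 1 / 2) / 2 * D - D * (if G.Adj h x then 1 else 0))) =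
        Real.exp (c * (c - 1 / 2) / 2 * t) *
          (1 + (Real.exp (-t) - 1) * (if G.Adj h x then 1 else 0)) := by
      split_ifs
      · rw [mul_one, mul_one, add_sub_cancel, ← Real.exp_add]
        congr 1
        rw [ht]; ring
      · rw [mul_zero, mul_zero, sub_zero, add_zero, mul_one]
        congr 1
        rw [ht]; ring
    rw [h2]; ring
  rw [Finset.sum_congr rfl fun h _ => h1 h, ← Finset.mul_sum, Finset.sum_add_distrib,
    ← Finset.mul_sum, PA_sum hS, ← hp]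
  have h3 : 1 + (Real.exp (-t) - 1) * p ≤ 1 - t / 2 * (c * (c - 1 / 2)) := by
    have hc := hS.hc
    have hc0 : 0 ≤ c * (c - 1 / 2) := mul_nonneg (by linarith) (by linarith)
    have h4 : (1 - Real.exp (-t)) * p ≥ t / 2 * (c * (c - 1 / 2)) :=
      mul_le_mul (by linarith) hp1 hc0 (by linarith)
    linarith
  have h5 : 1 - t / 2 * (c * (c - 1 / 2)) ≤ Real.exp (-(t / 2 * (c * (c - 1 / 2)))) := by
    have := Real.add_one_le_exp (-(t / 2 * (c * (c - 1 / 2))))
    linarith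
  calc Real.exp (c * (c - 1 / 2) / 2 * t) * (1 + (Real.exp (-t) - 1) * p) ≤
      Real.exp (c * (c - 1 / 2) / 2 * t) * Real.exp (-(t / 2 * (c * (c - 1 / 2)))) :=
        mul_le_mul_of_nonneg_left (h3.trans h5) (Real.exp_pos _).le
    _ = 1 := by
        rw [← Real.exp_add]
        have : c * (c - 1 / 2) / 2 * t + -(t / 2 * (c * (c - 1 / 2))) = 0 := by ring
        rw [this, Real.exp_zero]

theorem step {κ : Type} [Fintype κ] [DecidableEq κ] (G : SimpleGraph V) [DecidableRel G.Adj]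
    (A : Finset V) (c : ℝ) (hS : StepHyp G A c) (χ : V → V → κ)
    (hχ : ∀ x y z, G.Adj x y → G.Adj x z → χ x y = χ x z → y = z)
    (K : ℕ) (w : ℕ → ℝ) (hw : ∀ j, 0 ≤ w j) (D lam : ℝ) (hD : 0 ≤ D) (hlam : 0 ≤ lam)
    (hlD : lam * D ≤ 1)
    (c1 c2 c3 c4 : ℝ) (h1 : 0 ≤ c1) (h2 : 0 ≤ c2) (h3 : 0 ≤ c3) (h4 : 0 ≤ c4)
    (a : ℕ → V → ℝ) (b : κ → ℝ) (s : ℝ) (E : V → ℝ) (hE : ∀ x, 0 ≤ E x) :
    ∃ h ∈ A, ∃ rbar : ℝ, c ≤ rbar ∧
      c1 * (∑ j ∈ range K, ∑ y, (a j y + w j * (qA G A h y - 1 / (Fintype.card V : ℝ))) ^ 2)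
      + c2 * (∑ k, (b k + w 0 * (rk G A χ h k - ek G A χ k)) ^ 2)
      + c3 * (s + w 0 * ((∑ y, rbA G A h y) - rbar)) ^ 2
      + c4 * (∑ x, E x * Real.exp (lam * (c * (c - 1 / 2) / 2 * D
          - D * (if G.Adj h x then 1 else 0))))
      ≤ c1 * (∑ j ∈ range K, ∑ y, (a j y) ^ 2) + c2 * (∑ k, (b k) ^ 2) + c3 * s ^ 2
        + c4 * (∑ x, E x)
        + (c1 * (∑ j ∈ range K, (w j) ^ 2) + c2 * (w 0) ^ 2)
            / ((c - 1 / 2) * c * (Fintype.card V : ℝ)) + c3 * (w 0) ^ 2 := by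
  set rbar := ∑ h, PA G A h * ∑ y, rbA G A h y with hrbar
  set q := 1 / ((c - 1 / 2) * c * (Fintype.card V : ℝ)) with hq
  obtain ⟨h, hh, hle⟩ := c2_exists G A c hS (fun h =>
      c1 * (∑ j ∈ range K, ∑ y, (a j y + w j * (qA G A h y - 1 / (Fintype.card V : ℝ))) ^ 2)
      + c2 * (∑ k, (b k + w 0 * (rk G A χ h k - ek G A χ k)) ^ 2)
      + c3 * (s + w 0 * ((∑ y, rbA G A h y) - rbar)) ^ 2
      + c4 * (∑ x, E x * Real.exp (lam * (c * (c - 1 / 2) / 2 * D
          - D * (if G.Adj h x then 1 else 0)))))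
      (c1 * (∑ j ∈ range K, ∑ y, (a j y) ^ 2) + c2 * (∑ k, (b k) ^ 2) + c3 * s ^ 2
        + c4 * (∑ x, E x)
        + (c1 * (∑ j ∈ range K, (w j) ^ 2) + c2 * (w 0) ^ 2)
            / ((c - 1 / 2) * c * (Fintype.card V : ℝ)) + c3 * (w 0) ^ 2) (by
    have e1 : ∑ h, PA G A h * (∑ j ∈ range K, ∑ y,
        (a j y + w j * (qA G A h y - 1 / (Fintype.card V : ℝ))) ^ 2) ≤
        ∑ j ∈ range K, ∑ y, (a j y) ^ 2 + (∑ j ∈ range K, (w j) ^ 2) * q := by
      have e2 : ∑ h, PA G A h * (∑ j ∈ range K, ∑ y,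
          (a j y + w j * (qA G A h y - 1 / (Fintype.card V : ℝ))) ^ 2) =
          ∑ j ∈ range K, ∑ h, PA G A h * ∑ y,
            (a j y + w j * (qA G A h y - 1 / (Fintype.card V : ℝ))) ^ 2 := by
        rw [Finset.sum_comm]
        exact Finset.sum_congr rfl fun h _ => Finset.mul_sum _ _ _
      rw [e2, Finset.sum_mul, ← Finset.sum_add_distrib]
      exact Finset.sum_le_sum fun j _ => c2_T1 G A c hS (a j) (w j)
    have e3 := c2_T2 G A c hS χ hχ b (w 0)
    have e4 := c2_T3 G A c hS s (w 0)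
    have e5 : ∑ h, PA G A h * (∑ x, E x * Real.exp (lam * (c * (c - 1 / 2) / 2 * D
          - D * (if G.Adj h x then 1 else 0)))) ≤ ∑ x, E x := by
      have e6 : ∑ h, PA G A h * (∑ x, E x * Real.exp (lam * (c * (c - 1 / 2) / 2 * D
          - D * (if G.Adj h x then 1 else 0)))) =
          ∑ x, E x * ∑ h, PA G A h * Real.exp (lam * (c * (c - 1 / 2) / 2 * D
          - D * (if G.Adj h x then 1 else 0))) := by
        have e7 : ∀ h, PA G A h * (∑ x, E x * Real.exp (lam * (c * (c - 1 / 2) / 2 * D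
          - D * (if G.Adj h x then 1 else 0)))) = ∑ x, E x * (PA G A h *
            Real.exp (lam * (c * (c - 1 / 2) / 2 * D - D * (if G.Adj h x then 1 else 0)))) := by
          intro h
          rw [Finset.mul_sum]
          exact Finset.sum_congr rfl fun x _ => by ring
        rw [Finset.sum_congr rfl fun h _ => e7 h, Finset.sum_comm]
        exact Finset.sum_congr rfl fun x _ => (Finset.mul_sum _ _ _).symm
      rw [e6]
      refine Finset.sum_le_sum fun x _ => ?_
      have := mul_le_mul_of_nonneg_left (c2_T4 G A c hS D lam hD hlam hlD x) (hE x)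
      linarith
    have e8 : ∑ h, PA G A h *
      (c1 * (∑ j ∈ range K, ∑ y, (a j y + w j * (qA G A h y - 1 / (Fintype.card V : ℝ))) ^ 2)
      + c2 * (∑ k, (b k + w 0 * (rk G A χ h k - ek G A χ k)) ^ 2)
      + c3 * (s + w 0 * ((∑ y, rbA G A h y) - rbar)) ^ 2
      + c4 * (∑ x, E x * Real.exp (lam * (c * (c - 1 / 2) / 2 * D
          - D * (if G.Adj h x then 1 else 0))))) =
      c1 * (∑ h, PA G A h * (∑ j ∈ range K, ∑ y,
        (a j y + w j * (qA G A h y - 1 / (Fintype.card V : ℝ))) ^ 2)) +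
      c2 * (∑ h, PA G A h * ∑ k, (b k + w 0 * (rk G A χ h k - ek G A χ k)) ^ 2) +
      c3 * (∑ h, PA G A h * (s + w 0 * ((∑ y, rbA G A h y) - rbar)) ^ 2) +
      c4 * (∑ h, PA G A h * (∑ x, E x * Real.exp (lam * (c * (c - 1 / 2) / 2 * D
          - D * (if G.Adj h x then 1 else 0))))) := by
      rw [Finset.mul_sum, Finset.mul_sum, Finset.mul_sum, Finset.mul_sum,
        ← Finset.sum_add_distrib, ← Finset.sum_add_distrib, ← Finset.sum_add_distrib]
      exact Finset.sum_congr rfl fun h _ => by ring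
    rw [e8]
    have f1 := mul_le_mul_of_nonneg_left e1 h1
    have f2 := mul_le_mul_of_nonneg_left e3 h2
    have f3 := mul_le_mul_of_nonneg_left e4 h3
    have f4 := mul_le_mul_of_nonneg_left e5 h4
    have f5 : (c1 * (∑ j ∈ range K, (w j) ^ 2) + c2 * (w 0) ^ 2)
            / ((c - 1 / 2) * c * (Fintype.card V : ℝ)) =
        c1 * ((∑ j ∈ range K, (w j) ^ 2) * q) + c2 * ((w 0) ^ 2 * q) := by
      rw [hq]; ring
    rw [f5]
    linarith)
  exact ⟨h, hh, rbar, rbA_total hS, hle⟩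

theorem ek_bounds {κ : Type} [Fintype κ] [DecidableEq κ] (G : SimpleGraph V) [DecidableRel G.Adj]
    (A : Finset V) (c : ℝ) (hS : StepHyp G A c) (χ : V → V → κ)
    (hχ : ∀ x y z, G.Adj x y → G.Adj x z → χ x y = χ x z → y = z) (k : κ) :
    0 ≤ ek G A χ k ∧ ek G A χ k ≤ 1 / (Fintype.card V : ℝ) := by
  constructor
  · unfold ek
    exact Finset.sum_nonneg fun h _ => mul_nonneg (PA_nonneg h) (c2_rk_nonneg G A χ h k)
  · exact rbA_mean hS χ hχ k

end H64.Col
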