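import Pool.Agent.H64.Col.C2_Step

/-! C3: placement of the core, by induction on the number of placed vertices using `step` with
`A = N(φ parent) \ used` (or `univ \ used`), `c1 = c2 = (c-1/2)c/(4 Dw)`, `c3 = 1/(4 Dw n)`, `c4 = 1/n²`,
`lam = 1/Δ`. The final potential is `< 1`. -/

namespace H64.Col
open Finset

section CoreAux

variable {V κ : Type} [Fintype V] [DecidableEq V] [Fintype κ] [DecidableEq κ]

/-- the potential after `t` steps -/
noncomputable def c3_pot (G : SimpleGraph V) [DecidableRel G.Adj] (χ : V → V → κ) (c : ℝ)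
    (K : ℕ) (w : ℕ → ℕ → ℝ) (D : ℕ → ℝ) (lam c1 c2 c3 c4 : ℝ)
    (φ : ℕ → V) (A : ℕ → Finset V) (rbar : ℕ → ℝ) (t : ℕ) : ℝ :=
  c1 * (∑ j ∈ range K, ∑ y, (∑ i ∈ range t, w i j * (qA G (A i) (φ i) y - 1 / (Fintype.card V : ℝ))) ^ 2)
  + c2 * (∑ k, (∑ i ∈ range t, w i 0 * (rk G (A i) χ (φ i) k - ek G (A i) χ k)) ^ 2)
  + c3 * (∑ i ∈ range t, w i 0 * ((∑ y, rbA G (A i) (φ i) y) - rbar i)) ^ 2
  + c4 * (∑ x, Real.exp (lam * ∑ i ∈ range t, (c * (c - 1 / 2) / 2 * D i
      - D i * (if G.Adj (φ i) x then 1 else 0))))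

/-- increments of the potential -/
noncomputable def c3_inc (n : ℝ) (c : ℝ) (K : ℕ) (w : ℕ → ℕ → ℝ) (c1 c2 c3 : ℝ) (i : ℕ) : ℝ :=
  (c1 * (∑ j ∈ range K, (w i j) ^ 2) + c2 * (w i 0) ^ 2) / ((c - 1 / 2) * c * n) + c3 * (w i 0) ^ 2

/-- the number of common neighbours outside a small set -/
lemma c3_stepHyp (G : SimpleGraph V) [DecidableRel G.Adj] (c : ℝ) (hc : 1 / 2 < c) (hc1 : c < 1)
    (hn : 0 < Fintype.card V)
    (hδ : ∀ x, c * (Fintype.card V : ℝ) ≤ (G.degree x : ℝ)) (U : Finset V)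
    (hU : (U.card : ℝ) ≤ (c - 1 / 2) * (Fintype.card V : ℝ)) (N : Finset V)
    (hN : N = univ ∨ ∃ p, N = univ.filter (fun h => G.Adj p h)) :
    StepHyp G (N \ U) c := by
  refine ⟨hc, hc1.le, hn, hδ, fun y => ?_⟩
  have hn0 : (0:ℝ) < Fintype.card V := by exact_mod_cast hn
  have hdeg : ∀ x, (univ.filter (fun h => G.Adj x h)).card = G.degree x := by
    intro x
    rw [← SimpleGraph.card_neighborFinset_eq_degree]
    congr 1
    ext h
    simp
  have hdeg' : ∀ x, (univ.filter (fun h => G.Adj h x)).card = G.degree x := by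
    intro x
    rw [← hdeg x]
    congr 1
    ext h
    simp [G.adj_comm]
  have h1 : (mA G (N \ U) y : ℝ) ≥ ((N ∩ univ.filter (fun h => G.Adj h y)).card : ℝ) - U.card := by
    have hsub : (N ∩ univ.filter (fun h => G.Adj h y)) ⊆ ((N \ U).filter (fun h => G.Adj h y)) ∪ U := by
      intro h hh
      simp only [mem_inter, mem_filter, mem_univ, true_and, mem_union, mem_sdiff] at hh ⊢
      tauto
    have := (Finset.card_le_card hsub).trans (Finset.card_union_le _ _)
    have h2 : ((N ∩ univ.filter (fun h => G.Adj h y)).card : ℝ) ≤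
        (((N \ U).filter (fun h => G.Adj h y)).card : ℝ) + U.card := by exact_mod_cast this
    unfold mA
    linarith
  rcases hN with hN | ⟨p, hN⟩
  · rw [hN, univ_inter, hdeg'] at h1
    rw [hN]
    have := hδ y
    nlinarith
  · have h3 : ((N ∩ univ.filter (fun h => G.Adj h y)).card : ℝ) ≥
        2 * c * (Fintype.card V : ℝ) - Fintype.card V := by
      have e1 := Finset.card_inter_add_card_union N (univ.filter (fun h => G.Adj h y))
      have e2 : (N ∪ univ.filter (fun h => G.Adj h y)).card ≤ Fintype.card V := Finset.card_le_univ _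
      have e3 : N.card = G.degree p := by rw [hN, hdeg]
      rw [e3, hdeg'] at e1
      have e4 : ((N ∩ univ.filter (fun h => G.Adj h y)).card : ℝ) +
          ((N ∪ univ.filter (fun h => G.Adj h y)).card : ℝ) = G.degree p + G.degree y := by
        exact_mod_cast e1
      have e5 : ((N ∪ univ.filter (fun h => G.Adj h y)).card : ℝ) ≤ Fintype.card V := by
        exact_mod_cast e2
      have := hδ p
      have := hδ y
      linarith
    linarith

/-- the induction over the placed vertices -/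
lemma c3_induct (c : ℝ) (hc : 1 / 2 < c) (hc1 : c < 1)
    (G : SimpleGraph V) [DecidableRel G.Adj] (hn : 0 < Fintype.card V)
    (hδ : ∀ x, c * (Fintype.card V : ℝ) ≤ (G.degree x : ℝ)) (χ : V → V → κ)
    (hχ : ∀ x y z, G.Adj x y → G.Adj x z → χ x y = χ x z → y = z)
    (pa : ℕ → Option ℕ)
    (K : ℕ) (w : ℕ → ℕ → ℝ) (hw : ∀ i j, 0 ≤ w i j)
    (D : ℕ → ℝ) (hD : ∀ i, 0 ≤ D i) (lam : ℝ) (hlam : 0 ≤ lam) (hlD : ∀ i, lam * D i ≤ 1)
    (c1 c2 c3 c4 : ℝ) (h1 : 0 ≤ c1) (h2 : 0 ≤ c2) (h3 : 0 ≤ c3) (h4 : 0 ≤ c4) (t : ℕ)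
    (ht : (t : ℝ) ≤ (c - 1 / 2) * (Fintype.card V : ℝ)) :
    ∃ (φ : ℕ → V) (A : ℕ → Finset V) (rbar : ℕ → ℝ),
      (∀ i < t, StepHyp G (A i) c ∧ φ i ∈ A i ∧ (∀ j < i, φ j ∉ A i) ∧
        (∀ j < i, pa i = some j → ∀ h ∈ A i, G.Adj (φ j) h) ∧ c ≤ rbar i) ∧
      c3_pot G χ c K w D lam c1 c2 c3 c4 φ A rbar t ≤
        c4 * (Fintype.card V : ℝ) + ∑ i ∈ range t, c3_inc (Fintype.card V : ℝ) c K w c1 c2 c3 i := by
  have hV : Nonempty V := Fintype.card_pos_iff.mp hn
  induction t with
  | zero =>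
    refine ⟨fun _ => hV.some, fun _ => ∅, fun _ => 0, fun i hi => absurd hi (Nat.not_lt_zero i), ?_⟩
    simp [c3_pot]
  | succ t ih =>
    have ht' : (t : ℝ) ≤ (c - 1 / 2) * (Fintype.card V : ℝ) := by
      push_cast at ht
      linarith
    obtain ⟨φ, A, rbar, hinv, hpot⟩ := ih ht'
    set U : Finset V := (range t).image φ with hU
    have hUc : (U.card : ℝ) ≤ (c - 1 / 2) * (Fintype.card V : ℝ) := by
      have : U.card ≤ t := by
        rw [hU]
        exact (Finset.card_image_le).trans (by rw [card_range])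
      have : (U.card : ℝ) ≤ t := by exact_mod_cast this
      linarith
    -- the allowed set
    obtain ⟨N, hN, hNadj⟩ : ∃ N : Finset V, (N = univ ∨ ∃ p, N = univ.filter (fun h => G.Adj p h)) ∧
        ∀ j < t, pa t = some j → ∀ h ∈ N, G.Adj (φ j) h := by
      cases hp : pa t with
      | none => exact ⟨univ, Or.inl rfl, fun j _ hj => by simp at hj⟩
      | some j0 =>
        refine ⟨univ.filter (fun h => G.Adj (φ j0) h), Or.inr ⟨φ j0, rfl⟩, fun j _ hj h hh => ?_⟩
        have : j0 = j := by simpa using hj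
        subst this
        simpa using hh
    set A0 : Finset V := N \ U with hA0
    have hS : StepHyp G A0 c := c3_stepHyp G c hc hc1 hn hδ U hUc N hN
    obtain ⟨h, hhA, rb0, hrb0, hstep⟩ := step G A0 c hS χ hχ K (w t) (hw t) (D t) lam (hD t) hlam
      (hlD t) c1 c2 c3 c4 h1 h2 h3 h4
      (fun j y => ∑ i ∈ range t, w i j * (qA G (A i) (φ i) y - 1 / (Fintype.card V : ℝ)))
      (fun k => ∑ i ∈ range t, w i 0 * (rk G (A i) χ (φ i) k - ek G (A i) χ k))
      (∑ i ∈ range t, w i 0 * ((∑ y, rbA G (A i) (φ i) y) - rbar i))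
      (fun x => Real.exp (lam * ∑ i ∈ range t, (c * (c - 1 / 2) / 2 * D i
        - D i * (if G.Adj (φ i) x then 1 else 0)))) (fun x => (Real.exp_pos _).le)
    refine ⟨Function.update φ t h, Function.update A t A0, Function.update rbar t rb0, ?_, ?_⟩
    · intro i hi
      rcases Nat.lt_succ_iff_lt_or_eq.mp hi with hi' | hi'
      · have hne : i ≠ t := hi'.ne
        obtain ⟨g1, g2, g3, g4, g5⟩ := hinv i hi'
        rw [Function.update_of_ne hne, Function.update_of_ne hne, Function.update_of_ne hne]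
        refine ⟨g1, g2, ?_, ?_, g5⟩
        · intro j hj
          rw [Function.update_of_ne (hj.trans hi').ne]
          exact g3 j hj
        · intro j hj
          rw [Function.update_of_ne (hj.trans hi').ne]
          exact g4 j hj
      · subst hi'
        rw [Function.update_self, Function.update_self, Function.update_self]
        refine ⟨hS, hhA, ?_, ?_, hrb0⟩
        · intro j hj
          rw [Function.update_of_ne hj.ne, hA0, mem_sdiff]
          rintro ⟨_, h2⟩
          exact h2 (by rw [hU]; exact mem_image_of_mem φ (mem_range.mpr hj))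
        · intro j hj hpj x hx
          rw [Function.update_of_ne hj.ne]
          rw [hA0, mem_sdiff] at hx
          exact hNadj j hj hpj x hx.1
    · have hupd : ∀ i ∈ range t, Function.update φ t h i = φ i ∧ Function.update A t A0 i = A i ∧
          Function.update rbar t rb0 i = rbar i := by
        intro i hi
        have hne : i ≠ t := (mem_range.mp hi).ne
        exact ⟨Function.update_of_ne hne _ _, Function.update_of_ne hne _ _,
          Function.update_of_ne hne _ _⟩
      have key : c3_pot G χ c K w D lam c1 c2 c3 c4 (Function.update φ t h) (Function.update A t A0)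
          (Function.update rbar t rb0) (t + 1) =
        c1 * (∑ j ∈ range K, ∑ y, ((∑ i ∈ range t, w i j * (qA G (A i) (φ i) y - 1 / (Fintype.card V : ℝ)))
            + w t j * (qA G A0 h y - 1 / (Fintype.card V : ℝ))) ^ 2)
        + c2 * (∑ k, ((∑ i ∈ range t, w i 0 * (rk G (A i) χ (φ i) k - ek G (A i) χ k))
            + w t 0 * (rk G A0 χ h k - ek G A0 χ k)) ^ 2)
        + c3 * ((∑ i ∈ range t, w i 0 * ((∑ y, rbA G (A i) (φ i) y) - rbar i))
            + w t 0 * ((∑ y, rbA G A0 h y) - rb0)) ^ 2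
        + c4 * (∑ x, Real.exp (lam * ∑ i ∈ range t, (c * (c - 1 / 2) / 2 * D i
            - D i * (if G.Adj (φ i) x then 1 else 0))) *
              Real.exp (lam * (c * (c - 1 / 2) / 2 * D t - D t * (if G.Adj h x then 1 else 0)))) := by
        unfold c3_pot
        congr 1
        · congr 1
          · congr 1
            · congr 1
              refine sum_congr rfl (fun j _ => sum_congr rfl (fun y _ => ?_))
              rw [sum_range_succ, Function.update_self, Function.update_self]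
              congr 2
              refine sum_congr rfl (fun i hi => ?_)
              rw [(hupd i hi).1, (hupd i hi).2.1]
            · congr 1
              refine sum_congr rfl (fun k _ => ?_)
              rw [sum_range_succ, Function.update_self, Function.update_self]
              congr 2
              refine sum_congr rfl (fun i hi => ?_)
              rw [(hupd i hi).1, (hupd i hi).2.1]
          · congr 2
            rw [sum_range_succ, Function.update_self, Function.update_self, Function.update_self]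
            congr 1
            refine sum_congr rfl (fun i hi => ?_)
            rw [(hupd i hi).1, (hupd i hi).2.1, (hupd i hi).2.2]
        · congr 1
          refine sum_congr rfl (fun x _ => ?_)
          rw [← Real.exp_add, ← mul_add, sum_range_succ, Function.update_self]
          congr 3
          refine sum_congr rfl (fun i hi => ?_)
          rw [(hupd i hi).1]
      rw [key, sum_range_succ]
      refine hstep.trans ?_
      unfold c3_pot at hpot
      unfold c3_inc
      unfold c3_inc at hpot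
      linarith

end CoreAux

theorem core_place (c : ℝ) (hc : 1 / 2 < c) (hc1 : c < 1)
    {V κ : Type} [Fintype V] [DecidableEq V] [Fintype κ] [DecidableEq κ]
    (G : SimpleGraph V) [DecidableRel G.Adj] (hn : 5 ≤ Fintype.card V)
    (hδ : ∀ x, c * (Fintype.card V : ℝ) ≤ (G.degree x : ℝ)) (χ : V → V → κ)
    (hχ : ∀ x y z, G.Adj x y → G.Adj x z → χ x y = χ x z → y = z)
    (m : ℕ) (pa : Fin m → Option (Fin m)) (hpa : ∀ i j, pa i = some j → j < i)
    (hm : (m : ℝ) ≤ (c - 1 / 2) * (Fintype.card V : ℝ))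
    (K : ℕ) (hK : 1 ≤ K) (w : Fin m → ℕ → ℝ) (hw : ∀ i j, 0 ≤ w i j) (Dw Δ : ℝ) (hDw : 0 < Dw)
    (hΔ : 0 < Δ) (hwD : ∀ i, ∑ j ∈ range K, w i j ≤ Dw)
    (hW : ∑ i, ∑ j ∈ range K, w i j ≤ (Fintype.card V : ℝ))
    (D : Fin m → ℝ) (hD : ∀ i, 0 ≤ D i ∧ D i ≤ Δ) :
    ∃ φ : Fin m → V, Function.Injective φ ∧ (∀ i j, pa i = some j → G.Adj (φ j) (φ i)) ∧
    ∃ q rb : Fin m → V → ℝ,
      (∀ i y, 0 ≤ rb i y ∧ rb i y ≤ q i y ∧
        q i y ≤ 1 / ((c - 1 / 2) * c * (Fintype.card V : ℝ))) ∧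
      (∀ i y, ¬ G.Adj (φ i) y → q i y = 0) ∧
      (∀ i y, G.Adj (φ i) y → (c - 1 / 2) / (Fintype.card V : ℝ) ≤ q i y) ∧
      (∀ i, ∑ y, q i y = 1) ∧
      (∑ j ∈ range K, ∑ y, (∑ i, w i j * (q i y - 1 / (Fintype.card V : ℝ))) ^ 2
        ≤ 4 * Dw / ((c - 1 / 2) * c)) ∧
      (∃ e : κ → ℝ, (∀ k, 0 ≤ e k ∧ e k ≤ (∑ i, w i 0) / (Fintype.card V : ℝ)) ∧
        ∑ k, ((∑ i, w i 0 * ∑ y, if χ (φ i) y = k then rb i y else 0) - e k) ^ 2
          ≤ 4 * Dw / ((c - 1 / 2) * c)) ∧
      (c * (∑ i, w i 0) - 2 * Real.sqrt (Dw * (Fintype.card V : ℝ)) ≤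
        ∑ i, w i 0 * ∑ y, rb i y) ∧
      (∀ x, c * (c - 1 / 2) / 2 * (∑ i, D i) - 2 * Δ * Real.log (Fintype.card V) ≤
        ∑ i, D i * (if G.Adj (φ i) x then 1 else 0)) := by
  classical
  have hnpos : 0 < Fintype.card V := by omega
  set n : ℝ := (Fintype.card V : ℝ) with hndef
  have hn5 : (5:ℝ) ≤ n := by rw [hndef]; exact_mod_cast hn
  have hn0 : 0 < n := by linarith
  have hα : 0 < c - 1 / 2 := by linarith
  have hc0 : 0 < c := by linarith
  have hαc : 0 < (c - 1 / 2) * c := mul_pos hα hc0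
  -- extension by zero
  set w' : ℕ → ℕ → ℝ := fun i j => if h : i < m then w ⟨i, h⟩ j else 0 with hw'
  set D' : ℕ → ℝ := fun i => if h : i < m then D ⟨i, h⟩ else 0 with hD'
  set pa' : ℕ → Option ℕ := fun i => if h : i < m then (pa ⟨i, h⟩).map Fin.val else none with hpa'
  have hw'fin : ∀ (i : Fin m) (j : ℕ), w' i j = w i j := by
    intro i j
    simp [hw']
  have hD'fin : ∀ (i : Fin m), D' i = D i := by
    intro i
    simp [hD']
  have hw'0 : ∀ i j, 0 ≤ w' i j := by
    intro i j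
    simp only [hw']
    split_ifs with h
    · exact hw _ _
    · exact le_refl _
  have hD'0 : ∀ i, 0 ≤ D' i := by
    intro i
    simp only [hD']
    split_ifs with h
    · exact (hD _).1
    · exact le_refl _
  have hD'Δ : ∀ i, D' i ≤ Δ := by
    intro i
    simp only [hD']
    split_ifs with h
    · exact (hD _).2
    · exact hΔ.le
  have hw'D : ∀ i, ∑ j ∈ range K, w' i j ≤ Dw := by
    intro i
    by_cases h : i < m
    · have : ∀ j, w' i j = w ⟨i, h⟩ j := fun j => by simp [hw', h]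
      simp_rw [this]
      exact hwD _
    · have : ∀ j, w' i j = 0 := fun j => by simp [hw', h]
      simp_rw [this]
      simpa using hDw.le
  have hw'W : ∑ i ∈ range m, ∑ j ∈ range K, w' i j ≤ n := by
    rw [Finset.sum_range]
    simp_rw [hw'fin]
    exact hW
  set c1 : ℝ := (c - 1 / 2) * c / (4 * Dw) with hc1'
  set c3 : ℝ := 1 / (4 * Dw * n) with hc3'
  set c4 : ℝ := 1 / n ^ 2 with hc4'
  have hc1p : 0 < c1 := by positivity
  have hc3p : 0 < c3 := by positivity
  have hc4p : 0 < c4 := by positivity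
  obtain ⟨φ, A, rbar, hinv, hpot⟩ := c3_induct c hc hc1 G hnpos hδ χ hχ pa' K w' hw'0 D' hD'0 (1 / Δ)
    (by positivity) (fun i => by
      rw [one_div, inv_mul_le_iff₀ hΔ, mul_one]
      exact hD'Δ i) c1 c1 c3 c4 hc1p.le hc1p.le hc3p.le hc4p.le m hm
  -- the potential is < 1
  have hwle : ∀ i j, j ∈ range K → w' i j ≤ Dw := by
    intro i j hj
    exact (Finset.single_le_sum (f := fun j => w' i j) (fun j _ => hw'0 i j) hj).trans (hw'D i)
  have hK0 : 0 ∈ range K := mem_range.mpr hK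
  have hincle : ∀ i, c3_inc n c K w' c1 c1 c3 i ≤ (3 / 4) * ((∑ j ∈ range K, w' i j) / n) := by
    intro i
    unfold c3_inc
    have e1 : ∑ j ∈ range K, (w' i j) ^ 2 ≤ Dw * ∑ j ∈ range K, w' i j := by
      rw [mul_sum]
      refine sum_le_sum (fun j hj => ?_)
      rw [sq]
      exact mul_le_mul_of_nonneg_right (hwle i j hj) (hw'0 i j)
    have e2 : (w' i 0) ^ 2 ≤ Dw * ∑ j ∈ range K, w' i j := by
      have e3 : w' i 0 ≤ ∑ j ∈ range K, w' i j :=
        Finset.single_le_sum (f := fun j => w' i j) (fun j _ => hw'0 i j) hK0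
      rw [sq]
      exact mul_le_mul (hwle i 0 hK0) e3 (hw'0 i 0) hDw.le
    have e4 : (c1 * (∑ j ∈ range K, (w' i j) ^ 2) + c1 * (w' i 0) ^ 2) / ((c - 1 / 2) * c * n)
        = c3 * ((∑ j ∈ range K, (w' i j) ^ 2) + (w' i 0) ^ 2) := by
      have hne : (c - 1 / 2) * c ≠ 0 := hαc.ne'
      rw [← mul_add, hc1', hc3']
      generalize (c - 1 / 2) * c = a at hne ⊢
      field_simp
    rw [e4]
    have e5 : (3 / 4) * ((∑ j ∈ range K, w' i j) / n) = c3 * (3 * (Dw * ∑ j ∈ range K, w' i j)) := by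
      rw [hc3']
      field_simp
    rw [e5, ← mul_add]
    refine mul_le_mul_of_nonneg_left ?_ hc3p.le
    linarith
  have hlt : c3_pot G χ c K w' D' (1 / Δ) c1 c1 c3 c4 φ A rbar m < 1 := by
    have e1 : c4 * n ≤ 1 / 5 := by
      have : c4 * n = 1 / n := by rw [hc4']; field_simp
      rw [this]
      exact one_div_le_one_div_of_le (by norm_num) hn5
    have e2 : ∑ i ∈ range m, c3_inc n c K w' c1 c1 c3 i ≤ 3 / 4 := by
      calc ∑ i ∈ range m, c3_inc n c K w' c1 c1 c3 i
          ≤ ∑ i ∈ range m, (3 / 4) * ((∑ j ∈ range K, w' i j) / n) := sum_le_sum (fun i _ => hincle i)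
        _ = (3 / 4) * ((∑ i ∈ range m, ∑ j ∈ range K, w' i j) / n) := by
            rw [← mul_sum, ← sum_div]
        _ ≤ (3 / 4) * 1 := by
            refine mul_le_mul_of_nonneg_left ?_ (by norm_num)
            rw [div_le_one hn0]
            exact hw'W
        _ = 3 / 4 := by norm_num
    linarith
  have hq1 : 0 ≤ c1 * (∑ j ∈ range K, ∑ y, (∑ i ∈ range m, w' i j * (qA G (A i) (φ i) y - 1 / n)) ^ 2) := by
    positivity
  have hq2 : 0 ≤ c1 * (∑ k, (∑ i ∈ range m, w' i 0 * (rk G (A i) χ (φ i) k - ek G (A i) χ k)) ^ 2) := by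
    positivity
  have hq3 : 0 ≤ c3 * (∑ i ∈ range m, w' i 0 * ((∑ y, rbA G (A i) (φ i) y) - rbar i)) ^ 2 := by
    positivity
  have hq4 : 0 ≤ c4 * (∑ x, Real.exp ((1 / Δ) * ∑ i ∈ range m, (c * (c - 1 / 2) / 2 * D' i
      - D' i * (if G.Adj (φ i) x then 1 else 0)))) := by
    positivity
  unfold c3_pot at hlt
  rw [← hndef] at hlt
  have hmem : ∀ i : Fin m, StepHyp G (A i) c ∧ φ i ∈ A i ∧ (∀ j < (i : ℕ), φ j ∉ A i) ∧
        (∀ j < (i : ℕ), pa' i = some j → ∀ h ∈ A i, G.Adj (φ j) h) ∧ c ≤ rbar i :=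
    fun i => hinv i i.isLt
  refine ⟨fun i => φ i, ?_, ?_, fun i y => qA G (A i) (φ i) y, fun i y => rbA G (A i) (φ i) y,
    ?_, ?_, ?_, ?_, ?_, ?_, ?_, ?_⟩
  · -- injective
    intro i j hij
    simp only at hij
    rcases lt_trichotomy (i : ℕ) (j : ℕ) with h | h | h
    · exact absurd ((hmem j).2.1) (hij ▸ (hmem j).2.2.1 i h)
    · exact Fin.ext h
    · exact absurd ((hmem i).2.1) (hij ▸ (hmem i).2.2.1 j h)
  · intro i j hij
    have hji : (j : ℕ) < (i : ℕ) := hpa i j hij
    have : pa' i = some (j : ℕ) := by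
      simp [hpa', hij]
    exact (hmem i).2.2.2.1 j hji this (φ i) (hmem i).2.1
  · intro i y
    obtain ⟨g1, g2, _⟩ := hmem i
    exact ⟨rbA_nonneg _ _, rbA_le g1 _ g2 y, qA_upper g1 _ g2 y⟩
  · intro i y hy
    simp only [qA]
    rw [if_neg hy]
  · intro i y hy
    obtain ⟨g1, g2, _⟩ := hmem i
    exact qA_lower g1 _ g2 y hy
  · intro i
    obtain ⟨g1, g2, _⟩ := hmem i
    exact qA_sum g1 _ g2
  · have e1 : ∑ j ∈ range K, ∑ y, (∑ i : Fin m, w i j * (qA G (A i) (φ i) y - 1 / n)) ^ 2 =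
        ∑ j ∈ range K, ∑ y, (∑ i ∈ range m, w' i j * (qA G (A i) (φ i) y - 1 / n)) ^ 2 := by
      refine sum_congr rfl (fun j _ => sum_congr rfl (fun y _ => ?_))
      congr 1
      rw [Finset.sum_range]
      refine sum_congr rfl (fun i _ => ?_)
      rw [hw'fin]
    rw [e1]
    have e2 : c1 * (∑ j ∈ range K, ∑ y, (∑ i ∈ range m, w' i j * (qA G (A i) (φ i) y - 1 / n)) ^ 2)
        ≤ 1 := by linarith
    have e3 : 4 * Dw / ((c - 1 / 2) * c) = 1 / c1 := by
      rw [hc1']
      field_simp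
    rw [e3, le_div_iff₀ hc1p, mul_comm]
    exact e2
  · refine ⟨fun k => ∑ i ∈ range m, w' i 0 * ek G (A i) χ k, ?_, ?_⟩
    · intro k
      beta_reduce
      rw [Finset.sum_range]
      constructor
      · refine sum_nonneg (fun i _ => ?_)
        exact mul_nonneg (hw'0 _ _) (ek_bounds G (A i) c (hmem i).1 χ hχ k).1
      · rw [sum_div]
        refine sum_le_sum (fun i _ => ?_)
        rw [hw'fin, div_eq_mul_one_div]
        refine mul_le_mul_of_nonneg_left ?_ (hw i 0)
        exact (ek_bounds G (A i) c (hmem i).1 χ hχ k).2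
    · have e1 : ∑ k, ((∑ i : Fin m, w i 0 * ∑ y, if χ (φ i) y = k then rbA G (A i) (φ i) y else 0) -
          ∑ i ∈ range m, w' i 0 * ek G (A i) χ k) ^ 2 =
          ∑ k, (∑ i ∈ range m, w' i 0 * (rk G (A i) χ (φ i) k - ek G (A i) χ k)) ^ 2 := by
        refine sum_congr rfl (fun k _ => ?_)
        congr 1
        rw [Finset.sum_range, Finset.sum_range, ← sum_sub_distrib]
        refine sum_congr rfl (fun i _ => ?_)
        rw [hw'fin, mul_sub]
        rfl
      rw [e1]
      have e2 : c1 * (∑ k, (∑ i ∈ range m, w' i 0 * (rk G (A i) χ (φ i) k - ek G (A i) χ k)) ^ 2)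
          ≤ 1 := by linarith
      have e3 : 4 * Dw / ((c - 1 / 2) * c) = 1 / c1 := by
        rw [hc1']
        field_simp
      rw [e3, le_div_iff₀ hc1p, mul_comm]
      exact e2
  · set s : ℝ := ∑ i ∈ range m, w' i 0 * ((∑ y, rbA G (A i) (φ i) y) - rbar i) with hs
    have e1 : s ^ 2 ≤ 4 * (Dw * n) := by
      have : c3 * s ^ 2 ≤ 1 := by linarith
      rw [hc3', one_div, inv_mul_le_iff₀ (by positivity), mul_one] at this
      linarith
    have e2 : -(2 * Real.sqrt (Dw * n)) ≤ s := by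
      have hsq : (2 * Real.sqrt (Dw * n)) ^ 2 = 4 * (Dw * n) := by
        rw [mul_pow, Real.sq_sqrt (by positivity)]
        norm_num
      have := abs_le_of_sq_le_sq' (a := s) (b := 2 * Real.sqrt (Dw * n)) (by rw [hsq]; exact e1)
        (by positivity)
      exact this.1
    have e3 : s = ∑ i : Fin m, w i 0 * ∑ y, rbA G (A i) (φ i) y - ∑ i : Fin m, w i 0 * rbar i := by
      rw [hs, Finset.sum_range, ← sum_sub_distrib]
      refine sum_congr rfl (fun i _ => ?_)
      rw [hw'fin, mul_sub]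
    have e4 : c * (∑ i : Fin m, w i 0) ≤ ∑ i : Fin m, w i 0 * rbar i := by
      rw [mul_sum]
      refine sum_le_sum (fun i _ => ?_)
      rw [mul_comm]
      exact mul_le_mul_of_nonneg_left (hmem i).2.2.2.2 (hw i 0)
    linarith
  · intro x
    have e1 : c4 * Real.exp ((1 / Δ) * ∑ i ∈ range m, (c * (c - 1 / 2) / 2 * D' i
      - D' i * (if G.Adj (φ i) x then 1 else 0))) ≤ 1 := by
      have e2 : Real.exp ((1 / Δ) * ∑ i ∈ range m, (c * (c - 1 / 2) / 2 * D' i
          - D' i * (if G.Adj (φ i) x then 1 else 0))) ≤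
          ∑ x, Real.exp ((1 / Δ) * ∑ i ∈ range m, (c * (c - 1 / 2) / 2 * D' i
          - D' i * (if G.Adj (φ i) x then 1 else 0))) :=
        Finset.single_le_sum (f := fun x => Real.exp ((1 / Δ) * ∑ i ∈ range m, (c * (c - 1 / 2) / 2 * D' i
          - D' i * (if G.Adj (φ i) x then 1 else 0)))) (fun x _ => (Real.exp_pos _).le) (mem_univ x)
      have e3 := mul_le_mul_of_nonneg_left e2 hc4p.le
      linarith
    rw [hc4', one_div, inv_mul_le_iff₀ (by positivity), mul_one] at e1
    have e4 : (1 / Δ) * ∑ i ∈ range m, (c * (c - 1 / 2) / 2 * D' i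
      - D' i * (if G.Adj (φ i) x then 1 else 0)) ≤ 2 * Real.log n := by
      have := Real.log_le_log (Real.exp_pos _) e1
      rw [Real.log_exp, Real.log_pow] at this
      exact_mod_cast this
    rw [one_div, inv_mul_le_iff₀ hΔ, Finset.sum_range, sum_sub_distrib, ← mul_sum] at e4
    simp_rw [hD'fin] at e4
    linarith

end H64.Col
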