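import Pool.Agent.H64.Col.Defs

/-! D1: every tree has a rooting (`dep v = dist r v`, `par v` = next vertex on the path to `r`). -/

namespace H64.Col
open Finset

/-- a vertex at positive distance from `r` has a neighbour closer to `r` -/
theorem d1_par {τ : Type} (T : SimpleGraph τ) (hT : T.Connected) (r v : τ) (hv : v ≠ r) :
    ∃ u, T.Adj v u ∧ T.dist r v = T.dist r u + 1 := by
  obtain ⟨w, hw⟩ := hT.exists_walk_length_eq_dist v r
  cases w with
  | nil => exact absurd rfl hv
  | @cons _ u _ h p =>
    refine ⟨u, h, ?_⟩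
    rw [SimpleGraph.Walk.length_cons] at hw
    have h1 : T.dist u r ≤ p.length := SimpleGraph.dist_le p
    have h2 : T.dist v r ≤ T.dist v u + T.dist u r := hT.dist_triangle
    have h3 : T.dist v u = 1 := SimpleGraph.dist_eq_one_iff_adj.2 h
    rw [SimpleGraph.dist_comm (u := r) (v := v), SimpleGraph.dist_comm (u := r) (v := u)]
    omega

theorem exists_rooted {τ : Type} [Fintype τ] [DecidableEq τ] (T : SimpleGraph τ) (hT : T.IsTree) :
    Nonempty (Rooted T) := by
  classical
  obtain ⟨r⟩ := hT.1.nonempty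
  have hex : ∀ v : τ, ∃ u, v ≠ r → (T.Adj v u ∧ T.dist r v = T.dist r u + 1) := by
    intro v
    by_cases hv : v = r
    · exact ⟨r, fun h => absurd hv h⟩
    · obtain ⟨u, hu⟩ := d1_par T hT.1 r v hv
      exact ⟨u, fun _ => hu⟩
  choose par hpar using hex
  have hinj : Set.InjOn (fun v => s(v, par v)) (↑(univ.erase r) : Set τ) := by
    intro u hu v hv huv
    rw [mem_coe, mem_erase] at hu hv
    have h1 := hpar u hu.1
    have h2 := hpar v hv.1
    simp only [Sym2.eq_iff] at huv
    rcases huv with h | h
    · exact h.1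
    · obtain ⟨h3, h4⟩ := h
      have h5 := h1.2
      have h6 := h2.2
      rw [h4] at h5
      rw [← h3] at h6
      omega
  have himg : (univ.erase r).image (fun v => s(v, par v)) = T.edgeFinset := by
    apply eq_of_subset_of_card_le
    · intro e he
      rw [mem_image] at he
      obtain ⟨v, hv, rfl⟩ := he
      rw [SimpleGraph.mem_edgeFinset, SimpleGraph.mem_edgeSet]
      exact (hpar v (mem_erase.1 hv).1).1
    · rw [card_image_of_injOn hinj, card_erase_of_mem (mem_univ _), card_univ,
        ← hT.card_edgeFinset]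
      simp
  refine ⟨⟨r, par, fun v => T.dist r v, SimpleGraph.dist_self, fun v hv => (hpar v hv).2, ?_⟩⟩
  intro u v
  constructor
  · intro h
    have h1 : s(u, v) ∈ T.edgeFinset := by
      rw [SimpleGraph.mem_edgeFinset, SimpleGraph.mem_edgeSet]
      exact h
    rw [← himg, mem_image] at h1
    obtain ⟨x, hx, hxe⟩ := h1
    have hx' := (mem_erase.1 hx).1
    rw [Sym2.eq_iff] at hxe
    rcases hxe with ⟨h2, h3⟩ | ⟨h2, h3⟩
    · left
      subst h2
      exact ⟨hx', h3⟩
    · right
      subst h2
      exact ⟨hx', h3⟩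
  · rintro (⟨h1, h2⟩ | ⟨h1, h2⟩)
    · rw [← h2]
      exact (hpar u h1).1
    · rw [← h2]
      exact (hpar v h1).1.symm

end H64.Col
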