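import Pool.Agent.H64.Col.Defs

/-! D2: cut set.  There is `X ∋ r` with `K (|X|-1) ≤ n` such that, for every `v ∉ X`, the set of
vertices whose path to `v` (upwards) avoids `X` has less than `K` elements.
Upward chain: `u`, `par u`, ..., `v`. Construction by depth, deepest first: put `v` into `X` iff the
number of vertices hanging below it (avoiding the deeper part of `X`), itself included, is `≥ K`.
`Below X v` = `{u | ∃ j, par^[j] u = v ∧ (∀ i < j, par^[i] u ∉ X) ∧ dep u = dep v + j}`. -/

namespace H64.Col
open Finset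

variable {τ : Type} [Fintype τ] [DecidableEq τ]

/-- vertices hanging below `v` through vertices not in `X` (`v` itself included) -/
def Below {T : SimpleGraph τ} (R : Rooted T) (X : Finset τ) (v : τ) : Set τ :=
  {u | ∃ j : ℕ, R.par^[j] u = v ∧ R.dep u = R.dep v + j ∧ ∀ i < j, R.par^[i] u ∉ X}

theorem d2_dep {T : SimpleGraph τ} (R : Rooted T) {u v : τ} {j : ℕ} (hd : R.dep u = R.dep v + j) :
    ∀ i, i ≤ j → R.dep (R.par^[i] u) + i = R.dep u := by
  intro i
  induction i with
  | zero =>
    intro _
    rfl
  | succ i ih =>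
    intro hi
    have h1 := ih (by omega)
    have hne : R.par^[i] u ≠ R.r := by
      intro h
      rw [h, R.dep_r] at h1
      omega
    have h2 := R.dep_par _ hne
    rw [Function.iterate_succ_apply']
    omega

theorem d2_below_congr {T : SimpleGraph τ} (R : Rooted T) {X Y : Finset τ} {v : τ}
    (h : ∀ u, R.dep v < R.dep u → (u ∈ X ↔ u ∈ Y)) : Below R X v = Below R Y v := by
  ext u
  constructor
  · rintro ⟨j, h1, h2, h3⟩
    refine ⟨j, h1, h2, fun i hi => ?_⟩
    have h4 := d2_dep R h2 i hi.le
    rw [← h _ (by omega)]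
    exact h3 i hi
  · rintro ⟨j, h1, h2, h3⟩
    refine ⟨j, h1, h2, fun i hi => ?_⟩
    have h4 := d2_dep R h2 i hi.le
    rw [h _ (by omega)]
    exact h3 i hi

theorem d2_disj {T : SimpleGraph τ} (R : Rooted T) {X : Finset τ} {v v' u : τ} (hv : v ∈ X)
    (hv' : v' ∈ X) (hu : u ∈ Below R X v) (hu' : u ∈ Below R X v') : v = v' := by
  obtain ⟨j, h1, -, h3⟩ := hu
  obtain ⟨j', h1', -, h3'⟩ := hu'
  rcases lt_trichotomy j j' with h | h | h
  · exact absurd (h1 ▸ hv) (h3' j h)
  · subst h
    rw [← h1, ← h1']
  · exact absurd (h1' ▸ hv') (h3 j' h)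

theorem d2_card {T : SimpleGraph τ} (R : Rooted T) (K : ℕ) (X : Finset τ)
    (h : ∀ v ∈ X, K ≤ (Below R X v).ncard) : K * X.card ≤ Fintype.card τ := by
  classical
  have h1 : ∀ v, (Below R X v).ncard = (univ.filter (fun u => u ∈ Below R X v)).card := by
    intro v
    rw [Set.ncard_eq_toFinset_card']
    congr 1
    ext u
    simp
  have h2 : (X.biUnion fun v => univ.filter (fun u => u ∈ Below R X v)).card =
      ∑ v ∈ X, (univ.filter (fun u => u ∈ Below R X v)).card := by
    refine card_biUnion ?_
    intro v hv v' hv' hne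
    rw [Function.onFun, disjoint_left]
    intro u hu hu'
    rw [mem_filter] at hu hu'
    exact hne (d2_disj R hv hv' hu.2 hu'.2)
  calc K * X.card = ∑ _v ∈ X, K := by rw [sum_const, smul_eq_mul, mul_comm]
    _ ≤ ∑ v ∈ X, (univ.filter (fun u => u ∈ Below R X v)).card :=
        sum_le_sum fun v hv => (h v hv).trans_eq (h1 v)
    _ = (X.biUnion fun v => univ.filter (fun u => u ∈ Below R X v)).card := h2.symm
    _ ≤ Fintype.card τ := card_le_univ _

theorem d2_level {T : SimpleGraph τ} (R : Rooted T) (K : ℕ) : ∀ n : ℕ, ∀ d : ℕ,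
    (∀ v, R.dep v < d + n) → ∃ X : Finset τ,
      (∀ v ∈ X, d ≤ R.dep v ∧ K ≤ (Below R X v).ncard) ∧
      ∀ v, d ≤ R.dep v → v ∉ X → (Below R X v).ncard ≤ K := by
  classical
  intro n
  induction n with
  | zero =>
    intro d hd
    refine ⟨∅, fun v hv => absurd hv (notMem_empty v), fun v hv _ => ?_⟩
    have := hd v
    omega
  | succ n ih =>
    intro d hd
    obtain ⟨X, hX1, hX2⟩ := ih (d + 1) (fun v => by have := hd v; omega)
    let Y : Finset τ := X ∪ univ.filter (fun v => R.dep v = d ∧ K < (Below R X v).ncard)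
    have hXY : ∀ v, d ≤ R.dep v → Below R Y v = Below R X v := by
      intro v hv
      refine d2_below_congr R fun u hu => ?_
      simp only [Y, mem_union, mem_filter, mem_univ, true_and]
      constructor
      · rintro (h | h)
        · exact h
        · omega
      · exact fun h => Or.inl h
    refine ⟨Y, ?_, ?_⟩
    · intro v hv
      simp only [Y, mem_union, mem_filter, mem_univ, true_and] at hv
      rcases hv with h | h
      · have h1 := hX1 v h
        refine ⟨by omega, ?_⟩
        rw [hXY v (by omega)]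
        exact h1.2
      · refine ⟨h.1.ge, ?_⟩
        rw [hXY v h.1.ge]
        exact h.2.le
    · intro v hv hvY
      rw [hXY v hv]
      simp only [Y, mem_union, mem_filter, mem_univ, true_and, not_or, not_and, not_lt] at hvY
      rcases Nat.lt_or_ge d (R.dep v) with h | h
      · exact hX2 v h hvY.1
      · exact hvY.2 (le_antisymm h hv)

theorem exists_cut {T : SimpleGraph τ} (R : Rooted T) (K : ℕ) (hK : 1 ≤ K) :
    ∃ X : Finset τ, R.r ∈ X ∧ K * X.card ≤ Fintype.card τ + K ∧
      ∀ v, v ∉ X → (Below R X v).ncard ≤ K := by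
  classical
  obtain ⟨n, hn⟩ : ∃ n, ∀ v, R.dep v < 0 + n := by
    refine ⟨univ.sup R.dep + 1, fun v => ?_⟩
    have := le_sup (f := R.dep) (mem_univ v)
    omega
  obtain ⟨X, hX1, hX2⟩ := d2_level R K n 0 hn
  refine ⟨insert R.r X, mem_insert_self _ _, ?_, ?_⟩
  · have h1 := d2_card R K X fun v hv => (hX1 v hv).2
    have h2 := card_insert_le R.r X
    calc K * (insert R.r X).card ≤ K * (X.card + 1) := Nat.mul_le_mul_left K h2
      _ = K * X.card + K := by ring
      _ ≤ Fintype.card τ + K := by omega
  · intro v hv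
    rw [mem_insert, not_or] at hv
    have h1 : Below R (insert R.r X) v = Below R X v := by
      refine d2_below_congr R fun u hu => ?_
      rw [mem_insert]
      constructor
      · rintro (h | h)
        · rw [h, R.dep_r] at hu
          exact absurd hu (Nat.not_lt_zero _)
        · exact h
      · exact fun h => Or.inr h
    rw [h1]
    exact hX2 v (Nat.zero_le _) hv.2

end H64.Col
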