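import Pool.Agent.H64.Col.D2_Cut

/-! D3: branch closure. `Anc v u`: `v` is an ancestor of `u` or equal.
`Y = X ∪ {v with two different children each having a descendant (or itself) in X}` has at most
`2|X|` elements.  Proof: the added vertices inject into `X`: a branch vertex `v` has a child `c`
leading to `X` whose smallest element of `X` below it is not the smallest one below `v`. -/

namespace H64.Col
open Finset

variable {τ : Type} [Fintype τ] [DecidableEq τ]

/-- `v` is an ancestor of `u` (or `u = v`) -/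
def Anc {T : SimpleGraph τ} (R : Rooted T) (v u : τ) : Prop :=
  ∃ j : ℕ, R.par^[j] u = v ∧ R.dep u = R.dep v + j

/-- `c` is a child of `v` -/
def Child {T : SimpleGraph τ} (R : Rooted T) (v c : τ) : Prop := c ≠ R.r ∧ R.par c = v

open Classical in
/-- branch closure -/
noncomputable def closeY {T : SimpleGraph τ} (R : Rooted T) (X : Finset τ) : Finset τ :=
  univ.filter (fun v => v ∈ X ∨ ∃ c₁ c₂, c₁ ≠ c₂ ∧ Child R v c₁ ∧ Child R v c₂ ∧
    (∃ x ∈ X, Anc R c₁ x) ∧ (∃ x ∈ X, Anc R c₂ x))

omit [Fintype τ] [DecidableEq τ] in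
theorem anc_refl {T : SimpleGraph τ} (R : Rooted T) (v : τ) : Anc R v v := ⟨0, rfl, rfl⟩

omit [Fintype τ] [DecidableEq τ] in
theorem anc_trans {T : SimpleGraph τ} (R : Rooted T) {a b c : τ} (h1 : Anc R a b)
    (h2 : Anc R b c) : Anc R a c := by
  obtain ⟨j, hj, hdj⟩ := h1
  obtain ⟨k, hk, hdk⟩ := h2
  refine ⟨j + k, ?_, by omega⟩
  rw [Function.iterate_add_apply, hk, hj]

omit [Fintype τ] [DecidableEq τ] in
theorem child_dep {T : SimpleGraph τ} (R : Rooted T) {v c : τ} (h : Child R v c) :
    R.dep c = R.dep v + 1 := by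
  rw [R.dep_par c h.1, h.2]

omit [Fintype τ] [DecidableEq τ] in
theorem child_anc {T : SimpleGraph τ} (R : Rooted T) {v c : τ} (h : Child R v c) :
    Anc R v c := ⟨1, h.2, child_dep R h⟩

omit [Fintype τ] [DecidableEq τ] in
theorem anc_of_dep_le {T : SimpleGraph τ} (R : Rooted T) {a b x : τ} (ha : Anc R a x)
    (hb : Anc R b x) (h : R.dep a ≤ R.dep b) : Anc R a b := by
  obtain ⟨j, hj, hdj⟩ := ha
  obtain ⟨k, hk, hdk⟩ := hb
  refine ⟨j - k, ?_, by omega⟩
  have : j = (j - k) + k := by omega
  rw [this, Function.iterate_add_apply, hk] at hj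
  exact hj

omit [Fintype τ] [DecidableEq τ] in
theorem anc_eq_of_dep {T : SimpleGraph τ} (R : Rooted T) {a b x : τ} (ha : Anc R a x)
    (hb : Anc R b x) (h : R.dep a = R.dep b) : a = b := by
  obtain ⟨j, hj, hdj⟩ := ha
  obtain ⟨k, hk, hdk⟩ := hb
  have : j = k := by omega
  rw [← hj, ← hk, this]

omit [Fintype τ] [DecidableEq τ] in
theorem dep_iterate {T : SimpleGraph τ} (R : Rooted T) (x : τ) (i : ℕ) (h : i ≤ R.dep x) :
    R.dep (R.par^[i] x) + i = R.dep x := by
  induction i with
  | zero => simp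
  | succ i ih =>
    have ih' := ih (by omega)
    have hne : R.par^[i] x ≠ R.r := by
      intro hr
      rw [hr, R.dep_r] at ih'
      omega
    have h2 := R.dep_par _ hne
    rw [Function.iterate_succ_apply']
    omega

omit [Fintype τ] [DecidableEq τ] in
/-- the vertices on the path from `x` up to an ancestor -/
theorem anc_iterate {T : SimpleGraph τ} (R : Rooted T) (x : τ) (i : ℕ) (h : i ≤ R.dep x) :
    Anc R (R.par^[i] x) x := ⟨i, rfl, by have := dep_iterate R x i h; omega⟩

omit [Fintype τ] [DecidableEq τ] in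
theorem child_iterate {T : SimpleGraph τ} (R : Rooted T) (x : τ) (i : ℕ) (h : i + 1 ≤ R.dep x) :
    Child R (R.par^[i + 1] x) (R.par^[i] x) := by
  refine ⟨?_, ?_⟩
  · intro hr
    have := dep_iterate R x i (by omega)
    rw [hr, R.dep_r] at this
    omega
  · rw [Function.iterate_succ_apply']

/-- `x` is the smallest element of `X` below `v` with respect to `e` -/
def MinBelow {T : SimpleGraph τ} (R : Rooted T) (X : Finset τ) (e : τ → ℕ) (v x : τ) : Prop :=
  x ∈ X ∧ Anc R v x ∧ ∀ y ∈ X, Anc R v y → e x ≤ e y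

omit [Fintype τ] [DecidableEq τ] in
theorem exists_minBelow {T : SimpleGraph τ} (R : Rooted T) (X : Finset τ) (e : τ → ℕ) (v : τ)
    (h : ∃ x ∈ X, Anc R v x) : ∃ x, MinBelow R X e v x := by
  classical
  obtain ⟨x, hx, hax⟩ := h
  obtain ⟨y, hy, hmin⟩ := Finset.exists_min_image (X.filter (fun y => Anc R v y)) e
    ⟨x, Finset.mem_filter.mpr ⟨hx, hax⟩⟩
  rw [Finset.mem_filter] at hy
  exact ⟨y, hy.1, hy.2, fun z hz haz => hmin z (Finset.mem_filter.mpr ⟨hz, haz⟩)⟩

theorem closeY_card {T : SimpleGraph τ} (R : Rooted T) (X : Finset τ) :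
    (closeY R X).card ≤ 2 * X.card := by
  classical
  set e : τ → ℕ := fun v => (Fintype.equivFin τ v : ℕ) with he
  have einj : ∀ a b, e a = e b → a = b := by
    intro a b h
    exact (Fintype.equivFin τ).injective (Fin.ext h)
  have hex : ∀ v ∈ closeY R X \ X, ∃ x, ∃ c, Child R v c ∧ MinBelow R X e c x ∧
      ¬ MinBelow R X e v x := by
    intro v hv
    rw [Finset.mem_sdiff, closeY, Finset.mem_filter] at hv
    obtain ⟨⟨-, hv1⟩, hvX⟩ := hv
    rcases hv1 with hv1 | ⟨c₁, c₂, hne, hc₁, hc₂, hx₁, hx₂⟩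
    · exact absurd hv1 hvX
    obtain ⟨x₁, hm₁⟩ := exists_minBelow R X e c₁ hx₁
    obtain ⟨x₂, hm₂⟩ := exists_minBelow R X e c₂ hx₂
    by_cases h1 : MinBelow R X e v x₁
    · by_cases h2 : MinBelow R X e v x₂
      · exfalso
        have hle := h1.2.2 x₂ h2.1 h2.2.1
        have hge := h2.2.2 x₁ h1.1 h1.2.1
        have hxx : x₁ = x₂ := einj _ _ (le_antisymm hle hge)
        subst hxx
        apply hne
        apply anc_eq_of_dep R hm₁.2.1 hm₂.2.1
        rw [child_dep R hc₁, child_dep R hc₂]
      · exact ⟨x₂, c₂, hc₂, hm₂, h2⟩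
    · exact ⟨x₁, c₁, hc₁, hm₁, h1⟩
  choose! φ hφ using hex
  have key : ∀ v v' x c c', Child R v c → MinBelow R X e c x → Child R v' c' →
      MinBelow R X e c' x → ¬ MinBelow R X e v' x → R.dep v ≤ R.dep v' → v = v' := by
    intro v v' x c c' hc hm hc' hm' hn' hle
    have hav : Anc R v x := anc_trans R (child_anc R hc) hm.2.1
    have hav' : Anc R v' x := anc_trans R (child_anc R hc') hm'.2.1
    rcases Nat.lt_or_ge (R.dep v) (R.dep v') with hlt | hge
    · exfalso
      apply hn'
      have hcv' : Anc R c v' := anc_of_dep_le R hm.2.1 hav' (by rw [child_dep R hc]; omega)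
      exact ⟨hm.1, hav', fun y hy hay => hm.2.2 y hy (anc_trans R hcv' hay)⟩
    · exact anc_eq_of_dep R hav hav' (by omega)
  have hinj : (closeY R X \ X).card ≤ X.card := by
    apply Finset.card_le_card_of_injOn φ
    · intro v hv
      obtain ⟨c, -, hm, -⟩ := hφ v hv
      exact hm.1
    · intro v hv v' hv' heq
      obtain ⟨c, hc, hm, hn⟩ := hφ v hv
      obtain ⟨c', hc', hm', hn'⟩ := hφ v' hv'
      rw [← heq] at hm' hn'
      rcases le_total (R.dep v) (R.dep v') with h | h
      · exact key v v' (φ v) c c' hc hm hc' hm' hn' h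
      · exact (key v' v (φ v) c' c hc' hm' hc hm hn h).symm
  have hsub : closeY R X ⊆ (closeY R X \ X) ∪ X := by
    intro v hv
    by_cases h : v ∈ X
    · exact Finset.mem_union_right _ h
    · exact Finset.mem_union_left _ (Finset.mem_sdiff.mpr ⟨hv, h⟩)
  calc (closeY R X).card ≤ ((closeY R X \ X) ∪ X).card := Finset.card_le_card hsub
    _ ≤ (closeY R X \ X).card + X.card := Finset.card_union_le _ _
    _ ≤ 2 * X.card := by omega

open Classical in
/-- the vertices strictly between elements of `Y`: not in `Y` but with a descendant in `X` -/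
noncomputable def spine {T : SimpleGraph τ} (R : Rooted T) (X : Finset τ) : Finset τ :=
  univ.filter (fun v => v ∉ closeY R X ∧ ∃ x ∈ X, Anc R v x)

theorem mem_spine {T : SimpleGraph τ} (R : Rooted T) (X : Finset τ) (v : τ) :
    v ∈ spine R X ↔ v ∉ closeY R X ∧ ∃ x ∈ X, Anc R v x := by
  classical
  simp [spine]

theorem mem_closeY {T : SimpleGraph τ} (R : Rooted T) (X : Finset τ) (v : τ) :
    v ∈ closeY R X ↔ (v ∈ X ∨ ∃ c₁ c₂, c₁ ≠ c₂ ∧ Child R v c₁ ∧ Child R v c₂ ∧
    (∃ x ∈ X, Anc R c₁ x) ∧ (∃ x ∈ X, Anc R c₂ x)) := by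
  classical
  simp [closeY]

/-- every element of the closure leads to `X` -/
theorem closeY_anc {T : SimpleGraph τ} (R : Rooted T) (X : Finset τ) (v : τ)
    (hv : v ∈ closeY R X) : ∃ x ∈ X, Anc R v x := by
  rw [mem_closeY] at hv
  rcases hv with hv | ⟨c₁, c₂, -, hc₁, -, ⟨x, hx, hax⟩, -⟩
  · exact ⟨v, hv, anc_refl R v⟩
  · exact ⟨x, hx, anc_trans R (child_anc R hc₁) hax⟩

/-- every spine vertex has exactly one child leading to `X` -/
theorem spine_unique {T : SimpleGraph τ} (R : Rooted T) (X : Finset τ) (v : τ)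
    (hv : v ∈ spine R X) : ∃! c, Child R v c ∧ ∃ x ∈ X, Anc R c x := by
  rw [mem_spine] at hv
  obtain ⟨hvY, x, hx, j, hj, hdj⟩ := hv
  rw [mem_closeY] at hvY
  push Not at hvY
  obtain ⟨hvX, hvY⟩ := hvY
  have hj0 : j ≠ 0 := by
    rintro rfl
    apply hvX
    rw [← hj]
    exact hx
  obtain ⟨i, rfl⟩ := Nat.exists_eq_succ_of_ne_zero hj0
  have hch := child_iterate R x i (by omega)
  rw [show i + 1 = i.succ from rfl, hj] at hch
  refine ⟨R.par^[i] x, ⟨hch, x, hx, anc_iterate R x i (by omega)⟩, ?_⟩
  rintro c ⟨hc, y, hy, hay⟩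
  by_contra hne
  exact hvY c _ hne hc hch ⟨y, hy, hay⟩ x hx (anc_iterate R x i (by omega))

/-- following the spine downwards from a spine vertex one arrives at a first vertex of `Y`:
every spine vertex `v` is an ancestor of a unique `s ∈ Y` with only spine vertices in between -/
theorem spine_end {T : SimpleGraph τ} (R : Rooted T) (X : Finset τ) (v : τ)
    (hv : v ∈ spine R X) : ∃! s, s ∈ closeY R X ∧ ∃ j : ℕ, 1 ≤ j ∧ R.par^[j] s = v ∧
      R.dep s = R.dep v + j ∧ ∀ i, 1 ≤ i → i ≤ j → R.par^[i] s ∈ spine R X := by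
  classical
  have hv' := hv
  rw [mem_spine] at hv'
  obtain ⟨hvY, x, hx, j, hj, hdj⟩ := hv'
  -- the last index at which the path from `x` to `v` meets the closure
  have hxY : x ∈ closeY R X := by rw [mem_closeY]; exact Or.inl hx
  obtain ⟨i₀, hi₀, hmax⟩ : ∃ i₀ ∈ (Finset.range (j + 1)).filter
      (fun i => R.par^[i] x ∈ closeY R X), ∀ i ∈ (Finset.range (j + 1)).filter
      (fun i => R.par^[i] x ∈ closeY R X), i ≤ i₀ := by
    apply Finset.exists_max_image _ (fun i => i)
    exact ⟨0, Finset.mem_filter.mpr ⟨Finset.mem_range.mpr (by omega), hxY⟩⟩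
  rw [Finset.mem_filter, Finset.mem_range] at hi₀
  obtain ⟨hi₀j, hi₀Y⟩ := hi₀
  have hlt : i₀ < j := by
    rcases Nat.lt_or_ge i₀ j with h | h
    · exact h
    · exfalso
      have : i₀ = j := by omega
      rw [this, hj] at hi₀Y
      exact hvY hi₀Y
  have hdx : j ≤ R.dep x := by omega
  have hdi := dep_iterate R x i₀ (by omega)
  refine ⟨R.par^[i₀] x, ⟨hi₀Y, j - i₀, by omega, ?_, by omega, ?_⟩, ?_⟩
  · rw [← Function.iterate_add_apply, show j - i₀ + i₀ = j by omega, hj]
  · intro i h1 h2
    rw [← Function.iterate_add_apply, mem_spine]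
    refine ⟨?_, x, hx, anc_iterate R x (i + i₀) (by omega)⟩
    intro hmem
    have := hmax (i + i₀) (Finset.mem_filter.mpr ⟨Finset.mem_range.mpr (by omega), hmem⟩)
    omega
  · -- uniqueness
    have uniq : ∀ s s' : τ, ∀ j j' : ℕ, s ∈ closeY R X → s' ∈ closeY R X →
        R.par^[j] s = v → R.par^[j'] s' = v → R.dep s = R.dep v + j → R.dep s' = R.dep v + j' →
        (∀ i, 1 ≤ i → i ≤ j → R.par^[i] s ∈ spine R X) →
        (∀ i, 1 ≤ i → i ≤ j' → R.par^[i] s' ∈ spine R X) → j ≤ j' → s = s' := by
      intro s s' j j' hs hs' hjs hjs' hd hd' hsp hsp' hle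
      have step : ∀ i, i ≤ j → R.par^[j - i] s = R.par^[j' - i] s' := by
        intro i
        induction i with
        | zero => intro _; simp [hjs, hjs']
        | succ i ih =>
          intro hi
          have ih' := ih (by omega)
          obtain ⟨c, -, hc⟩ := spine_unique R X _ (hsp (j - i) (by omega) (by omega))
          have e1 : R.par^[j - (i + 1)] s = c := by
            apply hc
            refine ⟨?_, ?_⟩
            · have := child_iterate R s (j - (i + 1)) (by omega)
              rwa [show j - (i + 1) + 1 = j - i by omega] at this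
            · rcases Nat.eq_zero_or_pos (j - (i + 1)) with h0 | hp
              · rw [h0]; exact closeY_anc R X s hs
              · have := hsp (j - (i + 1)) hp (by omega)
                rw [mem_spine] at this
                exact this.2
          have e2 : R.par^[j' - (i + 1)] s' = c := by
            apply hc
            refine ⟨?_, ?_⟩
            · have := child_iterate R s' (j' - (i + 1)) (by omega)
              rw [show j' - (i + 1) + 1 = j' - i by omega, ← ih'] at this
              exact this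
            · rcases Nat.eq_zero_or_pos (j' - (i + 1)) with h0 | hp
              · rw [h0]; exact closeY_anc R X s' hs'
              · have := hsp' (j' - (i + 1)) hp (by omega)
                rw [mem_spine] at this
                exact this.2
          rw [e1, e2]
      have hfin := step j le_rfl
      rw [Nat.sub_self] at hfin
      rcases Nat.eq_zero_or_pos (j' - j) with h0 | hp
      · rw [h0] at hfin
        exact hfin
      · exfalso
        have hmem := hsp' (j' - j) hp (by omega)
        rw [← hfin, mem_spine] at hmem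
        exact hmem.1 hs
    rintro s ⟨hs, k, hk1, hks, hkd, hksp⟩
    have hps : ∀ i, 1 ≤ i → i ≤ j - i₀ → R.par^[i] (R.par^[i₀] x) ∈ spine R X := by
      intro i h1 h2
      rw [← Function.iterate_add_apply, mem_spine]
      refine ⟨?_, x, hx, anc_iterate R x (i + i₀) (by omega)⟩
      intro hmem
      have := hmax (i + i₀) (Finset.mem_filter.mpr ⟨Finset.mem_range.mpr (by omega), hmem⟩)
      omega
    have hpv : R.par^[j - i₀] (R.par^[i₀] x) = v := by
      rw [← Function.iterate_add_apply, show j - i₀ + i₀ = j by omega, hj]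
    rcases le_total k (j - i₀) with h | h
    · exact uniq s _ k (j - i₀) hs hi₀Y hks hpv hkd (by omega) hksp hps h
    · exact (uniq _ s (j - i₀) k hi₀Y hs hpv hks (by omega) hkd hps hksp h).symm

end H64.Col
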