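import Pool.Agent.H64.Col.D3_Branch

/-! D4: the decomposition. Given `e > 0`: `Kb` with `1/Kb ≤ e`, then `K` with
`4 (Kb+2)/K ≤ e/4`, and `n ≥ n0` large.
`X` from `exists_cut`, `Y = closeY`, `chain s` = the spine vertices whose `spine_end` is `s`;
`hang v` = vertices whose nearest ancestor-or-self in `Y ∪ spine` is `v`.
`C = Y ∪ (chains with < Kb vertices)`; for a chain with `≥ Kb` vertices choose `t` in it with
`|hang t|` minimal and put `hang t` into `B`.  `F` = the rest.
`ref v` = the child leading to `X` if `v` is a spine vertex strictly below the `t` of its chain,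
otherwise the parent.  `lev` = number of `ref`-steps to reach `C`, `rho` = last vertex before `C`.
Components of `F` are contained in `Below R X v₀` for their top vertex `v₀ ∉ X`. -/

set_option linter.unusedSectionVars false

namespace H64.Col
open Finset

namespace D4

variable {τ : Type} [Fintype τ] [DecidableEq τ] {T : SimpleGraph τ} (R : Rooted T) (X : Finset τ)

theorem dep_pos {v : τ} (h : v ≠ R.r) : 0 < R.dep v := by
  rw [R.dep_par v h]; omega

theorem ne_r {v : τ} (h : 0 < R.dep v) : v ≠ R.r := by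
  rintro rfl
  rw [R.dep_r] at h
  omega

theorem eq_r {v : τ} (h : R.dep v = 0) : v = R.r := by
  by_contra hc
  have := dep_pos R hc
  omega

theorem dep_iter {v : τ} {j : ℕ} : j ≤ R.dep v → R.dep (R.par^[j] v) = R.dep v - j := by
  induction j with
  | zero => intro _; rfl
  | succ j ih =>
    intro h
    have h1 := ih (by omega)
    rw [Function.iterate_succ_apply']
    have h2 : R.par^[j] v ≠ R.r := ne_r R (by omega)
    have h3 := R.dep_par _ h2
    omega

/-- `v` has a descendant in `X` -/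
def Zp (v : τ) : Prop := ∃ x ∈ X, Anc R v x

theorem Zp_par {v : τ} (hv : v ≠ R.r) (h : Zp R X v) : Zp R X (R.par v) := by
  obtain ⟨x, hx, j, h1, h2⟩ := h
  refine ⟨x, hx, j + 1, ?_, ?_⟩
  · rw [Function.iterate_succ_apply', h1]
  · have := R.dep_par v hv
    omega

theorem Zp_of_child {v c : τ} (hc : Child R v c) (h : Zp R X c) : Zp R X v := by
  have := Zp_par R X hc.1 h
  rwa [hc.2] at this

theorem Zp_of_mem {v : τ} (h : v ∈ X) : Zp R X v := ⟨v, h, 0, rfl, rfl⟩

theorem mem_Y {v : τ} : v ∈ closeY R X ↔ (v ∈ X ∨ ∃ c₁ c₂, c₁ ≠ c₂ ∧ Child R v c₁ ∧ Child R v c₂ ∧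
    Zp R X c₁ ∧ Zp R X c₂) := by
  classical
  simp only [closeY, mem_filter, mem_univ, true_and, Zp]

theorem Zp_of_Y {v : τ} (h : v ∈ closeY R X) : Zp R X v := by
  rcases (mem_Y R X).1 h with h | ⟨c, _, _, h1, _, h2, _⟩
  · exact Zp_of_mem R X h
  · exact Zp_of_child R X h1 h2

theorem Y_of_X {v : τ} (h : v ∈ X) : v ∈ closeY R X := (mem_Y R X).2 (Or.inl h)

theorem mem_spine {v : τ} : v ∈ spine R X ↔ v ∉ closeY R X ∧ Zp R X v := by
  classical
  simp only [spine, mem_filter, mem_univ, true_and, Zp]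

theorem Y_or_spine {v : τ} (h : Zp R X v) : v ∈ closeY R X ∨ v ∈ spine R X := by
  by_cases h1 : v ∈ closeY R X
  · exact Or.inl h1
  · exact Or.inr ((mem_spine R X).2 ⟨h1, h⟩)

variable {R X}

theorem spine_ne_r (hr : R.r ∈ X) {v : τ} (h : v ∈ spine R X) : v ≠ R.r := by
  rintro rfl
  exact ((mem_spine R X).1 h).1 (Y_of_X R X hr)

theorem not_Y_of_spine {v : τ} (h : v ∈ spine R X) : v ∉ closeY R X := ((mem_spine R X).1 h).1

/-! ### the nearest ancestor in the subtree spanned by `X` -/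

variable (R X)

/-- nearest ancestor or self with a descendant in `X` -/
noncomputable def hh (v : τ) : τ := R.par^[sInf {k | Zp R X (R.par^[k] v)}] v

variable {R X}

theorem hset_ne (hr : R.r ∈ X) (v : τ) : {k | Zp R X (R.par^[k] v)}.Nonempty := by
  refine ⟨R.dep v, ?_⟩
  have h1 : R.dep (R.par^[R.dep v] v) = 0 := by
    rw [dep_iter R le_rfl]
    omega
  change Zp R X (R.par^[R.dep v] v)
  rw [eq_r R h1]
  exact Zp_of_mem R X hr

theorem hh_mem (hr : R.r ∈ X) (v : τ) : Zp R X (hh R X v) := Nat.sInf_mem (hset_ne hr v)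

theorem hh_Z {v : τ} (h : Zp R X v) : hh R X v = v := by
  have h1 : sInf {k | Zp R X (R.par^[k] v)} = 0 := Nat.sInf_eq_zero.2 (Or.inl h)
  unfold hh
  rw [h1]
  rfl

theorem hh_par (hr : R.r ∈ X) {v : τ} (h : ¬ Zp R X v) : hh R X v = hh R X (R.par v) := by
  have h1 := Nat.sInf_mem (hset_ne hr v)
  have h2 := Nat.sInf_mem (hset_ne hr (R.par v))
  unfold hh
  obtain ⟨k, hk⟩ : ∃ k, k = sInf {k | Zp R X (R.par^[k] v)} := ⟨_, rfl⟩
  obtain ⟨l, hl⟩ : ∃ l, l = sInf {k | Zp R X (R.par^[k] (R.par v))} := ⟨_, rfl⟩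
  rw [← hk] at h1 ⊢
  rw [← hl] at h2 ⊢
  have h0 : k ≠ 0 := by
    rintro rfl
    exact h h1
  obtain ⟨k', rfl⟩ := Nat.exists_eq_succ_of_ne_zero h0
  have h3 : l ≤ k' := by
    rw [hl]
    exact Nat.sInf_le h1
  have h4 : k'.succ ≤ l + 1 := by
    rw [hk]
    exact Nat.sInf_le h2
  have h5 : l = k' := by omega
  rw [h5]
  rfl

/-! ### chains -/

variable (R X)

open Classical in
/-- lower end of the chain -/
noncomputable def E (v : τ) : τ := if h : v ∈ spine R X then (spine_end R X v h).choose else v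

open Classical in
/-- the child leading to `X` -/
noncomputable def nx (v : τ) : τ := if h : v ∈ spine R X then (spine_unique R X v h).choose else v

variable {R X}

theorem E_spec {v : τ} (h : v ∈ spine R X) : E R X v ∈ closeY R X ∧ ∃ j : ℕ, 1 ≤ j ∧
    R.par^[j] (E R X v) = v ∧ R.dep (E R X v) = R.dep v + j ∧
      ∀ i, 1 ≤ i → i ≤ j → R.par^[i] (E R X v) ∈ spine R X := by
  unfold E
  rw [dif_pos h]
  exact (spine_end R X v h).choose_spec.1

theorem E_uniq {v : τ} (h : v ∈ spine R X) {s : τ} (hs : s ∈ closeY R X) {j : ℕ} (h1 : 1 ≤ j)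
    (h2 : R.par^[j] s = v) (h3 : R.dep s = R.dep v + j)
    (h4 : ∀ i, 1 ≤ i → i ≤ j → R.par^[i] s ∈ spine R X) : E R X v = s := by
  unfold E
  rw [dif_pos h]
  exact ((spine_end R X v h).choose_spec.2 s ⟨hs, j, h1, h2, h3, h4⟩).symm

theorem nx_spec {v : τ} (h : v ∈ spine R X) : Child R v (nx R X v) ∧ Zp R X (nx R X v) := by
  unfold nx
  rw [dif_pos h]
  exact (spine_unique R X v h).choose_spec.1

theorem nx_uniq {v : τ} (h : v ∈ spine R X) {c : τ} (h1 : Child R v c) (h2 : Zp R X c) :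
    nx R X v = c := by
  unfold nx
  rw [dif_pos h]
  exact ((spine_unique R X v h).choose_spec.2 c ⟨h1, h2⟩).symm

theorem nx_cases {v : τ} (h : v ∈ spine R X) :
    nx R X v = E R X v ∨ (nx R X v ∈ spine R X ∧ E R X (nx R X v) = E R X v) := by
  obtain ⟨h0, j, h1, h2, h3, h4⟩ := E_spec h
  rcases Nat.lt_or_ge 1 j with h5 | h5
  · right
    obtain ⟨i, rfl⟩ : ∃ i, j = i + 1 := ⟨j - 1, by omega⟩
    have hw : R.par^[i] (E R X v) ∈ spine R X := h4 i (by omega) (by omega)
    have hd : R.dep (R.par^[i] (E R X v)) = R.dep v + 1 := by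
      rw [dep_iter R (by omega)]
      omega
    have hn : nx R X v = R.par^[i] (E R X v) := by
      refine nx_uniq h ⟨ne_r R (by omega), ?_⟩ ((mem_spine R X).1 hw).2
      have h6 := h2
      rw [Function.iterate_succ_apply'] at h6
      exact h6
    rw [hn]
    refine ⟨hw, E_uniq hw h0 (by omega) rfl (by omega) fun k hk1 hk2 => h4 k hk1 (by omega)⟩
  · left
    have hj : j = 1 := by omega
    subst hj
    exact nx_uniq h ⟨ne_r R (by omega), h2⟩ (Zp_of_Y R X h0)

theorem E_par (hr : R.r ∈ X) {v : τ} (h : v ∈ spine R X) (hp : R.par v ∈ spine R X) :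
    E R X (R.par v) = E R X v := by
  obtain ⟨h0, j, h1, h2, h3, h4⟩ := E_spec h
  have hd := R.dep_par v (spine_ne_r hr h)
  refine E_uniq hp h0 (j := j + 1) (by omega) ?_ (by omega) fun i hi1 hi2 => ?_
  · rw [Function.iterate_succ_apply', h2]
  · rcases Nat.lt_or_ge i (j + 1) with h5 | h5
    · exact h4 i hi1 (by omega)
    · have : i = j + 1 := by omega
      rw [this, Function.iterate_succ_apply', h2]
      exact hp

theorem E_of_par_Y {v s : τ} (h : v ∈ spine R X) (hs : s ∈ closeY R X) (hsr : s ≠ R.r)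
    (hp : R.par s = v) : E R X v = s := by
  have hd := R.dep_par s hsr
  rw [hp] at hd
  refine E_uniq h hs (j := 1) le_rfl hp hd fun i hi1 hi2 => ?_
  have : i = 1 := by omega
  rw [this]
  change R.par s ∈ _
  rw [hp]
  exact h

theorem dep_lt_E {v : τ} (h : v ∈ spine R X) : R.dep v < R.dep (E R X v) := by
  obtain ⟨h0, j, h1, h2, h3, h4⟩ := E_spec h
  omega

theorem chain_inj {v w : τ} (hv : v ∈ spine R X) (hw : w ∈ spine R X) (h : E R X v = E R X w)
    (hd : R.dep v = R.dep w) : v = w := by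
  obtain ⟨_, j, _, h2, h3, _⟩ := E_spec hv
  obtain ⟨_, k, _, h5, h6, _⟩ := E_spec hw
  have : j = k := by
    rw [h] at h3
    omega
  rw [← h2, ← h5, h, this]

variable (R X)

/-- the chain above `s` -/
noncomputable def Ch (s : τ) : Finset τ := (spine R X).filter (fun v => E R X v = s)

open Classical in
/-- the vertices hanging at `v` -/
noncomputable def Hg (v : τ) : Finset τ := univ.filter (fun u => hh R X u = v)

open Classical in
/-- the cut vertex of the chain -/
noncomputable def tt (s : τ) : τ :=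
  if h : (Ch R X s).Nonempty then
    (exists_min_image (Ch R X s) (fun v => (Hg R X v).card) h).choose else s

variable {R X}

theorem mem_Ch {s v : τ} : v ∈ Ch R X s ↔ v ∈ spine R X ∧ E R X v = s := by
  unfold Ch
  rw [mem_filter]

theorem tt_mem {s : τ} (h : (Ch R X s).Nonempty) : tt R X s ∈ Ch R X s := by
  unfold tt
  rw [dif_pos h]
  exact (exists_min_image (Ch R X s) (fun v => (Hg R X v).card) h).choose_spec.1

theorem tt_min {s : τ} {v : τ} (hv : v ∈ Ch R X s) :
    (Hg R X (tt R X s)).card ≤ (Hg R X v).card := by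
  have h : (Ch R X s).Nonempty := ⟨v, hv⟩
  unfold tt
  rw [dif_pos h]
  exact (exists_min_image (Ch R X s) (fun v => (Hg R X v).card) h).choose_spec.2 v hv

/-! ### the three classes -/

variable (R X)

open Classical in
/-- `C` -/
noncomputable def CC (Kb : ℕ) : Finset τ :=
  univ.filter (fun v => v ∈ closeY R X ∨ (v ∈ spine R X ∧ (Ch R X (E R X v)).card < Kb))

open Classical in
/-- `B` -/
noncomputable def BB (Kb : ℕ) : Finset τ :=
  univ.filter (fun v => hh R X v ∈ spine R X ∧ Kb ≤ (Ch R X (E R X (hh R X v))).card ∧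
    hh R X v = tt R X (E R X (hh R X v)))

/-- `F` -/
noncomputable def FF (Kb : ℕ) : Finset τ := (CC R X Kb ∪ BB R X Kb)ᶜ

/-- spine vertices of a long chain, strictly below the cut vertex -/
def Low (Kb : ℕ) (v : τ) : Prop :=
  v ∈ spine R X ∧ Kb ≤ (Ch R X (E R X v)).card ∧ R.dep (tt R X (E R X v)) < R.dep v

open Classical in
/-- the neighbour towards the core -/
noncomputable def rf (Kb : ℕ) (v : τ) : τ := if Low R X Kb v then nx R X v else R.par v

variable {R X} {Kb : ℕ}

theorem mem_CC {v : τ} : v ∈ CC R X Kb ↔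
    v ∈ closeY R X ∨ (v ∈ spine R X ∧ (Ch R X (E R X v)).card < Kb) := by
  unfold CC
  rw [mem_filter]
  simp

theorem mem_BB {v : τ} : v ∈ BB R X Kb ↔ hh R X v ∈ spine R X ∧
    Kb ≤ (Ch R X (E R X (hh R X v))).card ∧ hh R X v = tt R X (E R X (hh R X v)) := by
  unfold BB
  rw [mem_filter]
  simp

theorem mem_FF {v : τ} : v ∈ FF R X Kb ↔ v ∉ CC R X Kb ∧ v ∉ BB R X Kb := by
  unfold FF
  rw [mem_compl, mem_union, not_or]

theorem disj_CB : Disjoint (CC R X Kb) (BB R X Kb) := by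
  rw [Finset.disjoint_left]
  intro v h1 h2
  obtain ⟨h3, h4, h5⟩ := mem_BB.1 h2
  rcases mem_CC.1 h1 with h | ⟨h6, h7⟩
  · rw [hh_Z (Zp_of_Y R X h)] at h3
    exact not_Y_of_spine h3 h
  · rw [hh_Z ((mem_spine R X).1 h6).2] at h4
    omega

/-- A spine vertex which is not in `C` lies in a long chain. -/
theorem long_of_not_C {v : τ} (h : v ∈ spine R X) (hC : v ∉ CC R X Kb) :
    Kb ≤ (Ch R X (E R X v)).card := by
  by_contra hc
  exact hC (mem_CC.2 (Or.inr ⟨h, by omega⟩))

theorem Low_F (hr : R.r ∈ X) {v : τ} (h : Low R X Kb v) : v ∈ FF R X Kb := by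
  obtain ⟨h1, h2, h3⟩ := h
  rw [mem_FF]
  constructor
  · intro hc
    rcases mem_CC.1 hc with h4 | ⟨_, h4⟩
    · exact not_Y_of_spine h1 h4
    · omega
  · intro hb
    obtain ⟨_, _, h6⟩ := mem_BB.1 hb
    rw [hh_Z ((mem_spine R X).1 h1).2] at h6
    rw [← h6] at h3
    omega

/-- `ref` of a low vertex. -/
theorem rf_low {v : τ} (h : Low R X Kb v) : rf R X Kb v = nx R X v := by
  unfold rf
  rw [if_pos h]

theorem rf_notlow {v : τ} (h : ¬ Low R X Kb v) : rf R X Kb v = R.par v := by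
  unfold rf
  rw [if_neg h]

theorem nx_low {v : τ} (h : Low R X Kb v) : nx R X v ∈ CC R X Kb ∨ Low R X Kb (nx R X v) := by
  obtain ⟨h1, h2, h3⟩ := h
  rcases nx_cases h1 with h4 | ⟨h4, h5⟩
  · left
    rw [h4]
    exact mem_CC.2 (Or.inl (E_spec h1).1)
  · right
    refine ⟨h4, by rw [h5]; exact h2, ?_⟩
    rw [h5]
    obtain ⟨⟨h6, h7⟩, _⟩ := nx_spec h1
    have := R.dep_par _ h6
    rw [h7] at this
    omega

theorem F_ne_r (hr : R.r ∈ X) {v : τ} (h : v ∈ FF R X Kb) : v ≠ R.r := by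
  rintro rfl
  exact (mem_FF.1 h).1 (mem_CC.2 (Or.inl (Y_of_X R X hr)))

/-- the parent of a vertex of `F` which is not low is in `C` or in `F` -/
theorem par_notlow (hr : R.r ∈ X) (hK : 1 ≤ Kb) {v : τ} (h : v ∈ FF R X Kb)
    (hl : ¬ Low R X Kb v) : R.par v ∈ CC R X Kb ∨ R.par v ∈ FF R X Kb := by
  by_cases hC : R.par v ∈ CC R X Kb
  · exact Or.inl hC
  right
  rw [mem_FF]
  refine ⟨hC, fun hB => ?_⟩
  have hvr := F_ne_r hr h
  obtain ⟨hvC, hvB⟩ := mem_FF.1 h
  by_cases hz : Zp R X v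
  · -- `v` is a spine vertex
    have hs : v ∈ spine R X := by
      rcases Y_or_spine R X hz with h1 | h1
      · exact absurd (mem_CC.2 (Or.inl h1)) hvC
      · exact h1
    have hpz := Zp_par R X hvr hz
    obtain ⟨h1, h2, h3⟩ := mem_BB.1 hB
    rw [hh_Z hpz] at h1 h2 h3
    rw [E_par hr hs h1] at h2 h3
    refine hl ⟨hs, h2, ?_⟩
    rw [← h3]
    have := R.dep_par v hvr
    omega
  · apply hvB
    rw [mem_BB, hh_par hr hz]
    exact mem_BB.1 hB

theorem rf_F (hr : R.r ∈ X) (hK : 1 ≤ Kb) {v : τ} (h : v ∈ FF R X Kb) :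
    rf R X Kb v ∈ CC R X Kb ∨ rf R X Kb v ∈ FF R X Kb := by
  by_cases hl : Low R X Kb v
  · rw [rf_low hl]
    rcases nx_low hl with h1 | h1
    · exact Or.inl h1
    · exact Or.inr (Low_F hr h1)
  · rw [rf_notlow hl]
    exact par_notlow hr hK h hl

theorem rf_adj (hr : R.r ∈ X) {v : τ} (h : v ∈ FF R X Kb) : T.Adj v (rf R X Kb v) := by
  rw [R.adj]
  by_cases hl : Low R X Kb v
  · rw [rf_low hl]
    obtain ⟨h1, h2⟩ := (nx_spec hl.1).1
    exact Or.inr ⟨h1, h2⟩
  · rw [rf_notlow hl]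
    exact Or.inl ⟨F_ne_r hr h, rfl⟩

/-! ### reaching the core -/

theorem reach_low {v : τ} (h : Low R X Kb v) : ∃ k, 1 ≤ k ∧ (rf R X Kb)^[k] v ∈ CC R X Kb := by
  have key : ∀ (N : ℕ) (v : τ), Low R X Kb v → R.dep (E R X v) - R.dep v ≤ N →
      ∃ k, 1 ≤ k ∧ (rf R X Kb)^[k] v ∈ CC R X Kb := by
    intro N
    induction N with
    | zero =>
      intro v h hN
      have := dep_lt_E h.1
      omega
    | succ N ih =>
      intro v h hN
      rcases nx_low h with h1 | h1
      · refine ⟨1, le_rfl, ?_⟩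
        change rf R X Kb v ∈ _
        rw [rf_low h]
        exact h1
      · have h2 : E R X (nx R X v) = E R X v := by
          rcases nx_cases h.1 with h3 | ⟨_, h3⟩
          · exact absurd h1.1 (by rw [h3]; intro h4; exact not_Y_of_spine h4 (E_spec h.1).1)
          · exact h3
        obtain ⟨⟨h6, h7⟩, _⟩ := nx_spec h.1
        have h8 := R.dep_par _ h6
        rw [h7] at h8
        obtain ⟨k, hk1, hk2⟩ := ih (nx R X v) h1 (by rw [h2]; omega)
        refine ⟨k + 1, by omega, ?_⟩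
        rw [Function.iterate_succ_apply, rf_low h]
        exact hk2
  exact key _ v h le_rfl

theorem reach (hr : R.r ∈ X) (hK : 1 ≤ Kb) {v : τ} (h : v ∈ FF R X Kb) :
    ∃ k, 1 ≤ k ∧ (rf R X Kb)^[k] v ∈ CC R X Kb := by
  have key : ∀ (N : ℕ) (v : τ), v ∈ FF R X Kb → R.dep v ≤ N →
      ∃ k, 1 ≤ k ∧ (rf R X Kb)^[k] v ∈ CC R X Kb := by
    intro N
    induction N with
    | zero =>
      intro v h hN
      exact absurd (eq_r R (by omega)) (F_ne_r hr h)
    | succ N ih =>
      intro v h hN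
      by_cases hl : Low R X Kb v
      · exact reach_low hl
      · have h1 := rf_notlow hl
        have h2 := R.dep_par v (F_ne_r hr h)
        rcases par_notlow hr hK h hl with h3 | h3
        · refine ⟨1, le_rfl, ?_⟩
          change rf R X Kb v ∈ _
          rw [h1]
          exact h3
        · obtain ⟨k, hk1, hk2⟩ := ih (R.par v) h3 (by omega)
          refine ⟨k + 1, by omega, ?_⟩
          rw [Function.iterate_succ_apply, h1]
          exact hk2
  exact key _ v h le_rfl

variable (R X Kb)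

/-- number of steps to the core -/
noncomputable def lv (v : τ) : ℕ := sInf {k | 1 ≤ k ∧ (rf R X Kb)^[k] v ∈ CC R X Kb}

/-- last vertex before the core -/
noncomputable def rh (v : τ) : τ := (rf R X Kb)^[lv R X Kb v - 1] v

variable {R X Kb}

theorem lv_spec (hr : R.r ∈ X) (hK : 1 ≤ Kb) {v : τ} (h : v ∈ FF R X Kb) :
    1 ≤ lv R X Kb v ∧ (rf R X Kb)^[lv R X Kb v] v ∈ CC R X Kb :=
  Nat.sInf_mem (s := {k | 1 ≤ k ∧ (rf R X Kb)^[k] v ∈ CC R X Kb}) (reach hr hK h)

theorem lv_one (hr : R.r ∈ X) (hK : 1 ≤ Kb) {v : τ} (h : v ∈ FF R X Kb) (h1 : lv R X Kb v = 1) :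
    rf R X Kb v ∈ CC R X Kb ∧ rh R X Kb v = v := by
  have := (lv_spec hr hK h).2
  rw [h1] at this
  refine ⟨this, ?_⟩
  unfold rh
  rw [h1]
  rfl

theorem lv_step (hr : R.r ∈ X) (hK : 1 ≤ Kb) {v : τ} (h : v ∈ FF R X Kb) (h1 : lv R X Kb v ≠ 1) :
    rf R X Kb v ∈ FF R X Kb ∧ lv R X Kb v = lv R X Kb (rf R X Kb v) + 1 ∧
      rh R X Kb v = rh R X Kb (rf R X Kb v) := by
  obtain ⟨h2, h3⟩ := lv_spec hr hK h
  have hnC : rf R X Kb v ∉ CC R X Kb := by
    intro hc
    have : lv R X Kb v ≤ 1 := Nat.sInf_le ⟨le_rfl, hc⟩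
    omega
  have hF : rf R X Kb v ∈ FF R X Kb := (rf_F hr hK h).resolve_left hnC
  obtain ⟨h4, h5⟩ := lv_spec hr hK hF
  have h6 : lv R X Kb v ≤ lv R X Kb (rf R X Kb v) + 1 := by
    refine Nat.sInf_le ⟨by omega, ?_⟩
    rw [Function.iterate_succ_apply]
    exact h5
  have h7 : lv R X Kb (rf R X Kb v) ≤ lv R X Kb v - 1 := by
    refine Nat.sInf_le ⟨by omega, ?_⟩
    rw [← Function.iterate_succ_apply]
    have : (lv R X Kb v - 1).succ = lv R X Kb v := by omega
    rw [this]
    exact h3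
  have h8 : lv R X Kb v = lv R X Kb (rf R X Kb v) + 1 := by omega
  refine ⟨hF, h8, ?_⟩
  unfold rh
  rw [← Function.iterate_succ_apply]
  congr 2
  omega

/-! ### adjacency -/

theorem adj_FF (hr : R.r ∈ X) {u v : τ} (hu : u ∈ FF R X Kb) (hv : v ∈ FF R X Kb)
    (hur : u ≠ R.r) (hp : R.par u = v) : rf R X Kb u = v ∨ rf R X Kb v = u := by
  by_cases hl : Low R X Kb u
  · right
    have hpz := Zp_par R X hur ((mem_spine R X).1 hl.1).2
    rw [hp] at hpz
    have hs : v ∈ spine R X := by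
      rcases Y_or_spine R X hpz with h1 | h1
      · exact absurd (mem_CC.2 (Or.inl h1)) (mem_FF.1 hv).1
      · exact h1
    have hE : E R X v = E R X u := by
      rw [← hp]
      exact E_par hr hl.1 (by rw [hp]; exact hs)
    have hd := R.dep_par u hur
    rw [hp] at hd
    have hlong : Kb ≤ (Ch R X (E R X v)).card := by rw [hE]; exact hl.2.1
    have hlow : Low R X Kb v := by
      refine ⟨hs, hlong, ?_⟩
      have h3 := hl.2.2
      rw [← hE] at h3
      rcases Nat.lt_or_ge (R.dep (tt R X (E R X v))) (R.dep v) with h4 | h4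
      · exact h4
      · exfalso
        have h5 : R.dep v = R.dep (tt R X (E R X v)) := by omega
        have hne : (Ch R X (E R X v)).Nonempty := ⟨v, mem_Ch.2 ⟨hs, rfl⟩⟩
        obtain ⟨h6, h7⟩ := mem_Ch.1 (tt_mem hne)
        have h8 := chain_inj hs h6 h7.symm h5
        refine (mem_FF.1 hv).2 (mem_BB.2 ?_)
        rw [hh_Z hpz]
        exact ⟨hs, hlong, h8⟩
    rw [rf_low hlow]
    exact nx_uniq hs ⟨hur, hp⟩ ((mem_spine R X).1 hl.1).2
  · left
    rw [rf_notlow hl, hp]

theorem adj_FC (hr : R.r ∈ X) {v s : τ} (hv : v ∈ FF R X Kb) (hs : s ∈ CC R X Kb)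
    (h : T.Adj v s) : rf R X Kb v = s := by
  rcases (R.adj v s).1 h with ⟨h1, h2⟩ | ⟨h1, h2⟩
  · by_cases hl : Low R X Kb v
    · exfalso
      have hpz := Zp_par R X h1 ((mem_spine R X).1 hl.1).2
      have hd := R.dep_par v h1
      have hne : (Ch R X (E R X v)).Nonempty := ⟨v, mem_Ch.2 ⟨hl.1, rfl⟩⟩
      obtain ⟨h6, h7⟩ := mem_Ch.1 (tt_mem hne)
      -- the parent of a low vertex is in the spine
      have hps : R.par v ∈ spine R X := by
        rcases Y_or_spine R X hpz with h3 | h3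
        · exfalso
          obtain ⟨_, j, hj1, hj2, hj3, hj4⟩ := E_spec hl.1
          obtain ⟨_, k, hk1, hk2, hk3, hk4⟩ := E_spec h6
          rw [h7] at hk2 hk3 hk4
          have hlt := hl.2.2
          have h8 := hk4 (j + 1) (by omega) (by omega)
          rw [Function.iterate_succ_apply', hj2] at h8
          exact not_Y_of_spine h8 h3
        · exact h3
      have hE := E_par hr hl.1 hps
      rw [h2] at hps hE
      rcases mem_CC.1 hs with h3 | ⟨_, h3⟩
      · exact not_Y_of_spine hps h3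
      · rw [hE] at h3
        have := hl.2.1
        omega
    · rw [rf_notlow hl, h2]
  · -- `v` is the parent of `s`
    have hsz : Zp R X s := by
      rcases mem_CC.1 hs with h3 | ⟨h3, _⟩
      · exact Zp_of_Y R X h3
      · exact ((mem_spine R X).1 h3).2
    have hvz : Zp R X v := by
      have := Zp_par R X h1 hsz
      rwa [h2] at this
    have hvs : v ∈ spine R X := by
      rcases Y_or_spine R X hvz with h3 | h3
      · exact absurd (mem_CC.2 (Or.inl h3)) (mem_FF.1 hv).1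
      · exact h3
    have hlong := long_of_not_C hvs (mem_FF.1 hv).1
    have hnx : nx R X v = s := nx_uniq hvs ⟨h1, h2⟩ hsz
    rcases mem_CC.1 hs with h3 | ⟨h3, h4⟩
    · have hE : E R X v = s := E_of_par_Y hvs h3 h1 h2
      have hd := R.dep_par s h1
      rw [h2] at hd
      have hne : (Ch R X (E R X v)).Nonempty := ⟨v, mem_Ch.2 ⟨hvs, rfl⟩⟩
      obtain ⟨h6, h7⟩ := mem_Ch.1 (tt_mem hne)
      have h8 := dep_lt_E h6
      rw [h7, hE] at h8
      have hlow : Low R X Kb v := by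
        refine ⟨hvs, hlong, ?_⟩
        rw [hE]
        rcases Nat.lt_or_ge (R.dep (tt R X s)) (R.dep v) with h9 | h9
        · exact h9
        · exfalso
          have h10 : R.dep v = R.dep (tt R X (E R X v)) := by rw [hE]; omega
          have h11 := chain_inj hvs h6 h7.symm h10
          refine (mem_FF.1 hv).2 (mem_BB.2 ?_)
          rw [hh_Z hvz]
          exact ⟨hvs, hlong, h11⟩
      rw [rf_low hlow, hnx]
    · exfalso
      have hE := E_par hr h3 (by rw [h2]; exact hvs)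
      rw [h2] at hE
      rw [hE] at hlong
      omega

/-! ### the set `B` -/

/-- children which do not lead to `X` hang at the same vertex -/
theorem child_hh (hr : R.r ∈ X) {b c : τ} (hc : Child R b c) (hz : ¬ Zp R X c) :
    hh R X c = hh R X b := by
  rw [hh_par hr hz, hc.2]

theorem B_nbr_sub (hr : R.r ∈ X) {b : τ} (hb : b ∈ BB R X Kb) {u : τ} (h : T.Adj b u)
    (h2 : u ∉ BB R X Kb ∨ R.dep u < R.dep b) : u = R.par b ∨ u = nx R X b := by
  rcases (R.adj b u).1 h with ⟨h3, h4⟩ | ⟨h3, h4⟩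
  · exact Or.inl h4.symm
  · right
    have hd := R.dep_par u h3
    rw [h4] at hd
    have hnB : u ∉ BB R X Kb := h2.resolve_right (by omega)
    have hz : Zp R X u := by
      by_contra hz
      apply hnB
      rw [mem_BB, child_hh hr ⟨h3, h4⟩ hz]
      exact mem_BB.1 hb
    have hbz : Zp R X b := Zp_of_child R X ⟨h3, h4⟩ hz
    obtain ⟨h5, _, _⟩ := mem_BB.1 hb
    rw [hh_Z hbz] at h5
    exact (nx_uniq h5 ⟨h3, h4⟩ hz).symm

theorem B_nbr (hr : R.r ∈ X) {b : τ} (hb : b ∈ BB R X Kb) :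
    Set.ncard {u | T.Adj b u ∧ (u ∉ BB R X Kb ∨ R.dep u < R.dep b)} ≤ 2 := by
  have hsub : {u | T.Adj b u ∧ (u ∉ BB R X Kb ∨ R.dep u < R.dep b)} ⊆
      (({R.par b, nx R X b} : Finset τ) : Set τ) := by
    rintro u ⟨h1, h2⟩
    simpa using B_nbr_sub hr hb h1 h2
  refine (Set.ncard_le_ncard hsub (Finset.finite_toSet _)).trans ?_
  rw [Set.ncard_coe_finset]
  exact Finset.card_le_two

theorem FB_sub (hr : R.r ∈ X) {f b : τ} (hf : f ∈ FF R X Kb) (hb : b ∈ BB R X Kb)
    (h : T.Adj f b) : ∃ s ∈ closeY R X, b = tt R X s ∧ (f = R.par b ∨ f = nx R X b) := by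
  have hfB := (mem_FF.1 hf).2
  have hadj : T.Adj b f := h.symm
  have h1 := B_nbr_sub hr hb hadj (Or.inl hfB)
  have hbz : Zp R X b := by
    by_contra hz
    rcases h1 with h2 | h2
    · apply hfB
      rw [h2, mem_BB, ← hh_par hr hz]
      exact mem_BB.1 hb
    · rcases (R.adj b f).1 hadj with ⟨h3, h4⟩ | ⟨h3, h4⟩
      · apply hfB
        rw [← h4, mem_BB, ← hh_par hr hz]
        exact mem_BB.1 hb
      · have hfz : ¬ Zp R X f := fun hfz => hz (Zp_of_child R X ⟨h3, h4⟩ hfz)
        apply hfB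
        rw [mem_BB, child_hh hr ⟨h3, h4⟩ hfz]
        exact mem_BB.1 hb
  obtain ⟨h5, _, h6⟩ := mem_BB.1 hb
  rw [hh_Z hbz] at h5 h6
  exact ⟨_, (E_spec h5).1, h6, h1⟩

theorem FB_card (hr : R.r ∈ X) :
    Set.ncard {q : τ × τ | q.1 ∈ FF R X Kb ∧ q.2 ∈ BB R X Kb ∧ T.Adj q.1 q.2} ≤
      2 * (closeY R X).card := by
  have hsub : {q : τ × τ | q.1 ∈ FF R X Kb ∧ q.2 ∈ BB R X Kb ∧ T.Adj q.1 q.2} ⊆
      (((closeY R X).image (fun s => (R.par (tt R X s), tt R X s)) ∪
        (closeY R X).image (fun s => (nx R X (tt R X s), tt R X s)) : Finset (τ × τ)) :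
          Set (τ × τ)) := by
    rintro ⟨f, b⟩ ⟨h1, h2, h3⟩
    obtain ⟨s, hs, h4, h5⟩ := FB_sub hr h1 h2 h3
    simp only at h4 h5
    rw [Finset.mem_coe, mem_union, mem_image, mem_image]
    rcases h5 with h5 | h5
    · left
      exact ⟨s, hs, by rw [← h4, h5]⟩
    · right
      exact ⟨s, hs, by rw [← h4, h5]⟩
  refine (Set.ncard_le_ncard hsub (Finset.finite_toSet _)).trans ?_
  rw [Set.ncard_coe_finset]
  refine (card_union_le _ _).trans ?_
  have h1 := card_image_le (s := closeY R X) (f := fun s => (R.par (tt R X s), tt R X s))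
  have h2 := card_image_le (s := closeY R X) (f := fun s => (nx R X (tt R X s), tt R X s))
  omega

theorem C_card (hK : 1 ≤ Kb) : (CC R X Kb).card ≤ (Kb + 1) * (closeY R X).card := by
  classical
  have h1 : CC R X Kb ⊆ closeY R X ∪
      (spine R X).filter (fun v => (Ch R X (E R X v)).card < Kb) := by
    intro v hv
    rw [mem_union, mem_filter]
    exact mem_CC.1 hv
  have h2 : ((spine R X).filter (fun v => (Ch R X (E R X v)).card < Kb)).card ≤
      Kb * (closeY R X).card := by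
    refine card_le_mul_card_image_of_maps_to (f := E R X) (fun v hv => ?_) Kb fun s hs => ?_
    · exact (E_spec (mem_filter.1 hv).1).1
    · rcases Finset.eq_empty_or_nonempty
        (((spine R X).filter (fun v => (Ch R X (E R X v)).card < Kb)).filter
          (fun v => E R X v = s)) with h3 | ⟨v, hv⟩
      · rw [h3]
        simp
      · rw [mem_filter, mem_filter] at hv
        have h4 := hv.1.2
        rw [hv.2] at h4
        refine le_trans (card_le_card ?_) h4.le
        intro w hw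
        rw [mem_filter, mem_filter] at hw
        exact mem_Ch.2 ⟨hw.1.1, hw.2⟩
  have h3 := (card_le_card h1).trans (card_union_le _ _)
  have h4 : (Kb + 1) * (closeY R X).card = Kb * (closeY R X).card + (closeY R X).card := by ring
  omega

theorem B_card (hr : R.r ∈ X) (hK : 1 ≤ Kb) : Kb * (BB R X Kb).card ≤ Fintype.card τ := by
  classical
  set L : Finset τ := univ.filter (fun s => Kb ≤ (Ch R X s).card) with hL
  have h1 : BB R X Kb ⊆ L.biUnion (fun s => Hg R X (tt R X s)) := by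
    intro v hv
    obtain ⟨h2, h3, h4⟩ := mem_BB.1 hv
    rw [mem_biUnion]
    refine ⟨E R X (hh R X v), by rw [hL, mem_filter]; exact ⟨mem_univ _, h3⟩, ?_⟩
    unfold Hg
    rw [mem_filter]
    exact ⟨mem_univ _, h4⟩
  have h2 : (BB R X Kb).card ≤ ∑ s ∈ L, (Hg R X (tt R X s)).card :=
    (card_le_card h1).trans card_biUnion_le
  have h3 : ∀ s ∈ L, Kb * (Hg R X (tt R X s)).card ≤ ∑ v ∈ Ch R X s, (Hg R X v).card := by
    intro s hs
    have h4 : Kb ≤ (Ch R X s).card := (mem_filter.1 hs).2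
    calc Kb * (Hg R X (tt R X s)).card ≤ (Ch R X s).card * (Hg R X (tt R X s)).card :=
          Nat.mul_le_mul_right _ h4
      _ = ∑ v ∈ Ch R X s, (Hg R X (tt R X s)).card := by rw [sum_const, smul_eq_mul]
      _ ≤ _ := sum_le_sum fun v hv => tt_min hv
  calc Kb * (BB R X Kb).card ≤ Kb * ∑ s ∈ L, (Hg R X (tt R X s)).card :=
        Nat.mul_le_mul_left _ h2
    _ = ∑ s ∈ L, Kb * (Hg R X (tt R X s)).card := by rw [mul_sum]
    _ ≤ ∑ s ∈ L, ∑ v ∈ Ch R X s, (Hg R X v).card := sum_le_sum h3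
    _ ≤ ∑ s : τ, ∑ v ∈ Ch R X s, (Hg R X v).card :=
        sum_le_sum_of_subset (subset_univ _)
    _ = ∑ v ∈ spine R X, (Hg R X v).card := by
        unfold Ch
        exact sum_fiberwise (spine R X) (E R X) _
    _ ≤ ∑ v : τ, (Hg R X v).card := sum_le_sum_of_subset (subset_univ _)
    _ = Fintype.card τ := by
        unfold Hg
        rw [← card_univ]
        exact (card_eq_sum_card_fiberwise (f := hh R X) (s := univ) (t := univ)
          (fun _ _ => mem_coe.2 (mem_univ _))).symm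

/-! ### components -/

theorem F_not_X {v : τ} (h : v ∈ FF R X Kb) : v ∉ X := fun hx =>
  (mem_FF.1 h).1 (mem_CC.2 (Or.inl (Y_of_X R X hx)))

theorem below_down {v₀ w c : τ} (hw : w ∈ Below R X v₀) (hc : Child R w c) (hcX : c ∉ X) :
    c ∈ Below R X v₀ := by
  obtain ⟨j, h1, h2, h3⟩ := hw
  have hd := R.dep_par c hc.1
  rw [hc.2] at hd
  refine ⟨j + 1, ?_, by omega, fun i hi => ?_⟩
  · rw [Function.iterate_succ_apply, hc.2, h1]
  · rcases i with _ | i
    · exact hcX
    · rw [Function.iterate_succ_apply, hc.2]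
      exact h3 i (by omega)

theorem below_up {v₀ w : τ} (hw : w ∈ Below R X v₀) (hne : w ≠ v₀) :
    R.par w ∈ Below R X v₀ := by
  obtain ⟨j, h1, h2, h3⟩ := hw
  rcases j with _ | j
  · exact absurd h1 hne
  · have hd := R.dep_par w (ne_r R (by omega))
    refine ⟨j, ?_, by omega, fun i hi => ?_⟩
    · rw [← Function.iterate_succ_apply]
      exact h1
    · rw [← Function.iterate_succ_apply]
      exact h3 (i + 1) (by omega)

theorem comp_card (hr : R.r ∈ X) (hK : 1 ≤ Kb) {K : ℕ}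
    (hB : ∀ v, v ∉ X → (Below R X v).ncard ≤ K) (ρ : τ) :
    ((FF R X Kb).filter (fun v => rh R X Kb v = ρ)).card ≤ K := by
  classical
  set S := (FF R X Kb).filter (fun v => rh R X Kb v = ρ) with hS
  rcases S.eq_empty_or_nonempty with h0 | hne
  · rw [h0]
    simp
  obtain ⟨v₀, hv₀, hmin⟩ := exists_min_image S R.dep hne
  have memS : ∀ {v}, v ∈ S ↔ v ∈ FF R X Kb ∧ rh R X Kb v = ρ := by
    intro v
    rw [hS, mem_filter]
  -- a step inside `S` stays below `v₀`
  have stepS : ∀ w ∈ S, ∀ w' ∈ S, T.Adj w w' → w ∈ Below R X v₀ → w' ∈ Below R X v₀ := by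
    intro w hw w' hw' hadj hb
    rcases (R.adj w w').1 hadj with ⟨h1, h2⟩ | ⟨h1, h2⟩
    · rcases eq_or_ne w v₀ with h3 | h3
      · exfalso
        have hd := R.dep_par w h1
        rw [h2] at hd
        have := hmin w' hw'
        rw [← h3] at this
        omega
      · rw [← h2]
        exact below_up hb h3
    · exact below_down hb ⟨h1, h2⟩ (F_not_X (memS.1 hw').1)
  have self : v₀ ∈ Below R X v₀ := ⟨0, rfl, rfl, fun i hi => absurd hi (Nat.not_lt_zero i)⟩
  -- from `v₀` to `ρ`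
  have up : ∀ (N : ℕ) (w : τ), lv R X Kb w ≤ N → w ∈ S → w ∈ Below R X v₀ →
      ρ ∈ S ∧ ρ ∈ Below R X v₀ := by
    intro N
    induction N with
    | zero =>
      intro w h1 h2 _
      have := (lv_spec hr hK (memS.1 h2).1).1
      omega
    | succ N ih =>
      intro w h1 h2 h3
      obtain ⟨hF, hρ⟩ := memS.1 h2
      by_cases h4 : lv R X Kb w = 1
      · have h5 := (lv_one hr hK hF h4).2
        rw [hρ] at h5
        rw [h5]
        exact ⟨h2, h3⟩
      · obtain ⟨h5, h6, h7⟩ := lv_step hr hK hF h4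
        have h8 : rf R X Kb w ∈ S := memS.2 ⟨h5, by rw [← h7]; exact hρ⟩
        exact ih _ (by omega) h8 (stepS w h2 _ h8 (rf_adj hr hF) h3)
  obtain ⟨hρS, hρB⟩ := up _ v₀ le_rfl hv₀ self
  have down : ∀ (N : ℕ) (w : τ), lv R X Kb w ≤ N → w ∈ S → w ∈ Below R X v₀ := by
    intro N
    induction N with
    | zero =>
      intro w h1 h2
      have := (lv_spec hr hK (memS.1 h2).1).1
      omega
    | succ N ih =>
      intro w h1 h2
      obtain ⟨hF, hρ⟩ := memS.1 h2
      by_cases h4 : lv R X Kb w = 1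
      · have h5 := (lv_one hr hK hF h4).2
        rw [hρ] at h5
        rw [← h5]
        exact hρB
      · obtain ⟨h5, h6, h7⟩ := lv_step hr hK hF h4
        have h8 : rf R X Kb w ∈ S := memS.2 ⟨h5, by rw [← h7]; exact hρ⟩
        exact stepS _ h8 _ h2 (rf_adj hr hF).symm (ih _ (by omega) h8)
  have hsub : (S : Set τ) ⊆ Below R X v₀ := fun w hw => down _ w le_rfl (Finset.mem_coe.1 hw)
  have h9 := Set.ncard_le_ncard hsub (Set.toFinite _)
  rw [Set.ncard_coe_finset] at h9
  exact h9.trans (hB v₀ (F_not_X (memS.1 hv₀).1))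

end D4

open D4 in
theorem exists_decomp (e : ℝ) (he : 0 < e) :
    ∃ K n0 : ℕ, ∀ (τ : Type) [Fintype τ] [DecidableEq τ] (T : SimpleGraph τ) (R : Rooted T),
      n0 ≤ Fintype.card τ → Nonempty (Decomp T R K e) := by
  obtain ⟨Kb, hKb⟩ := exists_nat_ge (1 / e + 1)
  obtain ⟨K, hK⟩ := exists_nat_ge (4 * ((Kb : ℝ) + 1) / e + 1)
  refine ⟨K, K, ?_⟩
  intro τ _ _ T R hn
  have hKb1 : 1 ≤ Kb := by
    have h1 : (0 : ℝ) < 1 / e := by positivity
    have : (1 : ℝ) ≤ Kb := by linarith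
    exact_mod_cast this
  have hKb1' : (1 : ℝ) ≤ Kb := by exact_mod_cast hKb1
  have hK0 : 0 < 4 * ((Kb : ℝ) + 1) / e := by positivity
  have hK1' : (1 : ℝ) ≤ K := by linarith
  have hK1 : 1 ≤ K := by exact_mod_cast hK1'
  have hKbe : 1 ≤ e * Kb := by
    have h1 : 1 / e ≤ Kb := by linarith
    rw [div_le_iff₀ he] at h1
    linarith
  have hKe : 4 * ((Kb : ℝ) + 1) ≤ e * K := by
    have h1 : 4 * ((Kb : ℝ) + 1) / e ≤ K := by linarith
    rw [div_le_iff₀ he] at h1
    linarith
  obtain ⟨X, hr, hX, hB⟩ := exists_cut R K hK1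
  have hY := closeY_card R X
  have hn' : (K : ℝ) ≤ Fintype.card τ := by exact_mod_cast hn
  have hX' : (K : ℝ) * X.card ≤ Fintype.card τ + K := by exact_mod_cast hX
  have hY' : ((closeY R X).card : ℝ) ≤ 2 * X.card := by exact_mod_cast hY
  -- `(Kb + 1) |Y| ≤ e n`
  have hmain : ((Kb : ℝ) + 1) * (closeY R X).card ≤ e * Fintype.card τ := by
    have h1 : (K : ℝ) * (closeY R X).card ≤ 4 * Fintype.card τ := by nlinarith
    have h2 : (K : ℝ) * (((Kb : ℝ) + 1) * (closeY R X).card) ≤ K * (e * Fintype.card τ) := by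
      have h3 : (0 : ℝ) ≤ Fintype.card τ := by positivity
      nlinarith
    have hKpos : (0 : ℝ) < K := by linarith
    exact le_of_mul_le_mul_left h2 hKpos
  refine ⟨{
    C := CC R X Kb
    B := BB R X Kb
    F := FF R X Kb
    cover := ?_
    disjCB := disj_CB
    disjCF := ?_
    disjBF := ?_
    ref := rf R X Kb
    lev := lv R X Kb
    rho := rh R X Kb
    ref_adj := fun v hv => rf_adj hr hv
    lev_pos := fun v hv => (lv_spec hr hKb1 hv).1
    root := fun v hv h1 => lv_one hr hKb1 hv h1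
    step := fun v hv h1 => lv_step hr hKb1 hv h1
    adj_F := ?_
    adj_C := fun v hv s hs h => adj_FC hr hv hs h
    comp_card := ?_
    B_nbr := fun b hb => B_nbr hr hb
    card_C := ?_
    card_B := ?_
    card_FB := ?_ }⟩
  · ext v
    simp only [mem_union, mem_univ, iff_true]
    by_cases h1 : v ∈ CC R X Kb
    · exact Or.inl (Or.inl h1)
    · by_cases h2 : v ∈ BB R X Kb
      · exact Or.inl (Or.inr h2)
      · exact Or.inr (mem_FF.2 ⟨h1, h2⟩)
  · rw [Finset.disjoint_left]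
    exact fun v h1 h2 => (mem_FF.1 h2).1 h1
  · rw [Finset.disjoint_left]
    exact fun v h1 h2 => (mem_FF.1 h2).2 h1
  · intro u hu v hv h
    rcases (R.adj u v).1 h with ⟨h1, h2⟩ | ⟨h1, h2⟩
    · exact adj_FF hr hu hv h1 h2
    · exact (adj_FF hr hv hu h1 h2).symm
  · intro ρ
    have := D4.comp_card (Kb := Kb) hr hKb1 hB ρ
    convert this
  · have h1 := C_card (R := R) (X := X) hKb1
    have h2 : ((CC R X Kb).card : ℝ) ≤ ((Kb : ℝ) + 1) * (closeY R X).card := by exact_mod_cast h1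
    linarith
  · have h1 := B_card (R := R) (X := X) hr hKb1
    have h2 : (Kb : ℝ) * (BB R X Kb).card ≤ Fintype.card τ := by exact_mod_cast h1
    have h3 : (0 : ℝ) ≤ (BB R X Kb).card := by positivity
    nlinarith
  · have h1 := FB_card (R := R) (X := X) (Kb := Kb) hr
    have h2 : (Set.ncard {q : τ × τ | q.1 ∈ FF R X Kb ∧ q.2 ∈ BB R X Kb ∧ T.Adj q.1 q.2} : ℝ) ≤
        2 * (closeY R X).card := by exact_mod_cast h1
    have h3 : (0 : ℝ) ≤ (closeY R X).card := by positivity
    nlinarith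

end H64.Col
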