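import Mathlib

/-!
# MP_afdf72_co : colourful spanning trees.  Shared definitions (helper64).
All statements of the project use only these definitions.
-/

namespace H64.Col

open Finset

/-- Expectation over a random subset `ω` of `ι`: every `i` is in `ω` with probability `p i`, independently. -/
noncomputable def EB {ι : Type} [Fintype ι] [DecidableEq ι] (p : ι → ℝ) (J : Finset ι → ℝ) : ℝ :=
  ∑ ω : Finset ι, ((∏ i ∈ ω, p i) * ∏ i ∈ ωᶜ, (1 - p i)) * J ω

section Hyper

variable {X H : Type} [Fintype X] [DecidableEq X] [Fintype H] [DecidableEq H]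

/-- load of a vertex -/
noncomputable def load (S : H → Finset X) (w : H → ℝ) (v : X) : ℝ :=
  ∑ e, if v ∈ S e then w e else 0

/-- codegree of a pair -/
noncomputable def codeg (S : H → Finset X) (w : H → ℝ) (u v : X) : ℝ :=
  ∑ e, if u ∈ S e ∧ v ∈ S e then w e else 0

/-- fractional matching with edges of size at most `k` and codegrees at most `δ` -/
structure Good (S : H → Finset X) (w : H → ℝ) (k : ℕ) (δ : ℝ) : Prop where
  nonneg : ∀ e, 0 ≤ w e
  ne : ∀ e, (S e).Nonempty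
  card_le : ∀ e, (S e).card ≤ k
  load_le : ∀ v, load S w v ≤ 1
  codeg_le : ∀ u v, u ≠ v → codeg S w u v ≤ δ

/-- matching: pairwise disjoint hyperedges -/
def IsMatch (S : H → Finset X) (M : Finset H) : Prop :=
  ∀ e ∈ M, ∀ f ∈ M, e ≠ f → Disjoint (S e) (S f)

/-- survival probability of the extra coin of a vertex -/
noncomputable def coin (S : H → Finset X) (w : H → ℝ) (θ : ℝ) (v : X) : ℝ :=
  (1 - θ) / ∏ g, (if v ∈ S g then (1 - θ * w g) else 1)

/-- probabilities: hyperedge `g` is chosen with probability `θ w g`, vertex `v` is killed with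
probability `1 - coin v`. -/
noncomputable def pr (S : H → Finset X) (w : H → ℝ) (θ : ℝ) : H ⊕ X → ℝ :=
  Sum.elim (fun g => θ * w g) (fun v => 1 - coin S w θ v)

/-- the blocking set of a set `B` of vertices: all hyperedges meeting `B` and the coins of `B` -/
def blk (S : H → Finset X) (B : Finset X) : Finset (H ⊕ X) :=
  (univ.filter (fun g => ¬ Disjoint (S g) B)).image Sum.inl ∪ B.image Sum.inr

/-- `e` survives -/
def Surv (S : H → Finset X) (ω : Finset (H ⊕ X)) (e : H) : Prop := Disjoint ω (blk S (S e))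

/-- `e` is chosen and no other chosen hyperedge meets it -/
def Sel (S : H → Finset X) (ω : Finset (H ⊕ X)) (e : H) : Prop :=
  Sum.inl e ∈ ω ∧ ∀ g, g ≠ e → ¬ Disjoint (S g) (S e) → Sum.inl g ∉ ω

open Classical in
/-- the matching of the bite -/
noncomputable def selSet (S : H → Finset X) (ω : Finset (H ⊕ X)) : Finset H :=
  univ.filter (fun e => Sel S ω e)

/-- rescaled weight -/
noncomputable def scl (S : H → Finset X) (w : H → ℝ) (θ : ℝ) (e : H) : ℝ :=
  w e / (1 - θ) ^ ((S e).card - 1)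

open Classical in
/-- rescaled weights of the surviving hyperedges -/
noncomputable def sw (S : H → Finset X) (w : H → ℝ) (θ : ℝ) (ω : Finset (H ⊕ X)) (e : H) : ℝ :=
  if Surv S ω e then scl S w θ e else 0

/-- the functional whose expectation drives the nibble -/
noncomputable def Jf (S : H → Finset X) (w : H → ℝ) (θ γ Φ a : ℝ) (f : H → ℝ)
    (ω : Finset (H ⊕ X)) : ℝ :=
  (∑ e ∈ selSet S ω, f e) +
    a * ((∑ e, sw S w θ ω e * f e) / (1 + γ) - Φ * ∑ v, max (load S (sw S w θ ω) v - 1 - γ) 0)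

end Hyper

section Kernel

variable {V : Type} [Fintype V] [DecidableEq V]

/-- the conjugate function of the cost -/
noncomputable def psi (κ C s : ℝ) : ℝ :=
  if s < 0 then κ * s else if s ≤ 1 then s else s + (C - 1) * (s - 1)

/-- dual function -/
noncomputable def Dual (G : SimpleGraph V) [DecidableRel G.Adj] (κ C : ℝ) (p : V → ℝ) : ℝ :=
  2 * (Fintype.card V : ℝ) * ∑ x, p x - ∑ x, ∑ y, if G.Adj x y then psi κ C (p x + p y) else 0

end Kernel

section Law

variable {τ P κ : Type} [Fintype τ] [DecidableEq τ] [Fintype P] [DecidableEq P]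

/-- average over positions -/
noncomputable def avP (a : P → ℝ) : ℝ := (∑ y, a y) / (Fintype.card P : ℝ)

/-- average over all maps `τ → P` -/
noncomputable def avF (f : (τ → P) → ℝ) : ℝ := (∑ ψ, f ψ) / (Fintype.card P : ℝ) ^ Fintype.card τ

/-- the averaging operator of a kernel -/
noncomputable def op (W : P → P → ℝ) (a : P → ℝ) : P → ℝ := fun x => avP (fun y => W x y * a y)

/-- Data of the random placement of the components of `T[F]`.
`F` the free vertices, `ref` the neighbour towards the core, `lev` the distance to the core vertex,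
`rho` the root of the component, `W` the kernel, `g ρ` the density of the root, `gr ρ` its rainbow
part, `col` colours between positions, `rcol ρ y` the colour of the edge from the core vertex of `ρ`
to the position `y`. -/
structure LawData (τ P κ : Type) where
  F : Finset τ
  ref : τ → τ
  lev : τ → ℕ
  rho : τ → τ
  W : P → P → ℝ
  g : τ → P → ℝ
  gr : τ → P → ℝ
  col : P → P → κ
  rcol : τ → P → κ

namespace LawData

variable (L : LawData τ P κ)

/-- the roots -/
def roots : Finset τ := L.F.filter (fun v => L.lev v = 1)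

/-- the component of root `ρ` -/
def D (ρ : τ) : Finset τ := L.F.filter (fun v => L.rho v = ρ)

/-- density factor of vertex `v` -/
noncomputable def dt (v : τ) (ψ : τ → P) : ℝ :=
  if L.lev v = 1 then L.g v (ψ v) else L.W (ψ (L.ref v)) (ψ v)

/-- rainbow part of the density factor -/
noncomputable def dr (v : τ) (ψ : τ → P) : ℝ :=
  if L.lev v = 1 then L.gr v (ψ v) else min (L.W (ψ (L.ref v)) (ψ v)) 1

/-- colour of the edge from `v` towards the core -/
def clr (v : τ) (ψ : τ → P) : κ :=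
  if L.lev v = 1 then L.rcol v (ψ v) else L.col (ψ (L.ref v)) (ψ v)

/-- total density of the component of `ρ` with rainbow set `A` -/
noncomputable def dens (ρ : τ) (ψ : τ → P) (A : Finset τ) : ℝ :=
  (∏ v ∈ A, L.dr v ψ) * ∏ v ∈ L.D ρ \ A, (L.dt v ψ - L.dr v ψ)

/-- expectation of a function of (component, placement, rainbow set), all components summed -/
noncomputable def Ex (f : τ → (τ → P) → Finset τ → ℝ) : ℝ :=
  ∑ ρ ∈ L.roots, avF (fun ψ => ∑ A ∈ (L.D ρ).powerset, L.dens ρ ψ A * f ρ ψ A)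

/-- structural conditions -/
structure OK (K : ℕ) (C2 : ℝ) : Prop where
  lev_pos : ∀ v ∈ L.F, 1 ≤ L.lev v
  lev_le : ∀ v ∈ L.F, L.lev v ≤ K
  root : ∀ v ∈ L.F, L.lev v = 1 → L.rho v = v
  step : ∀ v ∈ L.F, L.lev v ≠ 1 →
    L.ref v ∈ L.F ∧ L.lev v = L.lev (L.ref v) + 1 ∧ L.rho v = L.rho (L.ref v)
  card_D : ∀ ρ, (L.D ρ).card ≤ K
  W_nonneg : ∀ x y, 0 ≤ L.W x y
  W_le : ∀ x y, L.W x y ≤ C2
  W_row : ∀ x, avP (fun y => L.W x y) = 1
  W_col : ∀ y, avP (fun x => L.W x y) = 1
  gr_nonneg : ∀ ρ y, 0 ≤ L.gr ρ y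
  gr_le : ∀ ρ y, L.gr ρ y ≤ L.g ρ y
  g_le : ∀ ρ y, L.g ρ y ≤ C2
  g_avg : ∀ ρ, avP (L.g ρ) ≤ 1
  col_symm : ∀ x y, L.col x y = L.col y x
  col_inj : ∀ x y z, L.W x y ≠ 0 → L.W x z ≠ 0 → L.col x y = L.col x z → y = z
  W_symm : ∀ x y, L.W x y = L.W y x
  W_diag : ∀ x, L.W x x = 0
  rcol_inj : ∀ ρ y z, L.g ρ y ≠ 0 → L.g ρ z ≠ 0 → L.rcol ρ y = L.rcol ρ z → y = z

/-- `f ρ ψ A` depends on `ψ` only through the component of `ρ` -/
def Local (f : τ → (τ → P) → Finset τ → ℝ) : Prop :=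
  ∀ ρ ψ ψ' A, (∀ v ∈ L.D ρ, ψ v = ψ' v) → f ρ ψ A = f ρ ψ' A

end LawData

end Law

section Tree

variable {τ : Type} [Fintype τ] [DecidableEq τ]

/-- a rooting of a tree -/
structure Rooted (T : SimpleGraph τ) where
  r : τ
  par : τ → τ
  dep : τ → ℕ
  dep_r : dep r = 0
  dep_par : ∀ v, v ≠ r → dep v = dep (par v) + 1
  adj : ∀ u v, T.Adj u v ↔ (u ≠ r ∧ par u = v) ∨ (v ≠ r ∧ par v = u)

/-- The decomposition `V(T) = C ∪ B ∪ F`. -/
structure Decomp (T : SimpleGraph τ) (R : Rooted T) (K : ℕ) (e : ℝ) where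
  C : Finset τ
  B : Finset τ
  F : Finset τ
  cover : C ∪ B ∪ F = univ
  disjCB : Disjoint C B
  disjCF : Disjoint C F
  disjBF : Disjoint B F
  ref : τ → τ
  lev : τ → ℕ
  rho : τ → τ
  ref_adj : ∀ v ∈ F, T.Adj v (ref v)
  lev_pos : ∀ v ∈ F, 1 ≤ lev v
  root : ∀ v ∈ F, lev v = 1 → ref v ∈ C ∧ rho v = v
  step : ∀ v ∈ F, lev v ≠ 1 → ref v ∈ F ∧ lev v = lev (ref v) + 1 ∧ rho v = rho (ref v)
  adj_F : ∀ u ∈ F, ∀ v ∈ F, T.Adj u v → ref u = v ∨ ref v = u
  adj_C : ∀ v ∈ F, ∀ s ∈ C, T.Adj v s → ref v = s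
  comp_card : ∀ ρ, (F.filter (fun v => rho v = ρ)).card ≤ K
  B_nbr : ∀ b ∈ B, Set.ncard {u | T.Adj b u ∧ (u ∉ B ∨ R.dep u < R.dep b)} ≤ 2
  card_C : (C.card : ℝ) ≤ e * Fintype.card τ
  card_B : (B.card : ℝ) ≤ e * Fintype.card τ
  card_FB : (Set.ncard {q : τ × τ | q.1 ∈ F ∧ q.2 ∈ B ∧ T.Adj q.1 q.2} : ℝ) ≤ e * Fintype.card τ

end Tree

end H64.Col
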