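import Pool.Agent.H64.Col.Defs

/-! E1: marginals of the law. The measure on maps `τ → P` is uniform; a vertex `v ≠ root` whose
coordinate occurs only in `dt v` is integrated out by `W_row`. In `marg` remove a vertex of
`D ρ \ S` of maximal level; the evaluation on the path uses `op`. -/

namespace H64.Col
open Finset

variable {τ P κ : Type} [Fintype τ] [DecidableEq τ] [Fintype P] [DecidableEq P] [Nonempty P]

/-- integrate one coordinate -/
theorem avF_update (f : (τ → P) → ℝ) (v : τ) :
    avF f = avF (fun ψ => avP (fun y => f (Function.update ψ v y))) := by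
  let e : (τ → P) × P ≃ (τ → P) × P :=
    { toFun := fun p => (Function.update p.1 v p.2, p.1 v)
      invFun := fun p => (Function.update p.1 v p.2, p.1 v)
      left_inv := fun p => by simp
      right_inv := fun p => by simp }
  have h1 : ∑ ψ : τ → P, ∑ y : P, f (Function.update ψ v y) =
      (Fintype.card P : ℝ) * ∑ ψ, f ψ := by
    rw [← Fintype.sum_prod_type' (f := fun (ψ : τ → P) (y : P) => f (Function.update ψ v y))]
    have h2 := Equiv.sum_comp e (fun p : (τ → P) × P => f p.1)
    have h3 : ∑ p : (τ → P) × P, f (Function.update p.1 v p.2) = ∑ p : (τ → P) × P, f p.1 := h2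
    rw [h3, Fintype.sum_prod_type]
    simp only [Finset.sum_const, Finset.card_univ, nsmul_eq_mul]
    rw [Finset.mul_sum]
  have hP : (Fintype.card P : ℝ) ≠ 0 := by
    exact_mod_cast Fintype.card_ne_zero
  unfold avF avP
  rw [← Finset.sum_div, h1]
  field_simp

theorem avF_mono {f g : (τ → P) → ℝ} (h : ∀ ψ, f ψ ≤ g ψ) : avF f ≤ avF g := by
  unfold avF
  exact div_le_div_of_nonneg_right (Finset.sum_le_sum fun ψ _ => h ψ) (by positivity)

theorem avF_sum {α : Type} (s : Finset α) (f : α → (τ → P) → ℝ) :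
    avF (fun ψ => ∑ i ∈ s, f i ψ) = ∑ i ∈ s, avF (f i) := by
  unfold avF
  rw [Finset.sum_comm, Finset.sum_div]

theorem e1_const (c : ℝ) : avF (fun _ : τ → P => c) = c := by
  unfold avF
  rw [Finset.sum_const, Finset.card_univ, Fintype.card_fun, nsmul_eq_mul]
  have hP : (Fintype.card P : ℝ) ≠ 0 := by
    exact_mod_cast Fintype.card_ne_zero
  push_cast
  field_simp

theorem e1_int (A B : (τ → P) → ℝ) (v : τ) (hA : ∀ ψ y, A (Function.update ψ v y) = A ψ) :
    avF (fun ψ => A ψ * B ψ) =
      avF (fun ψ => A ψ * avP (fun y => B (Function.update ψ v y))) := by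
  rw [avF_update _ v]
  congr 1
  funext ψ
  unfold avP
  simp only [hA]
  rw [← Finset.mul_sum, mul_div_assoc]

theorem e1_one (a : P → ℝ) (v : τ) : avF (fun ψ : τ → P => a (ψ v)) = avP a := by
  rw [avF_update _ v]
  simp only [Function.update_self]
  exact e1_const _

/-- the factor of `u` does not depend on the position of `v` -/
theorem e1_dt (L : LawData τ P κ) {u v : τ} (huv : u ≠ v) (hr : L.lev u ≠ 1 → L.ref u ≠ v)
    (ψ : τ → P) (y : P) : L.dt u (Function.update ψ v y) = L.dt u ψ := by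
  unfold LawData.dt
  split_ifs with h1
  · rw [Function.update_of_ne huv]
  · rw [Function.update_of_ne huv, Function.update_of_ne (hr h1)]

/-- integrate out the vertices of `T \ S` -/
theorem e1_gen (L : LawData τ P κ) (K : ℕ) (C2 : ℝ) (h : L.OK K C2) (S : Finset τ)
    (b : (τ → P) → ℝ) : ∀ (n : ℕ) (T : Finset τ), (T \ S).card = n → S ⊆ T → T ⊆ L.F →
    (∀ u ∈ T \ S, L.lev u ≠ 1) → (∀ u ∈ S, L.lev u ≠ 1 → L.ref u ∉ T \ S) →
    (∀ ψ ψ' : τ → P, (∀ u, u ∉ T \ S → ψ u = ψ' u) → b ψ = b ψ') →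
    avF (fun ψ => (∏ v ∈ T, L.dt v ψ) * b ψ) = avF (fun ψ => (∏ v ∈ S, L.dt v ψ) * b ψ) := by
  intro n
  induction n with
  | zero =>
    intro T hn hST _ _ _ _
    rw [Finset.card_eq_zero, Finset.sdiff_eq_empty_iff_subset] at hn
    rw [Finset.Subset.antisymm hn hST]
  | succ n ih =>
    intro T hn hST hTF hnr hch hb
    have hne : (T \ S).Nonempty := by
      rw [← Finset.card_pos]; omega
    obtain ⟨v, hv, hmax⟩ := Finset.exists_max_image (T \ S) L.lev hne
    have hvT : v ∈ T := (Finset.mem_sdiff.1 hv).1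
    have hvS : v ∉ S := (Finset.mem_sdiff.1 hv).2
    have hlv := hnr v hv
    obtain ⟨hrF, hrl, hrr⟩ := h.step v (hTF hvT) hlv
    have hrv : L.ref v ≠ v := by
      intro h0
      rw [h0] at hrl
      omega
    have hT' : (T.erase v \ S) = (T \ S).erase v := by
      ext u
      simp only [Finset.mem_sdiff, Finset.mem_erase]
      tauto
    have hind : ∀ u ∈ T.erase v, ∀ (ψ : τ → P) (y : P),
        L.dt u (Function.update ψ v y) = L.dt u ψ := by
      intro u hu ψ y
      have huv := Finset.ne_of_mem_erase hu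
      have huT := Finset.mem_of_mem_erase hu
      refine e1_dt L huv (fun hl hr => ?_) ψ y
      by_cases huS : u ∈ S
      · exact hch u huS hl (hr ▸ hv)
      · have h2 := hmax u (Finset.mem_sdiff.2 ⟨huT, huS⟩)
        have h3 := (h.step u (hTF huT) hl).2.1
        rw [hr] at h3
        omega
    have h1 : avF (fun ψ => (∏ v ∈ T, L.dt v ψ) * b ψ) =
        avF (fun ψ => (∏ v ∈ T.erase v, L.dt v ψ) * b ψ) := by
      have h2 : (fun ψ => (∏ v ∈ T, L.dt v ψ) * b ψ) =
          fun ψ => ((∏ v ∈ T.erase v, L.dt v ψ) * b ψ) * L.dt v ψ := by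
        funext ψ
        rw [← Finset.mul_prod_erase T _ hvT]
        ring
      rw [h2, e1_int _ _ v]
      · congr 1
        funext ψ
        have h3 : (fun y => L.dt v (Function.update ψ v y)) = fun y => L.W (ψ (L.ref v)) y := by
          funext y
          unfold LawData.dt
          rw [if_neg hlv, Function.update_self, Function.update_of_ne hrv]
        rw [h3, h.W_row, mul_one]
      · intro ψ y
        congr 1
        · exact Finset.prod_congr rfl fun u hu => hind u hu ψ y
        · apply hb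
          intro u hu
          rw [Function.update_of_ne]
          rintro rfl
          exact hu hv
    rw [h1]
    apply ih (T.erase v)
    · rw [hT', Finset.card_erase_of_mem hv, hn]
      rfl
    · intro u hu
      rw [Finset.mem_erase]
      exact ⟨fun h0 => hvS (h0 ▸ hu), hST hu⟩
    · exact (Finset.erase_subset _ _).trans hTF
    · intro u hu
      rw [hT'] at hu
      exact hnr u (Finset.mem_of_mem_erase hu)
    · intro u hu hl
      rw [hT']
      intro h0
      exact hch u hu hl (Finset.mem_of_mem_erase h0)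
    · intro ψ ψ' hψ
      apply hb
      intro u hu
      apply hψ
      rw [hT']
      intro h0
      exact hu (Finset.mem_of_mem_erase h0)

theorem e1_mem_D {L : LawData τ P κ} {ρ v : τ} : v ∈ L.D ρ ↔ v ∈ L.F ∧ L.rho v = ρ := by
  unfold LawData.D
  rw [Finset.mem_filter]

theorem e1_D_sub (L : LawData τ P κ) (ρ : τ) : L.D ρ ⊆ L.F := fun _ hv => (e1_mem_D.1 hv).1

/-- marginal on an upward closed set containing the root -/
theorem marg (L : LawData τ P κ) (K : ℕ) (C2 : ℝ) (h : L.OK K C2) (ρ : τ) (S : Finset τ)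
    (hρ : ρ ∈ L.roots) (hρS : ρ ∈ S) (hS : S ⊆ L.D ρ) (hup : ∀ u ∈ S, L.lev u ≠ 1 → L.ref u ∈ S)
    (b : (τ → P) → ℝ) (hb : ∀ ψ ψ', (∀ u ∈ S, ψ u = ψ' u) → b ψ = b ψ') :
    avF (fun ψ => (∏ v ∈ L.D ρ, L.dt v ψ) * b ψ) = avF (fun ψ => (∏ v ∈ S, L.dt v ψ) * b ψ) := by
  apply e1_gen L K C2 h S b _ (L.D ρ) rfl hS (e1_D_sub L ρ)
  · intro u hu hl
    rw [Finset.mem_sdiff, e1_mem_D] at hu
    have h1 := h.root u hu.1.1 hl
    rw [hu.1.2] at h1
    exact hu.2 (h1 ▸ hρS)
  · intro u hu hl h0
    exact (Finset.mem_sdiff.1 h0).2 (hup u hu hl)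
  · intro ψ ψ' hψ
    apply hb
    intro u hu
    apply hψ
    intro h0
    exact (Finset.mem_sdiff.1 h0).2 hu

/-- the vertices of the component of level less than `m` -/
def e1_low (L : LawData τ P κ) (ρ : τ) (m : ℕ) : Finset τ :=
  (L.D ρ).filter (fun u => L.lev u < m)

theorem e1_mem_low {L : LawData τ P κ} {ρ v : τ} {m : ℕ} :
    v ∈ e1_low L ρ m ↔ (v ∈ L.F ∧ L.rho v = ρ) ∧ L.lev v < m := by
  unfold e1_low
  rw [Finset.mem_filter, e1_mem_D]

/-- functions of the position of `w`, integrated against the low part or the whole component -/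
theorem e1_back (L : LawData τ P κ) (K : ℕ) (C2 : ℝ) (h : L.OK K C2) (w : τ) (hw : w ∈ L.F)
    (m : ℕ) (hm : L.lev w < m) (a : P → ℝ) :
    avF (fun ψ => (∏ u ∈ L.D (L.rho w), L.dt u ψ) * a (ψ w)) =
      avF (fun ψ => (∏ u ∈ e1_low L (L.rho w) m, L.dt u ψ) * a (ψ w)) := by
  have hp := h.lev_pos w hw
  apply e1_gen L K C2 h (e1_low L (L.rho w) m) (fun ψ => a (ψ w)) _ (L.D (L.rho w)) rfl
    (Finset.filter_subset _ _) (e1_D_sub L _)
  · intro u hu hl
    rw [Finset.mem_sdiff, e1_mem_D, e1_mem_low] at hu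
    apply hu.2
    exact ⟨hu.1, by omega⟩
  · intro u hu hl h0
    rw [e1_mem_low] at hu
    rw [Finset.mem_sdiff] at h0
    apply h0.2
    obtain ⟨h1, h2, h3⟩ := h.step u hu.1.1 hl
    rw [e1_mem_low]
    exact ⟨⟨h1, by rw [← h3]; exact hu.1.2⟩, by omega⟩
  · intro ψ ψ' hψ
    rw [hψ w]
    rw [Finset.mem_sdiff]
    rintro ⟨-, h0⟩
    apply h0
    rw [e1_mem_low]
    exact ⟨⟨hw, rfl⟩, hm⟩

/-- low factors do not depend on the positions of vertices of level at least `m` -/
theorem e1_low_ind (L : LawData τ P κ) (K : ℕ) (C2 : ℝ) (h : L.OK K C2) (ρ v : τ) (m : ℕ)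
    (hv : m ≤ L.lev v) (ψ : τ → P) (y : P) :
    ∏ u ∈ e1_low L ρ m, L.dt u (Function.update ψ v y) = ∏ u ∈ e1_low L ρ m, L.dt u ψ := by
  refine Finset.prod_congr rfl fun u hu => ?_
  rw [e1_mem_low] at hu
  refine e1_dt L ?_ ?_ ψ y
  · rintro rfl
    omega
  · intro hl hr
    have := (h.step u hu.1.1 hl).2.1
    rw [hr] at this
    omega

theorem marg_one (L : LawData τ P κ) (K : ℕ) (C2 : ℝ) (h : L.OK K C2) (v : τ) (hv : v ∈ L.F)
    (a : P → ℝ) :
    avF (fun ψ => (∏ u ∈ L.D (L.rho v), L.dt u ψ) * a (ψ v)) =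
      avP (fun y => L.g (L.rho v) y * ((op L.W)^[L.lev v - 1] a) y) := by
  obtain ⟨n, hn⟩ : ∃ n, L.lev v = n := ⟨_, rfl⟩
  induction n using Nat.strong_induction_on generalizing v a with
  | _ n ih =>
    by_cases hl : L.lev v = 1
    · -- the root
      have hr := h.root v hv hl
      have h1 : avF (fun ψ => (∏ u ∈ L.D (L.rho v), L.dt u ψ) * a (ψ v)) =
          avF (fun ψ => (∏ u ∈ ({v} : Finset τ), L.dt u ψ) * a (ψ v)) := by
        rw [hr]
        apply marg L K C2 h v {v} _ (Finset.mem_singleton_self v)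
        · intro u hu
          rw [Finset.mem_singleton] at hu
          rw [hu, e1_mem_D]
          exact ⟨hv, hr⟩
        · intro u hu hl'
          rw [Finset.mem_singleton] at hu
          rw [hu] at hl'
          exact absurd hl hl'
        · intro ψ ψ' hψ
          rw [hψ v (Finset.mem_singleton_self v)]
        · unfold LawData.roots
          rw [Finset.mem_filter]
          exact ⟨hv, hl⟩
      rw [h1, hl, hr]
      simp only [Finset.prod_singleton, Nat.sub_self, Function.iterate_zero, id_eq]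
      have h2 : (fun ψ : τ → P => L.dt v ψ * a (ψ v)) = fun ψ => (fun y => L.g v y * a y) (ψ v) := by
        funext ψ
        unfold LawData.dt
        rw [if_pos hl]
      rw [h2]
      exact e1_one (fun y => L.g v y * a y) v
    · obtain ⟨hrF, hrl, hrr⟩ := h.step v hv hl
      have hrp := h.lev_pos _ hrF
      have hrv : L.ref v ≠ v := by
        intro h0
        rw [h0] at hrl
        omega
      -- descend to the set `insert v low`
      have hvlow : v ∉ e1_low L (L.rho v) (L.lev v) := by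
        rw [e1_mem_low]
        omega
      have h1 : avF (fun ψ => (∏ u ∈ L.D (L.rho v), L.dt u ψ) * a (ψ v)) =
          avF (fun ψ => (∏ u ∈ insert v (e1_low L (L.rho v) (L.lev v)), L.dt u ψ) * a (ψ v)) := by
        apply e1_gen L K C2 h (insert v (e1_low L (L.rho v) (L.lev v))) (fun ψ => a (ψ v)) _
          (L.D (L.rho v)) rfl
        · intro u hu
          rw [Finset.mem_insert] at hu
          rcases hu with rfl | hu
          · rw [e1_mem_D]; exact ⟨hv, rfl⟩
          · exact Finset.filter_subset _ _ hu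
        · exact e1_D_sub L _
        · intro u hu hl'
          rw [Finset.mem_sdiff, e1_mem_D, Finset.mem_insert, e1_mem_low] at hu
          apply hu.2
          right
          exact ⟨hu.1, by omega⟩
        · intro u hu hl' h0
          rw [Finset.mem_sdiff, Finset.mem_insert] at h0
          apply h0.2
          right
          rw [e1_mem_low]
          rw [Finset.mem_insert] at hu
          rcases hu with rfl | hu
          · exact ⟨⟨hrF, hrr.symm⟩, by omega⟩
          · rw [e1_mem_low] at hu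
            obtain ⟨h1, h2, h3⟩ := h.step u hu.1.1 hl'
            exact ⟨⟨h1, by rw [← h3]; exact hu.1.2⟩, by omega⟩
        · intro ψ ψ' hψ
          rw [hψ v]
          rw [Finset.mem_sdiff]
          rintro ⟨-, h0⟩
          exact h0 (Finset.mem_insert_self _ _)
      have h2 : avF (fun ψ => (∏ u ∈ insert v (e1_low L (L.rho v) (L.lev v)), L.dt u ψ) * a (ψ v)) =
          avF (fun ψ => (∏ u ∈ e1_low L (L.rho v) (L.lev v), L.dt u ψ) *
            (op L.W a) (ψ (L.ref v))) := by
        have h3 : (fun ψ => (∏ u ∈ insert v (e1_low L (L.rho v) (L.lev v)), L.dt u ψ) * a (ψ v)) =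
            fun ψ => (∏ u ∈ e1_low L (L.rho v) (L.lev v), L.dt u ψ) * (L.dt v ψ * a (ψ v)) := by
          funext ψ
          rw [Finset.prod_insert hvlow]
          ring
        rw [h3, e1_int _ _ v (fun ψ y => e1_low_ind L K C2 h _ v _ le_rfl ψ y)]
        congr 1
        funext ψ
        congr 1
        unfold op
        congr 1
        funext y
        unfold LawData.dt
        rw [if_neg hl, Function.update_self, Function.update_of_ne hrv]
      have h4 := e1_back L K C2 h (L.ref v) hrF (L.lev v) (by omega) (op L.W a)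
      rw [← hrr] at h4
      rw [h1, h2, ← h4]
      have h5 := ih (L.lev (L.ref v)) (by omega) (L.ref v) hrF (op L.W a) rfl
      rw [← hrr] at h5
      rw [h5]
      have h6 : L.lev v - 1 = (L.lev (L.ref v) - 1) + 1 := by omega
      rw [h6, Function.iterate_succ_apply]

/-- integrate against the low part only -/
theorem e1_low_eval (L : LawData τ P κ) (K : ℕ) (C2 : ℝ) (h : L.OK K C2) (v : τ) (hv : v ∈ L.F)
    (hl : L.lev v ≠ 1) (a : P → ℝ) :
    avF (fun ψ => (∏ u ∈ e1_low L (L.rho v) (L.lev v), L.dt u ψ) * a (ψ (L.ref v))) =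
      avP (fun y => L.g (L.rho v) y * ((op L.W)^[L.lev v - 2] a) y) := by
  obtain ⟨hrF, hrl, hrr⟩ := h.step v hv hl
  have h4 := e1_back L K C2 h (L.ref v) hrF (L.lev v) (by omega) a
  have h5 := marg_one L K C2 h (L.ref v) hrF a
  rw [← hrr] at h4 h5
  rw [← h4, h5]
  have h6 : L.lev v - 2 = L.lev (L.ref v) - 1 := by omega
  rw [h6]

theorem marg_edge (L : LawData τ P κ) (K : ℕ) (C2 : ℝ) (h : L.OK K C2) (v : τ) (hv : v ∈ L.F)
    (hl : L.lev v ≠ 1) (b : P → P → ℝ) :
    avF (fun ψ => (∏ u ∈ (L.D (L.rho v)).erase v, L.dt u ψ) * b (ψ (L.ref v)) (ψ v)) =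
      avP (fun y => L.g (L.rho v) y * ((op L.W)^[L.lev v - 2] (fun x => avP (b x))) y) := by
  obtain ⟨hrF, hrl, hrr⟩ := h.step v hv hl
  have hrp := h.lev_pos _ hrF
  have hvp := h.lev_pos v hv
  have hrv : L.ref v ≠ v := by
    intro h0
    rw [h0] at hrl
    omega
  have h1 : avF (fun ψ => (∏ u ∈ (L.D (L.rho v)).erase v, L.dt u ψ) * b (ψ (L.ref v)) (ψ v)) =
      avF (fun ψ => (∏ u ∈ e1_low L (L.rho v) (L.lev v), L.dt u ψ) * b (ψ (L.ref v)) (ψ v)) := by
    apply e1_gen L K C2 h (e1_low L (L.rho v) (L.lev v)) (fun ψ => b (ψ (L.ref v)) (ψ v)) _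
      ((L.D (L.rho v)).erase v) rfl
    · intro u hu
      rw [e1_mem_low] at hu
      rw [Finset.mem_erase, e1_mem_D]
      refine ⟨?_, hu.1⟩
      rintro rfl
      omega
    · exact (Finset.erase_subset _ _).trans (e1_D_sub L _)
    · intro u hu hl'
      rw [Finset.mem_sdiff, Finset.mem_erase, e1_mem_D, e1_mem_low] at hu
      apply hu.2
      exact ⟨hu.1.2, by omega⟩
    · intro u hu hl' h0
      rw [Finset.mem_sdiff] at h0
      apply h0.2
      rw [e1_mem_low] at hu ⊢
      obtain ⟨h1, h2, h3⟩ := h.step u hu.1.1 hl'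
      exact ⟨⟨h1, by rw [← h3]; exact hu.1.2⟩, by omega⟩
    · intro ψ ψ' hψ
      rw [hψ v, hψ (L.ref v)]
      · rw [Finset.mem_sdiff]
        rintro ⟨-, h0⟩
        apply h0
        rw [e1_mem_low]
        exact ⟨⟨hrF, hrr.symm⟩, by omega⟩
      · rw [Finset.mem_sdiff, Finset.mem_erase]
        rintro ⟨⟨h0, -⟩, -⟩
        exact h0 rfl
  rw [h1, e1_int _ _ v (fun ψ y => e1_low_ind L K C2 h _ v _ le_rfl ψ y)]
  have h2 : (fun ψ : τ → P => (∏ u ∈ e1_low L (L.rho v) (L.lev v), L.dt u ψ) *
      avP fun y => b (Function.update ψ v y (L.ref v)) (Function.update ψ v y v)) =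
      fun ψ => (∏ u ∈ e1_low L (L.rho v) (L.lev v), L.dt u ψ) *
        (fun x => avP (b x)) (ψ (L.ref v)) := by
    funext ψ
    congr 2
    funext y
    rw [Function.update_self, Function.update_of_ne hrv]
  rw [h2]
  exact e1_low_eval L K C2 h v hv hl (fun x => avP (b x))

theorem marg_root (L : LawData τ P κ) (K : ℕ) (C2 : ℝ) (h : L.OK K C2) (v : τ) (hv : v ∈ L.roots)
    (b : P → ℝ) :
    avF (fun ψ => (∏ u ∈ (L.D v).erase v, L.dt u ψ) * b (ψ v)) = avP b := by
  have h1 : avF (fun ψ => (∏ u ∈ (L.D v).erase v, L.dt u ψ) * b (ψ v)) =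
      avF (fun ψ => (∏ u ∈ (∅ : Finset τ), L.dt u ψ) * b (ψ v)) := by
    apply e1_gen L K C2 h ∅ (fun ψ => b (ψ v)) _ ((L.D v).erase v) rfl (Finset.empty_subset _)
      ((Finset.erase_subset _ _).trans (e1_D_sub L _))
    · intro u hu hl
      rw [Finset.mem_sdiff, Finset.mem_erase, e1_mem_D] at hu
      have h2 := h.root u hu.1.2.1 hl
      rw [hu.1.2.2] at h2
      exact hu.1.1 h2.symm
    · intro u hu
      exact absurd hu (Finset.notMem_empty _)
    · intro ψ ψ' hψ
      rw [hψ v]
      rw [Finset.mem_sdiff, Finset.mem_erase]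
      rintro ⟨⟨h0, -⟩, -⟩
      exact h0 rfl
  rw [h1]
  simp only [Finset.prod_empty, one_mul]
  exact e1_one b v

theorem marg_three (L : LawData τ P κ) (K : ℕ) (C2 : ℝ) (h : L.OK K C2) (u a : τ) (hu : u ∈ L.F)
    (hl : L.lev u ≠ 1) (ha : a ∈ L.F) (hla : L.lev a ≠ 1) (hau : L.ref a = u)
    (b : P → P → P → ℝ) :
    avF (fun ψ => (∏ v ∈ L.D (L.rho u), L.dt v ψ) * b (ψ (L.ref u)) (ψ u) (ψ a)) =
      avP (fun y => L.g (L.rho u) y * ((op L.W)^[L.lev u - 2]
        (fun x => avP (fun y' => L.W x y' * avP (fun z => L.W y' z * b x y' z)))) y) := by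
  obtain ⟨hrF, hrl, hrr⟩ := h.step u hu hl
  obtain ⟨-, hal, har⟩ := h.step a ha hla
  rw [hau] at hal har
  have hrp := h.lev_pos _ hrF
  have hru : L.ref u ≠ u := by
    intro h0
    rw [h0] at hrl
    omega
  have hau' : a ≠ u := by
    rintro rfl
    omega
  have hra : L.ref u ≠ a := by
    intro h0
    rw [h0] at hrl
    omega
  set Lo := e1_low L (L.rho u) (L.lev u) with hLo
  have hulow : u ∉ Lo := by
    rw [hLo, e1_mem_low]
    omega
  have halow : a ∉ insert u Lo := by
    rw [Finset.mem_insert, hLo, e1_mem_low]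
    rintro (h0 | h0)
    · exact hau' h0
    · omega
  have h1 : avF (fun ψ => (∏ v ∈ L.D (L.rho u), L.dt v ψ) * b (ψ (L.ref u)) (ψ u) (ψ a)) =
      avF (fun ψ => (∏ v ∈ insert a (insert u Lo), L.dt v ψ) *
        b (ψ (L.ref u)) (ψ u) (ψ a)) := by
    apply e1_gen L K C2 h (insert a (insert u Lo)) (fun ψ => b (ψ (L.ref u)) (ψ u) (ψ a)) _
      (L.D (L.rho u)) rfl
    · intro w hw
      rw [Finset.mem_insert, Finset.mem_insert] at hw
      rcases hw with rfl | rfl | hw
      · rw [e1_mem_D]; exact ⟨ha, har⟩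
      · rw [e1_mem_D]; exact ⟨hu, rfl⟩
      · exact Finset.filter_subset _ _ hw
    · exact e1_D_sub L _
    · intro w hw hl'
      rw [Finset.mem_sdiff, e1_mem_D, Finset.mem_insert, Finset.mem_insert, hLo, e1_mem_low] at hw
      apply hw.2
      right; right
      exact ⟨hw.1, by omega⟩
    · intro w hw hl' h0
      rw [Finset.mem_sdiff, Finset.mem_insert, Finset.mem_insert] at h0
      apply h0.2
      rw [Finset.mem_insert, Finset.mem_insert] at hw
      rcases hw with rfl | rfl | hw
      · right; left; exact hau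
      · right; right
        rw [hLo, e1_mem_low]
        exact ⟨⟨hrF, hrr.symm⟩, by omega⟩
      · right; right
        rw [hLo, e1_mem_low] at hw ⊢
        obtain ⟨h1, h2, h3⟩ := h.step w hw.1.1 hl'
        exact ⟨⟨h1, by rw [← h3]; exact hw.1.2⟩, by omega⟩
    · intro ψ ψ' hψ
      rw [hψ u, hψ (L.ref u), hψ a]
      · rw [Finset.mem_sdiff]
        rintro ⟨-, h0⟩
        exact h0 (Finset.mem_insert_self _ _)
      · rw [Finset.mem_sdiff]
        rintro ⟨-, h0⟩
        apply h0
        rw [Finset.mem_insert, Finset.mem_insert]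
        right; right
        rw [hLo, e1_mem_low]
        exact ⟨⟨hrF, hrr.symm⟩, by omega⟩
      · rw [Finset.mem_sdiff]
        rintro ⟨-, h0⟩
        exact h0 (Finset.mem_insert_of_mem (Finset.mem_insert_self _ _))
  have h2 : (fun ψ => (∏ v ∈ insert a (insert u Lo), L.dt v ψ) *
        b (ψ (L.ref u)) (ψ u) (ψ a)) =
      fun ψ => ((∏ v ∈ Lo, L.dt v ψ) * L.W (ψ (L.ref u)) (ψ u)) *
        (L.W (ψ u) (ψ a) * b (ψ (L.ref u)) (ψ u) (ψ a)) := by
    funext ψ
    rw [Finset.prod_insert halow, Finset.prod_insert hulow]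
    have e1 : L.dt a ψ = L.W (ψ u) (ψ a) := by
      unfold LawData.dt
      rw [if_neg hla, hau]
    have e2 : L.dt u ψ = L.W (ψ (L.ref u)) (ψ u) := by
      unfold LawData.dt
      rw [if_neg hl]
    rw [e1, e2]
    ring
  rw [h1, h2, e1_int _ _ a (by
    intro ψ y
    rw [e1_low_ind L K C2 h _ a _ (by omega) ψ y, Function.update_of_ne hra,
      Function.update_of_ne hau'.symm])]
  have h3 : (fun ψ : τ → P => ((∏ v ∈ Lo, L.dt v ψ) * L.W (ψ (L.ref u)) (ψ u)) *
      avP fun y => L.W (Function.update ψ a y u) (Function.update ψ a y a) *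
        b (Function.update ψ a y (L.ref u)) (Function.update ψ a y u) (Function.update ψ a y a)) =
      fun ψ => (∏ v ∈ Lo, L.dt v ψ) * (L.W (ψ (L.ref u)) (ψ u) *
        avP fun z => L.W (ψ u) z * b (ψ (L.ref u)) (ψ u) z) := by
    funext ψ
    rw [mul_assoc]
    congr 3
    funext y
    rw [Function.update_self, Function.update_of_ne hra, Function.update_of_ne hau'.symm]
  rw [h3, e1_int _ _ u (fun ψ y => e1_low_ind L K C2 h _ u _ le_rfl ψ y)]
  have h4 : (fun ψ : τ → P => (∏ v ∈ Lo, L.dt v ψ) *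
      avP fun y => L.W (Function.update ψ u y (L.ref u)) (Function.update ψ u y u) *
        avP fun z => L.W (Function.update ψ u y u) z *
          b (Function.update ψ u y (L.ref u)) (Function.update ψ u y u) z) =
      fun ψ => (∏ v ∈ Lo, L.dt v ψ) *
        (fun x => avP (fun y' => L.W x y' * avP (fun z => L.W y' z * b x y' z))) (ψ (L.ref u)) := by
    funext ψ
    congr 2
    funext y
    rw [Function.update_self, Function.update_of_ne hru]
  rw [h4]
  exact e1_low_eval L K C2 h u hu hl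
    (fun x => avP (fun y' => L.W x y' * avP (fun z => L.W y' z * b x y' z)))

end H64.Col
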