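import Pool.Agent.H64.Col.E1_Marg
import Pool.Agent.H64.Col.E2_Dens
import Pool.Agent.H64.Col.E3_Hyp
import Pool.Agent.H64.Col.E4_Load

/-! E5: codegrees and the weight of invalid hyperedges.
Pointwise `∏ dt ≤ C2^K`; the fraction of maps `ψ` satisfying one constraint (`ψ v = y`, or
`clr v ψ = k`, or `ψ u = ψ v`, or `clr u ψ = clr v ψ`) is `≤ 1/n'`, two constraints `≤ 1/n'^2`,
except the pair (position `y`, colour `k` of the root edge with `ψ ρ = y`), which is (H3). -/

namespace H64.Col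
open Finset

section E5gen

variable {τ P : Type} [Fintype τ] [DecidableEq τ] [Fintype P] [DecidableEq P] [Nonempty P]

omit [DecidableEq P] in
theorem E5_n_pos : (0 : ℝ) < (Fintype.card P : ℝ) := by exact_mod_cast Fintype.card_pos

omit [DecidableEq P] in
theorem E5_avF_const (c : ℝ) : avF (fun _ : τ → P => c) = c := by
  have hn : (0 : ℝ) < (Fintype.card P : ℝ) := E5_n_pos
  unfold avF
  rw [Finset.sum_const, Finset.card_univ, Fintype.card_fun, nsmul_eq_mul]
  push_cast
  field_simp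

omit [DecidableEq P] [Nonempty P] in
theorem E5_avF_smul (c : ℝ) (f : (τ → P) → ℝ) : avF (fun ψ => c * f ψ) = c * avF f := by
  unfold avF
  rw [← Finset.mul_sum, mul_div_assoc]

omit [DecidableEq P] [Nonempty P] in
theorem E5_avF_add (f g : (τ → P) → ℝ) : avF (fun ψ => f ψ + g ψ) = avF f + avF g := by
  unfold avF
  rw [Finset.sum_add_distrib, add_div]

omit [DecidableEq P] in
theorem E5_avP_one (Q : P → Prop) [DecidablePred Q] (hQ : ∀ y z, Q y → Q z → y = z) :
    avP (fun y => if Q y then (1 : ℝ) else 0) ≤ 1 / (Fintype.card P : ℝ) := by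
  have hn : (0 : ℝ) < (Fintype.card P : ℝ) := E5_n_pos
  unfold avP
  rw [Finset.sum_boole]
  apply div_le_div_of_nonneg_right _ hn.le
  have : (univ.filter Q).card ≤ 1 := by
    apply Finset.card_le_one.mpr
    intro a ha b hb
    simp only [mem_filter, mem_univ, true_and] at ha hb
    exact hQ a b ha hb
  exact_mod_cast this

theorem E5_one (v : τ) (Q : (τ → P) → Prop) [DecidablePred Q]
    (hQ : ∀ ψ y z, Q (Function.update ψ v y) → Q (Function.update ψ v z) → y = z) :
    avF (fun ψ => if Q ψ then (1 : ℝ) else 0) ≤ 1 / (Fintype.card P : ℝ) := by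
  rw [avF_update _ v]
  refine (avF_mono (g := fun _ => 1 / (Fintype.card P : ℝ)) fun ψ => ?_).trans ?_
  · exact E5_avP_one (fun y => Q (Function.update ψ v y)) (hQ ψ)
  · rw [E5_avF_const]

theorem E5_two (v u : τ) (Q1 Q2 : (τ → P) → Prop) [DecidablePred Q1] [DecidablePred Q2]
    (h1 : ∀ ψ y z, Q1 (Function.update ψ v y) → Q1 (Function.update ψ v z) → y = z)
    (h2 : ∀ ψ y, Q2 (Function.update ψ v y) → Q2 ψ)
    (h3 : ∀ ψ y z, Q2 (Function.update ψ u y) → Q2 (Function.update ψ u z) → y = z) :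
    avF (fun ψ => if Q1 ψ ∧ Q2 ψ then (1 : ℝ) else 0) ≤ 1 / (Fintype.card P : ℝ) ^ 2 := by
  have hn : (0 : ℝ) < (Fintype.card P : ℝ) := E5_n_pos
  rw [avF_update _ v]
  have key : ∀ ψ : τ → P, avP (fun y => if Q1 (Function.update ψ v y) ∧ Q2 (Function.update ψ v y)
      then (1 : ℝ) else 0) ≤ (1 / (Fintype.card P : ℝ)) * (if Q2 ψ then (1 : ℝ) else 0) := by
    intro ψ
    by_cases hq : Q2 ψ
    · rw [if_pos hq, mul_one]
      refine le_trans ?_ (E5_avP_one (fun y => Q1 (Function.update ψ v y)) (h1 ψ))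
      unfold avP
      apply div_le_div_of_nonneg_right _ hn.le
      apply Finset.sum_le_sum
      intro y _
      split_ifs with ha hb hb
      · exact le_rfl
      · exact absurd ha.1 hb
      · exact zero_le_one
      · exact le_rfl
    · rw [if_neg hq, mul_zero]
      unfold avP
      rw [Finset.sum_eq_zero, zero_div]
      intro y _
      rw [if_neg]
      rintro ⟨_, h⟩
      exact hq (h2 ψ y h)
  refine (avF_mono key).trans ?_
  rw [E5_avF_smul]
  have h := E5_one u Q2 h3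
  have hn' : (0 : ℝ) ≤ 1 / (Fintype.card P : ℝ) := by positivity
  calc (1 / (Fintype.card P : ℝ)) * avF (fun ψ => if Q2 ψ then (1 : ℝ) else 0)
      ≤ (1 / (Fintype.card P : ℝ)) * (1 / (Fintype.card P : ℝ)) :=
        mul_le_mul_of_nonneg_left h hn'
    _ = 1 / (Fintype.card P : ℝ) ^ 2 := by rw [sq]; field_simp

end E5gen

variable {τ P κ : Type} [Fintype τ] [DecidableEq τ] [Fintype P] [DecidableEq P] [Nonempty P]
  [Fintype κ] [DecidableEq κ]

/-- the hypergraph vertex `x` (a position or a colour) is hit by the tree vertex `u` -/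
def E5_Hit (L : LawData τ P κ) (x : P ⊕ κ) (u : τ) (ψ : τ → P) : Prop :=
  match x with
  | Sum.inl p => ψ u = p
  | Sum.inr k => L.clr u ψ = k ∧ L.dt u ψ ≠ 0

section E5law

variable (L : LawData τ P κ) (K : ℕ) (C2 : ℝ)

theorem E5_hit_update (x : P ⊕ κ) (u v : τ) (ψ : τ → P) (y : P) (huv : u ≠ v)
    (hr : L.lev u ≠ 1 → L.ref u ≠ v) :
    E5_Hit L x u (Function.update ψ v y) ↔ E5_Hit L x u ψ := by
  have e1 : Function.update ψ v y u = ψ u := Function.update_of_ne huv _ _
  cases x with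
  | inl p => simp only [E5_Hit, e1]
  | inr k =>
    by_cases hl : L.lev u = 1
    · simp only [E5_Hit, LawData.clr, LawData.dt, hl, if_true, e1]
    · have e2 : Function.update ψ v y (L.ref u) = ψ (L.ref u) :=
        Function.update_of_ne (hr hl) _ _
      simp only [E5_Hit, LawData.clr, LawData.dt, hl, if_false, e1, e2]

variable {L K C2}

theorem E5_ref_ne (h : L.OK K C2) {v : τ} (hv : v ∈ L.F) (hl : L.lev v ≠ 1) : L.ref v ≠ v := by
  intro he
  have := (h.step v hv hl).2.1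
  rw [he] at this
  omega

theorem E5_hit_unique (h : L.OK K C2) (x : P ⊕ κ) {v : τ} (hv : v ∈ L.F) (ψ : τ → P) (y z : P)
    (hy : E5_Hit L x v (Function.update ψ v y)) (hz : E5_Hit L x v (Function.update ψ v z)) :
    y = z := by
  cases x with
  | inl p =>
    simp only [E5_Hit, Function.update_self] at hy hz
    rw [hy, hz]
  | inr k =>
    by_cases hl : L.lev v = 1
    · simp only [E5_Hit, LawData.clr, LawData.dt, hl, if_true, Function.update_self] at hy hz
      exact h.rcol_inj v y z hy.2 hz.2 (hy.1.trans hz.1.symm)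
    · have e2 : ∀ y, Function.update ψ v y (L.ref v) = ψ (L.ref v) := fun y =>
        Function.update_of_ne (E5_ref_ne h hv hl) _ _
      simp only [E5_Hit, LawData.clr, LawData.dt, hl, if_false, Function.update_self, e2] at hy hz
      exact h.col_inj (ψ (L.ref v)) y z hy.2 hz.2 (hy.1.trans hz.1.symm)

theorem E5_hit_ref_unique (h : L.OK K C2) (k : κ) {v : τ} (hv : v ∈ L.F) (hl : L.lev v ≠ 1)
    (ψ : τ → P) (y z : P)
    (hy : E5_Hit L (Sum.inr k) v (Function.update ψ (L.ref v) y))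
    (hz : E5_Hit L (Sum.inr k) v (Function.update ψ (L.ref v) z)) : y = z := by
  have e2 : ∀ y, Function.update ψ (L.ref v) y v = ψ v := fun y =>
    Function.update_of_ne (E5_ref_ne h hv hl).symm _ _
  simp only [E5_Hit, LawData.clr, LawData.dt, hl, if_false, Function.update_self, e2] at hy hz
  refine h.col_inj (ψ v) y z ?_ ?_ ?_
  · rw [h.W_symm]; exact hy.2
  · rw [h.W_symm]; exact hz.2
  · rw [h.col_symm (ψ v) y, h.col_symm (ψ v) z]; exact hy.1.trans hz.1.symm

open Classical in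
/-- two constraints at different vertices, the second of larger level -/
theorem E5_pair_aux (h : L.OK K C2) (x y : P ⊕ κ) {u v : τ} (hu : u ∈ L.F) (hv : v ∈ L.F)
    (huv : u ≠ v) (hlev : L.lev u ≤ L.lev v) :
    avF (fun ψ => if E5_Hit L y v ψ ∧ E5_Hit L x u ψ then (1 : ℝ) else 0) ≤
      1 / (Fintype.card P : ℝ) ^ 2 := by
  apply E5_two v u (fun ψ => E5_Hit L y v ψ) (fun ψ => E5_Hit L x u ψ)
  · intro ψ a b ha hb
    exact E5_hit_unique h y hv ψ a b ha hb
  · intro ψ a ha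
    refine (E5_hit_update L x u v ψ a huv ?_).1 ha
    intro hl he
    have := (h.step u hu hl).2.1
    rw [he] at this
    omega
  · intro ψ a b ha hb
    exact E5_hit_unique h x hu ψ a b ha hb

open Classical in
theorem E5_pair (h : L.OK K C2) (x y : P ⊕ κ) {u v : τ} (hu : u ∈ L.F) (hv : v ∈ L.F)
    (huv : u ≠ v) :
    avF (fun ψ => if E5_Hit L x u ψ ∧ E5_Hit L y v ψ then (1 : ℝ) else 0) ≤
      1 / (Fintype.card P : ℝ) ^ 2 := by
  rcases le_total (L.lev u) (L.lev v) with hl | hl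
  · have := E5_pair_aux h x y hu hv huv hl
    simpa only [and_comm] using this
  · exact E5_pair_aux h y x hv hu huv.symm hl

open Classical in
/-- the two constraints at the same vertex, not a root -/
theorem E5_pair_same (h : L.OK K C2) (p : P) (k : κ) {v : τ} (hv : v ∈ L.F) (hl : L.lev v ≠ 1) :
    avF (fun ψ => if E5_Hit L (Sum.inr k) v ψ ∧ E5_Hit L (Sum.inl p) v ψ then (1 : ℝ) else 0) ≤
      1 / (Fintype.card P : ℝ) ^ 2 := by
  apply E5_two (L.ref v) v (fun ψ => E5_Hit L (Sum.inr k) v ψ)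
    (fun ψ => E5_Hit L (Sum.inl p) v ψ)
  · intro ψ a b ha hb
    exact E5_hit_ref_unique h k hv hl ψ a b ha hb
  · intro ψ a ha
    simp only [E5_Hit] at ha ⊢
    rwa [Function.update_of_ne (E5_ref_ne h hv hl).symm] at ha
  · intro ψ a b ha hb
    exact E5_hit_unique h (Sum.inl p) hv ψ a b ha hb

theorem E5_root_facts (h : L.OK K C2) {ρ : τ} (hρ : ρ ∈ L.roots) :
    ρ ∈ L.F ∧ L.lev ρ = 1 ∧ L.rho ρ = ρ ∧ ρ ∈ L.D ρ := by
  have h1 : ρ ∈ L.F ∧ L.lev ρ = 1 := by
    simpa [LawData.roots] using hρ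
  have h2 := h.root ρ h1.1 h1.2
  exact ⟨h1.1, h1.2, h2, by simp [LawData.D, h1.1, h2]⟩

theorem E5_D_facts (h : L.OK K C2) {ρ v : τ} (hv : v ∈ L.D ρ) :
    v ∈ L.F ∧ L.rho v = ρ ∧ (L.lev v = 1 → v = ρ) := by
  have h1 : v ∈ L.F ∧ L.rho v = ρ := by simpa [LawData.D] using hv
  refine ⟨h1.1, h1.2, fun hl => ?_⟩
  have := h.root v h1.1 hl
  rw [← this, h1.2]

theorem E5_dt_ne (h : L.OK K C2) (hC : 1 ≤ C2) {ρ v : τ} {ψ : τ → P} {A : Finset τ} (hv : v ∈ A)
    (hd : L.dens ρ ψ A ≠ 0) : L.dt v ψ ≠ 0 := by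
  intro h0
  apply hd
  have h1 := dr_dt L K C2 h hC v ψ
  have h2 : L.dr v ψ = 0 := by
    have := h1.1
    have := h1.2.1
    linarith
  unfold LawData.dens
  rw [Finset.prod_eq_zero hv h2, zero_mul]

theorem E5_card_sum (h : L.OK K C2) (hF : L.F.card ≤ Fintype.card P) :
    ∑ ρ ∈ L.roots, ((L.D ρ).card : ℝ) ^ 2 ≤ (K : ℝ) * Fintype.card P := by
  have h1 : ∑ ρ ∈ L.roots, ((L.D ρ).card : ℝ) ^ 2 ≤ ∑ ρ ∈ L.roots, (K : ℝ) * (L.D ρ).card := by
    apply Finset.sum_le_sum
    intro ρ _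
    rw [sq]
    have : ((L.D ρ).card : ℝ) ≤ K := by exact_mod_cast h.card_D ρ
    gcongr
  have h2 : ∑ ρ ∈ L.roots, ((L.D ρ).card : ℝ) ≤ L.F.card := by
    have h3 : ∑ ρ ∈ L.roots, (L.D ρ).card ≤ L.F.card := by
      calc ∑ ρ ∈ L.roots, (L.D ρ).card ≤ ∑ ρ, (L.D ρ).card :=
            Finset.sum_le_sum_of_subset (Finset.subset_univ _)
        _ = L.F.card := by
            unfold LawData.D
            exact (Finset.card_eq_sum_card_fiberwise (f := L.rho) (t := univ)
              (fun _ _ => by simp)).symm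
    exact_mod_cast h3
  rw [← Finset.mul_sum] at h1
  refine h1.trans ?_
  have hF' : (L.F.card : ℝ) ≤ Fintype.card P := by exact_mod_cast hF
  gcongr
  exact h2.trans hF'

open Classical in
/-- conversion of sums over hyperedges into averages -/
theorem E5_conv (h : L.OK K C2) (hC : 1 ≤ C2) (R : τ × (τ → P) × Finset τ → Prop)
    (c : τ → (τ → P) → ℝ) (hc : ∀ ρ ψ, 0 ≤ c ρ ψ)
    (hR : ∀ ρ ψ A, L.Valid (ρ, ψ, A) → R (ρ, ψ, A) → L.dens ρ ψ A ≠ 0 → 1 ≤ c ρ ψ) :
    ∑ e, (if R e then L.hw e else 0) ≤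
      ∑ ρ ∈ L.roots, avF (fun ψ => (∏ w ∈ L.D ρ, L.dt w ψ) * c ρ ψ) := by
  have hn : (0 : ℝ) < (Fintype.card P : ℝ) := E5_n_pos
  rw [Fintype.sum_prod_type]
  rw [← Finset.sum_subset (Finset.subset_univ L.roots)]
  · apply Finset.sum_le_sum
    intro ρ hρ
    rw [Fintype.sum_prod_type]
    unfold avF
    rw [Finset.sum_div]
    apply Finset.sum_le_sum
    intro ψ _
    rw [← Finset.sum_subset (Finset.subset_univ (L.D ρ).powerset)]
    · rw [← dens_sum L ρ ψ, Finset.sum_mul, Finset.sum_div]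
      apply Finset.sum_le_sum
      intro A _
      have hd := dens_nonneg L K C2 h hC ρ ψ A
      have hpos : 0 ≤ L.dens ρ ψ A * c ρ ψ / (Fintype.card P : ℝ) ^ Fintype.card τ :=
        div_nonneg (mul_nonneg hd (hc ρ ψ)) (by positivity)
      split_ifs with hr
      · unfold LawData.hw
        split_ifs with hv
        · by_cases h0 : L.dens ρ ψ A = 0
          · simp [h0]
          · have h1 := hR ρ ψ A hv hr h0
            apply div_le_div_of_nonneg_right _ (by positivity)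
            exact le_mul_of_one_le_right hd h1
        · exact hpos
      · exact hpos
    · intro A _ hA
      have : L.hw (ρ, ψ, A) = 0 := by
        unfold LawData.hw
        rw [if_neg]
        intro hv
        exact hA (Finset.mem_powerset.mpr hv.2.1)
      rw [this]; simp
  · intro ρ _ hρ
    apply Finset.sum_eq_zero
    rintro ⟨ψ, A⟩ _
    have : L.hw (ρ, ψ, A) = 0 := by
      unfold LawData.hw
      rw [if_neg]
      intro hv
      exact hρ hv.1
    rw [this]; simp

/-- an average with an indicator is at most `C2^K` times the fraction -/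
theorem E5_av_ind (h : L.OK K C2) (hC : 1 ≤ C2) (ρ : τ) (Q : (τ → P) → Prop) [DecidablePred Q] :
    avF (fun ψ => (∏ w ∈ L.D ρ, L.dt w ψ) * (if Q ψ then (1 : ℝ) else 0)) ≤
      C2 ^ K * avF (fun ψ => if Q ψ then (1 : ℝ) else 0) := by
  rw [← E5_avF_smul]
  apply avF_mono
  intro ψ
  have := prod_dt_le L K C2 h hC ρ ψ (L.D ρ) subset_rfl
  split_ifs
  · simpa using this.2
  · simp

theorem E5_ind_zero (Q : (τ → P) → Prop) [DecidablePred Q] (hQ : ∀ ψ, ¬ Q ψ) :
    avF (fun ψ => if Q ψ then (1 : ℝ) else 0) = 0 := by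
  have : (fun ψ : τ → P => if Q ψ then (1 : ℝ) else 0) = fun _ => 0 := by
    funext ψ; rw [if_neg (hQ ψ)]
  rw [this, E5_avF_const]

theorem E5_hit_of_mem (h : L.OK K C2) (hC : 1 ≤ C2) {ρ : τ} {ψ : τ → P} {A : Finset τ}
    (hv : L.Valid (ρ, ψ, A)) (hd : L.dens ρ ψ A ≠ 0) (x : P ⊕ κ)
    (hx : Sum.inr x ∈ L.hS (ρ, ψ, A)) : ∃ u ∈ L.D ρ, E5_Hit L x u ψ := by
  unfold LawData.hS at hx
  rw [if_pos hv] at hx
  simp only [mem_union, mem_singleton, mem_image, reduceCtorEq, false_or, Sum.inr.injEq] at hx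
  rcases hx with ⟨u, hu, hux⟩ | ⟨u, hu, hux⟩
  · refine ⟨u, hu, ?_⟩
    subst hux
    simp [E5_Hit]
  · refine ⟨u, hv.2.1 hu, ?_⟩
    subst hux
    exact ⟨rfl, E5_dt_ne h hC hu hd⟩

theorem E5_comp_of_mem {ρ ρ' : τ} {ψ : τ → P} {A : Finset τ}
    (hv : L.Valid (ρ, ψ, A)) (hx : Sum.inl ρ' ∈ L.hS (ρ, ψ, A)) : ρ' = ρ := by
  unfold LawData.hS at hx
  rw [if_pos hv] at hx
  simpa using hx

theorem E5_codeg_symm (x y : τ ⊕ (P ⊕ κ)) :
    codeg L.hS L.hw x y = codeg L.hS L.hw y x := by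
  unfold codeg
  simp only [and_comm]

open Classical in
theorem E5_codeg_rr (h : L.OK K C2) (hC : 1 ≤ C2) (hF : L.F.card ≤ Fintype.card P)
    (x y : P ⊕ κ) (E : τ → ℝ) (hE0 : ∀ ρ, 0 ≤ E ρ)
    (hE : ∀ ρ ∈ L.roots, avF (fun ψ => (∏ w ∈ L.D ρ, L.dt w ψ) *
      (if E5_Hit L x ρ ψ ∧ E5_Hit L y ρ ψ then (1 : ℝ) else 0)) ≤ E ρ)
    (hsame : ∀ v ∈ L.F, L.lev v ≠ 1 →
      avF (fun ψ => if E5_Hit L x v ψ ∧ E5_Hit L y v ψ then (1 : ℝ) else 0) ≤
        1 / (Fintype.card P : ℝ) ^ 2) :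
    codeg L.hS L.hw (Sum.inr x) (Sum.inr y) ≤
      (K : ℝ) * C2 ^ K / (Fintype.card P : ℝ) + ∑ ρ ∈ L.roots, E ρ := by
  have hn : (0 : ℝ) < (Fintype.card P : ℝ) := E5_n_pos
  have hCK : (0 : ℝ) ≤ C2 ^ K := by positivity
  have h1 := E5_conv h hC (fun e => Sum.inr x ∈ L.hS e ∧ Sum.inr y ∈ L.hS e)
    (fun ρ ψ => ∑ q ∈ L.D ρ ×ˢ L.D ρ,
      (if E5_Hit L x q.1 ψ ∧ E5_Hit L y q.2 ψ then (1 : ℝ) else 0))
    (fun ρ ψ => Finset.sum_nonneg fun q _ => by split_ifs <;> norm_num)
    (by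
      intro ρ ψ A hv hR hd
      obtain ⟨u, hu, hux⟩ := E5_hit_of_mem h hC hv hd x hR.1
      obtain ⟨v, hv', hvy⟩ := E5_hit_of_mem h hC hv hd y hR.2
      have h2 : (u, v) ∈ L.D ρ ×ˢ L.D ρ := Finset.mem_product.mpr ⟨hu, hv'⟩
      have h3 := Finset.single_le_sum (f := fun q : τ × τ =>
        (if E5_Hit L x q.1 ψ ∧ E5_Hit L y q.2 ψ then (1 : ℝ) else 0))
        (fun q _ => by split_ifs <;> norm_num) h2
      simp only [hux, hvy, and_self, if_true] at h3
      exact h3)
  refine (le_trans (le_of_eq ?_) h1).trans ?_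
  · unfold codeg
    apply Finset.sum_congr rfl
    intro e _
    congr
  have h2 : ∀ ρ ∈ L.roots, avF (fun ψ => (∏ w ∈ L.D ρ, L.dt w ψ) * ∑ q ∈ L.D ρ ×ˢ L.D ρ,
      (if E5_Hit L x q.1 ψ ∧ E5_Hit L y q.2 ψ then (1 : ℝ) else 0)) ≤
      ((L.D ρ).card : ℝ) ^ 2 * (C2 ^ K / (Fintype.card P : ℝ) ^ 2) + E ρ := by
    intro ρ hρ
    have hr := E5_root_facts h hρ
    simp only [Finset.mul_sum]
    rw [avF_sum]
    have h3 : ∀ q ∈ L.D ρ ×ˢ L.D ρ, avF (fun ψ => (∏ w ∈ L.D ρ, L.dt w ψ) *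
        (if E5_Hit L x q.1 ψ ∧ E5_Hit L y q.2 ψ then (1 : ℝ) else 0)) ≤
        C2 ^ K / (Fintype.card P : ℝ) ^ 2 + (if q = (ρ, ρ) then E ρ else 0) := by
      rintro ⟨u, v⟩ hq
      rw [Finset.mem_product] at hq
      obtain ⟨hu, hv⟩ := hq
      have hu' := E5_D_facts h hu
      have hv' := E5_D_facts h hv
      have hb := E5_av_ind h hC ρ (fun ψ => E5_Hit L x u ψ ∧ E5_Hit L y v ψ)
      have hpos : (0 : ℝ) ≤ (if ((u, v) : τ × τ) = (ρ, ρ) then E ρ else 0) := by
        split_ifs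
        · exact hE0 ρ
        · exact le_rfl
      by_cases huv : u = v
      · subst huv
        by_cases hl : L.lev u = 1
        · have hur : u = ρ := hu'.2.2 hl
          subst hur
          rw [if_pos rfl]
          have := hE u hρ
          have h5 : (0 : ℝ) ≤ C2 ^ K / (Fintype.card P : ℝ) ^ 2 := by positivity
          simp only at this ⊢
          linarith
        · have := hsame u hu'.1 hl
          have h6 := mul_le_mul_of_nonneg_left this hCK
          rw [mul_one_div] at h6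
          simp only at hb ⊢
          linarith
      · have := E5_pair h x y hu'.1 hv'.1 huv
        have h6 := mul_le_mul_of_nonneg_left this hCK
        rw [mul_one_div] at h6
        simp only at hb ⊢
        linarith
    refine (Finset.sum_le_sum h3).trans ?_
    rw [Finset.sum_add_distrib, Finset.sum_const, Finset.card_product, nsmul_eq_mul,
      Finset.sum_ite_eq', if_pos (Finset.mem_product.mpr ⟨hr.2.2.2, hr.2.2.2⟩)]
    push_cast
    apply le_of_eq
    ring
  refine (Finset.sum_le_sum h2).trans ?_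
  rw [Finset.sum_add_distrib, ← Finset.sum_mul]
  have h4 := E5_card_sum h hF
  have h5 : (0 : ℝ) ≤ C2 ^ K / (Fintype.card P : ℝ) ^ 2 := by positivity
  have h6 := mul_le_mul_of_nonneg_right h4 h5
  have h7 : (K : ℝ) * (Fintype.card P : ℝ) * (C2 ^ K / (Fintype.card P : ℝ) ^ 2) =
      (K : ℝ) * C2 ^ K / (Fintype.card P : ℝ) := by
    field_simp
  linarith

theorem E5_final (hC : 1 ≤ C2) :
    (K : ℝ) * C2 ^ K / (Fintype.card P : ℝ) ≤
      4 * ((K : ℝ) + 1) ^ 2 * C2 ^ K / (Fintype.card P : ℝ) := by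
  have hn : (0 : ℝ) < (Fintype.card P : ℝ) := E5_n_pos
  have hCK : (0 : ℝ) ≤ C2 ^ K := by positivity
  have hK : (0 : ℝ) ≤ (K : ℝ) := by positivity
  apply div_le_div_of_nonneg_right _ hn.le
  apply mul_le_mul_of_nonneg_right _ hCK
  nlinarith

open Classical in
theorem E5_codeg_lr (h : L.OK K C2) (hC : 1 ≤ C2) (ρ0 : τ) (y : P ⊕ κ) :
    codeg L.hS L.hw (Sum.inl ρ0) (Sum.inr y) ≤ (K : ℝ) * C2 ^ K / (Fintype.card P : ℝ) := by
  have hn : (0 : ℝ) < (Fintype.card P : ℝ) := E5_n_pos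
  have hCK : (0 : ℝ) ≤ C2 ^ K := by positivity
  have h1 := E5_conv h hC (fun e => Sum.inl ρ0 ∈ L.hS e ∧ Sum.inr y ∈ L.hS e)
    (fun ρ ψ => if ρ = ρ0 then ∑ q ∈ L.D ρ, (if E5_Hit L y q ψ then (1 : ℝ) else 0) else 0)
    (fun ρ ψ => by
      split_ifs
      · exact Finset.sum_nonneg fun q _ => by split_ifs <;> norm_num
      · exact le_rfl)
    (by
      intro ρ ψ A hv hR hd
      obtain ⟨v, hv', hvy⟩ := E5_hit_of_mem h hC hv hd y hR.2
      have h3 := Finset.single_le_sum (f := fun q : τ =>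
        (if E5_Hit L y q ψ then (1 : ℝ) else 0))
        (fun q _ => by split_ifs <;> norm_num) hv'
      simp only [hvy, if_true] at h3
      rw [if_pos (E5_comp_of_mem hv hR.1).symm]
      exact h3)
  refine (le_trans (le_of_eq ?_) h1).trans ?_
  · unfold codeg
    apply Finset.sum_congr rfl
    intro e _
    congr
  have h2 : ∀ ρ ∈ L.roots, avF (fun ψ => (∏ w ∈ L.D ρ, L.dt w ψ) *
      (if ρ = ρ0 then ∑ q ∈ L.D ρ, (if E5_Hit L y q ψ then (1 : ℝ) else 0) else 0)) ≤
      if ρ = ρ0 then (K : ℝ) * C2 ^ K / (Fintype.card P : ℝ) else 0 := by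
    intro ρ hρ
    split_ifs with he
    · simp only [Finset.mul_sum]
      rw [avF_sum]
      have h3 : ∀ q ∈ L.D ρ, avF (fun ψ => (∏ w ∈ L.D ρ, L.dt w ψ) *
          (if E5_Hit L y q ψ then (1 : ℝ) else 0)) ≤ C2 ^ K / (Fintype.card P : ℝ) := by
        intro q hq
        refine (E5_av_ind h hC ρ (fun ψ => E5_Hit L y q ψ)).trans ?_
        have := E5_one q (fun ψ => E5_Hit L y q ψ) (fun ψ a b ha hb =>
          E5_hit_unique h y (E5_D_facts h hq).1 ψ a b ha hb)
        have h6 := mul_le_mul_of_nonneg_left this hCK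
        rw [mul_one_div] at h6
        exact h6
      refine (Finset.sum_le_sum h3).trans ?_
      rw [Finset.sum_const, nsmul_eq_mul, mul_div_assoc]
      have : ((L.D ρ).card : ℝ) ≤ K := by exact_mod_cast h.card_D ρ
      gcongr
    · simp only [mul_zero]
      rw [E5_avF_const]
  refine (Finset.sum_le_sum h2).trans ?_
  have h8 : (0 : ℝ) ≤ (K : ℝ) * C2 ^ K / (Fintype.card P : ℝ) := by positivity
  calc ∑ ρ ∈ L.roots, (if ρ = ρ0 then (K : ℝ) * C2 ^ K / (Fintype.card P : ℝ) else 0)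
      ≤ ∑ ρ, (if ρ = ρ0 then (K : ℝ) * C2 ^ K / (Fintype.card P : ℝ) else 0) :=
        Finset.sum_le_sum_of_subset_of_nonneg (Finset.subset_univ _) (fun ρ _ _ => by
          split_ifs
          · exact h8
          · exact le_rfl)
    _ = (K : ℝ) * C2 ^ K / (Fintype.card P : ℝ) := by
        rw [Finset.sum_ite_eq', if_pos (Finset.mem_univ _)]

open Classical in
theorem E5_same_zero (h : L.OK K C2) (x y : P ⊕ κ) (hxy : ∀ u ψ, ¬ (E5_Hit L x u ψ ∧ E5_Hit L y u ψ))
    (hC : 1 ≤ C2) (hF : L.F.card ≤ Fintype.card P) :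
    codeg L.hS L.hw (Sum.inr x) (Sum.inr y) ≤ (K : ℝ) * C2 ^ K / (Fintype.card P : ℝ) := by
  have := E5_codeg_rr h hC hF x y (fun _ => 0) (fun _ => le_rfl) (by
    intro ρ _
    have : (fun ψ : τ → P => (∏ w ∈ L.D ρ, L.dt w ψ) *
      (if E5_Hit L x ρ ψ ∧ E5_Hit L y ρ ψ then (1 : ℝ) else 0)) = fun _ => 0 := by
      funext ψ
      rw [if_neg (hxy ρ ψ), mul_zero]
    rw [this, E5_avF_const]) (by
    intro v _ _
    have h9 := E5_ind_zero (fun ψ => E5_Hit L x v ψ ∧ E5_Hit L y v ψ) (hxy v)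
    have h10 : (0 : ℝ) ≤ 1 / (Fintype.card P : ℝ) ^ 2 := by positivity
    refine le_trans (le_of_eq ?_) h10
    convert h9)
  simpa using this

open Classical in
theorem E5_mixed (h : L.OK K C2) (hC : 1 ≤ C2) (hF : L.F.card ≤ Fintype.card P) (σ : ℝ)
    (h3 : L.H3 σ) (p : P) (k : κ) :
    codeg L.hS L.hw (Sum.inr (Sum.inl p)) (Sum.inr (Sum.inr k)) ≤
      (K : ℝ) * C2 ^ K / (Fintype.card P : ℝ) + σ := by
  have hn : (0 : ℝ) < (Fintype.card P : ℝ) := E5_n_pos
  have hg : ∀ ρ, 0 ≤ L.g ρ p := fun ρ => (h.gr_nonneg ρ p).trans (h.gr_le ρ p)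
  have := E5_codeg_rr h hC hF (Sum.inl p) (Sum.inr k)
    (fun ρ => (if L.rcol ρ p = k then L.g ρ p else 0) / (Fintype.card P : ℝ))
    (fun ρ => by
      apply div_nonneg _ hn.le
      split_ifs
      · exact hg ρ
      · exact le_rfl)
    (by
      intro ρ hρ
      have hr := E5_root_facts h hρ
      have hm := marg_one L K C2 h ρ hr.1 (fun y => if y = p then (1 : ℝ) else 0)
      rw [hr.2.1, hr.2.2.1] at hm
      simp only [le_refl, Nat.sub_self, Function.iterate_zero, id_eq] at hm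
      have hav : avP (fun y => L.g ρ y * (if y = p then (1 : ℝ) else 0)) =
          L.g ρ p / (Fintype.card P : ℝ) := by
        unfold avP
        simp
      rw [hav] at hm
      by_cases hk : L.rcol ρ p = k
      · rw [if_pos hk, ← hm]
        apply avF_mono
        intro ψ
        have hpos := (prod_dt_le L K C2 h hC ρ ψ (L.D ρ) subset_rfl).1
        apply mul_le_mul_of_nonneg_left _ hpos
        split_ifs with h1 h2
        · exact le_rfl
        · exact absurd h1.1 h2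
        · exact zero_le_one
        · exact le_rfl
      · rw [if_neg hk, zero_div]
        have : (fun ψ : τ → P => (∏ w ∈ L.D ρ, L.dt w ψ) *
          (if E5_Hit L (Sum.inl p) ρ ψ ∧ E5_Hit L (Sum.inr k) ρ ψ then (1 : ℝ) else 0)) =
            fun _ => 0 := by
          funext ψ
          rw [if_neg, mul_zero]
          rintro ⟨h1, h2⟩
          simp only [E5_Hit] at h1 h2
          apply hk
          have := h2.1
          simp only [LawData.clr, hr.2.1, if_true, h1] at this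
          exact this
        rw [this, E5_avF_const])
    (by
      intro v hv hl
      have := E5_pair_same h p k hv hl
      simpa only [and_comm] using this)
  refine this.trans ?_
  have h4 := h3 p k
  rw [← Finset.sum_div]
  have h5 : (∑ ρ ∈ L.roots, if L.rcol ρ p = k then L.g ρ p else 0) / (Fintype.card P : ℝ) ≤ σ := by
    convert h4
  linarith

end E5law

theorem codeg_bound (L : LawData τ P κ) (K : ℕ) (C2 : ℝ) (h : L.OK K C2) (hC : 1 ≤ C2)
    (hF : L.F.card ≤ Fintype.card P) (σ : ℝ) (hσ : 0 ≤ σ) (h3 : L.H3 σ)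
    (x y : τ ⊕ (P ⊕ κ)) (hxy : x ≠ y) :
    codeg L.hS L.hw x y ≤ 4 * ((K : ℝ) + 1) ^ 2 * C2 ^ K / (Fintype.card P : ℝ) + σ := by
  have hfin : (K : ℝ) * C2 ^ K / (Fintype.card P : ℝ) ≤
      4 * ((K : ℝ) + 1) ^ 2 * C2 ^ K / (Fintype.card P : ℝ) := E5_final hC
  rcases x with ρ | x
  · rcases y with ρ' | y
    · have h0 : codeg L.hS L.hw (Sum.inl ρ) (Sum.inl ρ') = 0 := by
        unfold codeg
        apply Finset.sum_eq_zero
        rintro ⟨ρ1, ψ, A⟩ _
        by_cases hv : L.Valid (ρ1, ψ, A)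
        · rw [if_neg]
          rintro ⟨ha, hb⟩
          exact hxy (by rw [E5_comp_of_mem hv ha, E5_comp_of_mem hv hb])
        · have : L.hw (ρ1, ψ, A) = 0 := by
            unfold LawData.hw
            rw [if_neg hv]
          rw [this]; simp
      rw [h0]
      positivity
    · have := E5_codeg_lr h hC ρ y
      linarith
  · rcases y with ρ' | y
    · rw [E5_codeg_symm]
      have := E5_codeg_lr h hC ρ' x
      linarith
    · rcases x with p | k
      · rcases y with p' | k'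
        · have := E5_same_zero h (Sum.inl p) (Sum.inl p') (by
            rintro u ψ ⟨h1, h2⟩
            simp only [E5_Hit] at h1 h2
            exact hxy (by rw [← h1, ← h2])) hC hF
          linarith
        · have := E5_mixed h hC hF σ h3 p k'
          linarith
      · rcases y with p' | k'
        · rw [E5_codeg_symm]
          have := E5_mixed h hC hF σ h3 p' k
          linarith
        · have := E5_same_zero h (Sum.inr k) (Sum.inr k') (by
            rintro u ψ ⟨h1, h2⟩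
            simp only [E5_Hit] at h1 h2
            exact hxy (by rw [← h1.1, ← h2.1])) hC hF
          linarith

open Classical in
theorem invalid_bound (L : LawData τ P κ) (K : ℕ) (C2 : ℝ) (h : L.OK K C2) (hC : 1 ≤ C2)
    (hF : L.F.card ≤ Fintype.card P) :
    ∑ ρ ∈ L.roots, avF (fun ψ => ∑ A ∈ (L.D ρ).powerset,
      if L.Valid (ρ, ψ, A) then 0 else L.dens ρ ψ A) ≤ 2 * (K : ℝ) ^ 2 * C2 ^ K := by
  have hn : (0 : ℝ) < (Fintype.card P : ℝ) := E5_n_pos
  have hCK : (0 : ℝ) ≤ C2 ^ K := by positivity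
  -- the two kinds of collisions
  obtain ⟨Q1, hQ1⟩ : ∃ Q1 : τ × τ → (τ → P) → Prop, ∀ q ψ,
      Q1 q ψ ↔ (q.1 ≠ q.2 ∧ ψ q.1 = ψ q.2) := ⟨_, fun _ _ => Iff.rfl⟩
  obtain ⟨Q2, hQ2⟩ : ∃ Q2 : τ × τ → (τ → P) → Prop, ∀ q ψ,
      Q2 q ψ ↔ (q.1 ≠ q.2 ∧ L.lev q.1 ≤ L.lev q.2 ∧
        E5_Hit L (Sum.inr (L.clr q.1 ψ)) q.2 ψ) := ⟨_, fun _ _ => Iff.rfl⟩
  have hav1 : ∀ q : τ × τ, avF (fun ψ => if Q1 q ψ then (1 : ℝ) else 0) ≤
      1 / (Fintype.card P : ℝ) := by
    intro q
    apply E5_one q.2 (Q1 q)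
    intro ψ y z hy hz
    obtain ⟨hne, h1⟩ := (hQ1 _ _).1 hy
    obtain ⟨_, h2⟩ := (hQ1 _ _).1 hz
    rw [Function.update_self, Function.update_of_ne hne] at h1 h2
    rw [← h1, ← h2]
  have hav2 : ∀ q : τ × τ, q.1 ∈ L.F → q.2 ∈ L.F →
      avF (fun ψ => if Q2 q ψ then (1 : ℝ) else 0) ≤ 1 / (Fintype.card P : ℝ) := by
    rintro ⟨u, v⟩ hu hv
    apply E5_one v (Q2 (u, v))
    intro ψ y z hy hz
    obtain ⟨hne, hl, h1⟩ := (hQ2 _ _).1 hy
    obtain ⟨_, _, h2⟩ := (hQ2 _ _).1 hz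
    simp only at hne hl h1 h2 hu hv
    have hc : ∀ y, L.clr u (Function.update ψ v y) = L.clr u ψ := by
      intro y
      have e1 : Function.update ψ v y u = ψ u := Function.update_of_ne hne _ _
      by_cases hlu : L.lev u = 1
      · simp only [LawData.clr, hlu, if_true, e1]
      · have e2 : Function.update ψ v y (L.ref u) = ψ (L.ref u) := by
          apply Function.update_of_ne
          intro he
          have := (h.step u hu hlu).2.1
          rw [he] at this
          omega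
        simp only [LawData.clr, hlu, if_false, e1, e2]
    rw [hc] at h1 h2
    exact E5_hit_unique h (Sum.inr (L.clr u ψ)) hv ψ y z h1 h2
  have h2 : ∀ ρ ∈ L.roots, avF (fun ψ => ∑ A ∈ (L.D ρ).powerset,
      if L.Valid (ρ, ψ, A) then 0 else L.dens ρ ψ A) ≤
      ((L.D ρ).card : ℝ) ^ 2 * (2 * C2 ^ K / (Fintype.card P : ℝ)) := by
    intro ρ hρ
    have hstep : ∀ ψ : τ → P, (∑ A ∈ (L.D ρ).powerset,
        if L.Valid (ρ, ψ, A) then 0 else L.dens ρ ψ A) ≤
        ∑ q ∈ L.D ρ ×ˢ L.D ρ, ((∏ w ∈ L.D ρ, L.dt w ψ) * (if Q1 q ψ then (1 : ℝ) else 0) +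
          (∏ w ∈ L.D ρ, L.dt w ψ) * (if Q2 q ψ then (1 : ℝ) else 0)) := by
      intro ψ
      simp only [← mul_add]
      rw [← Finset.mul_sum, ← dens_sum L ρ ψ, Finset.sum_mul]
      apply Finset.sum_le_sum
      intro A hA
      have hAD := Finset.mem_powerset.mp hA
      have hd := dens_nonneg L K C2 h hC ρ ψ A
      have hnn : ∀ q ∈ L.D ρ ×ˢ L.D ρ, (0 : ℝ) ≤ ((if Q1 q ψ then (1 : ℝ) else 0) +
          (if Q2 q ψ then (1 : ℝ) else 0)) := by
        intro q _
        split_ifs <;> norm_num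
      have hs0 := Finset.sum_nonneg hnn
      split_ifs with hv
      · exact mul_nonneg hd hs0
      · by_cases h0 : L.dens ρ ψ A = 0
        · rw [h0, zero_mul]
        · apply le_mul_of_one_le_right hd
          -- find a bad pair
          have hbad : ∃ q ∈ L.D ρ ×ˢ L.D ρ, Q1 q ψ ∨ Q2 q ψ := by
            by_contra hcon
            push_neg at hcon
            apply hv
            refine ⟨hρ, hAD, ?_, ?_⟩
            · intro a ha b hb hab
              by_contra hne
              have := (hcon (a, b) (Finset.mem_product.mpr ⟨ha, hb⟩)).1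
              exact this ((hQ1 _ _).2 ⟨hne, hab⟩)
            · intro a ha b hb hab
              simp only at hab
              by_contra hne
              have ha' : a ∈ A := ha
              have hb' : b ∈ A := hb
              rcases le_total (L.lev a) (L.lev b) with hl | hl
              · have := (hcon (a, b) (Finset.mem_product.mpr ⟨hAD ha', hAD hb'⟩)).2
                exact this ((hQ2 _ _).2 ⟨hne, hl, hab.symm, E5_dt_ne h hC hb' h0⟩)
              · have := (hcon (b, a) (Finset.mem_product.mpr ⟨hAD hb', hAD ha'⟩)).2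
                exact this ((hQ2 _ _).2 ⟨fun hh => hne hh.symm, hl, hab,
                  E5_dt_ne h hC ha' h0⟩)
          obtain ⟨q, hq, hq'⟩ := hbad
          refine le_trans ?_ (Finset.single_le_sum hnn hq)
          rcases hq' with hq' | hq'
          · rw [if_pos hq']
            split_ifs <;> norm_num
          · rw [if_pos hq']
            split_ifs <;> norm_num
    refine (avF_mono hstep).trans ?_
    rw [avF_sum]
    have h3 : ∀ q ∈ L.D ρ ×ˢ L.D ρ,
        avF (fun ψ => (∏ w ∈ L.D ρ, L.dt w ψ) * (if Q1 q ψ then (1 : ℝ) else 0) +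
          (∏ w ∈ L.D ρ, L.dt w ψ) * (if Q2 q ψ then (1 : ℝ) else 0)) ≤
        2 * C2 ^ K / (Fintype.card P : ℝ) := by
      intro q hq
      rw [Finset.mem_product] at hq
      rw [E5_avF_add]
      have a1 := (E5_av_ind h hC ρ (Q1 q)).trans (mul_le_mul_of_nonneg_left (hav1 q) hCK)
      have a2 := (E5_av_ind h hC ρ (Q2 q)).trans (mul_le_mul_of_nonneg_left
        (hav2 q (E5_D_facts h hq.1).1 (E5_D_facts h hq.2).1) hCK)
      rw [mul_one_div] at a1 a2
      have : 2 * C2 ^ K / (Fintype.card P : ℝ) = C2 ^ K / (Fintype.card P : ℝ) +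
        C2 ^ K / (Fintype.card P : ℝ) := by ring
      rw [this]
      exact add_le_add a1 a2
    refine (Finset.sum_le_sum h3).trans ?_
    rw [Finset.sum_const, Finset.card_product, nsmul_eq_mul]
    push_cast
    apply le_of_eq
    ring
  refine (Finset.sum_le_sum h2).trans ?_
  rw [← Finset.sum_mul]
  have h4 := E5_card_sum h hF
  have h5 : (0 : ℝ) ≤ 2 * C2 ^ K / (Fintype.card P : ℝ) := by positivity
  have h6 := mul_le_mul_of_nonneg_right h4 h5
  have h7 : (K : ℝ) * (Fintype.card P : ℝ) * (2 * C2 ^ K / (Fintype.card P : ℝ)) =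
      2 * (K : ℝ) * C2 ^ K := by
    field_simp
  have h8 : (K : ℝ) ≤ (K : ℝ) ^ 2 := by
    rcases Nat.eq_zero_or_pos K with hK | hK
    · subst hK; simp
    · have : (1 : ℝ) ≤ K := by exact_mod_cast hK
      nlinarith
  nlinarith

end H64.Col
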