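import Pool.Agent.H64.Col.Defs

/-! F1: completion by swap chains (section 6).  Induction on the number of unplaced vertices, always
inserting an unplaced vertex of minimal key. State: placed set `P ⊇ P0`, map `φ` injective on `P` and a
homomorphism on `P`, used slots `I ⊆ Sl` with `|I| ≤ 2 |P \ P0|`, `φ = ψ` on `P0 \ I`. -/

namespace H64.Col
open Finset

/-- the homomorphism property after a move -/
theorem f1_hom {τ V : Type} [DecidableEq τ] (T : SimpleGraph τ) (G : SimpleGraph V)
    (P0 Sl P I J : Finset τ) (hP0 : P0 ⊆ P) (hI : I ⊆ Sl) (hJ : J ⊆ Sl)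
    (ψ φ φ' : τ → V)
    (hnb : ∀ u ∈ Sl, ∀ b, T.Adj u b → b ∈ P0 ∧ b ∉ Sl)
    (hold : ∀ u ∈ P0, u ∉ I → φ u = ψ u)
    (hhom : ∀ u ∈ P, ∀ v ∈ P, T.Adj u v → G.Adj (φ u) (φ v)) (v : τ) (hv : v ∉ P)
    (hnew : ∀ u ∈ P, T.Adj v u → G.Adj (φ' v) (φ u))
    (hsame : ∀ u ∈ P, u ∉ J → φ' u = φ u)
    (hmove : ∀ s ∈ J, ∀ b, T.Adj s b → G.Adj (φ' s) (ψ b)) :
    ∀ a ∈ insert v P, ∀ b ∈ insert v P, T.Adj a b → G.Adj (φ' a) (φ' b) := by
  have hvP0 : v ∉ P0 := fun h => hv (hP0 h)
  -- neighbours of `v` are not slots
  have hvn : ∀ u, T.Adj v u → u ∉ Sl := by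
    intro u huv hu
    exact hvP0 (hnb u hu v huv.symm).1
  have key1 : ∀ u ∈ P, T.Adj v u → G.Adj (φ' v) (φ' u) := by
    intro u hu huv
    rw [hsame u hu fun h => hvn u huv (hJ h)]
    exact hnew u hu huv
  have key2 : ∀ a ∈ J, ∀ b ∈ P, T.Adj a b → G.Adj (φ' a) (φ' b) := by
    intro a ha b hb hab
    obtain ⟨hb0, hbS⟩ := hnb a (hJ ha) b hab
    rw [hsame b hb fun h => hbS (hJ h), hold b hb0 fun h => hbS (hI h)]
    exact hmove a ha b hab
  intro a ha b hb hab
  rcases mem_insert.1 ha with rfl | ha'
  · rcases mem_insert.1 hb with rfl | hb'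
    · exact absurd hab (T.loopless.irrefl _)
    · exact key1 b hb' hab
  · rcases mem_insert.1 hb with rfl | hb'
    · exact (key1 a ha' hab.symm).symm
    · by_cases haJ : a ∈ J
      · exact key2 a haJ b hb' hab
      · by_cases hbJ : b ∈ J
        · exact (key2 b hbJ a ha' hab.symm).symm
        · rw [hsame a ha' haJ, hsame b hb' hbJ]
          exact hhom a ha' b hb' hab

theorem f1_two {τ V : Type} [Nonempty V] (s : Set τ) (hs : s.Finite) (h : s.ncard ≤ 2) (φ : τ → V) :
    ∃ x z : V, ∀ u ∈ s, φ u = x ∨ φ u = z := by
  have h0 : s.ncard = 0 ∨ s.ncard = 1 ∨ s.ncard = 2 := by omega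
  rcases h0 with h0 | h0 | h0
  · rw [Set.ncard_eq_zero hs] at h0
    subst h0
    exact ⟨Classical.arbitrary V, Classical.arbitrary V, fun u hu => absurd hu (Set.notMem_empty u)⟩
  · obtain ⟨a, rfl⟩ := Set.ncard_eq_one.1 h0
    refine ⟨φ a, φ a, fun u hu => ?_⟩
    rw [Set.mem_singleton_iff] at hu
    subst hu
    exact Or.inl rfl
  · obtain ⟨a, b, _, rfl⟩ := Set.ncard_eq_two.1 h0
    refine ⟨φ a, φ b, fun u hu => ?_⟩
    rcases hu with rfl | hu
    · exact Or.inl rfl
    · rw [Set.mem_singleton_iff] at hu
      subst hu
      exact Or.inr rfl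

theorem complete {τ V : Type} [Fintype τ] [DecidableEq τ] [Fintype V] [DecidableEq V]
    (T : SimpleGraph τ) (G : SimpleGraph V) (hcard : Fintype.card τ = Fintype.card V)
    (P0 Sl : Finset τ) (hSl : Sl ⊆ P0) (ψ : τ → V) (hinj : Set.InjOn ψ (P0 : Set τ))
    (hhom : ∀ u ∈ P0, ∀ v ∈ P0, T.Adj u v → G.Adj (ψ u) (ψ v))
    (hnb : ∀ u ∈ Sl, ∀ b, T.Adj u b → b ∈ P0 ∧ b ∉ Sl)
    (key : τ → ℕ) (hkey : ∀ v, v ∉ P0 → Set.ncard {u | T.Adj v u ∧ (u ∈ P0 ∨ key u < key v)} ≤ 2)
    (hkey2 : ∀ u v, u ∉ P0 → v ∉ P0 → T.Adj u v → key u ≠ key v)
    (hCP : ∀ I ⊆ Sl, I.card ≤ 2 * (P0ᶜ).card → ∀ w x z : V, ∃ j ∈ Sl \ I,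
      G.Adj (ψ j) x ∧ G.Adj (ψ j) z ∧ ((∀ b, T.Adj j b → G.Adj w (ψ b)) ∨
        ∃ i ∈ Sl \ I, i ≠ j ∧ (∀ b, T.Adj i b → G.Adj w (ψ b)) ∧
          ∀ b, T.Adj j b → G.Adj (ψ i) (ψ b))) :
    ∃ φ : τ → V, Function.Bijective φ ∧ (∀ u v, T.Adj u v → G.Adj (φ u) (φ v)) ∧
      ∃ I ⊆ Sl, I.card ≤ 2 * (P0ᶜ).card ∧ ∀ u ∈ P0, u ∉ I → φ u = ψ u := by
  have main : ∀ (n : ℕ) (P : Finset τ) (φ : τ → V) (I : Finset τ), (Pᶜ).card = n → P0 ⊆ P →
      Set.InjOn φ (P : Set τ) → (∀ u ∈ P, ∀ v ∈ P, T.Adj u v → G.Adj (φ u) (φ v)) →
      I ⊆ Sl → I.card ≤ 2 * (P \ P0).card → (∀ u ∈ P0, u ∉ I → φ u = ψ u) →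
      (∀ u ∈ P \ P0, ∀ v, v ∉ P → key u ≤ key v) →
      ∃ φ : τ → V, Function.Bijective φ ∧ (∀ u v, T.Adj u v → G.Adj (φ u) (φ v)) ∧
        ∃ I ⊆ Sl, I.card ≤ 2 * (P0ᶜ).card ∧ ∀ u ∈ P0, u ∉ I → φ u = ψ u := by
    intro n
    induction n with
    | zero =>
      intro P φ I hn hP0 hφi hφh hI hIc hold _
      have hPu : P = univ := by
        rw [card_eq_zero, compl_eq_empty_iff] at hn
        exact hn
      subst hPu
      refine ⟨φ, ?_, fun u v => hφh u (mem_univ u) v (mem_univ v), I, hI, ?_, hold⟩
      · rw [Fintype.bijective_iff_injective_and_card]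
        refine ⟨?_, hcard⟩
        rw [coe_univ, Set.injOn_univ] at hφi
        exact hφi
      · rw [compl_eq_univ_sdiff]
        exact hIc
    | succ n ih =>
      intro P φ I hn hP0 hφi hφh hI hIc hold hord
      -- an unplaced vertex of minimal key
      have hne : (Pᶜ).Nonempty := by
        rw [← card_pos, hn]
        exact Nat.succ_pos n
      obtain ⟨v, hv, hvmin⟩ := exists_min_image (Pᶜ) key hne
      rw [mem_compl] at hv
      have hvP0 : v ∉ P0 := fun h => hv (hP0 h)
      have hvSl : v ∉ Sl := fun h => hvP0 (hSl h)
      -- an unused position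
      obtain ⟨w, hw⟩ : ∃ w : V, w ∉ P.image φ := by
        by_contra hcon
        push Not at hcon
        have h1 : (univ : Finset V) ⊆ P.image φ := fun w _ => hcon w
        have h2 := card_le_card h1
        have h3 : (P.image φ).card ≤ P.card := card_image_le
        have h4 : P.card < Fintype.card τ := by
          have := card_add_card_compl P
          omega
        rw [card_univ] at h2
        omega
      have : Nonempty V := ⟨w⟩
      have hwP : ∀ u ∈ P, φ u ≠ w := fun u hu h => hw (mem_image.2 ⟨u, hu, h⟩)
      -- the placed neighbours of `v`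
      obtain ⟨x, z, hxz⟩ := f1_two {u | T.Adj v u ∧ (u ∈ P0 ∨ key u < key v)} (Set.toFinite _)
        (hkey v hvP0) φ
      have hxz' : ∀ u ∈ P, T.Adj v u → φ u = x ∨ φ u = z := by
        intro u hu huv
        refine hxz u ⟨huv, ?_⟩
        by_cases hu0 : u ∈ P0
        · exact Or.inl hu0
        · right
          exact lt_of_le_of_ne (hord u (mem_sdiff.2 ⟨hu, hu0⟩) v hv)
            (hkey2 u v hu0 hvP0 huv.symm)
      have hIc' : I.card ≤ 2 * (P0ᶜ).card := by
        have : (P \ P0).card ≤ (P0ᶜ).card := by
          refine card_le_card fun u hu => ?_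
          rw [mem_compl]
          exact (mem_sdiff.1 hu).2
        omega
      obtain ⟨j, hj, hjx, hjz, hor⟩ := hCP I hI hIc' w x z
      obtain ⟨hjS, hjI⟩ := mem_sdiff.1 hj
      have hjP0 := hSl hjS
      have hjP := hP0 hjP0
      have hjv : j ≠ v := fun h => hv (h ▸ hjP)
      have hjψ : φ j = ψ j := hold j hjP0 hjI
      have hcardP : ((insert v P)ᶜ).card = n := by
        rw [card_compl, card_insert_of_notMem hv]
        rw [card_compl] at hn
        omega
      have hcardI : ((insert v P) \ P0).card = (P \ P0).card + 1 := by
        rw [insert_sdiff_of_notMem _ hvP0, card_insert_of_notMem]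
        exact fun h => hv (mem_sdiff.1 h).1
      have hord' : ∀ u ∈ insert v P \ P0, ∀ v', v' ∉ insert v P → key u ≤ key v' := by
        intro u hu v' hv'
        obtain ⟨hu1, hu2⟩ := mem_sdiff.1 hu
        have hv'P : v' ∉ P := fun h => hv' (mem_insert_of_mem h)
        rcases mem_insert.1 hu1 with rfl | hu3
        · exact hvmin v' (mem_compl.2 hv'P)
        · exact hord u (mem_sdiff.2 ⟨hu3, hu2⟩) v' hv'P
      rcases hor with hone | ⟨i, hi, hij, hiw, hji⟩
      · -- `j` moves to `w`, `v` is placed at `ψ j`
        let φ' : τ → V := Function.update (Function.update φ j w) v (φ j)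
        have hφ'v : φ' v = φ j := Function.update_self _ _ _
        have hφ'j : φ' j = w := by
          simp only [φ']
          rw [Function.update_of_ne hjv, Function.update_self]
        have hφ'u : ∀ u ∈ P, u ≠ j → φ' u = φ u := by
          intro u hu huj
          have huv : u ≠ v := fun h => hv (h ▸ hu)
          simp only [φ']
          rw [Function.update_of_ne huv, Function.update_of_ne huj]
        refine ih (insert v P) φ' (insert j I) hcardP (hP0.trans (subset_insert v P)) ?_ ?_ ?_ ?_ ?_
          hord'
        · -- injective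
          have hA : ∀ u ∈ P, φ' u ≠ φ' v := by
            intro u hu h
            rw [hφ'v] at h
            by_cases huj : u = j
            · subst huj
              rw [hφ'j] at h
              exact hwP u hu h.symm
            · rw [hφ'u u hu huj] at h
              exact huj (hφi (mem_coe.2 hu) (mem_coe.2 hjP) h)
          have hB : ∀ u ∈ P, u ≠ j → φ' u ≠ φ' j := by
            intro u hu huj h
            rw [hφ'j, hφ'u u hu huj] at h
            exact hwP u hu h
          intro a ha b hb hab
          rw [mem_coe, mem_insert] at ha hb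
          rcases ha with rfl | ha
          · rcases hb with rfl | hb
            · rfl
            · exact absurd hab.symm (hA b hb)
          · rcases hb with rfl | hb
            · exact absurd hab (hA a ha)
            · by_cases haj : a = j
              · by_cases hbj : b = j
                · rw [haj, hbj]
                · rw [haj] at hab
                  exact absurd hab.symm (hB b hb hbj)
              · by_cases hbj : b = j
                · rw [hbj] at hab
                  exact absurd hab (hB a ha haj)
                · rw [hφ'u a ha haj, hφ'u b hb hbj] at hab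
                  exact hφi (mem_coe.2 ha) (mem_coe.2 hb) hab
        · refine f1_hom T G P0 Sl P I {j} hP0 hI (singleton_subset_iff.2 hjS) ψ φ φ' hnb hold
            hφh v hv ?_ ?_ ?_
          · intro u hu huv
            rw [hφ'v, hjψ]
            rcases hxz' u hu huv with h | h
            · rw [h]; exact hjx
            · rw [h]; exact hjz
          · intro u hu huJ
            exact hφ'u u hu fun h => huJ (mem_singleton.2 h)
          · intro s hs b hsb
            rw [mem_singleton] at hs
            subst hs
            rw [hφ'j]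
            exact hone b hsb
        · exact insert_subset hjS hI
        · have := card_insert_le j I
          rw [hcardI]
          omega
        · intro u hu huI
          rw [mem_insert, not_or] at huI
          rw [hφ'u u (hP0 hu) huI.1]
          exact hold u hu huI.2
      · -- `i` moves to `w`, `j` to `ψ i`, `v` is placed at `ψ j`
        obtain ⟨hiS, hiI⟩ := mem_sdiff.1 hi
        have hiP0 := hSl hiS
        have hiP := hP0 hiP0
        have hiv : i ≠ v := fun h => hv (h ▸ hiP)
        have hiψ : φ i = ψ i := hold i hiP0 hiI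
        let φ' : τ → V := Function.update (Function.update (Function.update φ i w) j (φ i)) v (φ j)
        have hφ'v : φ' v = φ j := Function.update_self _ _ _
        have hφ'j : φ' j = φ i := by
          simp only [φ']
          rw [Function.update_of_ne hjv, Function.update_self]
        have hφ'i : φ' i = w := by
          simp only [φ']
          rw [Function.update_of_ne hiv, Function.update_of_ne hij, Function.update_self]
        have hφ'u : ∀ u ∈ P, u ≠ i → u ≠ j → φ' u = φ u := by
          intro u hu hui huj
          have huv : u ≠ v := fun h => hv (h ▸ hu)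
          simp only [φ']
          rw [Function.update_of_ne huv, Function.update_of_ne huj, Function.update_of_ne hui]
        refine ih (insert v P) φ' (insert i (insert j I)) hcardP (hP0.trans (subset_insert v P))
          ?_ ?_ ?_ ?_ ?_ hord'
        · -- injective: `φ' = φ ∘ g` outside `i`
          have hA : ∀ u ∈ insert v P, u ≠ i → φ' u ≠ φ' i := by
            intro u hu hui h
            rw [hφ'i] at h
            rcases mem_insert.1 hu with rfl | hu
            · rw [hφ'v] at h
              exact hwP j hjP h
            · by_cases huj : u = j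
              · rw [huj, hφ'j] at h
                exact hwP i hiP h
              · rw [hφ'u u hu hui huj] at h
                exact hwP u hu h
          have hB : ∀ u ∈ P, u ≠ i → u ≠ j → φ' u ≠ φ' j := by
            intro u hu hui huj h
            rw [hφ'u u hu hui huj, hφ'j] at h
            exact hui (hφi (mem_coe.2 hu) (mem_coe.2 hiP) h)
          have hC : ∀ u ∈ P, u ≠ i → φ' u ≠ φ' v := by
            intro u hu hui h
            rw [hφ'v] at h
            by_cases huj : u = j
            · rw [huj, hφ'j] at h
              exact hij (hφi (mem_coe.2 hiP) (mem_coe.2 hjP) h)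
            · rw [hφ'u u hu hui huj] at h
              exact huj (hφi (mem_coe.2 hu) (mem_coe.2 hjP) h)
          intro a ha b hb hab
          rw [mem_coe] at ha hb
          by_cases hai : a = i
          · by_cases hbi : b = i
            · rw [hai, hbi]
            · rw [hai] at hab
              exact absurd hab.symm (hA b hb hbi)
          · by_cases hbi : b = i
            · rw [hbi] at hab
              exact absurd hab (hA a ha hai)
            · rcases mem_insert.1 ha with hav | ha'
              · rcases mem_insert.1 hb with hbv | hb'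
                · rw [hav, hbv]
                · rw [hav] at hab
                  exact absurd hab.symm (hC b hb' hbi)
              · rcases mem_insert.1 hb with hbv | hb'
                · rw [hbv] at hab
                  exact absurd hab (hC a ha' hai)
                · by_cases haj : a = j
                  · by_cases hbj : b = j
                    · rw [haj, hbj]
                    · rw [haj] at hab
                      exact absurd hab.symm (hB b hb' hbi hbj)
                  · by_cases hbj : b = j
                    · rw [hbj] at hab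
                      exact absurd hab (hB a ha' hai haj)
                    · rw [hφ'u a ha' hai haj, hφ'u b hb' hbi hbj] at hab
                      exact hφi (mem_coe.2 ha') (mem_coe.2 hb') hab
        · refine f1_hom T G P0 Sl P I {i, j} hP0 hI ?_ ψ φ φ' hnb hold
            hφh v hv ?_ ?_ ?_
          · intro s hs
            rw [mem_insert, mem_singleton] at hs
            rcases hs with rfl | rfl
            · exact hiS
            · exact hjS
          · intro u hu huv
            rw [hφ'v, hjψ]
            rcases hxz' u hu huv with h | h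
            · rw [h]; exact hjx
            · rw [h]; exact hjz
          · intro u hu huJ
            rw [mem_insert, mem_singleton, not_or] at huJ
            exact hφ'u u hu huJ.1 huJ.2
          · intro s hs b hsb
            rw [mem_insert, mem_singleton] at hs
            rcases hs with rfl | rfl
            · rw [hφ'i]
              exact hiw b hsb
            · rw [hφ'j, hiψ]
              exact hji b hsb
        · exact insert_subset hiS (insert_subset hjS hI)
        · have h1 := card_insert_le j I
          have h2 := card_insert_le i (insert j I)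
          rw [hcardI]
          omega
        · intro u hu huI
          rw [mem_insert, mem_insert, not_or, not_or] at huI
          rw [hφ'u u (hP0 hu) huI.1 huI.2.1]
          exact hold u hu huI.2.2
  refine main (P0ᶜ).card P0 ψ ∅ rfl Subset.rfl hinj hhom (empty_subset _) ?_ ?_ ?_
  · rw [card_empty]
    exact Nat.zero_le _
  · intro u _ _
    rfl
  · intro u hu
    rw [sdiff_self] at hu
    exact absurd hu (notMem_empty u)

end H64.Col
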