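import Pool.Agent.H64.Col.E9_Embed
import Pool.Agent.H64.Col.F1_Complete

/-! F2: the chain property from the test counts, and the completion of an `Emb`. -/

namespace H64.Col
open Finset

variable {τ V κ : Type} [Fintype τ] [DecidableEq τ] [Fintype V] [DecidableEq V]
  {G : SimpleGraph V} {χ : V → V → κ} {T : SimpleGraph τ} {R : Rooted T} {K : ℕ} {e : ℝ}
  {Dc : Decomp T R K e} {c ε η : ℝ} {Sl : Finset τ} {a : τ → τ}

/-- a vertex of a large filtered set outside a small set -/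
theorem f2_pick (S I : Finset τ) (r : ℕ) (x : ℝ) (hr : (r : ℝ) + 2 ≤ x) (hS : x ≤ (S.card : ℝ))
    (hI : I.card ≤ r + 1) : ∃ j ∈ S, j ∉ I := by
  by_contra hcon
  push Not at hcon
  have h1 : S.card ≤ I.card := card_le_card hcon
  have h2 : (S.card : ℝ) ≤ (r : ℝ) + 1 := by exact_mod_cast h1.trans hI
  linarith

/-- two-step chains through leaves -/
theorem cp_leaf (E : Emb G χ Dc c ε η Sl a) (r : ℕ) (hr : (r : ℝ) + 2 ≤ η * (Fintype.card V : ℝ))
    (hl : (Fintype.card V : ℝ) / 200 ≤ ((leafF Dc).card : ℝ)) :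
    ∀ I ⊆ leafF Dc ∩ E.Fm, I.card ≤ r → ∀ w x z : V, ∃ j ∈ (leafF Dc ∩ E.Fm) \ I,
      G.Adj (E.ψ j) x ∧ G.Adj (E.ψ j) z ∧ ((∀ b, T.Adj j b → G.Adj w (E.ψ b)) ∨
        ∃ i ∈ (leafF Dc ∩ E.Fm) \ I, i ≠ j ∧ (∀ b, T.Adj i b → G.Adj w (E.ψ b)) ∧
          ∀ b, T.Adj j b → G.Adj (E.ψ i) (E.ψ b)) := by
  classical
  intro I _ hIr w x z
  have hleaf : ∀ u ∈ leafF Dc, ∀ b, T.Adj u b → b = Dc.ref u := by
    intro u hu
    unfold leafF at hu
    exact (mem_filter.1 hu).2
  obtain ⟨j, hj, hjI⟩ := f2_pick _ I r _ hr (E.leafB hl x z) (by omega)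
  obtain ⟨hj1, hjx, hjz⟩ := mem_filter.1 hj
  refine ⟨j, mem_sdiff.2 ⟨hj1, hjI⟩, hjx, hjz, ?_⟩
  by_cases hw : G.Adj w (E.ψ (Dc.ref j))
  · left
    intro b hb
    rw [hleaf j (mem_inter.1 hj1).1 b hb]
    exact hw
  · right
    obtain ⟨i, hi, hiI⟩ := f2_pick _ (insert j I) r _ hr (E.leafA hl w (E.ψ (Dc.ref j)))
      ((card_insert_le j I).trans (by omega))
    obtain ⟨hi1, hiw, hig⟩ := mem_filter.1 hi
    rw [mem_insert, not_or] at hiI
    refine ⟨i, mem_sdiff.2 ⟨hi1, hiI.2⟩, hiI.1, ?_, ?_⟩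
    · intro b hb
      rw [hleaf i (mem_inter.1 hi1).1 b hb]
      exact hiw.symm
    · intro b hb
      rw [hleaf j (mem_inter.1 hj1).1 b hb]
      exact hig

/-- one-step chains through bare vertices -/
theorem cp_bare (E : Emb G χ Dc c ε η Sl a) (r : ℕ) (hr : (r : ℝ) + 2 ≤ η * (Fintype.card V : ℝ))
    (hSl : ∀ u ∈ Sl, IsBare Dc u (a u)) (hl : (Fintype.card V : ℝ) / 10 ≤ (Sl.card : ℝ)) :
    ∀ I ⊆ Sl ∩ E.Fm, I.card ≤ r → ∀ w x z : V, ∃ j ∈ (Sl ∩ E.Fm) \ I,
      G.Adj (E.ψ j) x ∧ G.Adj (E.ψ j) z ∧ ((∀ b, T.Adj j b → G.Adj w (E.ψ b)) ∨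
        ∃ i ∈ (Sl ∩ E.Fm) \ I, i ≠ j ∧ (∀ b, T.Adj i b → G.Adj w (E.ψ b)) ∧
          ∀ b, T.Adj j b → G.Adj (E.ψ i) (E.ψ b)) := by
  classical
  intro I _ hIr w x z
  obtain ⟨j, hj, hjI⟩ := f2_pick _ I r _ hr (E.bare hl w x z) (by omega)
  obtain ⟨hj1, hw1, hw2, hjx, hjz⟩ := mem_filter.1 hj
  refine ⟨j, mem_sdiff.2 ⟨hj1, hjI⟩, hjx, hjz, Or.inl ?_⟩
  intro b hb
  rcases (hSl j (mem_inter.1 hj1).1).2.2.2.2.2 b hb with h | h
  · rw [h]
    exact hw1.symm
  · rw [h]
    exact hw2.symm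

/-- an element of `F` whose reference is in `F` has level different from one -/
theorem f2_lev (Dc : Decomp T R K e) {u : τ} (hu : u ∈ Dc.F) (hr : Dc.ref u ∈ Dc.F) :
    Dc.lev u = Dc.lev (Dc.ref u) + 1 ∧ Dc.rho u = Dc.rho (Dc.ref u) := by
  have h1 : Dc.lev u ≠ 1 := by
    intro h
    exact (Finset.disjoint_left.1 Dc.disjCF) (Dc.root u hu h).1 hr
  exact ⟨(Dc.step u hu h1).2.1, (Dc.step u hu h1).2.2⟩

/-- the reference of a placed vertex is placed -/
theorem f2_ref (E : Emb G χ Dc c ε η Sl a) {u : τ} (hu : u ∈ E.Fm) :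
    Dc.ref u ∈ Dc.C ∪ E.Fm := by
  have huF := E.FmF hu
  by_cases h1 : Dc.lev u = 1
  · exact mem_union_left _ (Dc.root u huF h1).1
  · obtain ⟨h2, _, h4⟩ := Dc.step u huF h1
    exact mem_union_right _ (E.closed u hu _ h2 h4.symm)

/-- the key for the completion: level in `F`, then depth in `B` -/
theorem exists_key (E : Emb G χ Dc c ε η Sl a) :
    ∃ key : τ → ℕ, (∀ v, v ∉ Dc.C ∪ E.Fm →
      Set.ncard {u | T.Adj v u ∧ (u ∈ Dc.C ∪ E.Fm ∨ key u < key v)} ≤ 2) ∧
      ∀ u v, u ∉ Dc.C ∪ E.Fm → v ∉ Dc.C ∪ E.Fm → T.Adj u v → key u ≠ key v := by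
  classical
  set N : ℕ := univ.sup Dc.lev + 1 with hN
  have hlev : ∀ v, Dc.lev v < N := fun v => Nat.lt_succ_of_le (le_sup (mem_univ v))
  set key : τ → ℕ := fun v => if v ∈ Dc.B then N + R.dep v else Dc.lev v with hkey
  have hcase : ∀ v, v ∉ Dc.C ∪ E.Fm → v ∈ Dc.B ∨ (v ∈ Dc.F ∧ v ∉ Dc.B) := by
    intro v hv
    by_cases hB : v ∈ Dc.B
    · exact Or.inl hB
    · right
      refine ⟨?_, hB⟩
      have h1 : v ∈ Dc.C ∪ Dc.B ∪ Dc.F := by
        rw [Dc.cover]
        exact mem_univ v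
      rw [mem_union, mem_union] at h1
      rw [mem_union, not_or] at hv
      rcases h1 with (h | h) | h
      · exact absurd h hv.1
      · exact absurd h hB
      · exact h
  refine ⟨key, ?_, ?_⟩
  · intro v hv
    rcases hcase v hv with hB | ⟨hF, hB⟩
    · refine le_trans (Set.ncard_le_ncard ?_ (Set.toFinite _)) (Dc.B_nbr v hB)
      rintro u ⟨hadj, hu⟩
      refine ⟨hadj, ?_⟩
      by_cases huB : u ∈ Dc.B
      · right
        rcases hu with hu | hu
        · exfalso
          rw [mem_union] at hu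
          rcases hu with hu | hu
          · exact (Finset.disjoint_left.1 Dc.disjCB) hu huB
          · exact (Finset.disjoint_left.1 Dc.disjBF) huB (E.FmF hu)
        · simp only [hkey, if_pos huB, if_pos hB] at hu
          omega
      · exact Or.inl huB
    · have hsub : {u | T.Adj v u ∧ (u ∈ Dc.C ∪ E.Fm ∨ key u < key v)} ⊆ {Dc.ref v} := by
        rintro u ⟨hadj, hu⟩
        rw [Set.mem_singleton_iff]
        have hvC : v ∉ Dc.C ∪ E.Fm := hv
        rw [mem_union, not_or] at hvC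
        by_cases huC : u ∈ Dc.C
        · exact (Dc.adj_C v hF u huC hadj).symm
        by_cases huF : u ∈ Dc.F
        · rcases Dc.adj_F v hF u huF hadj with h | h
          · exact h.symm
          · exfalso
            have h2 := f2_lev Dc huF (by rw [h]; exact hF)
            rw [h] at h2
            rcases hu with hu | hu
            · rw [mem_union] at hu
              rcases hu with hu | hu
              · exact huC hu
              · exact hvC.2 (E.closed u hu v hF h2.2.symm)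
            · have huB : u ∉ Dc.B := fun h3 => (Finset.disjoint_left.1 Dc.disjBF) h3 huF
              simp only [hkey, if_neg huB, if_neg hB] at hu
              omega
        · exfalso
          have huB : u ∈ Dc.B := by
            have h1 : u ∈ Dc.C ∪ Dc.B ∪ Dc.F := by
              rw [Dc.cover]
              exact mem_univ u
            rw [mem_union, mem_union] at h1
            tauto
          rcases hu with hu | hu
          · rw [mem_union] at hu
            rcases hu with hu | hu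
            · exact huC hu
            · exact huF (E.FmF hu)
          · simp only [hkey, if_pos huB, if_neg hB] at hu
            have := hlev v
            omega
      refine le_trans (Set.ncard_le_ncard hsub (Set.toFinite _)) ?_
      rw [Set.ncard_singleton]
      omega
  · intro u v hu hv hadj
    rcases hcase u hu with huB | ⟨huF, huB⟩
    · rcases hcase v hv with hvB | ⟨hvF, hvB⟩
      · simp only [hkey, if_pos huB, if_pos hvB]
        rcases (R.adj u v).1 hadj with ⟨h1, h2⟩ | ⟨h1, h2⟩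
        · have := R.dep_par u h1
          rw [h2] at this
          omega
        · have := R.dep_par v h1
          rw [h2] at this
          omega
      · simp only [hkey, if_pos huB, if_neg hvB]
        have := hlev v
        omega
    · rcases hcase v hv with hvB | ⟨hvF, hvB⟩
      · simp only [hkey, if_neg huB, if_pos hvB]
        have := hlev u
        omega
      · simp only [hkey, if_neg huB, if_neg hvB]
        rcases Dc.adj_F u huF v hvF hadj with h | h
        · have h2 := (f2_lev Dc huF (by rw [h]; exact hvF)).1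
          rw [h] at h2
          omega
        · have h2 := (f2_lev Dc hvF (by rw [h]; exact huF)).1
          rw [h] at h2
          omega

/-- neighbours of slots -/
theorem leaf_nb (E : Emb G χ Dc c ε η Sl a) (hn : 3 ≤ Fintype.card τ) (hT : T.IsTree) :
    ∀ u ∈ leafF Dc ∩ E.Fm, ∀ b, T.Adj u b → b ∈ Dc.C ∪ E.Fm ∧ b ∉ leafF Dc ∩ E.Fm := by
  classical
  intro u hu b hb
  obtain ⟨hu1, hu2⟩ := mem_inter.1 hu
  have hleaf : ∀ u ∈ leafF Dc, ∀ b, T.Adj u b → b = Dc.ref u := by
    intro u hu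
    unfold leafF at hu
    exact (mem_filter.1 hu).2
  have hbr := hleaf u hu1 b hb
  refine ⟨by rw [hbr]; exact f2_ref E hu2, fun hbl => ?_⟩
  obtain ⟨hb1, hb2⟩ := mem_inter.1 hbl
  have huF := E.FmF hu2
  have hbF := E.FmF hb2
  have h1 := hleaf b hb1 u hb.symm
  have h2 := (f2_lev Dc huF (by rw [← hbr]; exact hbF)).1
  have h3 := (f2_lev Dc hbF (by rw [← h1]; exact huF)).1
  rw [← hbr] at h2
  rw [← h1] at h3
  omega

theorem bare_nb (E : Emb G χ Dc c ε η Sl a) (hSl : ∀ u ∈ Sl, IsBare Dc u (a u))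
    (hind : ∀ u ∈ Sl, ∀ v ∈ Sl, ¬ T.Adj u v) :
    ∀ u ∈ Sl ∩ E.Fm, ∀ b, T.Adj u b → b ∈ Dc.C ∪ E.Fm ∧ b ∉ Sl ∩ E.Fm := by
  classical
  intro u hu b hb
  obtain ⟨hu1, hu2⟩ := mem_inter.1 hu
  refine ⟨?_, fun hbl => hind u hu1 b (mem_inter.1 hbl).1 hb⟩
  obtain ⟨huF, _, haF, har, _, hnb⟩ := hSl u hu1
  rcases hnb b hb with h | h
  · rw [h]
    exact f2_ref E hu2
  · rw [h]
    have h2 := (f2_lev Dc haF (by rw [har]; exact huF)).2
    rw [har] at h2
    exact mem_union_right _ (E.closed u hu2 _ haF h2)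

open Classical in
/-- the number of colours of the completed embedding -/
theorem count_colours (E : Emb G χ Dc c ε η Sl a) (φ : τ → V) (I : Finset τ)
    (hI : I ⊆ E.Fm) (hdeg : ∀ u ∈ I, Set.ncard {b | T.Adj u b} ≤ 2)
    (hφ : ∀ u ∈ Dc.C ∪ E.Fm, u ∉ I → φ u = E.ψ u) :
    (E.A.card : ℝ) - 3 * I.card ≤
      ((((univ : Finset (τ × τ)).filter (fun q => T.Adj q.1 q.2)).image
        (fun q => χ (φ q.1) (φ q.2))).card : ℝ) := by
  set A1 : Finset τ := E.A.filter (fun v => v ∉ I ∧ Dc.ref v ∉ I) with hA1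
  -- the good edges
  have h1 : A1.image (fun v => χ (E.ψ (Dc.ref v)) (E.ψ v)) ⊆
      ((univ : Finset (τ × τ)).filter (fun q => T.Adj q.1 q.2)).image
        (fun q => χ (φ q.1) (φ q.2)) := by
    intro k hk
    obtain ⟨v, hv, rfl⟩ := mem_image.1 hk
    obtain ⟨hvA, hvI, hrI⟩ := mem_filter.1 hv
    have hvFm := E.AFm hvA
    refine mem_image.2 ⟨(Dc.ref v, v), mem_filter.2 ⟨mem_univ _, ?_⟩, ?_⟩
    · exact (Dc.ref_adj v (E.FmF hvFm)).symm
    · simp only
      rw [hφ v (mem_union_right _ hvFm) hvI, hφ (Dc.ref v) (f2_ref E hvFm) hrI]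
  have h2 : (A1.image (fun v => χ (E.ψ (Dc.ref v)) (E.ψ v))).card = A1.card := by
    apply card_image_of_injOn
    intro x hx y hy hxy
    exact E.colInj (by exact_mod_cast (mem_filter.1 hx).1) (by exact_mod_cast (mem_filter.1 hy).1) hxy
  have h3 : A1.card ≤ (((univ : Finset (τ × τ)).filter (fun q => T.Adj q.1 q.2)).image
        (fun q => χ (φ q.1) (φ q.2))).card := by
    rw [← h2]
    exact card_le_card h1
  -- the bad vertices
  have h4 : E.A ⊆ A1 ∪ (I ∪ I.biUnion (fun u => univ.filter (fun v => T.Adj u v))) := by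
    intro v hv
    rw [mem_union, mem_union, mem_biUnion]
    by_cases hvI : v ∈ I
    · exact Or.inr (Or.inl hvI)
    by_cases hrI : Dc.ref v ∈ I
    · right
      right
      refine ⟨Dc.ref v, hrI, mem_filter.2 ⟨mem_univ _, ?_⟩⟩
      exact (Dc.ref_adj v (E.FmF (E.AFm hv))).symm
    · exact Or.inl (mem_filter.2 ⟨hv, hvI, hrI⟩)
  have h5 : (I.biUnion (fun u => univ.filter (fun v => T.Adj u v))).card ≤ I.card * 2 := by
    apply card_biUnion_le_card_mul
    intro u hu
    have h6 := hdeg u hu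
    rw [← Set.ncard_coe_finset]
    refine le_trans (le_of_eq ?_) h6
    congr 1
    ext v
    simp
  have h6 : E.A.card ≤ A1.card + (I.card + I.card * 2) :=
    (card_le_card h4).trans ((card_union_le _ _).trans
      (Nat.add_le_add_left ((card_union_le _ _).trans (Nat.add_le_add_left h5 _)) _))
  have h7 : (E.A.card : ℝ) ≤ (A1.card : ℝ) + ((I.card : ℝ) + (I.card : ℝ) * 2) := by
    exact_mod_cast h6
  have h8 : (A1.card : ℝ) ≤ ((((univ : Finset (τ × τ)).filter (fun q => T.Adj q.1 q.2)).image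
        (fun q => χ (φ q.1) (φ q.2))).card : ℝ) := by exact_mod_cast h3
  linarith

end H64.Col
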