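import Pool.Agent.H64.Col.D1_Root
import Pool.Agent.H64.Col.D4_Decomp
import Pool.Agent.H64.Col.F2_CP

/-! G1: assembly for given `ε`. -/

namespace H64.Col
open Finset

/-- the number of unplaced vertices -/
theorem G1_unplaced {τ : Type} [Fintype τ] [DecidableEq τ] {T : SimpleGraph τ} {R : Rooted T}
    {K : ℕ} {e : ℝ} (Dc : Decomp T R K e) (Fm : Finset τ) (hF : Fm ⊆ Dc.F) {δ : ℝ}
    (hcard : (Dc.F.card : ℝ) ≤ (Fm.card : ℝ) + δ) :
    (((Dc.C ∪ Fm)ᶜ).card : ℝ) ≤ e * Fintype.card τ + δ := by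
  have h1 : (Dc.C ∪ Fm)ᶜ ⊆ Dc.B ∪ (Dc.F \ Fm) := by
    intro v hv
    rw [Finset.mem_compl, Finset.mem_union, not_or] at hv
    have h2 : v ∈ Dc.C ∪ Dc.B ∪ Dc.F := by
      rw [Dc.cover]
      exact Finset.mem_univ v
    rw [Finset.mem_union, Finset.mem_union] at h2
    rw [Finset.mem_union, Finset.mem_sdiff]
    rcases h2 with (h2 | h2) | h2
    · exact absurd h2 hv.1
    · exact Or.inl h2
    · exact Or.inr ⟨h2, hv.2⟩
  have h2 := (Finset.card_le_card h1).trans (Finset.card_union_le _ _)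
  have h3 : (Dc.F \ Fm).card + Fm.card = Dc.F.card := Finset.card_sdiff_add_card_eq_card hF
  have h4 : (((Dc.C ∪ Fm)ᶜ).card : ℝ) ≤ (Dc.B.card : ℝ) + ((Dc.F \ Fm).card : ℝ) := by
    exact_mod_cast h2
  have h5 : ((Dc.F \ Fm).card : ℝ) + (Fm.card : ℝ) = (Dc.F.card : ℝ) := by exact_mod_cast h3
  have h6 := Dc.card_B
  linarith

open Classical in
/-- the completion of an almost spanning embedding -/
theorem G1_finish {τ V κ : Type} [Fintype τ] [Fintype V] {G : SimpleGraph V} {χ : V → V → κ}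
    {T : SimpleGraph τ} {R : Rooted T} {K : ℕ} {e : ℝ} {Dc : Decomp T R K e} {c ε δ η : ℝ}
    {Sl : Finset τ} {a : τ → τ} (E : Emb G χ Dc c δ η Sl a)
    (hVτ : Fintype.card τ = Fintype.card V) (he : e ≤ δ) (hδ : 100 * δ ≤ ε)
    (S : Finset τ) (hS : S ⊆ E.Fm)
    (hnb : ∀ u ∈ S, ∀ b, T.Adj u b → b ∈ Dc.C ∪ E.Fm ∧ b ∉ S)
    (hdeg : ∀ u ∈ S, Set.ncard {b | T.Adj u b} ≤ 2)
    (hCP : ∀ I ⊆ S, I.card ≤ 2 * ((Dc.C ∪ E.Fm)ᶜ).card → ∀ w x z : V, ∃ j ∈ S \ I,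
      G.Adj (E.ψ j) x ∧ G.Adj (E.ψ j) z ∧ ((∀ b, T.Adj j b → G.Adj w (E.ψ b)) ∨
        ∃ i ∈ S \ I, i ≠ j ∧ (∀ b, T.Adj i b → G.Adj w (E.ψ b)) ∧
          ∀ b, T.Adj j b → G.Adj (E.ψ i) (E.ψ b))) :
    ∃ φ : τ → V, Function.Bijective φ ∧ (∀ u v, T.Adj u v → G.Adj (φ u) (φ v)) ∧
        (c - ε) * (Fintype.card V : ℝ) ≤
          ((((univ : Finset (τ × τ)).filter (fun q => T.Adj q.1 q.2)).image
            (fun q => χ (φ q.1) (φ q.2))).card : ℝ) := by
  obtain ⟨key, hkey, hkey2⟩ := exists_key E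
  obtain ⟨φ, hφ, hhom, I, hIS, hIc, hφψ⟩ := complete T G hVτ (Dc.C ∪ E.Fm) S
    (hS.trans Finset.subset_union_right) E.ψ
    (by
      have := E.inj
      rwa [← Finset.coe_union] at this)
    E.hom
    hnb key hkey hkey2 hCP
  refine ⟨φ, hφ, hhom, ?_⟩
  have h1 := count_colours E φ I (hIS.trans hS) (fun u hu => hdeg u (hIS hu)) hφψ
  refine le_trans ?_ h1
  have h2 := G1_unplaced Dc E.Fm E.FmF E.cardF
  have h3 : (I.card : ℝ) ≤ 2 * (((Dc.C ∪ E.Fm)ᶜ).card : ℝ) := by exact_mod_cast hIc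
  have h4 := E.cardA
  have hn : (0 : ℝ) ≤ Fintype.card V := Nat.cast_nonneg _
  rw [hVτ] at h2
  have h5 : e * (Fintype.card V : ℝ) ≤ δ * (Fintype.card V : ℝ) := by gcongr
  have h6 : 100 * δ * (Fintype.card V : ℝ) ≤ ε * (Fintype.card V : ℝ) := by gcongr
  have h7 : 0 ≤ δ * (Fintype.card V : ℝ) := by
    have h8 : (0 : ℝ) ≤ (((Dc.C ∪ E.Fm)ᶜ).card : ℝ) := Nat.cast_nonneg _
    linarith
  nlinarith

open Classical in
theorem main_eps (c : ℝ) (hc : 1 / 2 < c) (hc1 : c < 1) :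
    ∃ d : ℝ, 0 < d ∧ ∀ ε : ℝ, 0 < ε → ∃ n0 : ℕ,
    ∀ (τ V κ : Type) [Fintype τ] [Fintype V] [Fintype κ] (G : SimpleGraph V) (χ : V → V → κ)
      (T : SimpleGraph τ), T.IsTree →
      Fintype.card τ = Fintype.card V → n0 ≤ Fintype.card V →
      (∀ x, c * (Fintype.card V : ℝ) ≤ (G.degree x : ℝ)) →
      (∀ x y, χ x y = χ y x) →
      (∀ x y z, G.Adj x y → G.Adj x z → χ x y = χ x z → y = z) →
      (∀ v, (T.degree v : ℝ) ≤ d * (Fintype.card V : ℝ) / Real.log (Fintype.card V)) →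
      ∃ φ : τ → V, Function.Bijective φ ∧ (∀ u v, T.Adj u v → G.Adj (φ u) (φ v)) ∧
        (c - ε) * (Fintype.card V : ℝ) ≤
          ((((univ : Finset (τ × τ)).filter (fun q => T.Adj q.1 q.2)).image
            (fun q => χ (φ q.1) (φ q.2))).card : ℝ) := by
  obtain ⟨η, hη, d0, hd0, hmain⟩ := nibble_embed c hc hc1
  refine ⟨d0, hd0, fun ε hε => ?_⟩
  obtain ⟨e1, he1, hmain⟩ := hmain (min ε η / 100) (by positivity)
  have hδpos : 0 < min ε η / 100 := by positivity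
  have hδε : 100 * (min ε η / 100) ≤ ε := by
    have := min_le_left ε η
    linarith
  have hδη : 100 * (min ε η / 100) ≤ η := by
    have := min_le_right ε η
    linarith
  generalize min ε η / 100 = δ at hmain hδpos hδε hδη
  have hepos : 0 < min (min e1 δ) (1 / 1000) := by positivity
  have hee1 : min (min e1 δ) (1 / 1000) ≤ e1 := (min_le_left _ _).trans (min_le_left _ _)
  have heδ : min (min e1 δ) (1 / 1000) ≤ δ := (min_le_left _ _).trans (min_le_right _ _)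
  have he1000 : min (min e1 δ) (1 / 1000) ≤ 1 / 1000 := min_le_right _ _
  generalize min (min e1 δ) (1 / 1000) = e at hepos hee1 heδ he1000
  obtain ⟨K, n1, hdec⟩ := exists_decomp e hepos
  obtain ⟨n2, hmain⟩ := hmain e hepos hee1 K
  obtain ⟨n3, hn3⟩ := exists_nat_gt (4 / η)
  refine ⟨max (max n1 n2) (max 1000 n3), ?_⟩
  intro τ V κ _ _ _ G χ T hT hVτ hn hdeg hsym hprop hTd
  have hn1 : n1 ≤ Fintype.card V := ((le_max_left _ _).trans (le_max_left _ _)).trans hn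
  have hn2 : n2 ≤ Fintype.card V := ((le_max_right _ _).trans (le_max_left _ _)).trans hn
  have hn1000 : 1000 ≤ Fintype.card V := ((le_max_left _ _).trans (le_max_right _ _)).trans hn
  have hn3' : n3 ≤ Fintype.card V := ((le_max_right _ _).trans (le_max_right _ _)).trans hn
  have h4η : 4 ≤ η * (Fintype.card V : ℝ) := by
    have h1 : (n3 : ℝ) ≤ (Fintype.card V : ℝ) := by exact_mod_cast hn3'
    have h2 : 4 / η < (Fintype.card V : ℝ) := lt_of_lt_of_le hn3 h1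
    rw [div_lt_iff₀ hη] at h2
    linarith
  obtain ⟨R⟩ := exists_rooted T hT
  obtain ⟨Dc⟩ := hdec τ T R (by rw [hVτ]; exact hn1)
  -- the bound for the number of unplaced vertices
  have hr : ∀ {Sl : Finset τ} {a : τ → τ} (E : Emb G χ Dc c δ η Sl a),
      ((2 * ((Dc.C ∪ E.Fm)ᶜ).card : ℕ) : ℝ) + 2 ≤ η * (Fintype.card V : ℝ) := by
    intro Sl a E
    have h2 := G1_unplaced Dc E.Fm E.FmF E.cardF
    rw [hVτ] at h2
    have hn0 : (0 : ℝ) ≤ Fintype.card V := Nat.cast_nonneg _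
    have h5 : e * (Fintype.card V : ℝ) ≤ δ * (Fintype.card V : ℝ) := by gcongr
    have h6 : 100 * δ * (Fintype.card V : ℝ) ≤ η * (Fintype.card V : ℝ) := by gcongr
    have h7 : 0 ≤ δ * (Fintype.card V : ℝ) := by positivity
    push_cast
    nlinarith
  by_cases hleaf : (Fintype.card V : ℝ) / 200 ≤ ((leafF Dc).card : ℝ)
  · obtain ⟨E⟩ := hmain τ V κ G χ T R Dc hVτ hn2 hdeg hsym hprop hTd ∅ id (by simp)
    refine G1_finish E hVτ heδ hδε (leafF Dc ∩ E.Fm) Finset.inter_subset_right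
      (leaf_nb E (by omega) hT) ?_ (cp_leaf E _ (hr E) hleaf)
    intro u hu
    have h1 := (Finset.mem_filter.1 (Finset.mem_inter.1 hu).1).2
    have h2 : {b | T.Adj u b} ⊆ {Dc.ref u} := fun b hb => h1 b hb
    have h3 := Set.ncard_le_ncard h2 (Set.finite_singleton _)
    rw [Set.ncard_singleton] at h3
    omega
  · push Not at hleaf
    obtain ⟨Sl, a, hSl1, hSl2, hSl3⟩ := exists_bare hT Dc he1000 (by rw [hVτ]; exact hn1000)
      (by rw [hVτ]; exact hleaf)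
    rw [hVτ] at hSl1
    obtain ⟨E⟩ := hmain τ V κ G χ T R Dc hVτ hn2 hdeg hsym hprop hTd Sl a hSl2
    refine G1_finish E hVτ heδ hδε (Sl ∩ E.Fm) Finset.inter_subset_right
      (bare_nb E hSl2 hSl3) ?_ (cp_bare E _ (hr E) hSl2 hSl1)
    intro u hu
    have h1 := (hSl2 u (Finset.mem_inter.1 hu).1).2.2.2.2.2
    have h2 : {b | T.Adj u b} ⊆ {Dc.ref u, a u} := fun b hb => by
      rcases h1 b hb with h | h
      · exact Or.inl h
      · exact Or.inr h
    have h3 := Set.ncard_le_ncard h2 (Set.toFinite _)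
    refine h3.trans ?_
    have h4 := Set.ncard_insert_le (Dc.ref u) ({a u} : Set τ)
    rw [Set.ncard_singleton] at h4
    exact h4

end H64.Col
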